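import Mathlib

/-!
Planar sectors with density `r ^ p`, in polar coordinates `z = (r, θ)`.
Weighted area, weighted (De Giorgi) perimeter relative to the open sector, isoperimetric regions.
-/

namespace Pool.Agent.MP_d56274_gt

open MeasureTheory Set

/-- The open `θ₀`-sector in polar coordinates `(r, θ)`. -/
def sector (θ₀ : ℝ) : Set (ℝ × ℝ) := Ioi 0 ×ˢ Ioo 0 θ₀

/-- Weighted area `∫_R r ^ p dA`, with `dA = r dr dθ`. -/
noncomputable def area (p : ℝ) (R : Set (ℝ × ℝ)) : ENNReal :=
  ∫⁻ z in R, ENNReal.ofReal (z.1 ^ (p + 1))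

/-- The field `α e_r + β e_θ` is `C¹`, has compact support in the open sector and length at most 1. -/
structure IsTest (θ₀ : ℝ) (α β : ℝ × ℝ → ℝ) : Prop where
  smooth₁ : ContDiff ℝ 1 α
  smooth₂ : ContDiff ℝ 1 β
  compact₁ : HasCompactSupport α
  compact₂ : HasCompactSupport β
  supp₁ : tsupport α ⊆ sector θ₀
  supp₂ : tsupport β ⊆ sector θ₀
  le_one : ∀ z, α z ^ 2 + β z ^ 2 ≤ 1

/-- `∫_R div (r ^ p (α e_r + β e_θ)) dA` written in polar coordinates. -/
noncomputable def flux (p : ℝ) (R : Set (ℝ × ℝ)) (α β : ℝ × ℝ → ℝ) : ℝ :=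
  ∫ z in R, (deriv (fun r : ℝ => r ^ (p + 1) * α (r, z.2)) z.1
    + z.1 ^ p * deriv (fun t : ℝ => β (z.1, t)) z.2)

/-- Weighted perimeter of `R` relative to the open sector (De Giorgi's definition; the two rays
are free). -/
noncomputable def perim (p θ₀ : ℝ) (R : Set (ℝ × ℝ)) : ENNReal :=
  ⨆ (α : ℝ × ℝ → ℝ) (β : ℝ × ℝ → ℝ) (_ : IsTest θ₀ α β), ENNReal.ofReal (flux p R α β)

/-- `R` lies in the sector and no measurable region of the sector with the same weighted area has
smaller weighted perimeter. -/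
def IsIso (p θ₀ : ℝ) (R : Set (ℝ × ℝ)) : Prop :=
  R ⊆ sector θ₀ ∧ ∀ R' : Set (ℝ × ℝ), MeasurableSet R' → R' ⊆ sector θ₀ →
    area p R' = area p R → perim p θ₀ R ≤ perim p θ₀ R'

/-- `k(r) = (a r + r ^ (-a)) / (a + 1)`; it has its minimum `1` at `r = 1`. -/
noncomputable def kf (a r : ℝ) : ℝ := (a * r + r ^ (-a)) / (a + 1)

/-- The polar angle, as a function of the radius, along the unduloid with parameter `R > 1`:
the curve on which the cosine of the angle between normal and radius is `k(r) / R`, `a = p + 1`,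
started on the ray `θ = 0` at its largest radius. -/
noncomputable def undTau (p R r : ℝ) : ℝ :=
  ∫ x in {x : ℝ | r < x ∧ kf (p + 1) x < R},
    kf (p + 1) x / (x * √(R ^ 2 - kf (p + 1) x ^ 2))

end Pool.Agent.MP_d56274_gt
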