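import Mathlib
import Pool.Agent.MP_d56274_gt.Defs

/-!
Auxiliary objects and the statements of the steps (note d56274_h12_SECTOR.md).
Throughout `a = p + 1 > 1` and `b = a + 1`.
-/

namespace Pool.Agent.MP_d56274_gt

open MeasureTheory Set Real Filter Topology

/-! Roots and period functions -/

noncomputable def kk (x : ℝ) : ℝ := √(1 + x ^ 2)
/-- the root `≥ 1` of `kf a r = kk x` -/
noncomputable def rp (a x : ℝ) : ℝ := sSup {r : ℝ | 0 < r ∧ kf a r ≤ kk x}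
/-- the root `≤ 1` of `kf a r = kk x` -/
noncomputable def rm (a x : ℝ) : ℝ := sInf {r : ℝ | 0 < r ∧ kf a r ≤ kk x}
noncomputable def al (a x : ℝ) : ℝ := a * (rp a x / kk x - 1)
noncomputable def be (a x : ℝ) : ℝ := a * (1 - rm a x / kk x)
noncomputable def zz (x : ℝ) : ℝ := x / kk x
noncomputable def DD (a x : ℝ) : ℝ := a / (a + 1) * (rp a x - rm a x)
noncomputable def DD' (a x : ℝ) : ℝ := a / (a + 1) * zz x * (1 / al a x + 1 / be a x)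
noncomputable def SS (a x : ℝ) : ℝ := (a + 1) * (rp a x ^ a - rm a x ^ a)
noncomputable def SS' (a x : ℝ) : ℝ := ((a + 1) ^ 2 * DD' a x + a * x * SS a x) / (1 + x ^ 2)
noncomputable def Lam (a x : ℝ) : ℝ :=
  (al a x + be a x) / (2 * (a + 1) * zz x) * (1 + a * zz x ^ 2 / (al a x * be a x))
noncomputable def NN (a X : ℝ) : ℝ := ∫ ξ in (0 : ℝ)..π / 2, X * sin ξ * SS a (X * sin ξ)
noncomputable def TT (a X : ℝ) : ℝ := (a + 1) * ∫ ξ in (0 : ℝ)..π / 2, DD' a (X * sin ξ)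
noncomputable def Gam (a Φ X : ℝ) : ℝ := (1 + X ^ 2) ^ (-(a + 1) / 2) * (Φ + NN a X)
noncomputable def m0 (a : ℝ) : ℝ :=
  (a + 1) * ((a + 1) / a) ^ a * ∫ ξ in (0 : ℝ)..π / 2, cos ξ ^ (a + 1)
/-- the isoperimetric constant that belongs to the level `c` -/
noncomputable def KK (a c : ℝ) : ℝ := ((a + 1) ^ a / a * c) ^ (1 / (a + 1))
noncomputable def trunc (Θ t : ℝ) : ℝ := min (max t 0) Θ

/-- ROOTS (note 1, first two lines). -/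
def RootsStmt : Prop := ∀ a : ℝ, 1 < a →
  Continuous (rp a) ∧ Continuous (rm a) ∧ rp a 0 = 1 ∧ rm a 0 = 1 ∧
  (∀ x, 1 ≤ rp a x ∧ 0 < rm a x ∧ rm a x ≤ 1 ∧ kf a (rp a x) = kk x ∧ kf a (rm a x) = kk x) ∧
  (∀ x r, 0 < r → (kf a r < kk x ↔ rm a x < r ∧ r < rp a x)) ∧
  (∀ x, 0 < x → 1 < rp a x ∧ rm a x < 1 ∧ 0 < al a x ∧ al a x < 1 ∧ 0 < be a x ∧ be a x < a ∧
    rp a x ^ a * (1 - al a x) = 1 / kk x ∧ rm a x ^ a * (1 + be a x) = 1 / kk x ∧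
    HasDerivAt (rp a) (x * rp a x / ((1 + x ^ 2) * al a x)) x ∧
    HasDerivAt (rm a) (-(x * rm a x / ((1 + x ^ 2) * be a x))) x)

/-- INEQ (note 1, the three inequalities and the two bounds for `Lam`). -/
def IneqStmt : Prop := ∀ a : ℝ, 1 < a → ∀ x, 0 < x →
  zz x < al a x ∧ al a x < be a x ∧ be a x ≤ a * zz x ∧ 2 * √a / (a + 1) < Lam a x ∧ Lam a x < 1

/-- DERIV (note 1, calculus of `DD`, `SS`). -/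
def DerivStmt : Prop := ∀ a : ℝ, 1 < a →
  Continuous (DD a) ∧ Continuous (SS a) ∧ DD a 0 = 0 ∧ SS a 0 = 0 ∧
  ContinuousOn (DD' a) (Ioi 0) ∧ ContinuousOn (SS' a) (Ioi 0) ∧ ContinuousOn (Lam a) (Ioi 0) ∧
  (∀ x, 0 ≤ SS a x ∧ SS a x ≤ (a + 1) * ((a + 1) / a) ^ a * kk x ^ a) ∧
  ∀ x, 0 < x → HasDerivAt (DD a) (DD' a x) x ∧ HasDerivAt (SS a) (SS' a x) x ∧
    0 ≤ DD' a x ∧ DD' a x ≤ 2 * a / (a + 1) ∧ DD a x + x * DD' a x = 2 * x * Lam a x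

/-- LIM (note 1, last line). -/
def LimStmt : Prop := ∀ a : ℝ, 1 < a →
  Tendsto (Lam a) (𝓝[>] 0) (𝓝 (2 * √a / (a + 1))) ∧ Tendsto (Lam a) atTop (𝓝 1) ∧
  Tendsto (fun x => SS a x / kk x ^ a) atTop (𝓝 ((a + 1) * ((a + 1) / a) ^ a))

/-- ABEL (note 2, identities). -/
def AbelStmt : Prop := ∀ a : ℝ, 1 < a →
  Continuous (NN a) ∧ NN a 0 = 0 ∧ ∀ X, 0 < X →
    TT a X = 2 * (a + 1) * (∫ ξ in (0 : ℝ)..π / 2, Lam a (X * sin ξ) * sin ξ ^ 2) ∧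
    (1 + X ^ 2) * (∫ ξ in (0 : ℝ)..π / 2, SS' a (X * sin ξ)) = (a + 1) * (TT a X + NN a X) ∧
    ∀ Φ, HasDerivAt (Gam a Φ)
      ((a + 1) * X * (1 + X ^ 2) ^ (-(a + 1) / 2 - 1) * (TT a X - Φ)) X

/-- TLIM (note 2, bounds and limits). -/
def TLimStmt : Prop := ∀ a : ℝ, 1 < a →
  (∀ X, 0 < X → π * √a < TT a X ∧ TT a X < π * (a + 1) / 2) ∧
  Tendsto (TT a) (𝓝[>] 0) (𝓝 (π * √a)) ∧ Tendsto (TT a) atTop (𝓝 (π * (a + 1) / 2)) ∧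
  ∀ Φ, Tendsto (Gam a Φ) atTop (𝓝 (m0 a))

/-- CASES (note 2, the three cases). -/
def CasesStmt : Prop := ∀ a Φ : ℝ, 1 < a → 0 < Φ → 0 < m0 a ∧
  (Φ ≤ π * √a → Φ < m0 a ∧ ∀ X, 0 < X → Φ ≤ Gam a Φ X) ∧
  (π * (a + 1) / 2 ≤ Φ → m0 a < Φ ∧ ∀ X, 0 < X → m0 a ≤ Gam a Φ X) ∧
  (π * √a < Φ → Φ < π * (a + 1) / 2 → ∃ X, 0 < X ∧ TT a X = Φ ∧ 0 < Gam a Φ X ∧
    Gam a Φ X < Φ ∧ Gam a Φ X < m0 a ∧ ∀ Y, 0 < Y → Gam a Φ X ≤ Gam a Φ Y)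

/-! Control -/

/-- CALIB (note 3, calibration). -/
def CalibStmt : Prop := ∀ (a t₁ : ℝ) (y y' G : ℝ → ℝ), 1 < a → 0 ≤ t₁ →
  (∀ t ∈ Icc 0 t₁, HasDerivAt y (y' t) t) → ContinuousOn y' (Icc 0 t₁) →
  ContinuousOn G (Icc 0 t₁) → y 0 = 0 →
  (∀ t ∈ Icc 0 t₁, |y t| ≤ 1 ∧ 0 ≤ G t ∧ y' t + √(1 - y t ^ 2) ≤ G t) →
  (y t₁ = 1 → m0 a ≤ ∫ t in (0 : ℝ)..t₁, G t ^ (a + 1)) ∧
  (0 < y t₁ → m0 a ≤ (∫ t in (0 : ℝ)..t₁, G t ^ (a + 1)) ∨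
    ∃ X, 0 < X ∧ Gam a t₁ X ≤ ∫ t in (0 : ℝ)..t₁, G t ^ (a + 1))

/-- A control for `g` on `[0, t₁]`. -/
structure Ctrl (t₁ : ℝ) (g y w y' w' : ℝ → ℝ) : Prop where
  hy : ∀ t ∈ Icc 0 t₁, HasDerivAt y (y' t) t
  hw : ∀ t ∈ Icc 0 t₁, HasDerivAt w (w' t) t
  cy : ContinuousOn y' (Icc 0 t₁)
  cw : ContinuousOn w' (Icc 0 t₁)
  y0 : y 0 = 0
  sq : ∀ t ∈ Icc 0 t₁, y t ^ 2 + w t ^ 2 ≤ 1
  ge : ∀ t ∈ Icc 0 t₁, g t ≤ y' t + w t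

/-- CTRL (note 3). -/
def CtrlStmt : Prop := ∀ (a t₁ c : ℝ) (g : ℝ → ℝ), 1 < a → 0 ≤ t₁ → Continuous g →
  (∀ t, 0 ≤ g t) → (∫ t in (0 : ℝ)..t₁, g t ^ (a + 1)) < c → c ≤ m0 a →
  ∃ y w y' w' : ℝ → ℝ, Ctrl t₁ g y w y' w' ∧ ((∀ X, 0 < X → c ≤ Gam a t₁ X) → y t₁ ≤ 0)

/-- CAUCHY (note 4). -/
def CauchyStmt : Prop := ∀ (s₀ s₁ m : ℝ) (X Y X' Y' σ u g y w y' w' : ℝ → ℝ),
  s₀ ≤ s₁ → 0 ≤ m →
  (∀ s ∈ Icc s₀ s₁, HasDerivAt X (X' s) s) → (∀ s ∈ Icc s₀ s₁, HasDerivAt Y (Y' s) s) →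
  ContinuousOn X' (Icc s₀ s₁) → ContinuousOn Y' (Icc s₀ s₁) → Y s₁ = 0 →
  AntitoneOn σ (Icc 0 m) → (∀ t ∈ Icc 0 m, σ t ∈ Icc s₀ s₁) →
  (∀ t ∈ Ioo 0 m, 0 ≤ u t ∧ X (σ t) = u t * cos t ∧ Y (σ t) = u t * sin t) →
  Continuous g → Ctrl m g y w y' w' →
  (∫ t in (0 : ℝ)..m, g t * u t) +
      (Y s₀ * (w m * cos m - y m * sin m) - X s₀ * (w m * sin m + y m * cos m))
    ≤ ∫ s in s₀..s₁, √(X' s ^ 2 + Y' s ^ 2)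

/-- HOL (note 4, last line). -/
def HolStmt : Prop := ∀ (a m c L B A : ℝ) (u : ℝ → ℝ), 1 < a → 0 ≤ m → 0 < c →
  AEMeasurable u (volume.restrict (Ioo 0 m)) → (∀ t ∈ Ioo 0 m, 0 ≤ u t ∧ u t ≤ B) →
  (∀ g : ℝ → ℝ, Continuous g → (∀ t, 0 ≤ g t) → (∫ t in (0 : ℝ)..m, g t ^ (a + 1)) < c →
    (∫ t in (0 : ℝ)..m, g t * u t) ≤ L) →
  0 ≤ A → A ≤ a ^ (1 / a) / (a + 1) * (∫ t in (0 : ℝ)..m, u t ^ ((a + 1) / a)) →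
  KK a c * A ^ (a / (a + 1)) ≤ L

/-! One-dimensional profiles -/

/-- A `C¹` profile `θ = τ r` on `[r₀, r₁]` with a cost density `f`. -/
structure Prof (a Θ r₀ r₁ : ℝ) (τ τ' f : ℝ → ℝ) : Prop where
  pos : 0 < r₀
  le : r₀ ≤ r₁
  der : ∀ r ∈ Icc r₀ r₁, HasDerivAt τ (τ' r) r
  cder : ContinuousOn τ' (Icc r₀ r₁)
  cf : ContinuousOn f (Icc r₀ r₁)
  f0 : ∀ r ∈ Icc r₀ r₁, 0 ≤ f r
  fge : ∀ r ∈ Icc r₀ r₁, 0 < τ r → τ r < Θ → √((r ^ (a - 1)) ^ 2 + (r ^ a * τ' r) ^ 2) ≤ f r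

/-- The level `c` is good for the angle `Θ`. -/
structure Good (a Θ c : ℝ) : Prop where
  ha : 1 < a
  hΘ : 0 < Θ
  hc : 0 < c
  le_m0 : c ≤ m0 a
  le_Gam : ∀ X, 0 < X → c ≤ Gam a (a * Θ) X

/-- PIECE-A (note 5: top, origin piece, large bubble). -/
def PieceAStmt : Prop := ∀ (a Θ c x y : ℝ) (τ τ' f : ℝ → ℝ), Good a Θ c → Prof a Θ x y τ τ' f →
  x < y → (∀ r ∈ Ioo x y, 0 < τ r) → τ y ≤ 0 →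
  KK a c * (∫ r in x..y, r ^ a * trunc Θ (τ r)) ^ (a / (a + 1)) ≤ (∫ r in x..y, f r) + x ^ a / a ∧
  (((∃ r ∈ Icc x y, Θ ≤ τ r) ∨ (τ x ≤ 0 ∧ ∃ r ∈ Icc x y, π / 2 ≤ a * τ r)) →
    KK a c * (∫ r in x..y, r ^ a * trunc Θ (τ r)) ^ (a / (a + 1)) ≤ ∫ r in x..y, f r)

/-- POLAR (note 5, area of a translated bubble). -/
def PolarStmt : Prop := ∀ (a x y c₀ B : ℝ) (τ u : ℝ → ℝ), 1 < a → 0 < x → x ≤ y →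
  ContinuousOn τ (Icc x y) → (∀ r ∈ Icc x y, 0 ≤ τ r ∧ a * τ r < π / 2) →
  0 ≤ c₀ → (∀ r ∈ Icc x y, c₀ ≤ r ^ a / a * cos (a * τ r)) →
  AEMeasurable u (volume.restrict (Ioo 0 (π / 2))) → (∀ t ∈ Ioo 0 (π / 2), 0 ≤ u t ∧ u t ≤ B) →
  (∀ r ∈ Ioo x y, ∀ θ, 0 < θ → θ < τ r → ∀ s, 0 < s → ∀ t ∈ Ioo 0 (π / 2),
    r ^ a / a * cos (a * θ) = c₀ + s * cos t → r ^ a / a * sin (a * θ) = s * sin t → s ≤ u t) →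
  (∫ r in x..y, r ^ a * τ r) ≤
    a ^ (1 / a) / (a + 1) * ∫ t in (0 : ℝ)..π / 2, u t ^ ((a + 1) / a)

/-- PIECE-B (note 5, small bubble). -/
def PieceBStmt : Prop := ∀ (a Θ c x y : ℝ) (τ τ' f : ℝ → ℝ), Good a Θ c → Prof a Θ x y τ τ' f →
  x < y → (∀ r ∈ Ioo x y, 0 < τ r) → τ x ≤ 0 → τ y ≤ 0 →
  (∀ r ∈ Icc x y, τ r < Θ ∧ a * τ r < π / 2) →
  KK a c * (∫ r in x..y, r ^ a * trunc Θ (τ r)) ^ (a / (a + 1)) ≤ ∫ r in x..y, f r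

/-- ONED (note 6). -/
def OneDStmt : Prop := ∀ (a Θ c r₀ r₁ d : ℝ) (τ τ' f : ℝ → ℝ), Good a Θ c →
  Prof a Θ r₀ r₁ τ τ' f → τ r₁ ≤ 0 → 0 < d →
  KK a c * (∫ r in r₀..r₁, r ^ a * trunc Θ (τ r - d)) ^ (a / (a + 1))
    ≤ (∫ r in r₀..r₁, f r) + r₀ ^ a / a

/-! From sets to profiles -/

/-- weighted length of the gradient in polar coordinates -/
noncomputable def grad (p : ℝ) (v : ℝ × ℝ → ℝ) (z : ℝ × ℝ) : ℝ :=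
  √((z.1 ^ (p + 1) * fderiv ℝ v z (1, 0)) ^ 2 + (z.1 ^ p * fderiv ℝ v z (0, 1)) ^ 2)

/-- a mollifier of radius `ε` (sup norm) -/
structure IsKer (ε : ℝ) (η : ℝ × ℝ → ℝ) : Prop where
  smooth : ContDiff ℝ 1 η
  nonneg : ∀ z, 0 ≤ η z
  supp : ∀ z, ε ≤ ‖z‖ → η z = 0
  total : ∫ z, η z = 1

noncomputable def moll (η : ℝ × ℝ → ℝ) (R : Set (ℝ × ℝ)) (z : ℝ × ℝ) : ℝ := ∫ z' in R, η (z - z')

/-- MOLL-A (note 7, convergence). -/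
def MollAStmt : Prop := ∀ (R K : Set (ℝ × ℝ)) (δ : ℝ), MeasurableSet R → IsCompact K → 0 < δ →
  ∃ (ε : ℝ) (η : ℝ × ℝ → ℝ), 0 < ε ∧ ε ≤ δ ∧ IsKer ε η ∧ ContDiff ℝ 1 (moll η R) ∧
    (∀ z, 0 ≤ moll η R z ∧ moll η R z ≤ 1) ∧
    (∫ z in K, |moll η R z - R.indicator 1 z|) ≤ δ

/-- MOLL-B (note 7, duality). -/
def MollBStmt : Prop := ∀ (p θ₀ r₀ r₁ e₀ e₁ ε P : ℝ) (R : Set (ℝ × ℝ)) (η : ℝ × ℝ → ℝ),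
  0 < p → 0 < ε → ε < r₀ → ε < e₀ → e₁ + ε < θ₀ → MeasurableSet R → IsKer ε η → 0 ≤ P →
  perim p θ₀ R ≤ ENNReal.ofReal P →
  (∫ z in Icc r₀ r₁ ×ˢ Icc e₀ e₁, grad p (moll η R) z) ≤ (r₀ / (r₀ - ε)) ^ (p + 1) * P

/-- SLICE (note 8, first two lines). -/
def SliceStmt : Prop := ∀ (p r₀ r₁ e₀ e₁ d : ℝ) (v : ℝ × ℝ → ℝ), 0 < p → 0 < r₀ → r₀ ≤ r₁ →
  e₀ ≤ e₁ → 0 < d → ContDiff ℝ 1 v → (∀ z, 0 ≤ v z ∧ v z ≤ 1) →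
  ∃ T' f : ℝ → ℝ,
    Prof (p + 1) (e₁ - e₀ - 2 * d) r₀ r₁ (fun r => (∫ θ in e₀..e₁, v (r, θ)) - d) T' f ∧
    (∫ r in r₀..r₁, f r) ≤ (∫ z in Icc r₀ r₁ ×ˢ Icc e₀ e₁, grad p v z)
      + 2 / d * r₁ ^ p * ∫ z in Icc r₀ r₁ ×ˢ Icc e₀ e₁, v z * (1 - v z)

/-- LB (note 8). -/
def LBStmt : Prop := ∀ (p θ₀ c A P : ℝ) (R : Set (ℝ × ℝ)), Good (p + 1) θ₀ c →
  MeasurableSet R → R ⊆ sector θ₀ → 0 ≤ A → area p R = ENNReal.ofReal A → 0 ≤ P →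
  perim p θ₀ R ≤ ENNReal.ofReal P → KK (p + 1) c * A ^ ((p + 1) / (p + 2)) ≤ P

/-! The candidates -/

/-- a decreasing profile, equal to `m` up to `q` and to `0` from `q₁` on -/
structure Graph (θ₀ q q₁ m : ℝ) (τ τ' : ℝ → ℝ) : Prop where
  q0 : 0 ≤ q
  lt : q < q₁
  mpos : 0 < m
  mle : m ≤ θ₀
  alt : q = 0 ∨ m = θ₀
  cont : ContinuousOn τ (Icc q q₁)
  der : ∀ r ∈ Ioo q q₁, HasDerivAt τ (τ' r) r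
  cder : ContinuousOn τ' (Ioo q q₁)
  neg : ∀ r ∈ Ioo q q₁, τ' r < 0
  left : ∀ r ∈ Icc 0 q, τ r = m
  right : ∀ r, q₁ ≤ r → τ r = 0

def under (θ₀ : ℝ) (τ : ℝ → ℝ) : Set (ℝ × ℝ) := {z | z ∈ sector θ₀ ∧ z.2 < τ z.1}

/-- GREEN (note 9). -/
def GreenStmt : Prop := ∀ (p θ₀ q q₁ m : ℝ) (τ τ' : ℝ → ℝ), 0 < p → Graph θ₀ q q₁ m τ τ' →
  MeasurableSet (under θ₀ τ) ∧ IntervalIntegrable τ' volume q q₁ ∧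
  area p (under θ₀ τ) = ENNReal.ofReal (∫ r in q..q₁, -τ' r * r ^ (p + 2) / (p + 2)) ∧
  (∀ α β, IsTest θ₀ α β → flux p (under θ₀ τ) α β =
    ∫ r in q..q₁, (r ^ p * β (r, τ r) - r ^ (p + 1) * τ' r * α (r, τ r))) ∧
  perim p θ₀ (under θ₀ τ) ≤
    ENNReal.ofReal (∫ r in q..q₁, √((r ^ p) ^ 2 + (r ^ (p + 1) * τ' r) ^ 2))

/-- CUT: cut-off functions exhausting the sector. -/
def CutStmt : Prop := ∀ θ₀ : ℝ, 0 < θ₀ → ∃ ζ : ℕ → ℝ × ℝ → ℝ,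
  (∀ n, ContDiff ℝ 1 (ζ n) ∧ HasCompactSupport (ζ n) ∧ tsupport (ζ n) ⊆ sector θ₀ ∧
    ∀ z, 0 ≤ ζ n z ∧ ζ n z ≤ 1) ∧ ∀ z ∈ sector θ₀, ∀ᶠ n in atTop, ζ n z = 1

/-- ARC (note 9). -/
def ArcStmt : Prop := ∀ p θ₀ ρ : ℝ, 0 < p → 0 < θ₀ → 0 < ρ →
  MeasurableSet {z | z ∈ sector θ₀ ∧ z.1 < ρ} ∧
  area p {z | z ∈ sector θ₀ ∧ z.1 < ρ} = ENNReal.ofReal (θ₀ * ρ ^ (p + 2) / (p + 2)) ∧
  perim p θ₀ {z | z ∈ sector θ₀ ∧ z.1 < ρ} = ENNReal.ofReal (θ₀ * ρ ^ (p + 1))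

/-- HALF (note 9). -/
def HalfStmt : Prop := ∀ p θ₀ ρ : ℝ, 0 < p → π / 2 ≤ θ₀ → 0 < ρ →
  MeasurableSet {z | z ∈ sector (π / 2) ∧ z.1 < ρ * cos z.2} ∧
  0 < (∫ ξ in (0 : ℝ)..π / 2, cos ξ ^ (p + 2)) ∧
  area p {z | z ∈ sector (π / 2) ∧ z.1 < ρ * cos z.2} =
    ENNReal.ofReal (ρ ^ (p + 2) / (p + 2) * ∫ ξ in (0 : ℝ)..π / 2, cos ξ ^ (p + 2)) ∧
  perim p θ₀ {z | z ∈ sector (π / 2) ∧ z.1 < ρ * cos z.2} =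
    ENNReal.ofReal (KK (p + 1) (m0 (p + 1)) *
      (ρ ^ (p + 2) / (p + 2) * ∫ ξ in (0 : ℝ)..π / 2, cos ξ ^ (p + 2)) ^ ((p + 1) / (p + 2)))

/-- derivative of the unduloid profile -/
noncomputable def undTau' (p R r : ℝ) : ℝ :=
  -(kf (p + 1) r / (r * √(R ^ 2 - kf (p + 1) r ^ 2)))

/-- SUBST (note 10): the substitutions `r = rp (X sin ξ)`, `r = rm (X sin ξ)`. -/
def SubstStmt : Prop := ∀ (a X : ℝ) (h : ℝ → ℝ), 1 < a → 0 < X → ContinuousOn h (Ioi 0) →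
  IntervalIntegrable (fun r => h r / √(kk X ^ 2 - kf a r ^ 2)) volume (rm a X) (rp a X) ∧
  (∫ r in (rm a X)..(rp a X), h r / √(kk X ^ 2 - kf a r ^ 2)) =
    ∫ ξ in (0 : ℝ)..π / 2, X * sin ξ / (1 + (X * sin ξ) ^ 2) *
      (h (rp a (X * sin ξ)) * rp a (X * sin ξ) / al a (X * sin ξ)
        + h (rm a (X * sin ξ)) * rm a (X * sin ξ) / be a (X * sin ξ))

/-- UND-A (note 10): the profile and the three integrals, scale 1. -/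
def UndAStmt : Prop := ∀ p X : ℝ, 0 < p → 0 < X →
  undTau p (kk X) 0 = TT (p + 1) X / (p + 1) ∧
  Graph (TT (p + 1) X / (p + 1)) (rm (p + 1) X) (rp (p + 1) X) (TT (p + 1) X / (p + 1))
    (undTau p (kk X)) (undTau' p (kk X)) ∧
  (∫ r in (rm (p + 1) X)..(rp (p + 1) X), -undTau' p (kk X) r * r ^ (p + 2) / (p + 2)) =
    (TT (p + 1) X + NN (p + 1) X) / ((p + 1) * (p + 2)) ∧
  (∫ r in (rm (p + 1) X)..(rp (p + 1) X),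
      √((r ^ p) ^ 2 + (r ^ (p + 1) * undTau' p (kk X) r) ^ 2)) =
    (TT (p + 1) X + NN (p + 1) X) / ((p + 1) * kk X)

/-- UND (note 10): the scaled unduloid region. -/
def UndStmt : Prop := ∀ p X ρ : ℝ, 0 < p → 0 < X → 0 < ρ →
  undTau p (kk X) 0 = TT (p + 1) X / (p + 1) ∧ 0 < TT (p + 1) X + NN (p + 1) X ∧
  MeasurableSet (under (TT (p + 1) X / (p + 1)) fun r => undTau p (kk X) (r / ρ)) ∧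
  area p (under (TT (p + 1) X / (p + 1)) fun r => undTau p (kk X) (r / ρ)) =
    ENNReal.ofReal (ρ ^ (p + 2) * ((TT (p + 1) X + NN (p + 1) X) / ((p + 1) * (p + 2)))) ∧
  perim p (TT (p + 1) X / (p + 1))
      (under (TT (p + 1) X / (p + 1)) fun r => undTau p (kk X) (r / ρ)) ≤
    ENNReal.ofReal (KK (p + 1) (Gam (p + 1) (TT (p + 1) X) X) *
      (ρ ^ (p + 2) * ((TT (p + 1) X + NN (p + 1) X) / ((p + 1) * (p + 2)))) ^ ((p + 1) / (p + 2)))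

/-- The theorem. -/
def FinalStmt : Prop := ∀ p θ₀ ρ : ℝ, 0 < p → 0 < θ₀ → 0 < ρ →
  (IsIso p θ₀ {z | z ∈ sector θ₀ ∧ z.1 < ρ} ↔ θ₀ ≤ π / √(p + 1)) ∧
  ((∃ R : ℝ, 1 < R ∧ undTau p R 0 = θ₀ ∧
      IsIso p θ₀ {z | z ∈ sector θ₀ ∧ z.2 < undTau p R (z.1 / ρ)}) ↔
    π / √(p + 1) < θ₀ ∧ θ₀ < π * (p + 2) / (2 * p + 2)) ∧
  (IsIso p θ₀ {z | z ∈ sector (π / 2) ∧ z.1 < ρ * cos z.2} ↔ π * (p + 2) / (2 * p + 2) ≤ θ₀)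

end Pool.Agent.MP_d56274_gt
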