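import Mathlib
import Pool.Agent.MP_d56274_gt.Spec

/-!
ABEL (note 2): the identities for the period functions.
-/

namespace Pool.Agent.MP_d56274_gt

open MeasureTheory Set Real Filter Topology

lemma abel_mem {X M ξ : ℝ} (hX : 0 < X) (hM : X ≤ M) (h : ξ ∈ Ioc 0 (π / 2)) :
    X * sin ξ ∈ Ioc 0 M :=
  ⟨mul_pos hX (sin_pos_of_pos_of_lt_pi h.1 (h.2.trans_lt (by linarith [pi_pos]))),
    (mul_le_of_le_one_right hX.le (sin_le_one ξ)).trans hM⟩

lemma abel_int {W : ℝ → ℝ} {X B : ℝ} (hX : 0 < X) (hc : ContinuousOn W (Ioi 0))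
    (hB : ∀ x ∈ Ioc 0 X, |W x| ≤ B) :
    IntervalIntegrable (fun ξ => W (X * sin ξ)) volume 0 (π / 2) := by
  have hp : (0 : ℝ) ≤ π / 2 := by positivity
  rw [intervalIntegrable_iff_integrableOn_Ioc_of_le hp]
  have hcont : ContinuousOn (fun ξ => W (X * sin ξ)) (Ioc 0 (π / 2)) :=
    hc.comp (by fun_prop) fun ξ h => (abel_mem hX le_rfl h).1
  exact IntegrableOn.of_bound measure_Ioc_lt_top (hcont.aestronglyMeasurable measurableSet_Ioc) B
    ((ae_restrict_iff' measurableSet_Ioc).2
      (Eventually.of_forall fun ξ h => hB _ (abel_mem hX le_rfl h)))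

/-- integration by parts under the substitution `x = X sin ξ` -/
lemma abel_ibp {W W' : ℝ → ℝ} {X : ℝ} (hX : 0 < X) (hc : Continuous W) (h0 : W 0 = 0)
    (hd : ∀ x, 0 < x → HasDerivAt W (W' x) x)
    (hi : IntervalIntegrable (fun ξ => W' (X * sin ξ)) volume 0 (π / 2)) :
    X ^ 2 * ∫ ξ in (0 : ℝ)..π / 2, W' (X * sin ξ) =
      ∫ ξ in (0 : ℝ)..π / 2,
        (X * sin ξ * W (X * sin ξ) + (X * sin ξ) ^ 2 * W' (X * sin ξ)) := by
  have hp : (0 : ℝ) ≤ π / 2 := by positivity
  have i1 : IntervalIntegrable (fun ξ => X * sin ξ * W (X * sin ξ)) volume 0 (π / 2) :=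
    Continuous.intervalIntegrable (by fun_prop) _ _
  have i2 : IntervalIntegrable (fun ξ => (X * sin ξ) ^ 2 * W' (X * sin ξ)) volume 0 (π / 2) :=
    hi.continuousOn_mul (by fun_prop)
  have i3 : IntervalIntegrable
      (fun ξ => X * sin ξ * W (X * sin ξ) + (X * sin ξ) ^ 2 * W' (X * sin ξ)) volume 0 (π / 2) :=
    i1.add i2
  have i4 : IntervalIntegrable (fun ξ => X ^ 2 * W' (X * sin ξ)) volume 0 (π / 2) :=
    hi.const_mul _
  have hftc := intervalIntegral.integral_eq_sub_of_hasDerivAt_of_le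
    (f := fun ξ => X * cos ξ * W (X * sin ξ))
    (f' := fun ξ => X ^ 2 * W' (X * sin ξ) -
      (X * sin ξ * W (X * sin ξ) + (X * sin ξ) ^ 2 * W' (X * sin ξ))) hp
    (Continuous.continuousOn (by fun_prop)) (fun ξ h => ?_) (i4.sub i3)
  · rw [intervalIntegral.integral_sub i4 i3, intervalIntegral.integral_const_mul] at hftc
    simp only [cos_pi_div_two, mul_zero, zero_mul, sin_zero, h0, sub_zero] at hftc
    linarith
  · have h1 := ((hasDerivAt_cos ξ).const_mul X).mul
      ((hd _ (abel_mem hX le_rfl (Ioo_subset_Ioc_self h)).1).comp ξ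
        ((hasDerivAt_sin ξ).const_mul X))
    refine h1.congr_deriv ?_
    simp only [Function.comp_apply]
    linear_combination (X ^ 2 * W' (X * sin ξ)) * sin_sq_add_cos_sq ξ

theorem abel (hd : DerivStmt) : AbelStmt := by
  intro a ha
  obtain ⟨cD, cS, D0, S0, cD', cS', -, hSb, hx⟩ := hd a ha
  have hp : (0 : ℝ) ≤ π / 2 := by positivity
  have ha0 : 0 < a := by linarith
  have hbd : ∀ M : ℝ, ∃ B : ℝ, 0 ≤ B ∧ (∀ x ∈ Ioc 0 M, |SS a x| ≤ B) ∧
      ∀ x ∈ Ioc 0 M, |SS' a x| ≤ (a + 1) ^ 2 * (2 * a / (a + 1)) + a * M * B := by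
    intro M
    obtain ⟨B, hB⟩ := (isCompact_Icc (a := (0 : ℝ)) (b := M)).exists_bound_of_continuousOn
      cS.continuousOn
    refine ⟨max B 0, le_max_right _ _,
      fun x h => (hB x (Ioc_subset_Icc_self h)).trans (le_max_left _ _), fun x h => ?_⟩
    have h1 : SS a x ≤ max B 0 :=
      ((le_abs_self _).trans (hB x (Ioc_subset_Icc_self h))).trans (le_max_left _ _)
    have h2 := (hSb x).1
    obtain ⟨-, -, h3, h4, -⟩ := hx x h.1
    have h5 : 0 ≤ (a + 1) ^ 2 * DD' a x + a * x * SS a x :=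
      add_nonneg (mul_nonneg (sq_nonneg _) h3) (mul_nonneg (mul_nonneg ha0.le h.1.le) h2)
    have h6 : (1 : ℝ) ≤ 1 + x ^ 2 := le_add_of_nonneg_right (sq_nonneg x)
    unfold SS'
    rw [abs_of_nonneg (div_nonneg h5 (by linarith))]
    refine (div_le_self h5 h6).trans (add_le_add (mul_le_mul_of_nonneg_left h4 (sq_nonneg _)) ?_)
    exact mul_le_mul (mul_le_mul_of_nonneg_left h.2 ha0.le) h1 h2
      (mul_nonneg ha0.le (h.1.le.trans h.2))
  refine ⟨?_, by simp [NN], fun X hX => ?_⟩
  · exact intervalIntegral.continuous_parametric_intervalIntegral_of_continuous'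
      (f := fun X ξ => X * sin ξ * SS a (X * sin ξ)) (by unfold Function.uncurry; fun_prop) _ _
  obtain ⟨B, hB0, hB, hB'⟩ := hbd (X + 1)
  have hsub : Ioc 0 X ⊆ Ioc 0 (X + 1) := Ioc_subset_Ioc_right (by linarith)
  have iD : IntervalIntegrable (fun ξ => DD' a (X * sin ξ)) volume 0 (π / 2) :=
    abel_int (B := 2 * a / (a + 1)) hX cD' fun x h => by
      obtain ⟨-, -, h3, h4, -⟩ := hx x h.1
      rwa [abs_of_nonneg h3]
  have iS : IntervalIntegrable (fun ξ => SS' a (X * sin ξ)) volume 0 (π / 2) :=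
    abel_int hX cS' fun x h => hB' x (hsub h)
  have eD := abel_ibp hX cD D0 (fun x h => (hx x h).1) iD
  have eS := abel_ibp hX cS S0 (fun x h => (hx x h).2.1) iS
  have i1 : IntervalIntegrable (fun ξ => X * sin ξ * SS a (X * sin ξ)) volume 0 (π / 2) :=
    Continuous.intervalIntegrable (by fun_prop) _ _
  have i2 : IntervalIntegrable (fun ξ => (X * sin ξ) ^ 2 * SS' a (X * sin ξ)) volume 0 (π / 2) :=
    iS.continuousOn_mul (by fun_prop)
  have hX2 : X ^ 2 ≠ 0 := by positivity
  have second : (1 + X ^ 2) * (∫ ξ in (0 : ℝ)..π / 2, SS' a (X * sin ξ)) =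
      (a + 1) * (TT a X + NN a X) := by
    rw [add_mul, one_mul, eS, ← intervalIntegral.integral_add iS (i1.add i2)]
    unfold TT NN
    rw [mul_add, ← mul_assoc, ← intervalIntegral.integral_const_mul,
      ← intervalIntegral.integral_const_mul,
      ← intervalIntegral.integral_add (iD.const_mul _) (i1.const_mul _)]
    refine intervalIntegral.integral_congr fun ξ _ => ?_
    have h6 : (1 : ℝ) + (X * sin ξ) ^ 2 ≠ 0 := by positivity
    have e : (1 + (X * sin ξ) ^ 2) * SS' a (X * sin ξ) =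
        (a + 1) ^ 2 * DD' a (X * sin ξ) + a * (X * sin ξ) * SS a (X * sin ξ) := by
      unfold SS'
      rw [mul_div_cancel₀ _ h6]
    linear_combination e
  have hN : HasDerivAt (NN a) (X * ∫ ξ in (0 : ℝ)..π / 2, SS' a (X * sin ξ)) X := by
    have i5 : IntervalIntegrable (fun ξ => sin ξ * SS a (X * sin ξ) +
        X * sin ξ * (SS' a (X * sin ξ) * sin ξ)) volume 0 (π / 2) :=
      (Continuous.intervalIntegrable (by fun_prop) _ _).add
        ((iS.mul_continuousOn (by fun_prop)).continuousOn_mul (by fun_prop))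
    have hder := (intervalIntegral.hasDerivAt_integral_of_dominated_loc_of_deriv_le
      (μ := volume) (a := 0) (b := π / 2) (s := Ioo 0 (X + 1)) (x₀ := X)
      (F := fun Y ξ => Y * sin ξ * SS a (Y * sin ξ))
      (F' := fun Y ξ => sin ξ * SS a (Y * sin ξ) + Y * sin ξ * (SS' a (Y * sin ξ) * sin ξ))
      (bound := fun _ => B + (X + 1) * ((a + 1) ^ 2 * (2 * a / (a + 1)) + a * (X + 1) * B))
      (Ioo_mem_nhds hX (by linarith))
      (Eventually.of_forall fun Y => Continuous.aestronglyMeasurable (by fun_prop)) i1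
      (intervalIntegrable_iff.1 i5).aestronglyMeasurable
      (Eventually.of_forall fun ξ h Y hY => ?_) intervalIntegrable_const
      (Eventually.of_forall fun ξ h Y hY => ?_)).2
    · refine hder.congr_deriv ?_
      apply mul_left_cancel₀ hX.ne'
      rw [← mul_assoc, ← sq, eS, ← intervalIntegral.integral_const_mul]
      refine intervalIntegral.integral_congr fun ξ _ => ?_
      ring
    · rw [uIoc_of_le hp] at h
      have hm := abel_mem hY.1 hY.2.le h
      have h1 := hB _ hm
      have h2 := hB' _ hm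
      have h3 := abs_sin_le_one ξ
      rw [Real.norm_eq_abs]
      refine (abs_add_le _ _).trans (add_le_add ?_ ?_)
      · rw [abs_mul]
        exact (mul_le_of_le_one_left (abs_nonneg _) h3).trans h1
      · rw [abs_mul, abs_of_pos hm.1, abs_mul]
        exact mul_le_mul hm.2 ((mul_le_of_le_one_right (abs_nonneg _) h3).trans h2)
          (by positivity) (by linarith)
    · rw [uIoc_of_le hp] at h
      have hm := abel_mem hY.1 hY.2.le h
      have h0 : HasDerivAt (fun Y : ℝ => Y * sin ξ) (sin ξ) Y := by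
        simpa using (hasDerivAt_id Y).mul_const (sin ξ)
      have h1 := (hx _ hm.1).2.1.comp Y h0
      exact h0.mul h1
  refine ⟨?_, second, fun Φ => ?_⟩
  · apply mul_left_cancel₀ hX2
    unfold TT
    rw [mul_left_comm, eD, ← intervalIntegral.integral_const_mul,
      ← intervalIntegral.integral_const_mul, ← intervalIntegral.integral_const_mul,
      intervalIntegral.integral_of_le hp, intervalIntegral.integral_of_le hp]
    refine setIntegral_congr_fun measurableSet_Ioc fun ξ h => ?_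
    have e := (hx _ (abel_mem hX le_rfl h).1).2.2.2.2
    linear_combination ((a + 1) * (X * sin ξ)) * e
  · have hq : (0 : ℝ) < 1 + X ^ 2 := by positivity
    have h1 : HasDerivAt (fun X : ℝ => 1 + X ^ 2) (2 * X) X := by
      simpa using ((hasDerivAt_id X).pow 2).const_add 1
    have h2 := (h1.rpow_const (p := -(a + 1) / 2) (Or.inl hq.ne')).mul (hN.const_add Φ)
    refine h2.congr_deriv ?_
    have e : (1 + X ^ 2) ^ (-(a + 1) / 2) = (1 + X ^ 2) ^ (-(a + 1) / 2 - 1) * (1 + X ^ 2) := by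
      rw [← rpow_add_one hq.ne']; congr 1; ring
    rw [e]
    linear_combination (X * (1 + X ^ 2) ^ (-(a + 1) / 2 - 1)) * second

end Pool.Agent.MP_d56274_gt
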