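import Mathlib
import Pool.Agent.MP_d56274_gt.Spec

/-! Row CUT: cut-off functions exhausting the sector. -/

namespace Pool.Agent.MP_d56274_gt

open MeasureTheory Set Real Filter Topology

theorem cut : CutStmt := by
  intro θ₀ _
  refine ⟨fun n z => smoothTransition (((n : ℝ) + 1) * z.1 - 1) * smoothTransition (n + 1 - z.1) *
    (smoothTransition (((n : ℝ) + 1) * z.2 - 1) *
      smoothTransition (((n : ℝ) + 1) * (θ₀ - z.2) - 1)), fun n => ?_, fun z hz => ?_⟩
  · have hn : (0 : ℝ) < n + 1 := by positivity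
    have hK : IsCompact (Icc (1 / ((n : ℝ) + 1)) (n + 1) ×ˢ
        Icc (1 / ((n : ℝ) + 1)) (θ₀ - 1 / ((n : ℝ) + 1))) := isCompact_Icc.prod isCompact_Icc
    have hz : ∀ z : ℝ × ℝ, z ∉ Icc (1 / ((n : ℝ) + 1)) (n + 1) ×ˢ
        Icc (1 / ((n : ℝ) + 1)) (θ₀ - 1 / ((n : ℝ) + 1)) →
        smoothTransition (((n : ℝ) + 1) * z.1 - 1) * smoothTransition (n + 1 - z.1) *
        (smoothTransition (((n : ℝ) + 1) * z.2 - 1) *
          smoothTransition (((n : ℝ) + 1) * (θ₀ - z.2) - 1)) = 0 := by
      intro z hz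
      by_contra hc
      obtain ⟨h12, h34⟩ := mul_ne_zero_iff.1 hc
      obtain ⟨h1, h2⟩ := mul_ne_zero_iff.1 h12
      obtain ⟨h3, h4⟩ := mul_ne_zero_iff.1 h34
      rw [Ne, smoothTransition.zero_iff_nonpos, not_le] at h1 h2 h3 h4
      refine hz ⟨⟨?_, by linarith⟩, ?_, ?_⟩
      · rw [div_le_iff₀ hn]; linarith
      · rw [div_le_iff₀ hn]; linarith
      · rw [le_sub_comm, div_le_iff₀ hn]; linarith
    refine ⟨?_, HasCompactSupport.intro hK hz, ?_, fun z => ⟨?_, ?_⟩⟩
    · have s : ContDiff ℝ 1 smoothTransition := smoothTransition.contDiff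
      exact ((s.comp (by fun_prop)).mul (s.comp (by fun_prop))).mul
        ((s.comp (by fun_prop)).mul (s.comp (by fun_prop)))
    · refine (closure_minimal (Function.support_subset_iff'.2 hz) hK.isClosed).trans ?_
      rintro z ⟨⟨h1, -⟩, h2, h3⟩
      have : 0 < 1 / ((n : ℝ) + 1) := by positivity
      exact ⟨this.trans_le h1, this.trans_le h2, by linarith⟩
    · exact mul_nonneg (mul_nonneg (smoothTransition.nonneg _) (smoothTransition.nonneg _))
        (mul_nonneg (smoothTransition.nonneg _) (smoothTransition.nonneg _))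
    · exact mul_le_one₀
        (mul_le_one₀ (smoothTransition.le_one _) (smoothTransition.nonneg _)
          (smoothTransition.le_one _))
        (mul_nonneg (smoothTransition.nonneg _) (smoothTransition.nonneg _))
        (mul_le_one₀ (smoothTransition.le_one _) (smoothTransition.nonneg _)
          (smoothTransition.le_one _))
  · obtain ⟨h1, h2, h3⟩ := hz
    have h1' : 0 < z.1 := h1
    have h4 : 0 < θ₀ - z.2 := by linarith
    have ev : ∀ c : ℝ, ∀ᶠ n : ℕ in atTop, c ≤ n := fun c =>
      tendsto_natCast_atTop_atTop.eventually_ge_atTop c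
    filter_upwards [ev (2 / z.1), ev z.1, ev (2 / z.2), ev (2 / (θ₀ - z.2))] with n a1 a2 a3 a4
    rw [div_le_iff₀ h1'] at a1
    rw [div_le_iff₀ h2] at a3
    rw [div_le_iff₀ h4] at a4
    rw [smoothTransition.one_of_one_le (by linarith), smoothTransition.one_of_one_le (by linarith),
      smoothTransition.one_of_one_le (by linarith), smoothTransition.one_of_one_le (by linarith)]
    norm_num

end Pool.Agent.MP_d56274_gt
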