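import Mathlib
import Pool.Agent.MP_d56274_gt.Cut

/-! Row ARC: area and perimeter of the region under a circular arc about the origin. -/

namespace Pool.Agent.MP_d56274_gt

open MeasureTheory Set Real Filter Topology

lemma arc_d1 {α : ℝ × ℝ → ℝ} (hα : ContDiff ℝ 1 α) (r t : ℝ) :
    HasDerivAt (fun r : ℝ => α (r, t)) (fderiv ℝ α (r, t) (1, 0)) r :=
  HasFDerivAt.comp_hasDerivAt (l := α) (f := fun r : ℝ => (r, t)) r
    (hα.differentiable one_ne_zero (r, t)).hasFDerivAt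
    ((hasDerivAt_id r).prodMk (hasDerivAt_const r t))

lemma arc_d2 {α : ℝ × ℝ → ℝ} (hα : ContDiff ℝ 1 α) (r t : ℝ) :
    HasDerivAt (fun t : ℝ => α (r, t)) (fderiv ℝ α (r, t) (0, 1)) t :=
  HasFDerivAt.comp_hasDerivAt (l := α) (f := fun t : ℝ => (r, t)) t
    (hα.differentiable one_ne_zero (r, t)).hasFDerivAt
    ((hasDerivAt_const t r).prodMk (hasDerivAt_id t))

lemma arc_set (θ₀ ρ : ℝ) :
    {z : ℝ × ℝ | z ∈ sector θ₀ ∧ z.1 < ρ} = Ioo 0 ρ ×ˢ Ioo 0 θ₀ := by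
  ext z
  exact ⟨fun h => ⟨⟨h.1.1, h.2⟩, h.1.2⟩, fun h => ⟨⟨h.1.1, h.2⟩, h.1.2⟩⟩

lemma arc_intOn (θ₀ ρ : ℝ) {H : ℝ × ℝ → ℝ} (hH : Continuous H) :
    IntegrableOn H (Ioo 0 ρ ×ˢ Ioo 0 θ₀) volume :=
  (hH.continuousOn.integrableOn_compact
    ((isCompact_Icc (a := (0 : ℝ)) (b := ρ)).prod (isCompact_Icc (a := (0 : ℝ)) (b := θ₀)))).mono_set
    (prod_mono Ioo_subset_Icc_self Ioo_subset_Icc_self)

lemma arc_fub1 {θ₀ ρ : ℝ} (hθ : 0 ≤ θ₀) (hρ : 0 ≤ ρ) {H : ℝ × ℝ → ℝ} (hH : Continuous H) :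
    ∫ z in Ioo 0 ρ ×ˢ Ioo 0 θ₀, H z = ∫ r in (0 : ℝ)..ρ, ∫ t in (0 : ℝ)..θ₀, H (r, t) := by
  rw [Measure.volume_eq_prod, setIntegral_prod _ (arc_intOn θ₀ ρ hH)]
  simp only [intervalIntegral.integral_of_le hθ, intervalIntegral.integral_of_le hρ,
    integral_Ioc_eq_integral_Ioo]

lemma arc_fub2 {θ₀ ρ : ℝ} (hθ : 0 ≤ θ₀) (hρ : 0 ≤ ρ) {H : ℝ × ℝ → ℝ} (hH : Continuous H) :
    ∫ z in Ioo 0 ρ ×ˢ Ioo 0 θ₀, H z = ∫ t in (0 : ℝ)..θ₀, ∫ r in (0 : ℝ)..ρ, H (r, t) := by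
  have hi := arc_intOn θ₀ ρ hH
  rw [IntegrableOn, Measure.volume_eq_prod, ← Measure.prod_restrict] at hi
  rw [Measure.volume_eq_prod, ← Measure.prod_restrict, integral_prod_symm _ hi]
  simp only [intervalIntegral.integral_of_le hθ, intervalIntegral.integral_of_le hρ,
    integral_Ioc_eq_integral_Ioo]

lemma arc_flux {p θ₀ ρ : ℝ} (hp : 0 < p) (hθ : 0 < θ₀) (hρ : 0 < ρ) {α β : ℝ × ℝ → ℝ}
    (T : IsTest θ₀ α β) :
    flux p (Ioo 0 ρ ×ˢ Ioo 0 θ₀) α β = ρ ^ (p + 1) * ∫ t in (0 : ℝ)..θ₀, α (ρ, t) := by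
  have c1 : Continuous fun r : ℝ => r ^ (p + 1) :=
    continuous_id.rpow_const fun _ => Or.inr (by linarith)
  have c2 : Continuous fun r : ℝ => r ^ p := continuous_id.rpow_const fun _ => Or.inr hp.le
  have hβ0 : ∀ z, z ∉ sector θ₀ → β z = 0 := fun z hz =>
    image_eq_zero_of_notMem_tsupport fun h => hz (T.supp₂ h)
  have dα : Continuous fun z => fderiv ℝ α z (1, 0) :=
    (T.smooth₁.continuous_fderiv one_ne_zero).clm_apply continuous_const
  have dβ : Continuous fun z => fderiv ℝ β z (0, 1) :=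
    (T.smooth₂.continuous_fderiv one_ne_zero).clm_apply continuous_const
  set H₁ : ℝ × ℝ → ℝ := fun z =>
    (p + 1) * z.1 ^ p * α z + z.1 ^ (p + 1) * fderiv ℝ α z (1, 0) with hH₁
  set H₂ : ℝ × ℝ → ℝ := fun z => z.1 ^ p * fderiv ℝ β z (0, 1) with hH₂
  have H1c : Continuous H₁ :=
    ((continuous_const.mul (c2.comp continuous_fst)).mul T.smooth₁.continuous).add
      ((c1.comp continuous_fst).mul dα)
  have H2c : Continuous H₂ := (c2.comp continuous_fst).mul dβ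
  have D1 : ∀ r t, HasDerivAt (fun r : ℝ => r ^ (p + 1) * α (r, t)) (H₁ (r, t)) r := by
    intro r t
    have := (Real.hasDerivAt_rpow_const (x := r) (p := p + 1) (Or.inr (by linarith))).mul
      (arc_d1 T.smooth₁ r t)
    rw [add_sub_cancel_right] at this
    exact this
  have D2 : ∀ r t, HasDerivAt (fun t : ℝ => r ^ p * β (r, t)) (H₂ (r, t)) t := fun r t =>
    (arc_d2 T.smooth₂ r t).const_mul (r ^ p)
  have e : flux p (Ioo 0 ρ ×ˢ Ioo 0 θ₀) α β = ∫ z in Ioo 0 ρ ×ˢ Ioo 0 θ₀, (H₁ z + H₂ z) := by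
    rw [flux]
    congr 1
    funext z
    rw [(D1 z.1 z.2).deriv, (arc_d2 T.smooth₂ z.1 z.2).deriv]
  have e1 : ∀ t, (∫ r in (0 : ℝ)..ρ, H₁ (r, t)) = ρ ^ (p + 1) * α (ρ, t) := fun t => by
    rw [intervalIntegral.integral_eq_sub_of_hasDerivAt (fun s _ => D1 s t)
      ((H1c.comp (by fun_prop)).intervalIntegrable _ _), Real.zero_rpow (by linarith)]
    ring
  have e2 : ∀ r, (∫ t in (0 : ℝ)..θ₀, H₂ (r, t)) = 0 := fun r => by
    rw [intervalIntegral.integral_eq_sub_of_hasDerivAt (fun s _ => D2 r s)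
      ((H2c.comp (by fun_prop)).intervalIntegrable _ _),
      hβ0 (r, 0) fun h => lt_irrefl _ h.2.1, hβ0 (r, θ₀) fun h => lt_irrefl _ h.2.2]
    ring
  rw [e, integral_add (arc_intOn θ₀ ρ H1c) (arc_intOn θ₀ ρ H2c), arc_fub2 hθ.le hρ.le H1c,
    arc_fub1 hθ.le hρ.le H2c]
  simp only [e1, e2, intervalIntegral.integral_const_mul, intervalIntegral.integral_zero, add_zero]

theorem arc : ArcStmt := by
  intro p θ₀ ρ hp hθ hρ
  have hm : MeasurableSet (Ioo (0 : ℝ) ρ ×ˢ Ioo (0 : ℝ) θ₀) :=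
    measurableSet_Ioo.prod measurableSet_Ioo
  have hρa : 0 < ρ ^ (p + 1) := Real.rpow_pos_of_pos hρ _
  rw [arc_set]
  refine ⟨hm, ?_, le_antisymm ?_ ?_⟩
  · have hc : Continuous fun z : ℝ × ℝ => z.1 ^ (p + 1) :=
      continuous_fst.rpow_const fun _ => Or.inr (by linarith)
    rw [area, ← ofReal_integral_eq_lintegral_ofReal (arc_intOn θ₀ ρ hc), arc_fub2 hθ.le hρ.le hc]
    · simp only
      rw [integral_rpow (Or.inl (by linarith)), Real.zero_rpow (by linarith),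
        show p + 1 + 1 = p + 2 by ring, sub_zero, intervalIntegral.integral_const, sub_zero,
        smul_eq_mul, mul_div_assoc]
    · exact (ae_restrict_iff' hm).2
        (Eventually.of_forall fun z hz => Real.rpow_nonneg (le_of_lt hz.1.1) _)
  · refine iSup_le fun α => iSup_le fun β => iSup_le fun T => ENNReal.ofReal_le_ofReal ?_
    rw [arc_flux hp hθ hρ T, mul_comm]
    refine mul_le_mul_of_nonneg_right ?_ hρa.le
    have cα : Continuous fun t : ℝ => α (ρ, t) := T.smooth₁.continuous.comp (by fun_prop)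
    have := intervalIntegral.integral_mono_on hθ.le (cα.intervalIntegrable (μ := volume) 0 θ₀)
      (intervalIntegrable_const (c := (1 : ℝ))) fun t _ => by
        have := T.le_one (ρ, t)
        nlinarith [sq_nonneg (β (ρ, t)), sq_nonneg (α (ρ, t) - 1)]
    simpa using this
  · obtain ⟨ζ, h1, h2⟩ := cut θ₀ hθ
    have T : ∀ n, IsTest θ₀ (ζ n) 0 := fun n =>
      ⟨(h1 n).1, contDiff_const, (h1 n).2.1, HasCompactSupport.zero, (h1 n).2.2.1, by simp,
        fun z => by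
          have := (h1 n).2.2.2 z
          simp only [Pi.zero_apply]
          nlinarith⟩
    have lim : Tendsto (fun n => ∫ t in (0 : ℝ)..θ₀, ζ n (ρ, t)) atTop
        (𝓝 (∫ _ in (0 : ℝ)..θ₀, (1 : ℝ))) := by
      refine intervalIntegral.tendsto_integral_filter_of_dominated_convergence (fun _ => 1)
        (Eventually.of_forall fun n => ?_) (Eventually.of_forall fun n => ?_)
        intervalIntegrable_const ?_
      · exact ((h1 n).1.continuous.comp (by fun_prop)).aestronglyMeasurable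
      · refine Eventually.of_forall fun t _ => ?_
        rw [Real.norm_eq_abs, abs_of_nonneg ((h1 n).2.2.2 _).1]
        exact ((h1 n).2.2.2 _).2
      · filter_upwards [(volume : Measure ℝ).ae_ne θ₀] with t ht hx
        rw [uIoc_of_le hθ.le] at hx
        exact tendsto_const_nhds.congr'
          ((h2 (ρ, t) ⟨hρ, hx.1, lt_of_le_of_ne hx.2 ht⟩).mono fun n hn => hn.symm)
    rw [intervalIntegral.integral_const, sub_zero, smul_eq_mul, mul_one] at lim
    have lim2 := ENNReal.tendsto_ofReal (lim.const_mul (ρ ^ (p + 1)))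
    rw [mul_comm θ₀]
    refine le_of_tendsto' lim2 fun n => ?_
    rw [← arc_flux hp hθ hρ (T n)]
    exact le_iSup_of_le (ζ n) (le_iSup_of_le 0 (le_iSup_of_le (T n) le_rfl))

end Pool.Agent.MP_d56274_gt
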