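import Mathlib
import Pool.Agent.MP_d56274_gt.Spec

/-! Row CALIB: the calibration inequality for controls. -/

namespace Pool.Agent.MP_d56274_gt

open MeasureTheory Set Real Filter Topology

/-- tangent line of `x ^ (a + 1)` at `l` -/
lemma calib_tangent {a l g : ℝ} (ha : 1 < a) (hl : 0 ≤ l) (hg : 0 ≤ g) :
    (a + 1) * l ^ a * g - a * l ^ (a + 1) ≤ g ^ (a + 1) := by
  rcases hl.eq_or_lt with rfl | hl
  · rw [Real.zero_rpow (by linarith), Real.zero_rpow (by linarith)]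
    have := Real.rpow_nonneg hg (a + 1)
    linarith
  · have hb := one_add_mul_self_le_rpow_one_add (s := g / l - 1)
      (by have := div_nonneg hg hl.le; linarith) (p := a + 1) (by linarith)
    have e1 : (1 : ℝ) + (g / l - 1) = g / l := by ring
    rw [e1, Real.div_rpow hg hl.le, le_div_iff₀ (Real.rpow_pos_of_pos hl _)] at hb
    have e2 : l ^ (a + 1) = l ^ a * l := Real.rpow_add_one hl.ne' a
    rw [e2] at hb ⊢
    have e3 : (1 + (a + 1) * (g / l - 1)) * (l ^ a * l)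
        = (a + 1) * l ^ a * g - a * (l ^ a * l) := by
      field_simp
      ring
    linarith

lemma calib_cont_pow {a : ℝ} (ha : 1 < a) {lam : ℝ → ℝ} (cl : Continuous lam) :
    Continuous fun v => (a + 1) * lam v ^ a :=
  continuous_const.mul (cl.rpow_const fun _ => Or.inr (by linarith))

lemma calib_int {a t₁ : ℝ} {G : ℝ → ℝ} (ha : 1 < a) (cG : ContinuousOn G (Icc 0 t₁))
    {s t : ℝ} (hs : 0 ≤ s) (hst : s ≤ t) (ht : t ≤ t₁) :
    IntervalIntegrable (fun u => G u ^ (a + 1)) volume s t := by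
  apply ContinuousOn.intervalIntegrable
  rw [uIcc_of_le hst]
  exact (cG.mono (Icc_subset_Icc hs ht)).rpow_const fun _ _ => Or.inr (by linarith)

/-- the calibration inequality on a subinterval -/
lemma calib_cal {a t₁ E : ℝ} {y y' G lam : ℝ → ℝ} (ha : 1 < a)
    (hy : ∀ t ∈ Icc 0 t₁, HasDerivAt y (y' t) t) (cy : ContinuousOn y' (Icc 0 t₁))
    (cG : ContinuousOn G (Icc 0 t₁))
    (hG : ∀ t ∈ Icc 0 t₁, 0 ≤ G t ∧ y' t + √(1 - y t ^ 2) ≤ G t)
    (cl : Continuous lam) (l0 : ∀ v, 0 ≤ lam v)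
    (hE : ∀ t ∈ Icc 0 t₁,
      E ≤ (a + 1) * lam (y t) ^ a * √(1 - y t ^ 2) - a * lam (y t) ^ (a + 1))
    {s t : ℝ} (hs : 0 ≤ s) (hst : s ≤ t) (ht : t ≤ t₁) :
    E * (t - s) + (∫ v in y s..y t, (a + 1) * lam v ^ a) ≤ ∫ u in s..t, G u ^ (a + 1) := by
  have hsub : uIcc s t ⊆ Icc 0 t₁ := by
    rw [uIcc_of_le hst]; exact Icc_subset_Icc hs ht
  have cF := calib_cont_pow ha cl
  have e1 := intervalIntegral.integral_comp_mul_deriv (a := s) (b := t) (f := y) (f' := y')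
    (g := fun v => (a + 1) * lam v ^ a) (fun x hx => hy x (hsub hx)) (cy.mono hsub) cF
  have cyy : ContinuousOn y (uIcc s t) := fun x hx =>
    (hy x (hsub hx)).continuousAt.continuousWithinAt
  have i1 : IntervalIntegrable
      (fun x => ((fun v => (a + 1) * lam v ^ a) ∘ y) x * y' x) volume s t :=
    ((cF.comp_continuousOn cyy).mul (cy.mono hsub)).intervalIntegrable
  have e2 : E * (t - s) = ∫ _ in s..t, E := by
    rw [intervalIntegral.integral_const, smul_eq_mul, mul_comm]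
  rw [← e1, e2, ← intervalIntegral.integral_add intervalIntegrable_const i1]
  refine intervalIntegral.integral_mono_on hst (intervalIntegrable_const.add i1)
    (calib_int ha cG hs hst ht) fun x hx => ?_
  have hx' : x ∈ Icc 0 t₁ := Icc_subset_Icc hs ht hx
  have h1 := calib_tangent ha (l0 (y x)) (hG x hx').1
  have h2 := hE x hx'
  have h3 : 0 ≤ (a + 1) * lam (y x) ^ a :=
    mul_nonneg (by linarith) (Real.rpow_nonneg (l0 _) _)
  have h4 := mul_le_mul_of_nonneg_left (hG x hx').2 h3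
  simp only [Function.comp]
  nlinarith

lemma calib_even {f : ℝ → ℝ} (hf : ∀ v, f (-v) = f v) (μ : ℝ) :
    (∫ v in (-μ)..0, f v) = ∫ v in (0 : ℝ)..μ, f v := by
  have := intervalIntegral.integral_comp_neg (a := 0) (b := μ) f
  simp only [hf, neg_zero] at this
  exact this.symm

/-- rising leg with `fP`, falling leg with `fM` -/
lemma calib_legs {t₁ E μ ts : ℝ} {y H fP fM : ℝ → ℝ}
    (iH : ∀ s t, 0 ≤ s → s ≤ t → t ≤ t₁ → IntervalIntegrable H volume s t)
    (cP : Continuous fP) (cM : Continuous fM) (eP : ∀ v, fP (-v) = fP v)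
    (eM : ∀ v, fM (-v) = fM v) (P0 : ∀ v, 0 ≤ fP v) (M0 : ∀ v, 0 ≤ fM v)
    (hP : ∀ s t, 0 ≤ s → s ≤ t → t ≤ t₁ →
      E * (t - s) + (∫ v in y s..y t, fP v) ≤ ∫ u in s..t, H u)
    (hM : ∀ s t, 0 ≤ s → s ≤ t → t ≤ t₁ →
      E * (t - s) + (∫ v in y s..y t, fM v) ≤ ∫ u in s..t, H u)
    (y0 : y 0 = 0) (y1 : 0 ≤ y t₁) (hts : ts ∈ Icc 0 t₁) (hμ : y ts = μ ∨ y ts = -μ) :
    E * t₁ + ((∫ v in (0 : ℝ)..μ, fP v) - ∫ v in (0 : ℝ)..μ, fM v) ≤ ∫ u in (0 : ℝ)..t₁, H u := by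
  have split := intervalIntegral.integral_add_adjacent_intervals
    (iH 0 ts le_rfl hts.1 hts.2) (iH ts t₁ hts.1 hts.2 le_rfl)
  rcases hμ with h | h
  · have h1 := hP 0 ts le_rfl hts.1 hts.2
    have h2 := hM ts t₁ hts.1 hts.2 le_rfl
    rw [y0, h] at h1
    rw [h] at h2
    have s2 := intervalIntegral.integral_add_adjacent_intervals
      (cM.intervalIntegrable (μ := volume) 0 μ) (cM.intervalIntegrable μ (y t₁))
    have s3 : 0 ≤ ∫ v in (0 : ℝ)..y t₁, fM v :=
      intervalIntegral.integral_nonneg y1 fun v _ => M0 v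
    linarith
  · have h1 := hM 0 ts le_rfl hts.1 hts.2
    have h2 := hP ts t₁ hts.1 hts.2 le_rfl
    rw [y0, h, intervalIntegral.integral_symm, calib_even eM] at h1
    rw [h] at h2
    have s2 := intervalIntegral.integral_add_adjacent_intervals
      (cP.intervalIntegrable (μ := volume) (-μ) 0) (cP.intervalIntegrable 0 (y t₁))
    rw [calib_even eP] at s2
    have s3 : 0 ≤ ∫ v in (0 : ℝ)..y t₁, fP v :=
      intervalIntegral.integral_nonneg y1 fun v _ => P0 v
    linarith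

/-- the value `m0` -/
lemma calib_m0 {a : ℝ} (ha : 1 < a) :
    (∫ v in (0 : ℝ)..1, (a + 1) * ((a + 1) / a * √(1 - v ^ 2)) ^ a) = m0 a := by
  have cl : Continuous fun v : ℝ => (a + 1) / a * √(1 - v ^ 2) := by fun_prop
  have e1 := intervalIntegral.integral_comp_mul_deriv (a := 0) (b := π / 2) (f := sin) (f' := cos)
    (g := fun v => (a + 1) * ((a + 1) / a * √(1 - v ^ 2)) ^ a)
    (fun x _ => Real.hasDerivAt_sin x) Real.continuous_cos.continuousOn (calib_cont_pow ha cl)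
  rw [Real.sin_zero, Real.sin_pi_div_two] at e1
  rw [← e1, m0, ← intervalIntegral.integral_const_mul]
  refine intervalIntegral.integral_congr fun x hx => ?_
  rw [uIcc_of_le (by positivity)] at hx
  have hc : 0 ≤ cos x := Real.cos_nonneg_of_mem_Icc ⟨by linarith [hx.1, pi_pos], hx.2⟩
  have e2 : √(1 - sin x ^ 2) = cos x := by
    rw [← Real.cos_sq', Real.sqrt_sq hc]
  have e3 : cos x ^ (a + 1) = cos x ^ a * cos x := by
    rw [Real.rpow_add' hc (by linarith), Real.rpow_one]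
  simp only [Function.comp]
  rw [e2, e3, Real.mul_rpow (by positivity) hc]
  ring

/-- the energy of a root -/
lemma calib_root {a R r s : ℝ} (ha : 1 < a) (hR : 0 < R) (hr : 0 < r) (hk : kf a r = R * s) :
    (a + 1) * (r / R) ^ a * s - a * (r / R) ^ (a + 1) = R ^ (-(a + 1)) := by
  have hb : a + 1 ≠ 0 := by linarith
  have e1 : (a + 1) * (R * s) = a * r + r ^ (-a) := by
    rw [← hk, kf]; field_simp
  have hra : 0 < r ^ a := Real.rpow_pos_of_pos hr a
  have hRa : 0 < R ^ a := Real.rpow_pos_of_pos hR a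
  rw [Real.rpow_neg hr.le] at e1
  have e2 : s = (a * r + (r ^ a)⁻¹) / ((a + 1) * R) := by
    rw [← e1]; field_simp
  rw [Real.rpow_add_one (div_pos hr hR).ne', Real.div_rpow hr.le hR.le, Real.rpow_neg hR.le,
    Real.rpow_add_one hR.ne', e2]
  field_simp
  ring

theorem calib (h : RootsStmt) : CalibStmt := by
  intro a t₁ y y' G ha ht hy cy cG y0 hG
  have hG' : ∀ t ∈ Icc 0 t₁, 0 ≤ G t ∧ y' t + √(1 - y t ^ 2) ≤ G t := fun t ht => (hG t ht).2
  have iH : ∀ s t, 0 ≤ s → s ≤ t → t ≤ t₁ →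
      IntervalIntegrable (fun u => G u ^ (a + 1)) volume s t :=
    fun s t h1 h2 h3 => calib_int ha cG h1 h2 h3
  have ha0 : 0 < a := by linarith
  -- the case of full amplitude
  have full : ∀ ts ∈ Icc 0 t₁, (y ts = 1 ∨ y ts = -1) → 0 ≤ y t₁ →
      m0 a ≤ ∫ t in (0 : ℝ)..t₁, G t ^ (a + 1) := by
    intro ts hts hμ y1
    have cl : Continuous fun v : ℝ => (a + 1) / a * √(1 - v ^ 2) := by fun_prop
    have l0 : ∀ v : ℝ, 0 ≤ (a + 1) / a * √(1 - v ^ 2) := fun v => by positivity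
    have key := calib_legs (E := 0) (μ := 1) (y := y) (fM := fun _ => 0)
      (fP := fun v => (a + 1) * ((a + 1) / a * √(1 - v ^ 2)) ^ a) iH
      (calib_cont_pow ha cl) continuous_const (fun v => by rw [neg_sq]) (fun _ => rfl)
      (fun v => mul_nonneg (by linarith) (Real.rpow_nonneg (l0 v) _)) (fun _ => le_rfl)
      (fun s t h1 h2 h3 => calib_cal ha hy cy cG hG' cl l0 (fun u _ => by
        rw [Real.rpow_add' (l0 _) (by linarith), Real.rpow_one]
        apply le_of_eq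
        field_simp
        ring) h1 h2 h3)
      (fun s t h1 h2 h3 => by
        have : 0 ≤ ∫ u in s..t, G u ^ (a + 1) :=
          intervalIntegral.integral_nonneg h2 fun u hu =>
            Real.rpow_nonneg (hG' u (Icc_subset_Icc h1 h3 hu)).1 _
        simpa using this)
      y0 y1 hts hμ
    rw [calib_m0 ha] at key
    simpa using key
  refine ⟨fun h1 => full t₁ ⟨ht, le_rfl⟩ (Or.inl h1) (by rw [h1]; exact zero_le_one), fun h1 => ?_⟩
  have cyy : ContinuousOn y (Icc 0 t₁) := fun x hx => (hy x hx).continuousAt.continuousWithinAt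
  obtain ⟨ts, hts, hmax⟩ := isCompact_Icc.exists_isMaxOn (nonempty_Icc.2 ht) cyy.abs
  set μ := |y ts| with hμ
  have hle : ∀ t ∈ Icc 0 t₁, |y t| ≤ μ := fun t ht => hmax ht
  have hμ0 : 0 < μ := lt_of_lt_of_le h1 ((le_abs_self _).trans (hle t₁ ⟨ht, le_rfl⟩))
  have hμc : y ts = μ ∨ y ts = -μ := by
    rcases abs_cases (y ts) with h' | h'
    · left; rw [hμ, h'.1]
    · right; rw [hμ, h'.1, neg_neg]
  rcases (hG ts hts).1.eq_or_lt with e | hμ1
  · left
    refine full ts hts ?_ h1.le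
    rw [← hμ] at e
    rwa [e] at hμc
  right
  rw [← hμ] at hμ1
  obtain ⟨cp, cm, -, -, hr, -, -⟩ := h a ha
  have hq : 0 < 1 - μ ^ 2 := by nlinarith
  obtain ⟨R, hR, hRq⟩ : ∃ R : ℝ, 0 < R ∧ R ^ 2 * (1 - μ ^ 2) = 1 := by
    refine ⟨(√(1 - μ ^ 2))⁻¹, inv_pos.2 (Real.sqrt_pos.2 hq), ?_⟩
    rw [inv_pow, Real.sq_sqrt hq.le, inv_mul_cancel₀ hq.ne']
  have cx : Continuous fun v : ℝ => R * √(μ ^ 2 - v ^ 2) := by fun_prop
  have hkk : ∀ v : ℝ, |v| ≤ μ → kk (R * √(μ ^ 2 - v ^ 2)) = R * √(1 - v ^ 2) := by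
    intro v hv
    have hv2 : v ^ 2 ≤ μ ^ 2 := by rw [← sq_abs v]; exact pow_le_pow_left₀ (abs_nonneg v) hv 2
    have e1 : 1 + (R * √(μ ^ 2 - v ^ 2)) ^ 2 = R ^ 2 * (1 - v ^ 2) := by
      rw [mul_pow, Real.sq_sqrt (by linarith)]
      linear_combination -hRq
    rw [kk, e1, Real.sqrt_mul (sq_nonneg R), Real.sqrt_sq hR.le]
  have p0 : ∀ x, 0 < rp a x := fun x => lt_of_lt_of_le one_pos (hr x).1
  have m0' : ∀ x, 0 < rm a x := fun x => (hr x).2.1
  have clP : Continuous fun v : ℝ => rp a (R * √(μ ^ 2 - v ^ 2)) / R := (cp.comp cx).div_const R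
  have clM : Continuous fun v : ℝ => rm a (R * √(μ ^ 2 - v ^ 2)) / R := (cm.comp cx).div_const R
  have lP : ∀ v : ℝ, 0 ≤ rp a (R * √(μ ^ 2 - v ^ 2)) / R := fun v => (div_pos (p0 _) hR).le
  have lM : ∀ v : ℝ, 0 ≤ rm a (R * √(μ ^ 2 - v ^ 2)) / R := fun v => (div_pos (m0' _) hR).le
  have key := calib_legs (E := R ^ (-(a + 1))) (μ := μ) (y := y)
    (fP := fun v => (a + 1) * (rp a (R * √(μ ^ 2 - v ^ 2)) / R) ^ a)
    (fM := fun v => (a + 1) * (rm a (R * √(μ ^ 2 - v ^ 2)) / R) ^ a) iH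
    (calib_cont_pow ha clP) (calib_cont_pow ha clM) (fun v => by rw [neg_sq])
    (fun v => by rw [neg_sq])
    (fun v => mul_nonneg (by linarith) (Real.rpow_nonneg (lP v) _))
    (fun v => mul_nonneg (by linarith) (Real.rpow_nonneg (lM v) _))
    (fun s t h1 h2 h3 => calib_cal ha hy cy cG hG' clP lP (fun u hu =>
      (calib_root ha hR (p0 _) ((hr _).2.2.2.1.trans (hkk _ (hle u hu)))).ge) h1 h2 h3)
    (fun s t h1 h2 h3 => calib_cal ha hy cy cG hG' clM lM (fun u hu =>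
      (calib_root ha hR (m0' _) ((hr _).2.2.2.2.trans (hkk _ (hle u hu)))).ge) h1 h2 h3)
    y0 h1.le hts hμc
  refine ⟨R * μ, mul_pos hR hμ0, le_trans (le_of_eq ?_) key⟩
  have e1 : (1 + (R * μ) ^ 2) ^ (-(a + 1) / 2) = R ^ (-(a + 1)) := by
    have : 1 + (R * μ) ^ 2 = R ^ (2 : ℝ) := by
      rw [Real.rpow_two]; linear_combination -hRq
    rw [this, ← Real.rpow_mul hR.le]
    congr 1
    ring
  rw [Gam, e1, mul_add, ← intervalIntegral.integral_sub
    ((calib_cont_pow ha clP).intervalIntegrable _ _)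
    ((calib_cont_pow ha clM).intervalIntegrable _ _)]
  congr 1
  have cD := (calib_cont_pow ha clP).sub (calib_cont_pow ha clM)
  have e2 := intervalIntegral.integral_comp_mul_deriv (a := π / 2) (b := 0)
    (f := fun ξ => μ * cos ξ) (f' := fun ξ => μ * -sin ξ)
    (g := fun v => (a + 1) * (rp a (R * √(μ ^ 2 - v ^ 2)) / R) ^ a
      - (a + 1) * (rm a (R * √(μ ^ 2 - v ^ 2)) / R) ^ a)
    (fun x _ => (Real.hasDerivAt_cos x).const_mul μ) (by fun_prop) cD
  simp only [Real.cos_pi_div_two, Real.cos_zero, mul_zero, mul_one] at e2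
  rw [← e2, intervalIntegral.integral_symm, NN, ← intervalIntegral.integral_const_mul,
    ← intervalIntegral.integral_neg]
  refine intervalIntegral.integral_congr fun x hx => ?_
  rw [uIcc_of_le (by positivity)] at hx
  have hs : 0 ≤ sin x := Real.sin_nonneg_of_nonneg_of_le_pi hx.1 (by linarith [hx.2, pi_pos])
  have e3 : R * √(μ ^ 2 - (μ * cos x) ^ 2) = R * μ * sin x := by
    have : μ ^ 2 - (μ * cos x) ^ 2 = (μ * sin x) ^ 2 := by
      rw [mul_pow, mul_pow, Real.sin_sq]; ring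
    rw [this, Real.sqrt_sq (mul_nonneg hμ0.le hs), mul_assoc]
  have hRa : 0 < R ^ a := Real.rpow_pos_of_pos hR a
  simp only [Function.comp]
  rw [e3, SS, Real.div_rpow (p0 _).le hR.le, Real.div_rpow (m0' _).le hR.le, Real.rpow_neg hR.le,
    Real.rpow_add_one hR.ne']
  field_simp

end Pool.Agent.MP_d56274_gt
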