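import Pool.Agent.MP_d56274_gt.Spec

/-! The three cases for the minimum of `Gam`. -/

namespace Pool.Agent.MP_d56274_gt

open MeasureTheory Set Real Filter Topology

theorem cases_cont (ha : AbelStmt) {a : ℝ} (h : 1 < a) (Φ : ℝ) : Continuous (Gam a Φ) :=
  ((continuous_const.add (continuous_id.pow 2)).rpow_const fun x =>
    Or.inl (by positivity : (1 + x ^ 2 : ℝ) ≠ 0)).mul (continuous_const.add (ha a h).1)

theorem cases_zero (ha : AbelStmt) {a : ℝ} (h : 1 < a) (Φ : ℝ) : Gam a Φ 0 = Φ := by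
  simp [Gam, (ha a h).2.1]

theorem cases_fac {a X : ℝ} (h : 1 < a) (hX : 0 < X) :
    0 < (a + 1) * X * (1 + X ^ 2) ^ (-(a + 1) / 2 - 1) := by positivity

theorem cases_mono (ha : AbelStmt) {a Φ : ℝ} (h : 1 < a) {D : Set ℝ} (hD : Convex ℝ D)
    (hp : ∀ X ∈ interior D, 0 < X ∧ Φ < TT a X) : StrictMonoOn (Gam a Φ) D :=
  strictMonoOn_of_deriv_pos hD (cases_cont ha h Φ).continuousOn fun X hX => by
    rw [(((ha a h).2.2 X (hp X hX).1).2.2 Φ).deriv]
    exact mul_pos (cases_fac h (hp X hX).1) (sub_pos.2 (hp X hX).2)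

theorem cases_anti (ha : AbelStmt) {a Φ : ℝ} (h : 1 < a) {D : Set ℝ} (hD : Convex ℝ D)
    (hp : ∀ X ∈ interior D, 0 < X ∧ TT a X < Φ) : StrictAntiOn (Gam a Φ) D :=
  strictAntiOn_of_deriv_neg hD (cases_cont ha h Φ).continuousOn fun X hX => by
    rw [(((ha a h).2.2 X (hp X hX).1).2.2 Φ).deriv]
    exact mul_neg_of_pos_of_neg (cases_fac h (hp X hX).1) (sub_neg.2 (hp X hX).2)

theorem cases_up {G : ℝ → ℝ} {M m : ℝ} (hm : StrictMonoOn G (Ici M)) (hl : Tendsto G atTop (𝓝 m)) :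
    G M < m :=
  (hm self_mem_Ici (mem_Ici.2 (by linarith : M ≤ M + 1)) (by linarith)).trans_le
    (ge_of_tendsto hl ((eventually_ge_atTop (M + 1)).mono fun X hX =>
      hm.monotoneOn (mem_Ici.2 (by linarith)) (mem_Ici.2 (by linarith)) hX))

theorem cases_low (ha : AbelStmt) (ht : TLimStmt) {a Φ : ℝ} (h : 1 < a) (hΦ : Φ ≤ π * √a) :
    Φ < m0 a ∧ ∀ X, 0 < X → Φ ≤ Gam a Φ X := by
  have hm : StrictMonoOn (Gam a Φ) (Ici 0) := cases_mono ha h (convex_Ici 0) fun X hX => by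
    rw [interior_Ici] at hX
    exact ⟨hX, hΦ.trans_lt ((ht a h).1 X hX).1⟩
  have h1 := cases_up hm ((ht a h).2.2.2 Φ)
  rw [cases_zero ha h] at h1
  refine ⟨h1, fun X hX => ?_⟩
  have := hm.monotoneOn self_mem_Ici (mem_Ici.2 hX.le) hX.le
  rwa [cases_zero ha h] at this

theorem cases3 (hd : DerivStmt) (ha : AbelStmt) (ht : TLimStmt) : CasesStmt := by
  intro a Φ h hΦ
  refine ⟨(cases_low ha ht h (Φ := 0) (by positivity)).1, cases_low ha ht h, fun h2 => ?_,
    fun h1 h2 => ?_⟩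
  · have hm : StrictAntiOn (Gam a Φ) (Ici 0) := cases_anti ha h (convex_Ici 0) fun X hX => by
      rw [interior_Ici] at hX
      exact ⟨hX, ((ht a h).1 X hX).2.trans_le h2⟩
    have key : ∀ X, 0 < X → m0 a ≤ Gam a Φ X := fun X hX =>
      le_of_tendsto ((ht a h).2.2.2 Φ) ((eventually_ge_atTop X).mono fun Y hY =>
        hm.antitoneOn (mem_Ici.2 hX.le) (mem_Ici.2 (hX.le.trans hY)) hY)
    refine ⟨?_, key⟩
    have := hm self_mem_Ici (mem_Ici.2 zero_le_one) one_pos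
    rw [cases_zero ha h] at this
    exact (key 1 one_pos).trans_lt this
  · obtain ⟨d, hd0, hd1⟩ := (nhdsGT_basis (0 : ℝ)).eventually_iff.1
      ((ht a h).2.1.eventually (gt_mem_nhds h1))
    obtain ⟨M, hM⟩ := eventually_atTop.1
      (((ht a h).2.2.1.eventually (lt_mem_nhds h2)).and (eventually_ge_atTop d))
    have hdM : d ≤ M := (hM M le_rfl).2
    have hA : StrictAntiOn (Gam a Φ) (Icc 0 d) := cases_anti ha h (convex_Icc 0 d) fun X hX => by
      rw [interior_Icc] at hX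
      exact ⟨hX.1, hd1 hX⟩
    have hB : StrictMonoOn (Gam a Φ) (Ici M) := cases_mono ha h (convex_Ici M) fun X hX => by
      rw [interior_Ici] at hX
      exact ⟨(hd0.trans_le hdM).trans hX, (hM X (le_of_lt hX)).1⟩
    obtain ⟨X, hX, hmin⟩ := (isCompact_Icc (a := (0 : ℝ)) (b := M)).exists_isMinOn
      ⟨0, le_rfl, hd0.le.trans hdM⟩ (cases_cont ha h Φ).continuousOn
    have e1 : Gam a Φ X < Φ := by
      have := hA (left_mem_Icc.2 hd0.le) (right_mem_Icc.2 hd0.le) hd0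
      rw [cases_zero ha h] at this
      exact (isMinOn_iff.1 hmin d ⟨hd0.le, hdM⟩).trans_lt this
    have e2 : Gam a Φ X ≤ Gam a Φ M := isMinOn_iff.1 hmin M ⟨hd0.le.trans hdM, le_rfl⟩
    have hX0 : 0 < X := hX.1.lt_of_ne fun e => by
      rw [← e, cases_zero ha h] at e1
      exact lt_irrefl _ e1
    have e3 : ∀ Y, 0 < Y → Gam a Φ X ≤ Gam a Φ Y := fun Y hY => by
      rcases le_total Y M with k | k
      · exact isMinOn_iff.1 hmin Y ⟨hY.le, k⟩
      · exact e2.trans (hB.monotoneOn self_mem_Ici (mem_Ici.2 k) k)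
    have e4 : IsLocalMin (Gam a Φ) X := (lt_mem_nhds hX0).mono e3
    have e5 := e4.hasDerivAt_eq_zero (((ha a h).2.2 X hX0).2.2 Φ)
    have e6 : 0 ≤ NN a X := intervalIntegral.integral_nonneg (by positivity) fun ξ hξ =>
      mul_nonneg (mul_nonneg hX0.le (sin_nonneg_of_nonneg_of_le_pi hξ.1
        (hξ.2.trans (by linarith [pi_pos])))) ((hd a h).2.2.2.2.2.2.2.1 _).1
    refine ⟨X, hX0, sub_eq_zero.1 ((mul_eq_zero.1 e5).resolve_left (cases_fac h hX0).ne'), ?_, e1,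
      e2.trans_lt (cases_up hB ((ht a h).2.2.2 Φ)), e3⟩
    unfold Gam
    positivity

end Pool.Agent.MP_d56274_gt
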