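import Mathlib
import Pool.Agent.MP_d56274_gt.Spec

/-! CAUCHY (note 4): a calibration inequality for a plane curve. -/

namespace Pool.Agent.MP_d56274_gt

open MeasureTheory Set Real Filter Topology

/-- Fubini over the region `s ≤ σ t`. -/
lemma cau_swap {s₀ s₁ m : ℝ} (σ : ℝ → ℝ) (hσ : Measurable σ) (hr : ∀ t, σ t ∈ Icc s₀ s₁)
    (f h : ℝ → ℝ) (hf : IntegrableOn f (Ioc s₀ s₁)) (hh : IntegrableOn h (Ioc 0 m)) :
    IntegrableOn (fun s => f s * ∫ t in Ioc 0 m, indicator {t | s ≤ σ t} h t) (Ioc s₀ s₁) ∧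
    IntegrableOn (fun t => h t * ∫ s in s₀..σ t, f s) (Ioc 0 m) ∧
    (∫ s in Ioc s₀ s₁, f s * ∫ t in Ioc 0 m, indicator {t | s ≤ σ t} h t)
      = ∫ t in Ioc 0 m, h t * ∫ s in s₀..σ t, f s := by
  have hS : MeasurableSet {z : ℝ × ℝ | z.1 ≤ σ z.2} :=
    measurableSet_le measurable_fst (hσ.comp measurable_snd)
  have hI : Integrable (indicator {z : ℝ × ℝ | z.1 ≤ σ z.2} (fun z => f z.1 * h z.2))
      ((volume.restrict (Ioc s₀ s₁)).prod (volume.restrict (Ioc 0 m))) :=
    (Integrable.mul_prod hf hh).indicator hS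
  have e1 : ∀ s, (∫ t in Ioc 0 m,
      indicator {z : ℝ × ℝ | z.1 ≤ σ z.2} (fun z => f z.1 * h z.2) (s, t))
      = f s * ∫ t in Ioc 0 m, indicator {t | s ≤ σ t} h t := by
    intro s
    rw [← integral_const_mul]
    congr 1
    ext t
    by_cases hst : s ≤ σ t
    · simp [indicator, hst]
    · simp [indicator, hst]
  have e2 : ∀ t, (∫ s in Ioc s₀ s₁,
      indicator {z : ℝ × ℝ | z.1 ≤ σ z.2} (fun z => f z.1 * h z.2) (s, t))
      = h t * ∫ s in s₀..σ t, f s := by
    intro t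
    have : (fun s => indicator {z : ℝ × ℝ | z.1 ≤ σ z.2} (fun z => f z.1 * h z.2) (s, t))
        = fun s => h t * indicator (Iic (σ t)) f s := by
      ext s
      by_cases hst : s ≤ σ t
      · simp [indicator, hst, mul_comm]
      · simp [indicator, hst]
    rw [this, integral_const_mul, integral_indicator measurableSet_Iic,
      Measure.restrict_restrict measurableSet_Iic, intervalIntegral.integral_of_le (hr t).1]
    congr 3
    ext s
    simp only [mem_inter_iff, mem_Iic, mem_Ioc]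
    constructor
    · rintro ⟨h1, h2, _⟩; exact ⟨h2, h1⟩
    · rintro ⟨h1, h2⟩; exact ⟨h2, h1, h2.trans (hr t).2⟩
  refine ⟨?_, ?_, ?_⟩
  · have := hI.integral_prod_left
    simp only [e1] at this
    exact this
  · have := hI.integral_prod_right
    simp only [e2] at this
    exact this
  · have := integral_integral_swap
      (f := fun s t => indicator {z : ℝ × ℝ | z.1 ≤ σ z.2} (fun z => f z.1 * h z.2) (s, t)) hI
    simp only [e1, e2] at this
    exact this

/-- The set `s ≤ σ t` is an initial interval. -/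
lemma cau_init {m : ℝ} (hm : 0 ≤ m) (σ : ℝ → ℝ) (hσ : Antitone σ) (s : ℝ) :
    ∃ τ ∈ Icc 0 m, ∀ h : ℝ → ℝ,
      (∫ t in Ioc 0 m, indicator {t | s ≤ σ t} h t) = ∫ t in (0 : ℝ)..τ, h t := by
  have hmeas : MeasurableSet {t | s ≤ σ t} := measurableSet_le measurable_const hσ.measurable
  set A : Set ℝ := {0} ∪ ({t | s ≤ σ t} ∩ Ioc 0 m) with hA
  have hne : A.Nonempty := ⟨0, Or.inl rfl⟩
  have hub : ∀ t ∈ A, t ≤ m := by
    rintro t (ht | ht)
    · rw [mem_singleton_iff.mp ht]; exact hm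
    · exact ht.2.2
  have hbd : BddAbove A := ⟨m, hub⟩
  have h0 : 0 ≤ sSup A := le_csSup hbd (Or.inl rfl)
  refine ⟨sSup A, ⟨h0, csSup_le hne hub⟩, fun h => ?_⟩
  rw [integral_indicator hmeas, Measure.restrict_restrict hmeas,
    intervalIntegral.integral_of_le h0]
  refine setIntegral_congr_set ?_
  have hne' : ∀ᵐ t : ℝ, t ≠ sSup A := by
    rw [ae_iff]; simp
  filter_upwards [hne'] with t ht
  apply propext
  constructor
  · intro hx
    exact ⟨hx.2.1, le_csSup hbd (Or.inr hx)⟩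
  · intro hx
    have hlt : t < sSup A := lt_of_le_of_ne hx.2 ht
    obtain ⟨t', ht', htt⟩ := exists_lt_of_lt_csSup hne hlt
    rcases ht' with ht' | ht'
    · rw [mem_singleton_iff.mp ht'] at htt
      exact absurd hx.1 (not_lt.mpr htt.le)
    · exact ⟨le_trans ht'.1 (hσ htt.le), hx.1, htt.le.trans ht'.2.2⟩

lemma cau_cs (a b c d : ℝ) (h : c ^ 2 + d ^ 2 ≤ 1) : -(b * c - a * d) ≤ √(a ^ 2 + b ^ 2) := by
  apply Real.le_sqrt_of_sq_le
  nlinarith [sq_nonneg (a * c + b * d), mul_nonneg (add_nonneg (sq_nonneg a) (sq_nonneg b))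
    (sub_nonneg.mpr h)]

theorem cauchy : CauchyStmt := by
  intro s₀ s₁ m X Y X' Y' σ u g y w y' w' hs hm hX hY cX cY hY1 hσ hσr hu hg hc
  -- clipped version of σ
  set σe : ℝ → ℝ := fun t => σ (max 0 (min m t)) with hσe
  have hclip : ∀ t, max 0 (min m t) ∈ Icc 0 m := fun t =>
    ⟨le_max_left _ _, max_le hm (min_le_left _ _)⟩
  have hanti : Antitone σe := fun a b hab =>
    hσ (hclip a) (hclip b) (max_le_max le_rfl (min_le_min le_rfl hab))
  have hσer : ∀ t, σe t ∈ Icc s₀ s₁ := fun t => hσr _ (hclip t)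
  have hσeq : ∀ t ∈ Icc 0 m, σe t = σ t := fun t ht => by
    simp only [hσe, min_eq_right ht.2, max_eq_right ht.1]
  set C : ℝ → ℝ := fun t => w t * cos t - y t * sin t with hC
  set S : ℝ → ℝ := fun t => w t * sin t + y t * cos t with hS
  set C' : ℝ → ℝ := fun t => w' t * cos t - w t * sin t - (y' t * sin t + y t * cos t) with hC'
  set S' : ℝ → ℝ := fun t => w' t * sin t + w t * cos t + (y' t * cos t - y t * sin t) with hS'
  have cy : ContinuousOn y (Icc 0 m) := fun t ht => (hc.hy t ht).continuousAt.continuousWithinAt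
  have cw : ContinuousOn w (Icc 0 m) := fun t ht => (hc.hw t ht).continuousAt.continuousWithinAt
  have cy' := hc.cy
  have cw' := hc.cw
  have cC' : ContinuousOn C' (Icc 0 m) := by
    rw [hC']; fun_prop
  have cS' : ContinuousOn S' (Icc 0 m) := by
    rw [hS']; fun_prop
  have dC : ∀ t ∈ Icc 0 m, HasDerivAt C (C' t) t := fun t ht => by
    refine (((hc.hw t ht).mul (hasDerivAt_cos t)).sub
      ((hc.hy t ht).mul (hasDerivAt_sin t))).congr_deriv ?_
    simp only [hC']; ring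
  have dS : ∀ t ∈ Icc 0 m, HasDerivAt S (S' t) t := fun t ht => by
    refine (((hc.hw t ht).mul (hasDerivAt_sin t)).add
      ((hc.hy t ht).mul (hasDerivAt_cos t))).congr_deriv ?_
    simp only [hS']; ring
  have fC : ∀ τ ∈ Icc 0 m, (∫ t in (0 : ℝ)..τ, C' t) = C τ - C 0 := fun τ hτ => by
    have hsub : uIcc 0 τ ⊆ Icc 0 m := by
      rw [uIcc_of_le hτ.1]; exact Icc_subset_Icc le_rfl hτ.2
    exact intervalIntegral.integral_eq_sub_of_hasDerivAt (fun t ht => dC t (hsub ht))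
      ((cC'.mono hsub).intervalIntegrable)
  have fS : ∀ τ ∈ Icc 0 m, (∫ t in (0 : ℝ)..τ, S' t) = S τ - S 0 := fun τ hτ => by
    have hsub : uIcc 0 τ ⊆ Icc 0 m := by
      rw [uIcc_of_le hτ.1]; exact Icc_subset_Icc le_rfl hτ.2
    exact intervalIntegral.integral_eq_sub_of_hasDerivAt (fun t ht => dS t (hsub ht))
      ((cS'.mono hsub).intervalIntegrable)
  have fX : ∀ r ∈ Icc s₀ s₁, (∫ s in s₀..r, X' s) = X r - X s₀ := fun r hr => by
    have hsub : uIcc s₀ r ⊆ Icc s₀ s₁ := by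
      rw [uIcc_of_le hr.1]; exact Icc_subset_Icc le_rfl hr.2
    exact intervalIntegral.integral_eq_sub_of_hasDerivAt (fun t ht => hX t (hsub ht))
      ((cX.mono hsub).intervalIntegrable)
  have fY : ∀ r ∈ Icc s₀ s₁, (∫ s in s₀..r, Y' s) = Y r - Y s₀ := fun r hr => by
    have hsub : uIcc s₀ r ⊆ Icc s₀ s₁ := by
      rw [uIcc_of_le hr.1]; exact Icc_subset_Icc le_rfl hr.2
    exact intervalIntegral.integral_eq_sub_of_hasDerivAt (fun t ht => hY t (hsub ht))
      ((cY.mono hsub).intervalIntegrable)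
  have iX : IntegrableOn X' (Ioc s₀ s₁) := cX.integrableOn_Icc.mono_set Ioc_subset_Icc_self
  have iY : IntegrableOn Y' (Ioc s₀ s₁) := cY.integrableOn_Icc.mono_set Ioc_subset_Icc_self
  have iC : IntegrableOn C' (Ioc 0 m) := cC'.integrableOn_Icc.mono_set Ioc_subset_Icc_self
  have iS : IntegrableOn S' (Ioc 0 m) := cS'.integrableOn_Icc.mono_set Ioc_subset_Icc_self
  obtain ⟨a1, a2, a3⟩ := cau_swap σe hanti.measurable hσer Y' C' iY iC
  obtain ⟨b1, b2, b3⟩ := cau_swap σe hanti.measurable hσer X' S' iX iS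
  have hS0 : S 0 = 0 := by simp [hS, hc.y0]
  -- pointwise bound
  have hpt : ∀ s, -(Y' s * C 0 + Y' s * (∫ t in Ioc 0 m, indicator {t | s ≤ σe t} C' t)
      - X' s * (∫ t in Ioc 0 m, indicator {t | s ≤ σe t} S' t)) ≤ √(X' s ^ 2 + Y' s ^ 2) := by
    intro s
    obtain ⟨τ, hτ, hτe⟩ := cau_init hm σe hanti s
    rw [hτe, hτe, fC τ hτ, fS τ hτ, hS0]
    have h1 : C τ ^ 2 + S τ ^ 2 ≤ 1 := by
      have h2 := hc.sq τ hτ
      have h3 := sin_sq_add_cos_sq τ
      have : C τ ^ 2 + S τ ^ 2 = (y τ ^ 2 + w τ ^ 2) * (sin τ ^ 2 + cos τ ^ 2) := by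
        simp only [hC, hS]; ring
      rw [this, h3, mul_one]; exact h2
    have := cau_cs (X' s) (Y' s) (C τ) (S τ) h1
    convert this using 2
    ring
  have iL : IntegrableOn (fun s => √(X' s ^ 2 + Y' s ^ 2)) (Ioc s₀ s₁) := by
    have : ContinuousOn (fun s => √(X' s ^ 2 + Y' s ^ 2)) (Icc s₀ s₁) := by fun_prop
    exact this.integrableOn_Icc.mono_set Ioc_subset_Icc_self
  have a1' : IntegrableOn (fun s => Y' s * C 0
      + Y' s * (∫ t in Ioc 0 m, indicator {t | s ≤ σe t} C' t)) (Ioc s₀ s₁) :=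
    (iY.mul_const (C 0)).add a1
  have hmain : (∫ s in Ioc s₀ s₁, -(Y' s * C 0
      + Y' s * (∫ t in Ioc 0 m, indicator {t | s ≤ σe t} C' t)
      - X' s * (∫ t in Ioc 0 m, indicator {t | s ≤ σe t} S' t)))
      ≤ ∫ s in Ioc s₀ s₁, √(X' s ^ 2 + Y' s ^ 2) :=
    integral_mono (a1'.sub b1).neg iL hpt
  have hY0 : (∫ s in Ioc s₀ s₁, Y' s) = -Y s₀ := by
    rw [← intervalIntegral.integral_of_le hs, fY s₁ ⟨hs, le_rfl⟩, hY1]; ring
  have eL : (∫ s in Ioc s₀ s₁, -(Y' s * C 0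
      + Y' s * (∫ t in Ioc 0 m, indicator {t | s ≤ σe t} C' t)
      - X' s * (∫ t in Ioc 0 m, indicator {t | s ≤ σe t} S' t)))
      = Y s₀ * C 0 - ((∫ t in Ioc 0 m, C' t * ∫ s in s₀..σe t, Y' s)
        - ∫ t in Ioc 0 m, S' t * ∫ s in s₀..σe t, X' s) := by
    rw [integral_neg, integral_sub a1' b1,
      integral_add (iY.mul_const (C 0)) a1, integral_mul_const, hY0, a3, b3]
    ring
  -- the `t` integrals
  have hk : ∀ t ∈ Ioo 0 m, -((C' t * ∫ s in s₀..σe t, Y' s) - S' t * ∫ s in s₀..σe t, X' s)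
      - (Y s₀ * C' t - X s₀ * S' t) = u t * (y' t + w t) := by
    intro t ht
    have ht' : t ∈ Icc 0 m := Ioo_subset_Icc_self ht
    rw [fY _ (hσer t), fX _ (hσer t), hσeq t ht', (hu t ht).2.1, (hu t ht).2.2]
    have h3 := sin_sq_add_cos_sq t
    simp only [hC', hS']
    linear_combination (u t * (y' t + w t)) * h3
  have k1 : IntegrableOn (fun t => -((C' t * ∫ s in s₀..σe t, Y' s)
      - S' t * ∫ s in s₀..σe t, X' s)) (Ioc 0 m) := (a2.sub b2).neg
  have k2 : IntegrableOn (fun t => Y s₀ * C' t - X s₀ * S' t) (Ioc 0 m) :=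
    (iC.const_mul _).sub (iS.const_mul _)
  have iK : IntegrableOn (fun t => -((C' t * ∫ s in s₀..σe t, Y' s)
      - S' t * ∫ s in s₀..σe t, X' s) - (Y s₀ * C' t - X s₀ * S' t)) (Ioc 0 m) :=
    k1.sub k2
  have eK : (∫ t in Ioc 0 m, (-((C' t * ∫ s in s₀..σe t, Y' s)
      - S' t * ∫ s in s₀..σe t, X' s) - (Y s₀ * C' t - X s₀ * S' t)))
      = -((∫ t in Ioc 0 m, C' t * ∫ s in s₀..σe t, Y' s)
        - ∫ t in Ioc 0 m, S' t * ∫ s in s₀..σe t, X' s)
        - (Y s₀ * (C m - C 0) - X s₀ * S m) := by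
    rw [integral_sub k1 k2, integral_neg,
      integral_sub a2 b2, integral_sub (iC.const_mul _) (iS.const_mul _), integral_const_mul,
      integral_const_mul, ← intervalIntegral.integral_of_le hm (f := C'),
      ← intervalIntegral.integral_of_le hm (f := S'), fC m ⟨hm, le_rfl⟩, fS m ⟨hm, le_rfl⟩, hS0,
      sub_zero]
  -- integrability of `g * u`
  have cXX : ContinuousOn X (Icc s₀ s₁) := fun t ht => (hX t ht).continuousAt.continuousWithinAt
  have cYY : ContinuousOn Y (Icc s₀ s₁) := fun t ht => (hY t ht).continuousAt.continuousWithinAt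
  have cgc : ContinuousOn (fun t => g t * cos t) (Icc 0 m) := by fun_prop
  have cgs : ContinuousOn (fun t => g t * sin t) (Icc 0 m) := by fun_prop
  have igc : IntegrableOn (fun t => g t * cos t) (Ioc 0 m) :=
    cgc.integrableOn_Icc.mono_set Ioc_subset_Icc_self
  have igs : IntegrableOn (fun t => g t * sin t) (Ioc 0 m) :=
    cgs.integrableOn_Icc.mono_set Ioc_subset_Icc_self
  obtain ⟨-, c2, -⟩ := cau_swap σe hanti.measurable hσer X' _ iX igc
  obtain ⟨-, d2, -⟩ := cau_swap σe hanti.measurable hσer Y' _ iY igs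
  have hae : ∀ᵐ t ∂(volume.restrict (Ioc 0 m)), t ∈ Ioo 0 m := by
    rw [← Measure.restrict_congr_set Ioo_ae_eq_Ioc]
    exact ae_restrict_mem measurableSet_Ioo
  have igu : IntegrableOn (fun t => g t * u t) (Ioc 0 m) := by
    refine (((c2.add d2).add (igc.mul_const (X s₀))).add (igs.mul_const (Y s₀))).congr ?_
    filter_upwards [hae] with t ht
    have ht' : t ∈ Icc 0 m := Ioo_subset_Icc_self ht
    simp only [Pi.add_apply]
    rw [fY _ (hσer t), fX _ (hσer t), hσeq t ht', (hu t ht).2.1, (hu t ht).2.2]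
    have h3 := sin_sq_add_cos_sq t
    linear_combination (g t * u t) * h3
  have hgu : (∫ t in Ioc 0 m, g t * u t) ≤ ∫ t in Ioc 0 m, (-((C' t * ∫ s in s₀..σe t, Y' s)
      - S' t * ∫ s in s₀..σe t, X' s) - (Y s₀ * C' t - X s₀ * S' t)) := by
    refine integral_mono_ae igu iK ?_
    filter_upwards [hae] with t ht
    rw [hk t ht, mul_comm]
    exact mul_le_mul_of_nonneg_left (hc.ge t (Ioo_subset_Icc_self ht)) (hu t ht).1
  rw [intervalIntegral.integral_of_le hm, intervalIntegral.integral_of_le hs]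
  rw [eK] at hgu
  rw [eL] at hmain
  have e5 : C m = w m * cos m - y m * sin m := rfl
  have e6 : S m = w m * sin m + y m * cos m := rfl
  rw [← e5, ← e6]
  linarith

end Pool.Agent.MP_d56274_gt
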