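import Pool.Agent.MP_d56274_gt.Spec

/-! Existence of the control. -/

namespace Pool.Agent.MP_d56274_gt

open MeasureTheory Set Real Filter Topology

noncomputable def ctrl_cc (e y : ℝ) : ℝ := √(1 - y ^ 2 + e ^ 2) - e

noncomputable def ctrl_clip (y : ℝ) : ℝ := max (-1) (min y 1)

theorem ctrl_clip_abs (y : ℝ) : |ctrl_clip y| ≤ 1 :=
  abs_le.2 ⟨le_max_left _ _, max_le (by norm_num) (min_le_right _ _)⟩

theorem ctrl_clip_of {y : ℝ} (h : |y| ≤ 1) : ctrl_clip y = y := by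
  rw [ctrl_clip, min_eq_left (abs_le.1 h).2, max_eq_right (abs_le.1 h).1]

theorem ctrl_clip_lip (x y : ℝ) : |ctrl_clip x - ctrl_clip y| ≤ |x - y| := by
  refine (abs_max_sub_max_le_max _ _ _ _).trans (max_le (by simp) ?_)
  exact (abs_min_sub_min_le_max _ _ _ _).trans (max_le le_rfl (by simp))

theorem ctrl_cc_facts {e y : ℝ} (he : 0 < e) (h : |y| ≤ 1) :
    0 ≤ ctrl_cc e y ∧ ctrl_cc e y ≤ 1 ∧ y ^ 2 + ctrl_cc e y ^ 2 ≤ 1 ∧
      √(1 - y ^ 2) ≤ ctrl_cc e y + e := by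
  have h1 : 0 ≤ 1 - y ^ 2 := by nlinarith [abs_le.1 h]
  have h2 : e ≤ √(1 - y ^ 2 + e ^ 2) := Real.le_sqrt_of_sq_le (by linarith)
  have h3 := Real.sq_sqrt (by positivity : 0 ≤ 1 - y ^ 2 + e ^ 2)
  have h4 : y ^ 2 + ctrl_cc e y ^ 2 ≤ 1 := by unfold ctrl_cc; nlinarith
  have h5 : 0 ≤ ctrl_cc e y := by unfold ctrl_cc; linarith
  refine ⟨h5, by nlinarith [sq_nonneg y], h4, ?_⟩
  unfold ctrl_cc
  rw [sub_add_cancel]
  exact Real.sqrt_le_sqrt (by nlinarith)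

theorem ctrl_cc_lip {e x y : ℝ} (he : 0 < e) (hx : |x| ≤ 1) (hy : |y| ≤ 1) :
    |ctrl_cc e x - ctrl_cc e y| ≤ 1 / e * |x - y| := by
  have x1 : 0 ≤ 1 - x ^ 2 := by nlinarith [abs_le.1 hx]
  have y1 : 0 ≤ 1 - y ^ 2 := by nlinarith [abs_le.1 hy]
  have x2 : e ≤ √(1 - x ^ 2 + e ^ 2) := Real.le_sqrt_of_sq_le (by linarith)
  have y2 : e ≤ √(1 - y ^ 2 + e ^ 2) := Real.le_sqrt_of_sq_le (by linarith)
  have x3 := Real.sq_sqrt (by positivity : 0 ≤ 1 - x ^ 2 + e ^ 2)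
  have y3 := Real.sq_sqrt (by positivity : 0 ≤ 1 - y ^ 2 + e ^ 2)
  have e1 : (ctrl_cc e x - ctrl_cc e y) * (√(1 - x ^ 2 + e ^ 2) + √(1 - y ^ 2 + e ^ 2)) =
      (x - y) * (-(x + y)) := by unfold ctrl_cc; nlinarith
  have e2 := congrArg abs e1
  rw [abs_mul, abs_mul, abs_neg,
    abs_of_pos (by linarith : 0 < √(1 - x ^ 2 + e ^ 2) + √(1 - y ^ 2 + e ^ 2))] at e2
  have e3 : |x + y| ≤ 2 := (abs_add_le x y).trans (by linarith)
  have e4 := mul_le_mul_of_nonneg_left e3 (abs_nonneg (x - y))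
  have e5 := mul_le_mul_of_nonneg_left (add_le_add x2 y2) (abs_nonneg (ctrl_cc e x - ctrl_cc e y))
  rw [one_div, inv_mul_eq_div, le_div_iff₀ he]
  linarith

theorem ctrl_ode {t₁ e : ℝ} {g : ℝ → ℝ} (ht : 0 ≤ t₁) (he : 0 < e) (hg : Continuous g) :
    ∃ y : ℝ → ℝ, y 0 = 0 ∧
      ∀ t ∈ Icc 0 t₁, HasDerivAt y (g t - ctrl_cc e (ctrl_clip (y t))) t := by
  obtain ⟨M, hM⟩ := (isCompact_Icc (a := (-1 : ℝ)) (b := t₁ + 1)).exists_bound_of_continuousOn
    hg.continuousOn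
  have hM0 : 0 ≤ M := (norm_nonneg _).trans (hM 0 ⟨by norm_num, by linarith⟩)
  have P : IsPicardLindelof (fun t y => g t - ctrl_cc e (ctrl_clip y))
      (tmin := -1) (tmax := t₁ + 1) ⟨0, by norm_num, by linarith⟩ (0 : ℝ)
      ⟨(M + 1) * (t₁ + 1), by positivity⟩ 0 ⟨M + 1, by positivity⟩ ⟨1 / e, by positivity⟩ := by
    refine ⟨fun t _ => LipschitzOnWith.of_dist_le_mul fun x _ y _ => ?_,
      fun x _ => (hg.sub continuous_const).continuousOn, fun t h x _ => ?_, ?_⟩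
    · rw [Real.dist_eq, Real.dist_eq, sub_sub_sub_cancel_left, abs_sub_comm]
      exact (ctrl_cc_lip he (ctrl_clip_abs x) (ctrl_clip_abs y)).trans
        (mul_le_mul_of_nonneg_left (ctrl_clip_lip x y) (by positivity))
    · obtain ⟨a, b, -⟩ := ctrl_cc_facts he (ctrl_clip_abs x)
      refine (norm_sub_le _ _).trans (add_le_add (hM t h) ?_)
      rw [Real.norm_eq_abs, abs_of_nonneg a]; exact b
    · change (M + 1) * max (t₁ + 1 - 0) (0 - -1) ≤ (M + 1) * (t₁ + 1) - 0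
      rw [max_eq_left (by linarith)]
      linarith
  obtain ⟨y, h0, hy⟩ := P.exists_eq_forall_mem_Icc_hasDerivWithinAt₀
  exact ⟨y, h0, fun t h => (hy t ⟨by linarith [h.1], by linarith [h.2]⟩).hasDerivAt
    (Icc_mem_nhds (by linarith [h.1]) (by linarith [h.2]))⟩

theorem ctrl_eps {a t₁ c : ℝ} {g : ℝ → ℝ} (ha : 1 < a) (hg : Continuous g)
    (h : (∫ t in (0 : ℝ)..t₁, g t ^ (a + 1)) < c) :
    ∃ e, 0 < e ∧ (∫ t in (0 : ℝ)..t₁, (g t + e) ^ (a + 1)) < c := by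
  have hc : Continuous fun e : ℝ => ∫ t in (0 : ℝ)..t₁, (g t + e) ^ (a + 1) := by
    refine intervalIntegral.continuous_parametric_intervalIntegral_of_continuous' ?_ _ _
    exact ((hg.comp continuous_snd).add continuous_fst).rpow_const fun _ => Or.inr (by linarith)
  have h1 : ∀ᶠ e in 𝓝 (0 : ℝ), (∫ t in (0 : ℝ)..t₁, (g t + e) ^ (a + 1)) < c :=
    hc.continuousAt.eventually_lt continuousAt_const (by simpa using h)
  obtain ⟨e, he1, he2⟩ := ((h1.filter_mono nhdsWithin_le_nhds).and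
    (self_mem_nhdsWithin (s := Ioi (0 : ℝ)))).exists
  exact ⟨e, he2, he1⟩

theorem ctrl (h : CalibStmt) : CtrlStmt := by
  intro a t₁ c g ha ht hg hg0 hI hc
  obtain ⟨e, he, hIe⟩ := ctrl_eps ha hg hI
  obtain ⟨y, y0, hy⟩ := ctrl_ode ht he hg
  have yc : ContinuousOn y (Icc 0 t₁) := fun t h => (hy t h).continuousAt.continuousWithinAt
  have low : ∀ t ∈ Icc 0 t₁, -1 ≤ y t := by
    intro t htt
    have : ∀ δ, 0 < δ → -y t ≤ 1 + δ + δ * t := by
      intro δ hδ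
      refine image_le_of_deriv_right_lt_deriv_boundary (f := fun t => -y t)
        (f' := fun t => -(g t - ctrl_cc e (ctrl_clip (y t)))) (a := 0) (b := t₁) yc.neg
        (fun x hx => (hy x ⟨hx.1, hx.2.le⟩).neg.hasDerivWithinAt)
        (B := fun t => 1 + δ + δ * t) (B' := fun _ => δ) (by rw [y0]; linarith)
        (fun x => by simpa using ((hasDerivAt_id x).const_mul δ).const_add (1 + δ))
        (fun x hx hB => ?_) htt
      have h1 : y x ≤ -1 := by nlinarith [hx.1]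
      have h2 : ctrl_clip (y x) = -1 := max_eq_left ((min_le_left _ _).trans h1)
      have h3 : ctrl_cc e (-1) = 0 := by
        unfold ctrl_cc
        rw [show (1 : ℝ) - (-1) ^ 2 + e ^ 2 = e ^ 2 by ring, Real.sqrt_sq he.le, sub_self]
      rw [h2, h3]
      linarith [hg0 x]
    by_contra hcon
    have hcon := not_le.1 hcon
    have h1 : 0 < 1 + t := by linarith [htt.1]
    have h2 := this ((-1 - y t) / (2 * (1 + t))) (div_pos (by linarith) (by positivity))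
    have h3 : (-1 - y t) / (2 * (1 + t)) + (-1 - y t) / (2 * (1 + t)) * t = (-1 - y t) / 2 := by
      field_simp
    linarith
  have cc_cont : Continuous fun u => ctrl_cc e (ctrl_clip u) := by
    unfold ctrl_cc ctrl_clip; fun_prop
  have y'c : ContinuousOn (fun t => g t - ctrl_cc e (ctrl_clip (y t))) (Icc 0 t₁) :=
    hg.continuousOn.sub (cc_cont.comp_continuousOn yc)
  have Gc : Continuous fun t => g t + e := hg.add continuous_const
  have cal : ∀ s ∈ Icc 0 t₁, (∀ t ∈ Icc 0 s, y t ≤ 1) →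
      (y s = 1 → m0 a ≤ ∫ t in (0 : ℝ)..s, (g t + e) ^ (a + 1)) ∧
      (0 < y s → m0 a ≤ (∫ t in (0 : ℝ)..s, (g t + e) ^ (a + 1)) ∨
        ∃ X, 0 < X ∧ Gam a s X ≤ ∫ t in (0 : ℝ)..s, (g t + e) ^ (a + 1)) := by
    intro s hs hle
    have sub : Icc 0 s ⊆ Icc 0 t₁ := Icc_subset_Icc le_rfl hs.2
    refine h a s y _ (fun t => g t + e) ha hs.1 (fun t htt => hy t (sub htt)) (y'c.mono sub)
      Gc.continuousOn y0 fun t htt => ?_
    have hab : |y t| ≤ 1 := abs_le.2 ⟨low t (sub htt), hle t htt⟩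
    refine ⟨hab, by linarith [hg0 t], ?_⟩
    rw [ctrl_clip_of hab]
    linarith [(ctrl_cc_facts he hab).2.2.2]
  have Gp : Continuous fun t => (g t + e) ^ (a + 1) :=
    Gc.rpow_const fun _ => Or.inr (by linarith)
  have up : ∀ t ∈ Icc 0 t₁, y t ≤ 1 := by
    intro t htt
    by_contra hcon
    have hcon := not_le.1 hcon
    have ivt : ∀ u ∈ Icc 0 t₁, 1 < y u → ∃ v ∈ Ico 0 u, y v = 1 := by
      intro u hu h1
      obtain ⟨v, hv, e1⟩ := intermediate_value_Ico hu.1 (yc.mono (Icc_subset_Icc le_rfl hu.2))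
        (show (1 : ℝ) ∈ Ico (y 0) (y u) from ⟨by rw [y0]; norm_num, h1⟩)
      exact ⟨v, hv, e1⟩
    have hcl : IsCompact (Icc 0 t₁ ∩ y ⁻¹' {1}) :=
      isCompact_Icc.of_isClosed_subset
        (yc.preimage_isClosed_of_isClosed isClosed_Icc isClosed_singleton) inter_subset_left
    obtain ⟨v, hv, e1⟩ := ivt t htt hcon
    obtain ⟨s, ⟨hs, es⟩, hmin⟩ := hcl.exists_isLeast ⟨v, ⟨hv.1, hv.2.le.trans htt.2⟩, e1⟩
    have hle : ∀ u ∈ Icc 0 s, y u ≤ 1 := by
      intro u hu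
      by_contra hc'
      obtain ⟨v', hv', e'⟩ := ivt u ⟨hu.1, hu.2.trans hs.2⟩ (not_le.1 hc')
      have := hmin ⟨⟨hv'.1, hv'.2.le.trans (hu.2.trans hs.2)⟩, e'⟩
      linarith [hv'.2, hu.2]
    have h1 := (cal s hs hle).1 es
    have h2 : (∫ t in (0 : ℝ)..s, (g t + e) ^ (a + 1)) ≤ ∫ t in (0 : ℝ)..t₁, (g t + e) ^ (a + 1) :=
      intervalIntegral.integral_mono_interval le_rfl hs.1 hs.2
        (Eventually.of_forall fun t => Real.rpow_nonneg (by linarith [hg0 t]) _)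
        (Gp.intervalIntegrable _ _)
    linarith
  have hab : ∀ t ∈ Icc 0 t₁, |y t| ≤ 1 := fun t htt => abs_le.2 ⟨low t htt, up t htt⟩
  have pos : ∀ t ∈ Icc 0 t₁, 0 < 1 - y t ^ 2 + e ^ 2 := fun t htt => by
    nlinarith [abs_le.1 (hab t htt)]
  refine ⟨y, fun t => ctrl_cc e (y t), fun t => g t - ctrl_cc e (ctrl_clip (y t)),
    fun t => -(2 * y t * (g t - ctrl_cc e (ctrl_clip (y t)))) / (2 * √(1 - y t ^ 2 + e ^ 2)),
    ⟨hy, fun t htt => ?_, y'c, ?_, y0, fun t htt => (ctrl_cc_facts he (hab t htt)).2.2.1,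
      fun t htt => ?_⟩, fun hX => ?_⟩
  · have d1 : HasDerivAt (fun t => 1 - y t ^ 2 + e ^ 2)
        (-(2 * y t * (g t - ctrl_cc e (ctrl_clip (y t))))) t := by
      simpa using (((hy t htt).pow 2).const_sub 1).add_const (e ^ 2)
    exact (d1.sqrt (pos t htt).ne').sub_const e
  · refine (((continuousOn_const.mul yc).mul y'c).neg).div
      (continuousOn_const.mul (((continuousOn_const.sub (yc.pow 2)).add continuousOn_const).sqrt))
      fun t htt => ?_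
    have := Real.sqrt_pos.2 (pos t htt)
    positivity
  · rw [ctrl_clip_of (hab t htt)]
    linarith
  · by_contra hcon
    rcases (cal t₁ ⟨ht, le_rfl⟩ up).2 (not_le.1 hcon) with h1 | ⟨X, hX0, h1⟩
    · linarith
    · linarith [hX X hX0]

end Pool.Agent.MP_d56274_gt
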