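import Pool.Agent.MP_d56274_gt.Spec

/-! Calculus of the root differences. -/

namespace Pool.Agent.MP_d56274_gt

open MeasureTheory Set Real Filter Topology

theorem derivs (h : RootsStmt) (hi : IneqStmt) : DerivStmt := by
  intro a ha
  obtain ⟨cP, cQ, P0, Q0, hb, -, hc⟩ := h a ha
  have ha0 : 0 < a := by linarith
  have hk : ∀ x, 0 < kk x := fun x => Real.sqrt_pos.2 (by positivity)
  have hk2 : ∀ x, kk x ^ 2 = 1 + x ^ 2 := fun x => Real.sq_sqrt (by positivity)
  have ck : Continuous kk := by unfold kk; fun_prop
  have cD : Continuous (DD a) := continuous_const.mul (cP.sub cQ)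
  have cS : Continuous (SS a) := continuous_const.mul
    ((cP.rpow_const fun _ => Or.inr ha0.le).sub (cQ.rpow_const fun _ => Or.inr ha0.le))
  have cal : Continuous (al a) :=
    continuous_const.mul ((cP.div ck fun x => (hk x).ne').sub continuous_const)
  have cbe : Continuous (be a) :=
    continuous_const.mul (continuous_const.sub (cQ.div ck fun x => (hk x).ne'))
  have cz : Continuous zz := continuous_id.div ck fun x => (hk x).ne'
  have hal : ∀ x ∈ Ioi (0 : ℝ), 0 < al a x := fun x hx => (hc x hx).2.2.1
  have hbe : ∀ x ∈ Ioi (0 : ℝ), 0 < be a x := fun x hx => (hc x hx).2.2.2.2.1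
  have cD' : ContinuousOn (DD' a) (Ioi 0) :=
    (continuous_const.mul cz).continuousOn.mul
      ((continuousOn_const.div cal.continuousOn fun x hx => (hal x hx).ne').add
        (continuousOn_const.div cbe.continuousOn fun x hx => (hbe x hx).ne'))
  refine ⟨cD, cS, by simp [DD, P0, Q0], by simp [SS, P0, Q0], cD', ?_, ?_, fun x => ⟨?_, ?_⟩,
    fun x hx => ?_⟩
  · exact ((continuousOn_const.mul cD').add
      ((continuous_const.mul continuous_id).mul cS).continuousOn).div (by fun_prop)
      fun x _ => by positivity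
  · refine ((cal.add cbe).continuousOn.div (continuous_const.mul cz).continuousOn
      fun x hx => ?_).mul (continuousOn_const.add
        ((continuous_const.mul (cz.pow 2)).continuousOn.div (cal.mul cbe).continuousOn
          fun x hx => (mul_pos (hal x hx) (hbe x hx)).ne'))
    have : 0 < zz x := div_pos hx (hk x)
    exact (by positivity : 0 < 2 * (a + 1) * zz x).ne'
  · obtain ⟨b1, b2, b3, -⟩ := hb x
    exact mul_nonneg (by linarith) (sub_nonneg.2 (Real.rpow_le_rpow b2.le (b3.trans b1) ha0.le))
  · obtain ⟨b1, b2, -, b4, -⟩ := hb x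
    have e1 : rp a x ≤ (a + 1) / a * kk x := by
      unfold kf at b4
      rw [div_eq_iff (by linarith)] at b4
      have : 0 < rp a x ^ (-a) := by positivity
      rw [div_mul_eq_mul_div, le_div_iff₀ ha0]
      linarith
    have e2 := Real.rpow_le_rpow (by linarith) e1 ha0.le
    rw [Real.mul_rpow (by positivity) (hk x).le] at e2
    have e3 : 0 < rm a x ^ a := by positivity
    unfold SS
    rw [mul_assoc]
    exact mul_le_mul_of_nonneg_left (by linarith) (by linarith)
  obtain ⟨p1, q1, a0, a1, b0, b1, eP, eQ, dP, dQ⟩ := hc x hx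
  obtain ⟨-, q0, -⟩ := hb x
  obtain ⟨i1, i2, -⟩ := hi a ha x hx
  have k0 := hk x
  have p0 : 0 < rp a x := by linarith
  have hz : 0 < zz x := div_pos hx k0
  have fP : rp a x = kk x * (1 + al a x / a) := by unfold al; field_simp; ring
  have fQ : rm a x = kk x * (1 - be a x / a) := by unfold be; field_simp; ring
  have hb1 : a + 1 ≠ 0 := by linarith
  refine ⟨((dP.sub dQ).const_mul (a / (a + 1))).congr_deriv ?_,
    (((dP.rpow_const (p := a) (Or.inl p0.ne')).sub
      (dQ.rpow_const (p := a) (Or.inl q0.ne'))).const_mul (a + 1)).congr_deriv ?_, ?_, ?_, ?_⟩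
  · unfold DD' zz
    rw [← hk2]
    generalize al a x = A at *
    generalize be a x = B at *
    rw [fP, fQ]
    field_simp
    ring
  · unfold SS' SS DD' zz
    rw [Real.rpow_sub_one p0.ne', Real.rpow_sub_one q0.ne', ← hk2]
    have gP : rp a x ^ a = 1 / (kk x * (1 - al a x)) := by
      rw [eq_div_iff (mul_pos k0 (by linarith)).ne']
      rw [eq_div_iff k0.ne'] at eP
      linarith
    have gQ : rm a x ^ a = 1 / (kk x * (1 + be a x)) := by
      rw [eq_div_iff (mul_pos k0 (by linarith)).ne']
      rw [eq_div_iff k0.ne'] at eQ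
      linarith
    rw [gP, gQ]
    have n1 : 1 - al a x ≠ 0 := by linarith
    have n2 : 1 + be a x ≠ 0 := by linarith
    field_simp
    ring
  · unfold DD'; positivity
  · unfold DD'
    have j1 : zz x * (1 / al a x) ≤ 1 := by rw [mul_one_div, div_le_one a0]; exact i1.le
    have j2 : zz x * (1 / be a x) ≤ 1 := by rw [mul_one_div, div_le_one b0]; linarith
    have j3 : zz x * (1 / al a x + 1 / be a x) ≤ 2 := by
      linarith [mul_add (zz x) (1 / al a x) (1 / be a x)]
    have j4 := mul_le_mul_of_nonneg_left j3 (by positivity : 0 ≤ a / (a + 1))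
    rw [mul_assoc]
    refine j4.trans (le_of_eq ?_)
    ring
  · unfold DD DD' Lam zz
    generalize al a x = A at *
    generalize be a x = B at *
    rw [fP, fQ]
    field_simp
    ring

end Pool.Agent.MP_d56274_gt
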