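import Pool.Agent.MP_d56274_gt.Spec

/-! The classification from the steps. -/

namespace Pool.Agent.MP_d56274_gt

open MeasureTheory Set Real Filter Topology

theorem fin_KK_pos {a c : ℝ} (ha : 1 < a) (hc : 0 < c) : 0 < KK a c := by
  unfold KK
  have : 0 < a := by linarith
  positivity

theorem fin_KK_lt {a c c' : ℝ} (ha : 1 < a) (hc : 0 < c) (h : c < c') : KK a c < KK a c' := by
  unfold KK
  have h0 : 0 < a := by linarith
  have h1 : 0 < (a + 1) ^ a / a := by positivity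
  exact Real.rpow_lt_rpow (by positivity) (mul_lt_mul_of_pos_left h h1) (by positivity)

/-- a region whose perimeter is at most the lower bound is isoperimetric -/
theorem fin_iso (hl : LBStmt) {p θ₀ c A : ℝ} {U : Set (ℝ × ℝ)} (hg : Good (p + 1) θ₀ c)
    (hU : U ⊆ sector θ₀) (hA : 0 ≤ A) (ha : area p U = ENNReal.ofReal A)
    (hP : perim p θ₀ U ≤ ENNReal.ofReal (KK (p + 1) c * A ^ ((p + 1) / (p + 2)))) :
    IsIso p θ₀ U := by
  refine ⟨hU, fun R' hm hs hA' => ?_⟩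
  rcases eq_or_ne (perim p θ₀ R') ⊤ with h | h
  · rw [h]; exact le_top
  · have := hl p θ₀ c A (perim p θ₀ R').toReal R' hg hm hs hA (hA'.trans ha)
      ENNReal.toReal_nonneg (by rw [ENNReal.ofReal_toReal h])
    calc perim p θ₀ U ≤ _ := hP
      _ ≤ ENNReal.ofReal (perim p θ₀ R').toReal := ENNReal.ofReal_le_ofReal this
      _ = _ := ENNReal.ofReal_toReal h

/-- a region beaten by a competitor of the same area is not isoperimetric -/
theorem fin_not_iso {p θ₀ c c' A : ℝ} {U V : Set (ℝ × ℝ)} (hp : 0 < p) (hc : 0 < c) (hcc : c < c')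
    (hA : 0 < A) (haU : area p U = ENNReal.ofReal A) (haV : area p V = ENNReal.ofReal A)
    (hV : MeasurableSet V) (hVs : V ⊆ sector θ₀)
    (hPU : perim p θ₀ U = ENNReal.ofReal (KK (p + 1) c' * A ^ ((p + 1) / (p + 2))))
    (hPV : perim p θ₀ V ≤ ENNReal.ofReal (KK (p + 1) c * A ^ ((p + 1) / (p + 2)))) :
    ¬ IsIso p θ₀ U := by
  rintro ⟨-, h⟩
  have h1 := (h V hV hVs (haV.trans haU.symm)).trans hPV
  rw [hPU] at h1
  have hK := fin_KK_pos (a := p + 1) (by linarith) hc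
  have hAp : 0 < A ^ ((p + 1) / (p + 2)) := by positivity
  rw [ENNReal.ofReal_le_ofReal_iff (by positivity)] at h1
  have := mul_lt_mul_of_pos_right (fin_KK_lt (a := p + 1) (by linarith) hc hcc) hAp
  linarith

theorem fin_scale {p A A₁ : ℝ} (hp : 0 < p) (hA : 0 < A) (hA₁ : 0 < A₁) :
    ∃ l : ℝ, 0 < l ∧ l ^ (p + 2) * A₁ = A := by
  refine ⟨(A / A₁) ^ (1 / (p + 2)), by positivity, ?_⟩
  rw [← Real.rpow_mul (by positivity), one_div_mul_cancel (by positivity), Real.rpow_one]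
  field_simp

theorem fin_arc_val {p θ₀ ρ : ℝ} (hp : 0 < p) (hθ : 0 < θ₀) (hρ : 0 < ρ) :
    θ₀ * ρ ^ (p + 1) = KK (p + 1) ((p + 1) * θ₀) *
      (θ₀ * ρ ^ (p + 2) / (p + 2)) ^ ((p + 1) / (p + 2)) := by
  have hb : 0 < p + 2 := by linarith
  have ha : 0 < p + 1 := by linarith
  apply Real.log_injOn_pos (mem_Ioi.2 (by positivity))
    (mem_Ioi.2 (mul_pos (fin_KK_pos (by linarith) (by positivity)) (by positivity)))
  unfold KK
  have e : (p + 1 + 1) ^ (p + 1) / (p + 1) * ((p + 1) * θ₀) = (p + 2) ^ (p + 1) * θ₀ := by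
    rw [show p + 1 + 1 = p + 2 by ring]; field_simp
  rw [e, Real.log_mul (by positivity) (by positivity), Real.log_mul (by positivity) (by positivity),
    Real.log_rpow hρ, Real.log_rpow (by positivity), Real.log_rpow (by positivity),
    Real.log_mul (by positivity) (by positivity), Real.log_rpow hb,
    Real.log_div (by positivity) (by positivity), Real.log_mul (by positivity) (by positivity),
    Real.log_rpow hρ]
  field_simp
  ring

theorem fin_thr1 {p θ₀ : ℝ} (hp : 0 < p) : θ₀ ≤ π / √(p + 1) ↔ (p + 1) * θ₀ ≤ π * √(p + 1) := by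
  have ha : 0 < p + 1 := by linarith
  have hs : 0 < √(p + 1) := Real.sqrt_pos.2 ha
  have h2 : √(p + 1) * √(p + 1) = p + 1 := Real.mul_self_sqrt ha.le
  rw [le_div_iff₀ hs]
  constructor
  · intro h
    have := mul_le_mul_of_nonneg_right h hs.le
    rw [mul_assoc, h2] at this
    linarith
  · intro h
    by_contra hc
    have := mul_lt_mul_of_pos_right (not_le.1 hc) hs
    rw [mul_assoc, h2] at this
    linarith

theorem fin_thr2 {p θ₀ : ℝ} (hp : 0 < p) :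
    π * (p + 2) / (2 * p + 2) ≤ θ₀ ↔ π * (p + 1 + 1) / 2 ≤ (p + 1) * θ₀ := by
  rw [div_le_iff₀ (by linarith), div_le_iff₀ (by norm_num)]
  constructor <;> intro h <;> nlinarith

theorem final (hc : CasesStmt) (ht : TLimStmt) (hl : LBStmt) (hA : ArcStmt) (hH : HalfStmt)
    (hU : UndStmt) : FinalStmt := by
  intro p θ₀ ρ hp hθ hρ
  have ha : 1 < p + 1 := by linarith
  have ha0 : 0 < p + 1 := by linarith
  have hb : 0 < p + 2 := by linarith
  have hΦ : 0 < (p + 1) * θ₀ := by positivity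
  obtain ⟨hm0, c1, c2, c3⟩ := hc (p + 1) ((p + 1) * θ₀) ha hΦ
  obtain ⟨hT, -⟩ := ht (p + 1) ha
  have hord : π * √(p + 1) < π * (p + 1 + 1) / 2 := by
    have := hT 1 one_pos
    linarith [this.1, this.2]
  have hhalf : π * (p + 1 + 1) / 2 ≤ (p + 1) * θ₀ → π / 2 ≤ θ₀ := by
    intro h
    by_contra hcon
    have := mul_lt_mul_of_pos_left (not_le.1 hcon) ha0
    nlinarith [Real.pi_pos]
  -- the three families of competitors, for every area
  have arcs : ∀ A : ℝ, 0 < A → ∃ V : Set (ℝ × ℝ), MeasurableSet V ∧ V ⊆ sector θ₀ ∧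
      area p V = ENNReal.ofReal A ∧ perim p θ₀ V ≤
        ENNReal.ofReal (KK (p + 1) ((p + 1) * θ₀) * A ^ ((p + 1) / (p + 2))) := by
    intro A hA0
    obtain ⟨l, hl0, hlA⟩ := fin_scale (A₁ := θ₀ / (p + 2)) hp hA0 (by positivity)
    obtain ⟨m1, m2, m3⟩ := hA p θ₀ l hp hθ hl0
    have e : θ₀ * l ^ (p + 2) / (p + 2) = A := by rw [← hlA]; ring
    refine ⟨_, m1, fun z hz => hz.1, by rw [m2, e], ?_⟩
    rw [m3, fin_arc_val hp hθ hl0, e]
  have halves : π / 2 ≤ θ₀ → ∀ A : ℝ, 0 < A → ∃ V : Set (ℝ × ℝ), MeasurableSet V ∧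
      V ⊆ sector θ₀ ∧ area p V = ENNReal.ofReal A ∧ perim p θ₀ V ≤
        ENNReal.ofReal (KK (p + 1) (m0 (p + 1)) * A ^ ((p + 1) / (p + 2))) := by
    intro h2 A hA0
    obtain ⟨-, hI, -⟩ := hH p θ₀ 1 hp h2 one_pos
    obtain ⟨l, hl0, hlA⟩ := fin_scale
      (A₁ := (∫ ξ in (0 : ℝ)..π / 2, cos ξ ^ (p + 2)) / (p + 2)) hp hA0 (by positivity)
    obtain ⟨m1, -, m2, m3⟩ := hH p θ₀ l hp h2 hl0
    have e : l ^ (p + 2) / (p + 2) * (∫ ξ in (0 : ℝ)..π / 2, cos ξ ^ (p + 2)) = A := by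
      rw [← hlA]; ring
    refine ⟨_, m1, fun z hz => ⟨hz.1.1, hz.1.2.1, lt_of_lt_of_le hz.1.2.2 h2⟩, by rw [m2, e], ?_⟩
    rw [m3, e]
  have unds : ∀ X : ℝ, 0 < X → TT (p + 1) X = (p + 1) * θ₀ → ∀ A : ℝ, 0 < A →
      ∃ V : Set (ℝ × ℝ), MeasurableSet V ∧
      V ⊆ sector θ₀ ∧ area p V = ENNReal.ofReal A ∧ perim p θ₀ V ≤
        ENNReal.ofReal (KK (p + 1) (Gam (p + 1) ((p + 1) * θ₀) X) * A ^ ((p + 1) / (p + 2))) := by
    intro X hX hTX A hA0
    obtain ⟨-, hI, -⟩ := hU p X 1 hp hX one_pos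
    obtain ⟨l, hl0, hlA⟩ := fin_scale
      (A₁ := (TT (p + 1) X + NN (p + 1) X) / ((p + 1) * (p + 2))) hp hA0 (by positivity)
    obtain ⟨-, -, m1, m2, m3⟩ := hU p X l hp hX hl0
    have e : TT (p + 1) X / (p + 1) = θ₀ := by rw [hTX]; field_simp
    rw [e] at m1 m2 m3
    rw [hlA] at m2 m3
    rw [hTX] at m3
    exact ⟨_, m1, fun z hz => hz.1, m2, m3⟩
  refine ⟨⟨fun h => ?_, fun h => ?_⟩, ⟨?_, fun h => ?_⟩, ⟨fun h => ?_, fun h => ?_⟩⟩
  · -- arc isoperimetric implies small angle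
    rw [fin_thr1 hp]
    by_contra hcon
    have hcon := not_le.1 hcon
    obtain ⟨-, m2, m3⟩ := hA p θ₀ ρ hp hθ hρ
    rw [fin_arc_val hp hθ hρ] at m3
    have hA0 : 0 < θ₀ * ρ ^ (p + 2) / (p + 2) := by positivity
    rcases le_or_gt (π * (p + 1 + 1) / 2) ((p + 1) * θ₀) with h2 | h2
    · obtain ⟨V, v1, v2, v3, v4⟩ := halves (hhalf h2) _ hA0
      exact fin_not_iso hp hm0 (c2 h2).1 hA0 m2 v3 v1 v2 m3 v4 h
    · obtain ⟨X, hX, x1, x2, x3, -, -⟩ := c3 hcon h2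
      obtain ⟨V, v1, v2, v3, v4⟩ := unds X hX x1 _ hA0
      exact fin_not_iso hp x2 x3 hA0 m2 v3 v1 v2 m3 v4 h
  · rw [fin_thr1 hp] at h
    obtain ⟨-, m2, m3⟩ := hA p θ₀ ρ hp hθ hρ
    rw [fin_arc_val hp hθ hρ] at m3
    exact fin_iso hl ⟨ha, hθ, hΦ, (c1 h).1.le, (c1 h).2⟩ (fun z hz => hz.1) (by positivity) m2 m3.le
  · rintro ⟨R, hR, hRθ, -⟩
    have hX : 0 < √(R ^ 2 - 1) := Real.sqrt_pos.2 (by nlinarith)
    have hk : kk √(R ^ 2 - 1) = R := by
      unfold kk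
      rw [Real.sq_sqrt (by nlinarith), show 1 + (R ^ 2 - 1) = R ^ 2 by ring,
        Real.sqrt_sq (by linarith)]
    obtain ⟨u1, -⟩ := hU p _ 1 hp hX one_pos
    rw [hk, hRθ, eq_div_iff ha0.ne'] at u1
    obtain ⟨t1, t2⟩ := hT _ hX
    refine ⟨not_le.1 fun h => ?_, not_le.1 fun h => ?_⟩
    · rw [fin_thr1 hp] at h; linarith
    · rw [fin_thr2 hp] at h; linarith
  · have h1 : π * √(p + 1) < (p + 1) * θ₀ :=
      not_le.1 fun h' => (not_le.2 h.1) ((fin_thr1 hp).2 h')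
    have h2 : (p + 1) * θ₀ < π * (p + 1 + 1) / 2 :=
      not_le.1 fun h' => (not_le.2 h.2) ((fin_thr2 hp).2 h')
    obtain ⟨X, hX, x1, x2, -, x4, x5⟩ := c3 h1 h2
    obtain ⟨u1, hI, -, m2, m3⟩ := hU p X ρ hp hX hρ
    have e : TT (p + 1) X / (p + 1) = θ₀ := by rw [x1]; field_simp
    rw [e] at u1 m2 m3
    refine ⟨kk X, ?_, u1, ?_⟩
    · unfold kk
      exact Real.lt_sqrt_of_sq_lt (by nlinarith)
    · have m3' := m3
      rw [x1] at m3'
      rw [x1] at m2 hI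
      exact fin_iso hl ⟨ha, hθ, x2, x4.le, x5⟩ (fun z hz => hz.1) (by positivity) m2 m3'
  · -- half disc isoperimetric implies large angle
    have h2 : π / 2 ≤ θ₀ := by
      by_contra hcon
      have hcon := not_le.1 hcon
      have hπ := Real.pi_pos
      have hcos : 0 < cos ((θ₀ + π / 2) / 2) :=
        Real.cos_pos_of_mem_Ioo ⟨by linarith, by linarith⟩
      have hz : ((ρ * cos ((θ₀ + π / 2) / 2) / 2, (θ₀ + π / 2) / 2) : ℝ × ℝ) ∈
          {z : ℝ × ℝ | z ∈ sector (π / 2) ∧ z.1 < ρ * cos z.2} := by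
        have : 0 < ρ * cos ((θ₀ + π / 2) / 2) := by positivity
        refine ⟨⟨?_, ?_, ?_⟩, ?_⟩
        · show 0 < ρ * cos ((θ₀ + π / 2) / 2) / 2
          linarith
        · show 0 < (θ₀ + π / 2) / 2
          linarith
        · show (θ₀ + π / 2) / 2 < π / 2
          linarith
        · show ρ * cos ((θ₀ + π / 2) / 2) / 2 < ρ * cos ((θ₀ + π / 2) / 2)
          linarith
      have h3 : (θ₀ + π / 2) / 2 < θ₀ := (h.1 hz).2.2
      linarith
    rw [fin_thr2 hp]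
    by_contra hcon
    have hcon := not_le.1 hcon
    obtain ⟨-, hI, m2, m3⟩ := hH p θ₀ ρ hp h2 hρ
    have hA0 : 0 < ρ ^ (p + 2) / (p + 2) * ∫ ξ in (0 : ℝ)..π / 2, cos ξ ^ (p + 2) := by positivity
    rcases le_or_gt ((p + 1) * θ₀) (π * √(p + 1)) with h1 | h1
    · obtain ⟨V, v1, v2, v3, v4⟩ := arcs _ hA0
      exact fin_not_iso hp hΦ (c1 h1).1 hA0 m2 v3 v1 v2 m3 v4 h
    · obtain ⟨X, hX, x1, x2, -, x4, -⟩ := c3 h1 hcon
      obtain ⟨V, v1, v2, v3, v4⟩ := unds X hX x1 _ hA0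
      exact fin_not_iso hp x2 x4 hA0 m2 v3 v1 v2 m3 v4 h
  · rw [fin_thr2 hp] at h
    have h2 := hhalf h
    obtain ⟨-, hI, m2, m3⟩ := hH p θ₀ ρ hp h2 hρ
    exact fin_iso hl ⟨ha, hθ, hm0, le_rfl, (c2 h).2⟩
      (fun z hz => ⟨hz.1.1, hz.1.2.1, lt_of_lt_of_le hz.1.2.2 h2⟩) (by positivity) m2 m3.le

end Pool.Agent.MP_d56274_gt
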