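import Pool.Agent.MP_d56274_gt.Spec

/-! Green's formula for the region under a decreasing profile. -/

namespace Pool.Agent.MP_d56274_gt

open MeasureTheory Set Real Filter Topology

variable {θ₀ q q₁ m : ℝ} {τ τ' : ℝ → ℝ}

theorem gr_strict (G : Graph θ₀ q q₁ m τ τ') : StrictAntiOn τ (Icc q q₁) := by
  refine strictAntiOn_of_deriv_neg (convex_Icc _ _) G.cont fun x hx => ?_
  rw [interior_Icc] at hx
  rw [(G.der x hx).deriv]
  exact G.neg x hx

theorem gr_q (G : Graph θ₀ q q₁ m τ τ') : τ q = m := G.left q ⟨G.q0, le_rfl⟩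

theorem gr_q₁ (G : Graph θ₀ q q₁ m τ τ') : τ q₁ = 0 := G.right q₁ le_rfl

theorem gr_mem (G : Graph θ₀ q q₁ m τ τ') {r : ℝ} (hr : r ∈ Ioo q q₁) : τ r ∈ Ioo 0 m := by
  have a := gr_strict G ⟨hr.1.le, hr.2.le⟩ ⟨G.lt.le, le_rfl⟩ hr.2
  have b := gr_strict G ⟨le_rfl, G.lt.le⟩ ⟨hr.1.le, hr.2.le⟩ hr.1
  rw [gr_q₁ G] at a
  rw [gr_q G] at b
  exact ⟨a, b⟩

theorem gr_bounds (G : Graph θ₀ q q₁ m τ τ') {r : ℝ} (hr : 0 ≤ r) : 0 ≤ τ r ∧ τ r ≤ m := by
  rcases le_or_gt r q with h | h
  · rw [G.left r ⟨hr, h⟩]; exact ⟨G.mpos.le, le_rfl⟩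
  rcases le_or_gt q₁ r with h' | h'
  · rw [G.right r h']; exact ⟨le_rfl, G.mpos.le⟩
  · exact ⟨(gr_mem G ⟨h, h'⟩).1.le, (gr_mem G ⟨h, h'⟩).2.le⟩

theorem gr_anti (G : Graph θ₀ q q₁ m τ τ') : AntitoneOn τ (Ici 0) := by
  intro x hx y hy hxy
  rcases le_or_gt x q with h | h
  · rw [G.left x ⟨hx, h⟩]; exact (gr_bounds G hy).2
  rcases le_or_gt q₁ y with h' | h'
  · rw [G.right y h']; exact (gr_bounds G hx).1
  · exact (gr_strict G).antitoneOn ⟨h.le, by linarith⟩ ⟨by linarith, h'.le⟩ hxy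

theorem gr_slice (G : Graph θ₀ q q₁ m τ τ') {r₀ r : ℝ} (h₀ : r₀ ∈ Ioo q q₁) (hr : 0 < r) :
    τ r₀ < τ r ↔ r < r₀ := by
  have h0 : 0 ≤ r₀ := G.q0.trans h₀.1.le
  constructor
  · intro h
    by_contra hc
    exact absurd (gr_anti G h0 hr.le (not_lt.1 hc)) (not_le.2 h)
  · intro h
    rcases le_or_gt r q with h' | h'
    · rw [G.left r ⟨hr.le, h'⟩]; exact (gr_mem G h₀).2
    · exact gr_strict G ⟨h'.le, by linarith [h₀.2]⟩ ⟨h₀.1.le, h₀.2.le⟩ h

theorem gr_image (G : Graph θ₀ q q₁ m τ τ') : τ '' Ioo q q₁ = Ioo 0 m := by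
  refine Subset.antisymm ?_ ?_
  · rintro _ ⟨r, hr, rfl⟩; exact gr_mem G hr
  · have := intermediate_value_Ioo' G.lt.le G.cont
    rwa [gr_q G, gr_q₁ G] at this

theorem gr_meas (G : Graph θ₀ q q₁ m τ τ') : MeasurableSet (under θ₀ τ) := by
  have ha : Antitone fun r => τ (max r 0) := fun x y h =>
    gr_anti G (le_max_right x 0) (le_max_right y 0) (max_le_max h le_rfl)
  have e : under θ₀ τ = sector θ₀ ∩ {z : ℝ × ℝ | z.2 < τ (max z.1 0)} := by
    ext z
    constructor
    · rintro ⟨h1, h2⟩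
      exact ⟨h1, by rw [mem_ofPred_eq, max_eq_left (le_of_lt h1.1)]; exact h2⟩
    · rintro ⟨h1, h2⟩
      rw [mem_ofPred_eq, max_eq_left (le_of_lt h1.1)] at h2
      exact ⟨h1, h2⟩
  rw [e]
  exact (measurableSet_Ioi.prod measurableSet_Ioo).inter
    (measurableSet_lt measurable_snd (ha.measurable.comp measurable_fst))

theorem gr_intOn (G : Graph θ₀ q q₁ m τ τ') {H : ℝ × ℝ → ℝ} (hH : Continuous H) :
    IntegrableOn H (under θ₀ τ) volume := by
  refine (hH.continuousOn.integrableOn_compact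
    ((isCompact_Icc (a := (0 : ℝ)) (b := q₁)).prod (isCompact_Icc (a := (0 : ℝ)) (b := θ₀)))).mono_set ?_
  rintro z ⟨⟨h1, h2, h3⟩, h4⟩
  refine ⟨⟨le_of_lt h1, ?_⟩, h2.le, h3.le⟩
  by_contra hc
  rw [G.right _ (not_le.1 hc).le] at h4
  linarith

/-- integration along horizontal slices -/
theorem gr_rpart (G : Graph θ₀ q q₁ m τ τ') {H : ℝ × ℝ → ℝ} (hH : Continuous H) {F : ℝ → ℝ}
    (hF : ∀ r₀ ∈ Ioo q q₁, ∫ r in (0 : ℝ)..r₀, H (r, τ r₀) = F r₀) :
    ∫ z in under θ₀ τ, H z = ∫ r in q..q₁, -τ' r * F r := by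
  have hm := gr_meas G
  have hi : Integrable ((under θ₀ τ).indicator H) (volume.prod volume) :=
    (integrable_indicator_iff hm).2 (gr_intOn G hH)
  rw [← integral_indicator hm, Measure.volume_eq_prod, integral_prod_symm _ hi,
    ← setIntegral_eq_integral_of_forall_compl_eq_zero (s := Ioo 0 m), ← gr_image G,
    integral_image_eq_integral_abs_deriv_smul measurableSet_Ioo
      (fun x hx => (G.der x hx).hasDerivWithinAt) ((gr_strict G).injOn.mono Ioo_subset_Icc_self),
    intervalIntegral.integral_of_le G.lt.le, integral_Ioc_eq_integral_Ioo]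
  · refine setIntegral_congr_fun measurableSet_Ioo fun r₀ h₀ => ?_
    have h0 : 0 ≤ r₀ := G.q0.trans h₀.1.le
    have hτ := gr_mem G h₀
    beta_reduce
    rw [abs_of_neg (G.neg r₀ h₀), smul_eq_mul, ← hF r₀ h₀, intervalIntegral.integral_of_le h0,
      integral_Ioc_eq_integral_Ioo, ← integral_indicator measurableSet_Ioo]
    congr 2
    funext r
    by_cases hr : r ∈ Ioo 0 r₀
    · rw [indicator_of_mem hr, indicator_of_mem]
      exact ⟨⟨hr.1, hτ.1, hτ.2.trans_le G.mle⟩, (gr_slice G h₀ hr.1).2 hr.2⟩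
    · rw [indicator_of_notMem hr, indicator_of_notMem]
      rintro ⟨⟨h1, -⟩, h2⟩
      exact hr ⟨h1, (gr_slice G h₀ h1).1 h2⟩
  · intro θ hθ
    have : (fun r => (under θ₀ τ).indicator H (r, θ)) = fun _ => 0 := by
      funext r
      rw [indicator_of_notMem]
      rintro ⟨⟨h1, h2, -⟩, h3⟩
      exact hθ ⟨h2, lt_of_lt_of_le h3 (gr_bounds G (le_of_lt h1)).2⟩
    rw [this, integral_zero]

/-- integration along vertical slices -/
theorem gr_tpart (G : Graph θ₀ q q₁ m τ τ') {H : ℝ × ℝ → ℝ} (hH : Continuous H) {F : ℝ × ℝ → ℝ}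
    (hF : ∀ r t, ∫ s in (0 : ℝ)..t, H (r, s) = F (r, t)) (h0 : ∀ r, F (r, θ₀) = 0) :
    ∫ z in under θ₀ τ, H z = ∫ r in q..q₁, F (r, τ r) := by
  have hm := gr_meas G
  have hi : Integrable ((under θ₀ τ).indicator H) (volume.prod volume) :=
    (integrable_indicator_iff hm).2 (gr_intOn G hH)
  have key : ∀ r, 0 < r → ∫ s, (under θ₀ τ).indicator H (r, s) = F (r, τ r) := by
    intro r hr
    obtain ⟨b1, b2⟩ := gr_bounds G hr.le
    rw [← hF, intervalIntegral.integral_of_le b1, integral_Ioc_eq_integral_Ioo,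
      ← integral_indicator measurableSet_Ioo]
    congr 1
    funext s
    by_cases hs : s ∈ Ioo 0 (τ r)
    · rw [indicator_of_mem hs, indicator_of_mem]
      exact ⟨⟨hr, hs.1, lt_of_lt_of_le hs.2 (b2.trans G.mle)⟩, hs.2⟩
    · rw [indicator_of_notMem hs, indicator_of_notMem]
      rintro ⟨⟨-, h1, -⟩, h2⟩
      exact hs ⟨h1, h2⟩
  rw [← integral_indicator hm, Measure.volume_eq_prod, integral_prod _ hi,
    ← setIntegral_eq_integral_of_forall_compl_eq_zero (s := Ioo q q₁),
    intervalIntegral.integral_of_le G.lt.le, integral_Ioc_eq_integral_Ioo]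
  · exact setIntegral_congr_fun measurableSet_Ioo fun r hr => key r (G.q0.trans_lt hr.1)
  · intro r hr
    rcases le_or_gt r 0 with h | h
    · have : (fun s => (under θ₀ τ).indicator H (r, s)) = fun _ => 0 := by
        funext s
        rw [indicator_of_notMem]
        rintro ⟨⟨h1, -⟩, -⟩
        exact absurd h (not_le.2 h1)
      rw [this, integral_zero]
    rw [key r h]
    rcases le_or_gt r q with h' | h'
    · rcases G.alt with e | e
      · linarith
      · rw [G.left r ⟨h.le, h'⟩, e, h0]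
    · have : q₁ ≤ r := not_lt.1 fun hc => hr ⟨h', hc⟩
      rw [G.right r this, ← hF, intervalIntegral.integral_same]

theorem gr_d1 {α : ℝ × ℝ → ℝ} (hα : ContDiff ℝ 1 α) (r t : ℝ) :
    HasDerivAt (fun r : ℝ => α (r, t)) (fderiv ℝ α (r, t) (1, 0)) r :=
  HasFDerivAt.comp_hasDerivAt (l := α) (f := fun r : ℝ => (r, t)) r
    (hα.differentiable one_ne_zero (r, t)).hasFDerivAt
    ((hasDerivAt_id r).prodMk (hasDerivAt_const r t))

theorem gr_d2 {α : ℝ × ℝ → ℝ} (hα : ContDiff ℝ 1 α) (r t : ℝ) :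
    HasDerivAt (fun t : ℝ => α (r, t)) (fderiv ℝ α (r, t) (0, 1)) t :=
  HasFDerivAt.comp_hasDerivAt (l := α) (f := fun t : ℝ => (r, t)) t
    (hα.differentiable one_ne_zero (r, t)).hasFDerivAt
    ((hasDerivAt_const t r).prodMk (hasDerivAt_id t))

theorem gr_int (G : Graph θ₀ q q₁ m τ τ') : IntervalIntegrable τ' volume q q₁ := by
  have := intervalIntegral.integrableOn_deriv_of_nonneg (g := fun r => -τ r) (g' := fun r => -τ' r)
    G.cont.neg (fun x hx => (G.der x hx).neg) (fun x hx => by linarith [G.neg x hx])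
  rw [intervalIntegrable_iff_integrableOn_Ioc_of_le G.lt.le]
  simpa using this.neg

theorem green : GreenStmt := by
  intro p θ₀ q q₁ m τ τ' hp G
  have c1 : Continuous fun r : ℝ => r ^ (p + 1) :=
    continuous_id.rpow_const fun _ => Or.inr (by linarith)
  have c2 : Continuous fun r : ℝ => r ^ p := continuous_id.rpow_const fun _ => Or.inr hp.le
  have hτi := gr_int G
  have hu : uIcc q q₁ = Icc q q₁ := uIcc_of_le G.lt.le
  have hflux : ∀ α β, IsTest θ₀ α β → IntervalIntegrable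
      (fun r => r ^ p * β (r, τ r) - r ^ (p + 1) * τ' r * α (r, τ r)) volume q q₁ ∧
      flux p (under θ₀ τ) α β =
      ∫ r in q..q₁, (r ^ p * β (r, τ r) - r ^ (p + 1) * τ' r * α (r, τ r)) := by
    intro α β T
    have hβ0 : ∀ z, z ∉ sector θ₀ → β z = 0 := fun z hz =>
      image_eq_zero_of_notMem_tsupport fun h => hz (T.supp₂ h)
    have dα : Continuous fun z => fderiv ℝ α z (1, 0) :=
      (T.smooth₁.continuous_fderiv one_ne_zero).clm_apply continuous_const
    have dβ : Continuous fun z => fderiv ℝ β z (0, 1) :=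
      (T.smooth₂.continuous_fderiv one_ne_zero).clm_apply continuous_const
    set H₁ : ℝ × ℝ → ℝ := fun z =>
      (p + 1) * z.1 ^ p * α z + z.1 ^ (p + 1) * fderiv ℝ α z (1, 0) with hH₁
    set H₂ : ℝ × ℝ → ℝ := fun z => z.1 ^ p * fderiv ℝ β z (0, 1) with hH₂
    have H1c : Continuous H₁ :=
      ((continuous_const.mul (c2.comp continuous_fst)).mul T.smooth₁.continuous).add
        ((c1.comp continuous_fst).mul dα)
    have H2c : Continuous H₂ := (c2.comp continuous_fst).mul dβ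
    have D1 : ∀ r t, HasDerivAt (fun r : ℝ => r ^ (p + 1) * α (r, t)) (H₁ (r, t)) r := by
      intro r t
      have := (Real.hasDerivAt_rpow_const (x := r) (p := p + 1) (Or.inr (by linarith))).mul
        (gr_d1 T.smooth₁ r t)
      rw [add_sub_cancel_right] at this
      exact this
    have D2 : ∀ r t, HasDerivAt (fun t : ℝ => r ^ p * β (r, t)) (H₂ (r, t)) t := fun r t =>
      (gr_d2 T.smooth₂ r t).const_mul (r ^ p)
    have e : flux p (under θ₀ τ) α β = ∫ z in under θ₀ τ, (H₁ z + H₂ z) := by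
      rw [flux]
      congr 1
      funext z
      rw [(D1 z.1 z.2).deriv, (gr_d2 T.smooth₂ z.1 z.2).deriv]
    have cα : ContinuousOn (fun r => α (r, τ r)) (uIcc q q₁) := by
      rw [hu]
      exact T.smooth₁.continuous.comp_continuousOn (continuousOn_id.prodMk G.cont)
    have cβ : ContinuousOn (fun r => β (r, τ r)) (uIcc q q₁) := by
      rw [hu]
      exact T.smooth₂.continuous.comp_continuousOn (continuousOn_id.prodMk G.cont)
    have i1 : IntervalIntegrable (fun r => r ^ p * β (r, τ r)) volume q q₁ :=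
      (c2.continuousOn.mul cβ).intervalIntegrable
    have i2 : IntervalIntegrable (fun r => r ^ (p + 1) * τ' r * α (r, τ r)) volume q q₁ :=
      (hτi.continuousOn_mul c1.continuousOn).mul_continuousOn cα
    refine ⟨i1.sub i2, ?_⟩
    rw [e, integral_add (gr_intOn G H1c) (gr_intOn G H2c),
      gr_rpart G H1c (F := fun r => r ^ (p + 1) * α (r, τ r)),
      gr_tpart G H2c (F := fun z => z.1 ^ p * β z), intervalIntegral.integral_sub i1 i2]
    · have : (fun r => -τ' r * (r ^ (p + 1) * α (r, τ r))) =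
          fun r => -(r ^ (p + 1) * τ' r * α (r, τ r)) := by
        funext r; ring
      rw [this, intervalIntegral.integral_neg]
      ring
    · intro r t
      rw [intervalIntegral.integral_eq_sub_of_hasDerivAt (fun s _ => D2 r s)
        ((H2c.comp (by fun_prop)).intervalIntegrable _ _),
        hβ0 (r, 0) fun h => lt_irrefl _ h.2.1]
      ring
    · intro r
      rw [hβ0 (r, θ₀) fun h => lt_irrefl _ h.2.2, mul_zero]
    · intro r₀ _
      rw [intervalIntegral.integral_eq_sub_of_hasDerivAt (fun s _ => D1 s (τ r₀))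
        ((H1c.comp (by fun_prop)).intervalIntegrable _ _), Real.zero_rpow (by linarith)]
      ring
  refine ⟨gr_meas G, hτi, ?_, fun α β T => (hflux α β T).2, ?_⟩
  · have hc : Continuous fun z : ℝ × ℝ => z.1 ^ (p + 1) := c1.comp continuous_fst
    rw [area, ← ofReal_integral_eq_lintegral_ofReal (gr_intOn G hc),
      gr_rpart G hc (F := fun r => r ^ (p + 2) / (p + 2))]
    · simp only [mul_div_assoc]
    · intro r₀ _
      rw [integral_rpow (Or.inl (by linarith)), Real.zero_rpow (by linarith),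
        show p + 1 + 1 = p + 2 by ring, sub_zero]
    · exact (ae_restrict_iff' (gr_meas G)).2
        (Eventually.of_forall fun z hz => Real.rpow_nonneg (le_of_lt hz.1.1) _)
  · have i3 : IntervalIntegrable (fun r => √((r ^ p) ^ 2 + (r ^ (p + 1) * τ' r) ^ 2))
        volume q q₁ := by
      have j1 : IntervalIntegrable (fun r => |r ^ p| + |r ^ (p + 1) * τ' r|) volume q q₁ :=
        (c2.abs.intervalIntegrable _ _).add (hτi.continuousOn_mul c1.continuousOn).abs
      rw [intervalIntegrable_iff_integrableOn_Ioo_of_le G.lt.le] at j1 ⊢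
      refine Integrable.mono' j1 ?_ (Eventually.of_forall fun r => ?_)
      · exact (((c2.continuousOn.pow 2).add
          ((c1.continuousOn.mul G.cder).pow 2)).sqrt).aestronglyMeasurable measurableSet_Ioo
      · rw [Real.norm_eq_abs, abs_of_nonneg (Real.sqrt_nonneg _)]
        refine Real.sqrt_le_iff.2 ⟨by positivity, ?_⟩
        have := mul_nonneg (abs_nonneg (r ^ p)) (abs_nonneg (r ^ (p + 1) * τ' r))
        nlinarith [sq_abs (r ^ p), sq_abs (r ^ (p + 1) * τ' r)]
    refine iSup_le fun α => iSup_le fun β => iSup_le fun T => ENNReal.ofReal_le_ofReal ?_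
    obtain ⟨i0, e⟩ := hflux α β T
    rw [e]
    refine intervalIntegral.integral_mono_on G.lt.le i0 i3 fun r _ => ?_
    refine Real.le_sqrt_of_sq_le ?_
    have h1 := T.le_one (r, τ r)
    have h2 := mul_le_mul_of_nonneg_left h1
      (by positivity : 0 ≤ (r ^ p) ^ 2 + (r ^ (p + 1) * τ' r) ^ 2)
    nlinarith [sq_nonneg (r ^ p * α (r, τ r) + r ^ (p + 1) * τ' r * β (r, τ r))]

end Pool.Agent.MP_d56274_gt
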