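import Mathlib
import Pool.Agent.MP_d56274_gt.Spec

/-!
Weighted area and weighted perimeter of the half disc through the origin.
-/

namespace Pool.Agent.MP_d56274_gt

open MeasureTheory Set Real Filter Topology

noncomputable def halfT (ρ r : ℝ) : ℝ := arccos (r / ρ)
noncomputable def halfT' (ρ r : ℝ) : ℝ := -(1 / √(1 - (r / ρ) ^ 2)) * (1 / ρ)

theorem half_graph {θ₀ ρ : ℝ} (hθ : π / 2 ≤ θ₀) (hρ : 0 < ρ) :
    Graph θ₀ 0 ρ (π / 2) (halfT ρ) (halfT' ρ) := by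
  have key : ∀ r ∈ Ioo 0 ρ, 0 < r / ρ ∧ r / ρ < 1 ∧ 0 < 1 - (r / ρ) ^ 2 := by
    intro r hr
    have h1 : 0 < r / ρ := div_pos hr.1 hρ
    have h2 : r / ρ < 1 := (div_lt_one hρ).2 hr.2
    exact ⟨h1, h2, by nlinarith⟩
  refine ⟨le_rfl, hρ, by positivity, hθ, Or.inl rfl, ?_, fun r hr => ?_, ?_, fun r hr => ?_,
    fun r hr => ?_, fun r hr => ?_⟩
  · exact (continuous_arccos.comp (continuous_id.div_const ρ)).continuousOn
  · obtain ⟨h1, h2, _⟩ := key r hr
    exact (hasDerivAt_arccos (by linarith) h2.ne).comp r ((hasDerivAt_id r).div_const ρ)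
  · unfold halfT'
    refine ContinuousOn.mul (ContinuousOn.neg (ContinuousOn.div continuousOn_const
      (by fun_prop) fun r hr => ?_)) continuousOn_const
    exact (Real.sqrt_pos.2 (key r hr).2.2).ne'
  · have := Real.sqrt_pos.2 (key r hr).2.2
    unfold halfT'
    exact mul_neg_of_neg_of_pos (neg_neg_of_pos (by positivity)) (by positivity)
  · have : r = 0 := le_antisymm hr.2 hr.1
    simp [halfT, this]
  · exact arccos_of_one_le ((one_le_div hρ).2 hr)

theorem half_set {θ₀ ρ : ℝ} (hθ : π / 2 ≤ θ₀) (hρ : 0 < ρ) :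
    {z : ℝ × ℝ | z ∈ sector (π / 2) ∧ z.1 < ρ * cos z.2} = under θ₀ (halfT ρ) := by
  ext z
  simp only [under, sector, mem_ofPred_eq, mem_prod, mem_Ioi, mem_Ioo, halfT]
  constructor
  · rintro ⟨⟨h1, h2, h3⟩, h4⟩
    refine ⟨⟨h1, h2, h3.trans_le hθ⟩, ?_⟩
    have h5 : z.1 / ρ < cos z.2 := by rw [div_lt_iff₀ hρ]; linarith
    have h6 := arccos_lt_arccos (le_trans (by norm_num) (div_pos h1 hρ).le) h5 (cos_le_one _)
    rwa [arccos_cos h2.le (by linarith [pi_pos])] at h6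
  · rintro ⟨⟨h1, h2, _⟩, h4⟩
    have h5 : arccos (z.1 / ρ) < π / 2 := arccos_lt_pi_div_two.2 (div_pos h1 hρ)
    refine ⟨⟨h1, h2, h4.trans h5⟩, ?_⟩
    have h6 : z.1 / ρ < 1 := arccos_pos.1 (h2.trans h4)
    have h7 := cos_lt_cos_of_nonneg_of_le_pi h2.le (arccos_le_pi _) h4
    rw [cos_arccos (le_trans (by norm_num) (div_pos h1 hρ).le) h6.le, div_lt_iff₀ hρ] at h7
    linarith

theorem half_subst {ρ : ℝ} (hρ : 0 < ρ) (G H : ℝ → ℝ)
    (h : ∀ ξ ∈ Ioo 0 (π / 2), ρ * sin ξ * G (ρ * cos ξ) = H ξ) :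
    (∫ r in (0 : ℝ)..ρ, G r) = ∫ ξ in (0 : ℝ)..π / 2, H ξ := by
  have him : (fun ξ => ρ * cos ξ) '' Ioo 0 (π / 2) = Ioo 0 ρ := by
    ext r
    constructor
    · rintro ⟨ξ, hξ, rfl⟩
      have h1 : 0 < cos ξ := cos_pos_of_mem_Ioo ⟨by linarith [hξ.1, pi_pos], hξ.2⟩
      have h2 : cos ξ < 1 := by
        have := cos_lt_cos_of_nonneg_of_le_pi le_rfl (by linarith [hξ.2, pi_pos]) hξ.1
        rwa [cos_zero] at this
      exact ⟨mul_pos hρ h1, mul_lt_of_lt_one_right hρ h2⟩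
    · intro hr
      have h1 : 0 < r / ρ := div_pos hr.1 hρ
      have h2 : r / ρ < 1 := (div_lt_one hρ).2 hr.2
      refine ⟨arccos (r / ρ), ⟨arccos_pos.2 h2, arccos_lt_pi_div_two.2 h1⟩, ?_⟩
      simp only
      rw [cos_arccos (by linarith) h2.le]; field_simp
  have hd : ∀ ξ ∈ Ioo 0 (π / 2), HasDerivWithinAt (fun ξ => ρ * cos ξ) (ρ * -sin ξ)
      (Ioo 0 (π / 2)) ξ := fun ξ _ => ((hasDerivAt_cos ξ).const_mul ρ).hasDerivWithinAt
  have hinj : InjOn (fun ξ => ρ * cos ξ) (Ioo 0 (π / 2)) := by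
    intro x hx y hy hxy
    have : cos x = cos y := mul_left_cancel₀ hρ.ne' hxy
    exact injOn_cos ⟨hx.1.le, by linarith [hx.2, pi_pos]⟩ ⟨hy.1.le, by linarith [hy.2, pi_pos]⟩ this
  rw [intervalIntegral.integral_of_le hρ.le, intervalIntegral.integral_of_le (by positivity),
    integral_Ioc_eq_integral_Ioo, integral_Ioc_eq_integral_Ioo, ← him,
    integral_image_eq_integral_abs_deriv_smul measurableSet_Ioo hd hinj]
  refine setIntegral_congr_fun measurableSet_Ioo fun ξ hξ => ?_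
  have hs : 0 < sin ξ := sin_pos_of_pos_of_lt_pi hξ.1 (by linarith [hξ.2, pi_pos])
  simp only [smul_eq_mul]
  rw [← h ξ hξ, mul_neg, abs_neg, abs_of_pos (mul_pos hρ hs)]

theorem half_vals {ρ ξ : ℝ} (hρ : 0 < ρ) (hξ : ξ ∈ Ioo 0 (π / 2)) :
    0 < sin ξ ∧ 0 < cos ξ ∧ halfT ρ (ρ * cos ξ) = ξ ∧ halfT' ρ (ρ * cos ξ) = -(1 / (ρ * sin ξ)) := by
  have hs : 0 < sin ξ := sin_pos_of_pos_of_lt_pi hξ.1 (by linarith [hξ.2, pi_pos])
  have hc : 0 < cos ξ := cos_pos_of_mem_Ioo ⟨by linarith [hξ.1, pi_pos], hξ.2⟩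
  have e : ρ * cos ξ / ρ = cos ξ := by field_simp
  refine ⟨hs, hc, ?_, ?_⟩
  · rw [halfT, e, arccos_cos hξ.1.le (by linarith [hξ.2, pi_pos])]
  · rw [halfT', e, ← sin_sq, Real.sqrt_sq hs.le]; field_simp

theorem half_cosC (q : ℝ) (hq : 0 ≤ q) : Continuous fun ξ : ℝ => cos ξ ^ q :=
  continuous_cos.rpow_const fun _ => Or.inr hq

theorem half_wallis {p : ℝ} (hp : 0 < p) :
    (p + 1) * (∫ ξ in (0 : ℝ)..π / 2, cos ξ ^ p) =
      (p + 2) * ∫ ξ in (0 : ℝ)..π / 2, cos ξ ^ (p + 2) := by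
  have c0 := half_cosC p hp.le
  have c1 := half_cosC (p + 1) (by linarith)
  have c2 := half_cosC (p + 2) (by linarith)
  have h := intervalIntegral.integral_eq_sub_of_hasDerivAt_of_le (a := 0) (b := π / 2)
    (f := fun ξ => sin ξ * cos ξ ^ (p + 1))
    (f' := fun ξ => (p + 2) * cos ξ ^ (p + 2) - (p + 1) * cos ξ ^ p) (by positivity)
    (continuous_sin.mul c1).continuousOn (fun ξ hξ => by
      have hc : 0 < cos ξ := cos_pos_of_mem_Ioo ⟨by linarith [hξ.1, pi_pos], hξ.2⟩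
      have hd := (hasDerivAt_sin ξ).mul ((hasDerivAt_cos ξ).rpow_const (p := p + 1) (Or.inl hc.ne'))
      refine hd.congr_deriv ?_
      have e1 : cos ξ ^ (p + 1) = cos ξ ^ p * cos ξ := Real.rpow_add_one hc.ne' p
      have e2 : cos ξ ^ (p + 2) = cos ξ ^ p * cos ξ * cos ξ := by
        rw [show p + 2 = (p + 1) + 1 by ring, Real.rpow_add_one hc.ne', e1]
      rw [show p + 1 - 1 = p by ring, e1, e2]
      have := sin_sq_add_cos_sq ξ
      linear_combination (-(p + 1) * cos ξ ^ p) * this)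
    (((continuous_const.mul c2).sub (continuous_const.mul c0)).intervalIntegrable _ _)
  rw [intervalIntegral.integral_sub ((c2.intervalIntegrable _ _).const_mul _)
    ((c0.intervalIntegrable _ _).const_mul _), intervalIntegral.integral_const_mul,
    intervalIntegral.integral_const_mul, cos_pi_div_two, Real.zero_rpow (by linarith),
    sin_zero] at h
  linarith

theorem half_alg {a b ρ I : ℝ} (ha : 0 < a) (hb : b = a + 1) (hρ : 0 < ρ) (hI : 0 < I) :
    (b ^ a / a * (b * (b / a) ^ a * I)) ^ (1 / b) * (ρ ^ b / b * I) ^ (a / b) =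
      ρ ^ a * (b / a * I) := by
  have hb0 : 0 < b := by linarith
  refine Real.log_injOn_pos (mem_Ioi.2 (by positivity)) (mem_Ioi.2 (by positivity)) ?_
  rw [Real.log_mul (by positivity) (by positivity), Real.log_rpow (by positivity),
    Real.log_rpow (by positivity), Real.log_mul (by positivity) (by positivity),
    Real.log_mul (by positivity) (by positivity), Real.log_mul (by positivity) (by positivity),
    Real.log_mul (by positivity) (by positivity), Real.log_mul (by positivity) (by positivity),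
    Real.log_mul (by positivity) (by positivity), Real.log_div (by positivity) ha.ne',
    Real.log_div (by positivity) hb0.ne', Real.log_rpow hb0, Real.log_rpow hρ, Real.log_rpow hρ,
    Real.log_rpow (by positivity), Real.log_div hb0.ne' ha.ne']
  field_simp
  rw [hb]; ring

theorem half (h1 : GreenStmt) (h2 : CutStmt) : HalfStmt := by
  intro p θ₀ ρ hp hθ hρ
  have hθ0 : 0 < θ₀ := by linarith [pi_pos]
  obtain ⟨hm, _, har, hfl, hper⟩ := h1 p θ₀ 0 ρ (π / 2) _ _ hp (half_graph hθ hρ)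
  rw [half_set hθ hρ]
  have c0 := half_cosC p hp.le
  have c2 := half_cosC (p + 2) (by linarith)
  have hI : 0 < ∫ ξ in (0 : ℝ)..π / 2, cos ξ ^ (p + 2) :=
    intervalIntegral.intervalIntegral_pos_of_pos_on (c2.intervalIntegrable _ _)
      (fun ξ hξ => Real.rpow_pos_of_pos (half_vals hρ hξ).2.1 _) (by positivity)
  have hA : (∫ r in (0 : ℝ)..ρ, -halfT' ρ r * r ^ (p + 2) / (p + 2)) =
      ρ ^ (p + 2) / (p + 2) * ∫ ξ in (0 : ℝ)..π / 2, cos ξ ^ (p + 2) := by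
    rw [← intervalIntegral.integral_const_mul]
    refine half_subst hρ _ _ fun ξ hξ => ?_
    obtain ⟨hs, hc, _, e⟩ := half_vals hρ hξ
    rw [e, Real.mul_rpow hρ.le hc.le]
    field_simp
  have hP : (∫ r in (0 : ℝ)..ρ, √((r ^ p) ^ 2 + (r ^ (p + 1) * halfT' ρ r) ^ 2)) =
      ρ ^ (p + 1) * ∫ ξ in (0 : ℝ)..π / 2, cos ξ ^ p := by
    rw [← intervalIntegral.integral_const_mul]
    refine half_subst hρ _ _ fun ξ hξ => ?_
    obtain ⟨hs, hc, _, e⟩ := half_vals hρ hξ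
    have hr : 0 < (ρ * cos ξ) ^ p := Real.rpow_pos_of_pos (mul_pos hρ hc) _
    have e2 : ((ρ * cos ξ) ^ p) ^ 2 + ((ρ * cos ξ) ^ (p + 1) * halfT' ρ (ρ * cos ξ)) ^ 2
        = ((ρ * cos ξ) ^ p / sin ξ) ^ 2 := by
      rw [e, Real.rpow_add_one (mul_pos hρ hc).ne']
      field_simp
      have := sin_sq_add_cos_sq ξ
      linear_combination this
    rw [e2, Real.sqrt_sq (by positivity), Real.mul_rpow hρ.le hc.le, Real.rpow_add_one hρ.ne']
    field_simp
  have hval : KK (p + 1) (m0 (p + 1)) *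
      (ρ ^ (p + 2) / (p + 2) * ∫ ξ in (0 : ℝ)..π / 2, cos ξ ^ (p + 2)) ^ ((p + 1) / (p + 2)) =
      ρ ^ (p + 1) * ∫ ξ in (0 : ℝ)..π / 2, cos ξ ^ p := by
    have e : p + 1 + 1 = p + 2 := by ring
    unfold KK m0
    rw [e, half_alg (by linarith) e.symm hρ hI]
    have hw := half_wallis hp
    have : (∫ ξ in (0 : ℝ)..π / 2, cos ξ ^ p) =
        (p + 2) / (p + 1) * ∫ ξ in (0 : ℝ)..π / 2, cos ξ ^ (p + 2) := by
      field_simp; linarith
    rw [this]
  refine ⟨hm, hI, by rw [har, hA], ?_⟩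
  rw [hval]
  refine le_antisymm (hP ▸ hper) ?_
  obtain ⟨ζ, hζ, hev⟩ := h2 θ₀ hθ0
  have htest : ∀ n, IsTest θ₀ (fun z => ζ n z * cos z.2) (fun z => ζ n z * sin z.2) := by
    intro n
    obtain ⟨a1, a2, a3, a4⟩ := hζ n
    refine ⟨a1.mul (contDiff_cos.comp contDiff_snd), a1.mul (contDiff_sin.comp contDiff_snd),
      a2.mul_right, a2.mul_right, (tsupport_mul_subset_left).trans a3,
      (tsupport_mul_subset_left).trans a3, fun z => ?_⟩
    have := sin_sq_add_cos_sq z.2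
    obtain ⟨b1, b2⟩ := a4 z
    have e : (ζ n z * cos z.2) ^ 2 + (ζ n z * sin z.2) ^ 2 = ζ n z ^ 2 := by
      linear_combination ζ n z ^ 2 * this
    rw [e]; nlinarith
  have hflux : ∀ n, flux p (under θ₀ (halfT ρ)) (fun z => ζ n z * cos z.2)
      (fun z => ζ n z * sin z.2) =
      ∫ ξ in (0 : ℝ)..π / 2, ρ ^ (p + 1) * cos ξ ^ p * ζ n (ρ * cos ξ, ξ) := by
    intro n
    rw [hfl _ _ (htest n)]
    refine half_subst hρ _ _ fun ξ hξ => ?_
    obtain ⟨hs, hc, e1, e⟩ := half_vals hρ hξ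
    simp only
    rw [e1, e, Real.rpow_add_one (mul_pos hρ hc).ne', Real.mul_rpow hρ.le hc.le,
      Real.rpow_add_one hρ.ne']
    field_simp
    have := sin_sq_add_cos_sq ξ
    linear_combination (ζ n (ρ * cos ξ, ξ)) * this
  have hlim : Tendsto (fun n => ∫ ξ in (0 : ℝ)..π / 2, ρ ^ (p + 1) * cos ξ ^ p * ζ n (ρ * cos ξ, ξ))
      atTop (𝓝 (∫ ξ in (0 : ℝ)..π / 2, ρ ^ (p + 1) * cos ξ ^ p)) := by
    have hle : (0 : ℝ) ≤ π / 2 := by positivity
    have hne : ∀ᵐ ξ : ℝ, ξ ≠ π / 2 := by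
      rw [ae_iff]; simp
    refine intervalIntegral.tendsto_integral_filter_of_dominated_convergence
      (fun ξ => |ρ ^ (p + 1) * cos ξ ^ p|) (Eventually.of_forall fun n => ?_)
      (Eventually.of_forall fun n => Eventually.of_forall fun ξ _ => ?_)
      ((continuous_const.mul c0).abs.intervalIntegrable _ _) ?_
    · exact ((continuous_const.mul c0).mul ((hζ n).1.continuous.comp (by fun_prop))).aestronglyMeasurable
    · rw [Real.norm_eq_abs, abs_mul, abs_of_nonneg ((hζ n).2.2.2 _).1]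
      exact mul_le_of_le_one_right (abs_nonneg _) ((hζ n).2.2.2 _).2
    · filter_upwards [hne] with ξ hξ1 hξ
      rw [uIoc_of_le hle] at hξ
      have hξ' : ξ ∈ Ioo 0 (π / 2) := ⟨hξ.1, lt_of_le_of_ne hξ.2 hξ1⟩
      have hmem : (ρ * cos ξ, ξ) ∈ sector θ₀ :=
        ⟨mul_pos hρ (half_vals hρ hξ').2.1, hξ.1, hξ'.2.trans_le hθ⟩
      refine tendsto_const_nhds.congr' ?_
      filter_upwards [hev _ hmem] with n hn
      rw [hn, mul_one]
  rw [intervalIntegral.integral_const_mul] at hlim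
  refine le_of_tendsto' (ENNReal.tendsto_ofReal hlim) fun n => ?_
  rw [← hflux n]
  unfold perim
  exact le_iSup_of_le _ (le_iSup_of_le _ (le_iSup_of_le (htest n) le_rfl))

end Pool.Agent.MP_d56274_gt
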