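import Pool.Agent.MP_d56274_gt.Spec

/-! The row HOL: the converse of the Hoelder inequality. -/

namespace Pool.Agent.MP_d56274_gt

open MeasureTheory Set Real Filter Topology

theorem hol_lip {a M x y : ℝ} (ha : 0 ≤ a) (hx : x ∈ Icc 0 M) (hy : y ∈ Icc 0 M) :
    y ^ (a + 1) ≤ x ^ (a + 1) + (a + 1) * M ^ a * |x - y| := by
  have := (convex_Icc 0 M).norm_image_sub_le_of_norm_hasDerivWithin_le
    (f := fun t : ℝ => t ^ (a + 1)) (f' := fun t => (a + 1) * t ^ (a + 1 - 1))
    (C := (a + 1) * M ^ a)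
    (fun t _ => (Real.hasDerivAt_rpow_const (Or.inr (by linarith))).hasDerivWithinAt)
    (fun t ht => by
      rw [add_sub_cancel_right, Real.norm_of_nonneg
        (mul_nonneg (by linarith) (Real.rpow_nonneg ht.1 a))]
      exact mul_le_mul_of_nonneg_left (Real.rpow_le_rpow ht.1 ht.2 ha) (by linarith)) hx hy
  rw [Real.norm_eq_abs, Real.norm_eq_abs, abs_sub_comm y x] at this
  linarith [le_abs_self (y ^ (a + 1) - x ^ (a + 1))]

theorem hol_clip {M x h : ℝ} (hx : x ∈ Icc 0 M) : |x - max 0 (min h M)| ≤ |x - h| := by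
  have e : x = max 0 (min x M) := by rw [min_eq_left hx.2, max_eq_right hx.1]
  conv_lhs => rw [e]
  refine (abs_max_sub_max_le_max _ _ _ _).trans (max_le (by simp) ?_)
  exact (abs_min_sub_min_le_max _ _ _ _).trans (max_le le_rfl (by simp))

theorem hol_approx {a m B ε : ℝ} {u : ℝ → ℝ} (ha : 1 < a) (hm : 0 ≤ m) (hB : 0 ≤ B)
    (hu : AEMeasurable u (volume.restrict (Ioo 0 m))) (hb : ∀ t ∈ Ioo 0 m, 0 ≤ u t ∧ u t ≤ B)
    (hε : 0 < ε) : ∃ h : ℝ → ℝ, Continuous h ∧ (∀ t, 0 ≤ h t) ∧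
      (∫ t in (0 : ℝ)..m, h t ^ (a + 1)) ≤
        (∫ t in (0 : ℝ)..m, u t ^ ((a + 1) / a)) + (a + 1) * (B ^ (1 / a)) ^ a * ε ∧
      (∫ t in (0 : ℝ)..m, u t ^ ((a + 1) / a)) - B * ε ≤ ∫ t in (0 : ℝ)..m, h t * u t := by
  have ha0 : 0 < a := by linarith
  have hint : ∀ (f : ℝ → ℝ) (C : ℝ), AEMeasurable f (volume.restrict (Ioo 0 m)) →
      (∀ t ∈ Ioo 0 m, 0 ≤ f t ∧ f t ≤ C) → Integrable f (volume.restrict (Ioo 0 m)) :=
    fun f C hf hC => Integrable.of_bound hf.aestronglyMeasurable C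
      (ae_restrict_of_forall_mem measurableSet_Ioo fun t ht => by
        rw [Real.norm_of_nonneg (hC t ht).1]; exact (hC t ht).2)
  have hpw : ∀ e : ℝ, 0 ≤ e → Integrable (fun t => u t ^ e) (volume.restrict (Ioo 0 m)) :=
    fun e he => hint _ (B ^ e) (hu.pow_const e) fun t ht =>
      ⟨Real.rpow_nonneg (hb t ht).1 e, Real.rpow_le_rpow (hb t ht).1 (hb t ht).2 he⟩
  have hφ : ∀ t ∈ Ioo 0 m, u t ^ (1 / a) ∈ Icc 0 (B ^ (1 / a)) := fun t ht =>
    ⟨Real.rpow_nonneg (hb t ht).1 _, Real.rpow_le_rpow (hb t ht).1 (hb t ht).2 (by positivity)⟩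
  have i1 := hpw (1 / a) (by positivity)
  have i2 := hpw ((a + 1) / a) (by positivity)
  obtain ⟨g, hg, ig⟩ := i1.exists_boundedContinuous_integral_sub_le hε
  have i3 : Integrable (fun t => ‖u t ^ (1 / a) - g t‖) (volume.restrict (Ioo 0 m)) :=
    (i1.sub ig).norm
  have hM : 0 ≤ B ^ (1 / a) := Real.rpow_nonneg hB _
  have hc : Continuous fun t => max 0 (min (g t) (B ^ (1 / a))) :=
    continuous_const.max (g.continuous.min continuous_const)
  have hr : ∀ t, max 0 (min (g t) (B ^ (1 / a))) ∈ Icc 0 (B ^ (1 / a)) := fun t =>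
    ⟨le_max_left _ _, max_le hM (min_le_right _ _)⟩
  refine ⟨_, hc, fun t => (hr t).1, ?_, ?_⟩
  all_goals simp only [intervalIntegral.integral_of_le hm, integral_Ioc_eq_integral_Ioo]
  · have hC : 0 ≤ (a + 1) * (B ^ (1 / a)) ^ a := by positivity
    refine le_trans ?_ (add_le_add le_rfl (mul_le_mul_of_nonneg_left hg hC))
    rw [← integral_const_mul, ← integral_add i2 (i3.const_mul _)]
    refine setIntegral_mono_on (hint _ ((B ^ (1 / a)) ^ (a + 1))
      (hc.aemeasurable.pow_const _) fun t _ => ⟨Real.rpow_nonneg (hr t).1 _,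
        Real.rpow_le_rpow (hr t).1 (hr t).2 (by linarith)⟩) (i2.add (i3.const_mul _))
      measurableSet_Ioo fun t ht => ?_
    refine (hol_lip ha0.le (hφ t ht) (hr t)).trans (add_le_add (le_of_eq ?_)
      (mul_le_mul_of_nonneg_left (hol_clip (hφ t ht)) hC))
    rw [← Real.rpow_mul (hb t ht).1]
    congr 1
    ring
  · refine le_trans (sub_le_sub_left (mul_le_mul_of_nonneg_left hg hB) _) ?_
    rw [← integral_const_mul, ← integral_sub i2 (i3.const_mul _)]
    refine setIntegral_mono_on (i2.sub (i3.const_mul _)) (hint _ (B ^ (1 / a) * B)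
      (hc.aemeasurable.mul hu) fun t ht => ⟨mul_nonneg (hr t).1 (hb t ht).1,
        mul_le_mul (hr t).2 (hb t ht).2 (hb t ht).1 hM⟩) measurableSet_Ioo fun t ht => ?_
    have e : u t ^ ((a + 1) / a) = u t ^ (1 / a) * u t := by
      rw [← Real.rpow_add_one' (hb t ht).1 (by positivity)]
      congr 1
      field_simp
      ring
    have k1 := (le_abs_self _).trans (hol_clip (h := g t) (hφ t ht))
    have k2 := mul_le_mul_of_nonneg_right k1 (hb t ht).1
    have k3 := mul_le_mul_of_nonneg_left (hb t ht).2 (abs_nonneg (u t ^ (1 / a) - g t))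
    rw [e, Real.norm_eq_abs]
    linarith

theorem hol : HolStmt := by
  intro a m c L B A u ha hm hc hu hb hL hA hAI
  have ha0 : 0 < a := by linarith
  have hb' : ∀ t ∈ Ioo 0 m, 0 ≤ u t ∧ u t ≤ max B 0 := fun t ht =>
    ⟨(hb t ht).1, (hb t ht).2.trans (le_max_left _ _)⟩
  generalize hI : (∫ t in (0 : ℝ)..m, u t ^ ((a + 1) / a)) = I at hAI
  have hκ : 0 < a ^ (1 / a) / (a + 1) := by positivity
  have hI0 : 0 ≤ I := nonneg_of_mul_nonneg_right (hA.trans hAI) hκ |> fun h => h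
  have key : ∀ μ : ℝ, 0 ≤ μ → μ ^ (a + 1) * I < c → μ * I ≤ L := fun μ hμ h => by
    have t1 : Tendsto (fun ε : ℝ => μ * (I - max B 0 * ε)) (𝓝[>] 0) (𝓝 (μ * I)) :=
      (Continuous.tendsto' (by fun_prop) 0 _ (by simp)).mono_left nhdsWithin_le_nhds
    have t2 : Tendsto (fun ε : ℝ => μ ^ (a + 1) * (I + (a + 1) * ((max B 0) ^ (1 / a)) ^ a * ε))
        (𝓝[>] 0) (𝓝 (μ ^ (a + 1) * I)) :=
      (Continuous.tendsto' (by fun_prop) 0 _ (by simp)).mono_left nhdsWithin_le_nhds
    refine le_of_tendsto t1 ?_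
    filter_upwards [t2.eventually_lt_const h, self_mem_nhdsWithin] with ε h1 h2
    obtain ⟨g, g1, g2, g3, g4⟩ := hol_approx ha hm (le_max_right B 0) hu hb' h2
    rw [hI] at g3 g4
    have := hL (fun t => μ * g t) (continuous_const.mul g1) (fun t => mul_nonneg hμ (g2 t)) (by
      simp only [Real.mul_rpow hμ (g2 _), intervalIntegral.integral_const_mul]
      exact (mul_le_mul_of_nonneg_left g3 (Real.rpow_nonneg hμ _)).trans_lt h1)
    simp only [mul_assoc, intervalIntegral.integral_const_mul] at this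
    exact (mul_le_mul_of_nonneg_left g4 hμ).trans this
  have hL0 : 0 ≤ L := by
    simpa using key 0 le_rfl (by rwa [Real.zero_rpow (by linarith), zero_mul])
  have hb0 : 0 < a + 1 := by linarith
  have k1 : c ^ (1 / (a + 1)) * I ^ (a / (a + 1)) ≤ L := by
    rcases hI0.eq_or_lt with rfl | hI1
    · rwa [Real.zero_rpow (by positivity), mul_zero]
    have k : (c / I) ^ (1 / (a + 1)) ≤ L / I := by
      refine le_of_forall_lt_imp_le_of_dense fun μ hμ => ?_
      rcases le_total μ 0 with h | h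
      · exact h.trans (div_nonneg hL0 hI0)
      rw [le_div_iff₀ hI1]
      refine key μ h ?_
      have := Real.rpow_lt_rpow h hμ hb0
      rwa [← Real.rpow_mul (by positivity), one_div_mul_cancel hb0.ne', Real.rpow_one,
        lt_div_iff₀ hI1] at this
    rw [le_div_iff₀ hI1, Real.div_rpow hc.le hI0] at k
    rw [show a / (a + 1) = 1 - 1 / (a + 1) by field_simp; ring, Real.rpow_sub hI1, Real.rpow_one]
    calc _ = c ^ (1 / (a + 1)) / I ^ (1 / (a + 1)) * I := by ring
      _ ≤ L := k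
  have k2 : KK a c * (a ^ (1 / a) / (a + 1)) ^ (a / (a + 1)) = c ^ (1 / (a + 1)) := by
    rw [KK, show a / (a + 1) = a * (1 / (a + 1)) by ring, Real.rpow_mul hκ.le,
      ← Real.mul_rpow (by positivity) (by positivity), Real.div_rpow (by positivity) hb0.le,
      ← Real.rpow_mul ha0.le, one_div_mul_cancel ha0.ne', Real.rpow_one]
    congr 1
    field_simp
  refine le_trans (mul_le_mul_of_nonneg_left (Real.rpow_le_rpow hA hAI (by positivity))
    (by unfold KK; positivity)) ?_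
  rwa [Real.mul_rpow hκ.le hI0, ← mul_assoc, k2]

end Pool.Agent.MP_d56274_gt
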