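import Pool.Agent.MP_d56274_gt.Spec

/-! The inequalities between the normalized roots. -/

namespace Pool.Agent.MP_d56274_gt

open MeasureTheory Set Real Filter Topology

theorem ineq_odd {a s : ℝ} (ha : 1 < a) (h0 : 0 < s) (h1 : s < 1) :
    a * log (1 + s / a) + log (1 - s) < a * log (1 - s / a) + log (1 + s) := by
  have ha0 : 0 < a := by linarith
  have hd : ∀ t ∈ Icc 0 s, HasDerivAt
      (fun t => a * log (1 + t / a) + log (1 - t) - (a * log (1 - t / a) + log (1 + t)))
      (a * (1 / a / (1 + t / a)) + -1 / (1 - t) - (a * (-(1 / a) / (1 - t / a)) + 1 / (1 + t))) t := by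
    intro t ht
    have q0 : 0 ≤ t / a := div_nonneg ht.1 ha0.le
    have q1 : t / a < 1 := by rw [div_lt_one ha0]; linarith [ht.2]
    exact ((((((hasDerivAt_id' t).div_const a).const_add 1).log (by linarith)).const_mul a).add
      (((hasDerivAt_id' t).const_sub 1).log (by linarith [ht.2]))).sub
      ((((((hasDerivAt_id' t).div_const a).const_sub 1).log (by linarith)).const_mul a).add
      (((hasDerivAt_id' t).const_add 1).log (by linarith [ht.1])))
  have := strictAntiOn_of_deriv_neg (convex_Icc 0 s)
    (fun t ht => (hd t ht).continuousAt.continuousWithinAt) (fun t ht => by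
      rw [interior_Icc] at ht
      rw [(hd t ⟨ht.1.le, ht.2.le⟩).deriv]
      have t1 : 0 < 1 - t := by linarith [ht.2]
      have t2 : 0 < 1 + t := by linarith [ht.1]
      have t3 : 0 < a - t := by linarith [ht.2]
      have t4 : 0 < a + t := by linarith [ht.1]
      have e : a * (1 / a / (1 + t / a)) + -1 / (1 - t) -
          (a * (-(1 / a) / (1 - t / a)) + 1 / (1 + t)) =
          -(2 * t ^ 2 * (a ^ 2 - 1)) / ((a + t) * (a - t) * (1 - t) * (1 + t)) := by
        field_simp
        ring
      rw [e]
      have : 0 < 2 * t ^ 2 * (a ^ 2 - 1) := mul_pos (by have := ht.1; positivity) (by nlinarith)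
      exact div_neg_of_neg_of_pos (by linarith) (by positivity))
    ⟨le_rfl, h0.le⟩ ⟨h0.le, le_rfl⟩ h0
  simp only [zero_div, add_zero, sub_zero, log_one, mul_zero] at this
  linarith

theorem ineq_anti {a s u : ℝ} (ha : 1 < a) (h0 : 0 ≤ s) (h1 : s ≤ u) (h2 : u < a) :
    a * log (1 - u / a) + log (1 + u) ≤ a * log (1 - s / a) + log (1 + s) := by
  have ha0 : 0 < a := by linarith
  have hd : ∀ t ∈ Icc s u, HasDerivAt (fun t => a * log (1 - t / a) + log (1 + t))
      (a * (-(1 / a) / (1 - t / a)) + 1 / (1 + t)) t := by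
    intro t ht
    have q1 : t / a < 1 := by rw [div_lt_one ha0]; linarith [ht.2]
    exact (((((hasDerivAt_id' t).div_const a).const_sub 1).log (by linarith)).const_mul a).add
      (((hasDerivAt_id' t).const_add 1).log (by linarith [ht.1]))
  refine antitoneOn_of_deriv_nonpos (convex_Icc s u)
    (fun t ht => (hd t ht).continuousAt.continuousWithinAt)
    (fun t ht => (hd t (interior_subset ht)).differentiableAt.differentiableWithinAt)
    (fun t ht => ?_) ⟨le_rfl, h1⟩ ⟨h1, le_rfl⟩ h1
  have ht' := interior_subset ht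
  rw [(hd t ht').deriv]
  have t0 : 0 ≤ t := h0.trans ht'.1
  have t3 : 0 < a - t := by linarith [ht'.2]
  have e : a * (-(1 / a) / (1 - t / a)) + 1 / (1 + t) = -(t * (a + 1)) / ((a - t) * (1 + t)) := by
    field_simp
    ring
  rw [e]
  exact div_nonpos_of_nonpos_of_nonneg (neg_nonpos.2 (by positivity)) (by positivity)

theorem ineq_lam {a A B z : ℝ} (ha : 1 < a) (hz : 0 < z) (h1 : z < A) (h2 : A < B)
    (h3 : B ≤ a * z) :
    2 * √a / (a + 1) < (A + B) / (2 * (a + 1) * z) * (1 + a * z ^ 2 / (A * B)) ∧
      (A + B) / (2 * (a + 1) * z) * (1 + a * z ^ 2 / (A * B)) < 1 := by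
  have hA : 0 < A := by linarith
  have hB : 0 < B := by linarith
  have ha0 : 0 < a := by linarith
  have e : (A + B) / (2 * (a + 1) * z) * (1 + a * z ^ 2 / (A * B)) =
      (A + B) * (A * B + a * z ^ 2) / (2 * (a + 1) * z * (A * B)) := by field_simp
  rw [e]
  constructor
  · have hs := Real.sqrt_pos.2 ha0
    have hs2 := Real.sq_sqrt ha0.le
    have hg := Real.sqrt_pos.2 (mul_pos hA hB)
    have hg2 := Real.sq_sqrt (mul_pos hA hB).le
    set g := √(A * B)
    set s := √a
    have k1 : 2 * g < A + B := by
      refine lt_of_pow_lt_pow_left₀ 2 (by positivity) ?_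
      nlinarith [mul_pos (sub_pos.2 h2) (sub_pos.2 h2)]
    have k2 : 2 * g * (s * z) ≤ A * B + a * z ^ 2 := by
      rw [← hg2, ← hs2]
      nlinarith [sq_nonneg (g - s * z)]
    have k3 : 2 * g * (2 * g * (s * z)) < (A + B) * (A * B + a * z ^ 2) :=
      mul_lt_mul k1 k2 (by positivity) (by positivity)
    rw [div_lt_div_iff₀ (by positivity) (by positivity)]
    have k4 := mul_lt_mul_of_pos_right k3 (by positivity : 0 < a + 1)
    have k5 : 2 * g * (2 * g * (s * z)) * (a + 1) = 2 * s * (2 * (a + 1) * z * (A * B)) := by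
      rw [← hg2]; ring
    linarith
  · rw [div_lt_one (by positivity)]
    have k0 : B < a * A := h3.trans_lt (mul_lt_mul_of_pos_left h1 ha0)
    have k1 : (A + B) * ((A - z) * (a * z - B)) ≥ 0 :=
      mul_nonneg (by positivity) (mul_nonneg (by linarith) (by linarith))
    have k2 : 0 < z * ((B - A) * (a * A - B)) :=
      mul_pos hz (mul_pos (by linarith) (by linarith))
    nlinarith

theorem ineq (h : RootsStmt) : IneqStmt := by
  intro a ha x hx
  obtain ⟨-, -, -, -, hb, -, hc⟩ := h a ha
  obtain ⟨p1, q1, a0, a1, b0, b1, eP, eQ, -, -⟩ := hc x hx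
  obtain ⟨-, q0, -⟩ := hb x
  have ha0 : 0 < a := by linarith
  have hk2 : kk x ^ 2 = 1 + x ^ 2 := Real.sq_sqrt (by positivity)
  have hk : 0 < kk x := Real.sqrt_pos.2 (by positivity)
  have hz : 0 < zz x := div_pos hx hk
  have hz2 : 1 - zz x ^ 2 = 1 / kk x ^ 2 := by
    unfold zz
    field_simp
    linarith
  have hz3 : 0 < 1 - zz x ^ 2 := by rw [hz2]; positivity
  have lz : log (1 - zz x ^ 2) = -2 * log (kk x) := by
    rw [hz2, one_div, Real.log_inv, Real.log_pow]; push_cast; ring
  have y0 : 0 < be a x / a := by positivity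
  have y1 : be a x / a < 1 := by rwa [div_lt_one ha0]
  have s0 : 0 < al a x / a := by positivity
  have LP : a * log (1 + al a x / a) + log (1 - al a x) = -(a + 1) * log (kk x) := by
    have e : rp a x = kk x * (1 + al a x / a) := by unfold al; field_simp; ring
    have := congrArg log eP
    rw [Real.log_mul (by positivity) (by linarith), Real.log_rpow (by linarith), e,
      Real.log_mul hk.ne' (by linarith), one_div, Real.log_inv] at this
    linarith
  have LQ : a * log (1 - be a x / a) + log (1 + be a x) = -(a + 1) * log (kk x) := by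
    have e : rm a x = kk x * (1 - be a x / a) := by unfold be; field_simp; ring
    have := congrArg log eQ
    rw [Real.log_mul (by positivity) (by linarith), Real.log_rpow q0, e,
      Real.log_mul hk.ne' (by linarith), one_div, Real.log_inv] at this
    linarith
  have h1 : zz x < al a x := by
    have c := strictConcaveOn_log_Ioi.2 (mem_Ioi.2 (by linarith : 0 < 1 - al a x))
      (mem_Ioi.2 (by linarith : 0 < 1 + al a x)) (by linarith)
      (div_pos (by linarith) (by positivity) : 0 < (a - 1) / (2 * a))
      (by positivity : 0 < (a + 1) / (2 * a)) (by field_simp; ring)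
    simp only [smul_eq_mul] at c
    rw [show (a - 1) / (2 * a) * (1 - al a x) + (a + 1) / (2 * a) * (1 + al a x) = 1 + al a x / a by
      field_simp; ring] at c
    have c2 := mul_lt_mul_of_pos_left c (by positivity : 0 < 2 * a)
    rw [show 2 * a * ((a - 1) / (2 * a) * log (1 - al a x) + (a + 1) / (2 * a) * log (1 + al a x))
      = (a - 1) * log (1 - al a x) + (a + 1) * log (1 + al a x) by field_simp] at c2
    have c3 : log (1 - al a x ^ 2) < log (1 - zz x ^ 2) := by
      rw [lz, show 1 - al a x ^ 2 = (1 - al a x) * (1 + al a x) by ring,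
        Real.log_mul (by linarith) (by linarith)]
      refine lt_of_mul_lt_mul_left ?_ (by linarith : 0 ≤ a + 1)
      nlinarith
    rw [Real.log_lt_log_iff (by nlinarith) hz3] at c3
    exact lt_of_pow_lt_pow_left₀ 2 a0.le (by linarith)
  have h3 : be a x ≤ a * zz x := by
    set y := be a x / a with hy
    have hby : be a x = a * y := by rw [hy]; field_simp
    have c := strictConcaveOn_log_Ioi.concaveOn.2 (mem_Ioi.2 (by linarith : 0 < 1 - y))
      (mem_Ioi.2 (by positivity : 0 < 1 + a * y))
      (div_nonneg (by linarith) (by positivity) : 0 ≤ (a - 1) / (a + 1))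
      (by positivity : 0 ≤ 2 / (a + 1)) (by field_simp; ring)
    simp only [smul_eq_mul] at c
    rw [show (a - 1) / (a + 1) * (1 - y) + 2 / (a + 1) * (1 + a * y) = 1 + y by
      field_simp; ring] at c
    have c2 := mul_le_mul_of_nonneg_left c (by positivity : 0 ≤ a + 1)
    rw [show (a + 1) * ((a - 1) / (a + 1) * log (1 - y) + 2 / (a + 1) * log (1 + a * y))
      = (a - 1) * log (1 - y) + 2 * log (1 + a * y) by field_simp] at c2
    rw [hby] at LQ
    have c3 : log (1 - zz x ^ 2) ≤ log (1 - y ^ 2) := by
      rw [lz, show 1 - y ^ 2 = (1 - y) * (1 + y) by ring,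
        Real.log_mul (by linarith) (by linarith)]
      refine le_of_mul_le_mul_left ?_ (by linarith : 0 < a + 1)
      nlinarith
    rw [Real.log_le_log_iff hz3 (by nlinarith)] at c3
    rw [hby]
    exact mul_le_mul_of_nonneg_left
      (le_of_pow_le_pow_left₀ two_ne_zero hz.le (by linarith)) ha0.le
  have h2 : al a x < be a x := by
    by_contra hcon
    have c1 := ineq_odd ha a0 a1
    have c2 := ineq_anti ha b0.le (not_lt.1 hcon) (by linarith)
    linarith
  exact ⟨h1, h2, h3, ineq_lam ha hz h1 h2 h3⟩

end Pool.Agent.MP_d56274_gt
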