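import Mathlib
import Pool.Agent.MP_d56274_gt.Spec

/-!
The lower bound for the weighted perimeter of a measurable set, from the one-dimensional bound,
mollification and slicing.
-/

namespace Pool.Agent.MP_d56274_gt

open MeasureTheory Set Real Filter Topology

theorem lb_cont (a : ℝ) (ha : 0 ≤ a) : Continuous fun z : ℝ × ℝ => z.1 ^ a :=
  continuous_fst.rpow_const fun _ => Or.inr ha

theorem lb_fubini (a x y e₀ e₁ : ℝ) (ha : 0 ≤ a) (hxy : x ≤ y) (he : e₀ ≤ e₁) (v : ℝ × ℝ → ℝ)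
    (hv : Continuous v) :
    (∫ r in x..y, r ^ a * ∫ θ in e₀..e₁, v (r, θ)) =
      ∫ z in Icc x y ×ˢ Icc e₀ e₁, z.1 ^ a * v z := by
  have hc : Continuous fun z : ℝ × ℝ => z.1 ^ a * v z := (lb_cont a ha).mul hv
  have hi : IntegrableOn (fun z : ℝ × ℝ => z.1 ^ a * v z) (Icc x y ×ˢ Icc e₀ e₁)
      ((volume : Measure ℝ).prod volume) := by
    rw [← Measure.volume_eq_prod]
    exact hc.continuousOn.integrableOn_compact (isCompact_Icc.prod isCompact_Icc)
  rw [Measure.volume_eq_prod, setIntegral_prod _ hi, intervalIntegral.integral_of_le hxy,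
    integral_Icc_eq_integral_Ioc]
  refine setIntegral_congr_fun measurableSet_Ioc fun r _ => ?_
  simp only
  rw [intervalIntegral.integral_of_le he, integral_Icc_eq_integral_Ioc, integral_const_mul]

theorem lb_intAbs (R K : Set (ℝ × ℝ)) (hR : MeasurableSet R) (hK : IsCompact K)
    (v : ℝ × ℝ → ℝ) (hv : Continuous v) :
    IntegrableOn (fun z => |v z - R.indicator 1 z|) K := by
  have h1 : IntegrableOn v K := hv.continuousOn.integrableOn_compact hK
  have h2 : IntegrableOn (fun _ : ℝ × ℝ => (1 : ℝ)) K :=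
    continuous_const.continuousOn.integrableOn_compact hK
  have h3 : IntegrableOn (R.indicator (1 : ℝ × ℝ → ℝ)) K := h2.indicator hR
  exact (h1.sub h3).abs

theorem lb_close (a M δ : ℝ) (ha : 0 ≤ a) (R K K₁ : Set (ℝ × ℝ)) (hR : MeasurableSet R)
    (hK : IsCompact K) (hK₁ : IsCompact K₁) (hs : K₁ ⊆ K) (hM0 : 0 ≤ M)
    (hM : ∀ z ∈ K₁, 0 ≤ z.1 ^ a ∧ z.1 ^ a ≤ M) (v : ℝ × ℝ → ℝ) (hv : Continuous v)
    (hδ : (∫ z in K, |v z - R.indicator 1 z|) ≤ δ) :
    |(∫ z in K₁, z.1 ^ a * v z) - ∫ z in R ∩ K₁, z.1 ^ a| ≤ M * δ := by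
  have hg : IntegrableOn (fun z : ℝ × ℝ => z.1 ^ a) K₁ :=
    (lb_cont a ha).continuousOn.integrableOn_compact hK₁
  have hgv : IntegrableOn (fun z : ℝ × ℝ => z.1 ^ a * v z) K₁ :=
    ((lb_cont a ha).mul hv).continuousOn.integrableOn_compact hK₁
  have hgi : IntegrableOn (R.indicator fun z : ℝ × ℝ => z.1 ^ a) K₁ := hg.indicator hR
  have e1 : (∫ z in R ∩ K₁, z.1 ^ a) = ∫ z in K₁, R.indicator (fun z : ℝ × ℝ => z.1 ^ a) z := by
    rw [setIntegral_indicator hR, inter_comm]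
  have hA := lb_intAbs R K hR hK v hv
  have hA1 := lb_intAbs R K₁ hR hK₁ v hv
  rw [e1, ← integral_sub hgv hgi]
  calc |∫ z in K₁, (z.1 ^ a * v z - R.indicator (fun z : ℝ × ℝ => z.1 ^ a) z)|
      ≤ ∫ z in K₁, |z.1 ^ a * v z - R.indicator (fun z : ℝ × ℝ => z.1 ^ a) z| :=
        abs_integral_le_integral_abs
    _ ≤ ∫ z in K₁, M * |v z - R.indicator 1 z| := by
        refine setIntegral_mono_on (hgv.sub hgi).abs (hA1.const_mul M) hK₁.measurableSet
          fun z hz => ?_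
        have h0 := hM z hz
        have e : z.1 ^ a * v z - R.indicator (fun z : ℝ × ℝ => z.1 ^ a) z
            = z.1 ^ a * (v z - R.indicator 1 z) := by
          by_cases hzR : z ∈ R
          · simp only [indicator_of_mem hzR, Pi.one_apply]; ring
          · simp only [indicator_of_notMem hzR]; ring
        rw [e, abs_mul, abs_of_nonneg h0.1]
        exact mul_le_mul_of_nonneg_right h0.2 (abs_nonneg _)
    _ = M * ∫ z in K₁, |v z - R.indicator 1 z| := integral_const_mul _ _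
    _ ≤ M * ∫ z in K, |v z - R.indicator 1 z| := by
        refine mul_le_mul_of_nonneg_left ?_ hM0
        exact setIntegral_mono_set hA (Eventually.of_forall fun z => abs_nonneg _)
          hs.eventuallyLE
    _ ≤ M * δ := mul_le_mul_of_nonneg_left hδ hM0

theorem lb_var (δ : ℝ) (R K K₁ : Set (ℝ × ℝ)) (hR : MeasurableSet R)
    (hK : IsCompact K) (hK₁ : IsCompact K₁) (hs : K₁ ⊆ K) (v : ℝ × ℝ → ℝ) (hv : Continuous v)
    (h01 : ∀ z, 0 ≤ v z ∧ v z ≤ 1) (hδ : (∫ z in K, |v z - R.indicator 1 z|) ≤ δ) :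
    (∫ z in K₁, v z * (1 - v z)) ≤ δ := by
  have hA := lb_intAbs R K hR hK v hv
  have hA1 := lb_intAbs R K₁ hR hK₁ v hv
  have hi : IntegrableOn (fun z => v z * (1 - v z)) K₁ :=
    (hv.mul (continuous_const.sub hv)).continuousOn.integrableOn_compact hK₁
  calc (∫ z in K₁, v z * (1 - v z)) ≤ ∫ z in K₁, |v z - R.indicator 1 z| := by
        refine setIntegral_mono_on hi hA1 hK₁.measurableSet fun z _ => ?_
        obtain ⟨h0, h1⟩ := h01 z
        by_cases hzR : z ∈ R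
        · simp only [indicator_of_mem hzR, Pi.one_apply]
          rw [abs_of_nonpos (by linarith)]; nlinarith
        · simp only [indicator_of_notMem hzR, sub_zero]
          rw [abs_of_nonneg h0]; nlinarith
    _ ≤ ∫ z in K, |v z - R.indicator 1 z| :=
        setIntegral_mono_set hA (Eventually.of_forall fun z => abs_nonneg _) hs.eventuallyLE
    _ ≤ δ := hδ

theorem lb_area (p θ₀ A : ℝ) (hp : 0 < p) (R : Set (ℝ × ℝ)) (hR : MeasurableSet R)
    (hs : R ⊆ sector θ₀) (hA : 0 ≤ A) (h : area p R = ENNReal.ofReal A) :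
    IntegrableOn (fun z : ℝ × ℝ => z.1 ^ (p + 1)) R ∧ (∫ z in R, z.1 ^ (p + 1)) = A := by
  have hc := lb_cont (p + 1) (by linarith)
  have hn : 0 ≤ᵐ[volume.restrict R] fun z : ℝ × ℝ => z.1 ^ (p + 1) := by
    refine (ae_restrict_iff' hR).2 (Eventually.of_forall fun z hz => ?_)
    exact Real.rpow_nonneg (le_of_lt (hs hz).1) _
  unfold area at h
  refine ⟨?_, ?_⟩
  · refine ⟨hc.aestronglyMeasurable, ?_⟩
    rw [hasFiniteIntegral_iff_ofReal hn, h]
    exact ENNReal.ofReal_lt_top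
  · rw [integral_eq_lintegral_of_nonneg_ae hn hc.aestronglyMeasurable, h,
      ENNReal.toReal_ofReal hA]

theorem lb_exhaust (θ₀ ε : ℝ) (hε : 0 < ε) (R : Set (ℝ × ℝ)) (hR : MeasurableSet R)
    (hs : R ⊆ sector θ₀) (g : ℝ × ℝ → ℝ) (hg : IntegrableOn g R) :
    ∃ L : ℝ, 1 ≤ L ∧ 1 / L ≤ ε ∧
      (∫ z in R, g z) - ε < ∫ z in R ∩ Icc (1 / L) L ×ˢ Icc (1 / L) (θ₀ - 1 / L), g z := by
  set s : ℕ → Set (ℝ × ℝ) := fun n =>
    R ∩ Icc (1 / ((n : ℝ) + 1)) ((n : ℝ) + 1) ×ˢ Icc (1 / ((n : ℝ) + 1)) (θ₀ - 1 / ((n : ℝ) + 1))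
    with hsdef
  have hm : ∀ n, MeasurableSet (s n) := fun n => hR.inter (measurableSet_Icc.prod measurableSet_Icc)
  have hmono : Monotone s := by
    intro n m hnm z hz
    have h1 : (n : ℝ) + 1 ≤ (m : ℝ) + 1 := by exact_mod_cast Nat.succ_le_succ hnm
    have h2 : 1 / ((m : ℝ) + 1) ≤ 1 / ((n : ℝ) + 1) :=
      one_div_le_one_div_of_le (by positivity) h1
    obtain ⟨hz1, ⟨hz2, hz3⟩, hz4, hz5⟩ := hz
    exact ⟨hz1, ⟨by linarith, by linarith⟩, by linarith, by linarith⟩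
  have hU : (⋃ n, s n) = R := by
    refine Subset.antisymm (iUnion_subset fun n => inter_subset_left) fun z hz => ?_
    obtain ⟨h1, h2, h3⟩ := hs hz
    have h1' : 0 < z.1 := h1
    obtain ⟨n₁, hn₁⟩ := exists_nat_one_div_lt (lt_min h1' (lt_min h2 (sub_pos.2 h3)))
    obtain ⟨n₂, hn₂⟩ := exists_nat_ge z.1
    have hle : (n₁ : ℝ) + 1 ≤ ((n₁ + n₂ : ℕ) : ℝ) + 1 := by
      push_cast; have : (0 : ℝ) ≤ n₂ := Nat.cast_nonneg _; linarith
    have h4 : 1 / (((n₁ + n₂ : ℕ) : ℝ) + 1) ≤ 1 / ((n₁ : ℝ) + 1) :=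
      one_div_le_one_div_of_le (by positivity) hle
    have h5 := lt_of_lt_of_le hn₁ (min_le_left _ _)
    have h6 := lt_of_lt_of_le hn₁ ((min_le_right _ _).trans (min_le_left _ _))
    have h7 := lt_of_lt_of_le hn₁ ((min_le_right _ _).trans (min_le_right _ _))
    have h8 : z.1 ≤ ((n₁ + n₂ : ℕ) : ℝ) + 1 := by
      push_cast; have : (0 : ℝ) ≤ n₁ := Nat.cast_nonneg _; linarith
    exact mem_iUnion.2 ⟨n₁ + n₂, hz, ⟨by linarith, h8⟩, by linarith, by linarith⟩
  have ht := tendsto_setIntegral_of_monotone hm hmono (hU.symm ▸ hg)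
  rw [hU] at ht
  have h1 : ∀ᶠ n : ℕ in atTop, (∫ z in R, g z) - ε < ∫ z in s n, g z :=
    ht.eventually (lt_mem_nhds (by linarith))
  have h2 : ∀ᶠ n : ℕ in atTop, 1 / ((n : ℝ) + 1) < ε :=
    tendsto_one_div_add_atTop_nhds_zero_nat.eventually (gt_mem_nhds hε)
  obtain ⟨n, hn1, hn2⟩ := (h1.and h2).exists
  exact ⟨(n : ℝ) + 1, by have : (0 : ℝ) ≤ n := Nat.cast_nonneg _; linarith, hn2.le, hn1⟩

theorem lb_good (a θ₀ Θ c e : ℝ) (hG : Good a θ₀ c) (hΘ : 0 < Θ) (hle : Θ ≤ θ₀)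
    (he : θ₀ - Θ ≤ e) (hc : 0 < c - a * e) : Good a Θ (c - a * e) := by
  have ha := hG.ha
  have he0 : 0 ≤ e := by linarith
  refine ⟨ha, hΘ, hc, ?_, fun X hX => ?_⟩
  · have := hG.le_m0
    have : 0 ≤ a * e := by positivity
    linarith
  · have h1 := hG.le_Gam X hX
    unfold Gam at h1 ⊢
    have h2 : (1 + X ^ 2) ^ (-(a + 1) / 2) ≤ 1 :=
      Real.rpow_le_one_of_one_le_of_nonpos (by nlinarith [sq_nonneg X]) (by linarith)
    have h3 : 0 ≤ (1 + X ^ 2) ^ (-(a + 1) / 2) := Real.rpow_nonneg (by positivity) _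
    have h4 : 0 ≤ a * (θ₀ - Θ) := mul_nonneg (by linarith) (by linarith)
    have h5 : a * (θ₀ - Θ) ≤ a * e := mul_le_mul_of_nonneg_left he (by linarith)
    have h6 : (1 + X ^ 2) ^ (-(a + 1) / 2) * (a * (θ₀ - Θ)) ≤ a * (θ₀ - Θ) :=
      mul_le_of_le_one_left h4 h2
    have h7 : (1 + X ^ 2) ^ (-(a + 1) / 2) * (a * Θ + NN a X) =
        (1 + X ^ 2) ^ (-(a + 1) / 2) * (a * θ₀ + NN a X)
          - (1 + X ^ 2) ^ (-(a + 1) / 2) * (a * (θ₀ - Θ)) := by ring
    rw [h7]; linarith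

/-- a radius in `[L, 2 L]` at which the angular integral is small -/
theorem lb_mean (a L d : ℝ) (ha : 0 ≤ a) (hL : 0 < L) (hd : 0 ≤ d) (T : ℝ → ℝ) (hT : Continuous T)
    (h : (∫ r in L..2 * L, r ^ a * T r) < L ^ a * d * L) : ∃ r ∈ Icc L (2 * L), T r ≤ d := by
  by_contra hn
  push Not at hn
  have hc : Continuous fun r : ℝ => r ^ a * T r :=
    (continuous_id.rpow_const fun _ => Or.inr ha).mul hT
  have h1 : (∫ _ in L..2 * L, L ^ a * d) ≤ ∫ r in L..2 * L, r ^ a * T r := by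
    refine intervalIntegral.integral_mono_on (by linarith) intervalIntegrable_const
      (hc.intervalIntegrable _ _) fun r hr => ?_
    have h2 : L ^ a ≤ r ^ a := Real.rpow_le_rpow hL.le hr.1 ha
    exact mul_le_mul h2 (hn r hr).le hd (Real.rpow_nonneg (by linarith [hr.1]) _)
  rw [intervalIntegral.integral_const, smul_eq_mul] at h1
  have : (2 * L - L) * (L ^ a * d) = L ^ a * d * L := by ring
  linarith

theorem lb_trunc (a r₀ r₁ M Θ d : ℝ) (ha : 0 ≤ a) (h0 : 0 < r₀) (h01 : r₀ ≤ r₁) (h1 : r₁ ≤ M)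
    (hd : 0 ≤ d) (T : ℝ → ℝ) (hT : Continuous T) (hle : ∀ r, T r ≤ Θ) :
    (∫ r in r₀..r₁, r ^ a * T r) - 2 * d * (M ^ a * M) ≤
      ∫ r in r₀..r₁, r ^ a * trunc (Θ - 2 * d) (T r - d - d) := by
  have hp : Continuous fun r : ℝ => r ^ a := continuous_id.rpow_const fun _ => Or.inr ha
  have hc : Continuous fun r : ℝ => r ^ a * T r := hp.mul hT
  have hc2 : Continuous fun r : ℝ => r ^ a * trunc (Θ - 2 * d) (T r - d - d) := by
    unfold trunc
    exact hp.mul ((((hT.sub continuous_const).sub continuous_const).max continuous_const).min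
      continuous_const)
  have hM : 0 ≤ M ^ a := Real.rpow_nonneg (by linarith) _
  have h2 : (∫ r in r₀..r₁, (r ^ a * T r - 2 * d * M ^ a)) ≤
      ∫ r in r₀..r₁, r ^ a * trunc (Θ - 2 * d) (T r - d - d) := by
    refine intervalIntegral.integral_mono_on h01 ((hc.sub continuous_const).intervalIntegrable _ _)
      (hc2.intervalIntegrable _ _) fun r hr => ?_
    have h3 : 0 ≤ r ^ a := Real.rpow_nonneg (by linarith [hr.1]) _
    have h4 : r ^ a ≤ M ^ a := Real.rpow_le_rpow (by linarith [hr.1]) (hr.2.trans h1) ha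
    have h5 : T r - 2 * d ≤ trunc (Θ - 2 * d) (T r - d - d) := by
      unfold trunc
      refine le_min ?_ (by linarith [hle r])
      exact le_trans (by linarith) (le_max_left _ _)
    have h6 := mul_le_mul_of_nonneg_left h5 h3
    nlinarith [mul_le_mul_of_nonneg_left h4 hd]
  rw [intervalIntegral.integral_sub (hc.intervalIntegrable _ _) intervalIntegrable_const,
    intervalIntegral.integral_const, smul_eq_mul] at h2
  have h7 : (r₁ - r₀) * (2 * d * M ^ a) ≤ M * (2 * d * M ^ a) :=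
    mul_le_mul_of_nonneg_right (by linarith) (by positivity)
  nlinarith

theorem lb_step (h1 : OneDStmt) (h2 : MollAStmt) (h3 : MollBStmt) (h4 : SliceStmt)
    (p θ₀ c A P ε : ℝ) (R : Set (ℝ × ℝ)) (hG : Good (p + 1) θ₀ c) (hR : MeasurableSet R)
    (hs : R ⊆ sector θ₀) (hA : 0 ≤ A) (har : area p R = ENNReal.ofReal A) (hP : 0 ≤ P)
    (hper : perim p θ₀ R ≤ ENNReal.ofReal P) (hε : 0 < ε) (hε1 : ε ≤ 1) (hεθ : 8 * ε < θ₀)
    (hεc : 0 < c - (p + 1) * (8 * ε)) (hεA : 0 ≤ A - (2 + 6 * 2 ^ (p + 2)) * ε) :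
    KK (p + 1) (c - (p + 1) * (8 * ε)) * (A - (2 + 6 * 2 ^ (p + 2)) * ε) ^ ((p + 1) / (p + 2))
      ≤ (1 + ε) ^ (p + 1) * P + 2 * ε := by
  have hp : 0 < p := by linarith [hG.ha]
  have ha : 0 ≤ p + 1 := by linarith
  obtain ⟨hint, hI⟩ := lb_area p θ₀ A hp R hR hs hA har
  obtain ⟨L, hL1, hLε, hex⟩ := lb_exhaust θ₀ ε hε R hR hs _ hint
  rw [hI] at hex
  have hL : 0 < L := by linarith
  set t := 1 / L with ht
  have ht0 : 0 < t := by positivity
  have ht1 : t ≤ 1 := by linarith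
  have hLa : 0 < L ^ (p + 1) := Real.rpow_pos_of_pos hL _
  have hLa1 : 1 ≤ L ^ (p + 1) := Real.one_le_rpow hL1 ha
  have hM : 0 < (2 * L) ^ (p + 1) := Real.rpow_pos_of_pos (by linarith) _
  have hMp : 0 < (2 * L) ^ p := Real.rpow_pos_of_pos (by linarith) _
  set d := 3 * ε / (L ^ (p + 1) * L) with hd
  have hd0 : 0 < d := by positivity
  have hdL : L ^ (p + 1) * d * L = 3 * ε := by rw [hd]; field_simp
  have hd3 : d ≤ 3 * ε := by
    rw [hd]; refine div_le_self (by positivity) ?_; nlinarith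
  set δ := min (ε / (2 * L) ^ (p + 1)) (min (ε * t / 2) (ε * d / (2 * (2 * L) ^ p))) with hδ
  have hδ0 : 0 < δ := lt_min (by positivity) (lt_min (by positivity) (by positivity))
  have hδ1 : (2 * L) ^ (p + 1) * δ ≤ ε := by
    have : δ ≤ ε / (2 * L) ^ (p + 1) := min_le_left _ _
    rw [le_div_iff₀ hM] at this; linarith
  have hδ2 : δ ≤ ε * t / 2 := (min_le_right _ _).trans (min_le_left _ _)
  have hδ3 : 2 / d * (2 * L) ^ p * δ ≤ ε := by
    have : δ ≤ ε * d / (2 * (2 * L) ^ p) := (min_le_right _ _).trans (min_le_right _ _)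
    rw [le_div_iff₀ (by positivity)] at this
    rw [div_mul_eq_mul_div, div_mul_eq_mul_div, div_le_iff₀ hd0]; linarith
  have he : t ≤ θ₀ - t := by linarith
  have hK : IsCompact (Icc t (2 * L) ×ˢ Icc t (θ₀ - t)) := isCompact_Icc.prod isCompact_Icc
  obtain ⟨m, η, hm0, hmδ, hker, hv1, hv01, hvδ⟩ := h2 R _ δ hR hK hδ0
  set v := moll η R with hv
  have hvc : Continuous v := hv1.continuous
  have hmt : 2 * m ≤ ε * t := by linarith
  have hεt : ε * t ≤ t := mul_le_of_le_one_left ht0.le hε1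
  set T : ℝ → ℝ := fun r => ∫ θ in t..θ₀ - t, v (r, θ) with hT
  have hTc : Continuous T :=
    intervalIntegral.continuous_parametric_intervalIntegral_of_continuous'
      (f := fun r θ => v (r, θ)) hvc _ _
  have hTle : ∀ r, T r ≤ θ₀ - t - t := by
    intro r
    have : (∫ θ in t..θ₀ - t, v (r, θ)) ≤ ∫ _ in t..θ₀ - t, (1 : ℝ) :=
      intervalIntegral.integral_mono_on he
        ((hvc.comp (Continuous.prodMk_right r)).intervalIntegrable _ _) intervalIntegrable_const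
        fun θ _ => (hv01 _).2
    simpa using this
  have hbd : ∀ x y : ℝ, t ≤ x → y ≤ 2 * L → ∀ z ∈ Icc x y ×ˢ Icc t (θ₀ - t),
      0 ≤ z.1 ^ (p + 1) ∧ z.1 ^ (p + 1) ≤ (2 * L) ^ (p + 1) := fun x y hx hy z hz =>
    ⟨Real.rpow_nonneg (by linarith [hz.1.1]) _,
      Real.rpow_le_rpow (by linarith [hz.1.1]) (hz.1.2.trans hy) ha⟩
  have hcl : ∀ x y : ℝ, t ≤ x → x ≤ y → y ≤ 2 * L →
      |(∫ r in x..y, r ^ (p + 1) * T r) - ∫ z in R ∩ Icc x y ×ˢ Icc t (θ₀ - t), z.1 ^ (p + 1)|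
        ≤ ε := by
    intro x y hx hxy hy
    rw [lb_fubini (p + 1) x y t (θ₀ - t) ha hxy he v hvc]
    exact (lb_close (p + 1) _ δ ha R _ _ hR hK (isCompact_Icc.prod isCompact_Icc)
      (prod_mono (Icc_subset_Icc hx hy) subset_rfl) hM.le (hbd x y hx hy) v hvc hvδ).trans hδ1
  have hnn : 0 ≤ᵐ[volume.restrict R] fun z : ℝ × ℝ => z.1 ^ (p + 1) := by
    refine (ae_restrict_iff' hR).2 (Eventually.of_forall fun z hz => ?_)
    exact Real.rpow_nonneg (le_of_lt (hs hz).1) _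
  have htL : t ≤ L := by linarith
  -- the tail
  have htail : (∫ z in R ∩ Icc L (2 * L) ×ˢ Icc t (θ₀ - t), z.1 ^ (p + 1)) < ε := by
    have hm1 : MeasurableSet (R ∩ Icc t L ×ˢ Icc t (θ₀ - t)) :=
      hR.inter (measurableSet_Icc.prod measurableSet_Icc)
    have hm2 : MeasurableSet (R ∩ Icc L (2 * L) ×ˢ Icc t (θ₀ - t)) :=
      hR.inter (measurableSet_Icc.prod measurableSet_Icc)
    have hdis : AEDisjoint volume (R ∩ Icc t L ×ˢ Icc t (θ₀ - t))
        (R ∩ Icc L (2 * L) ×ˢ Icc t (θ₀ - t)) := by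
      refine measure_mono_null (t := ({L} : Set ℝ) ×ˢ (univ : Set ℝ)) ?_ ?_
      · rintro z ⟨⟨_, hz1, _⟩, _, hz2, _⟩
        exact ⟨le_antisymm hz1.2 hz2.1, mem_univ _⟩
      · rw [Measure.volume_eq_prod, Measure.prod_prod]; simp
    have hu := setIntegral_union₀ hdis hm2.nullMeasurableSet (hint.mono_set inter_subset_left)
      (hint.mono_set inter_subset_left)
    have hle := setIntegral_mono_set hint hnn
      (union_subset (inter_subset_left : R ∩ Icc t L ×ˢ Icc t (θ₀ - t) ⊆ R)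
        (inter_subset_left : R ∩ Icc L (2 * L) ×ˢ Icc t (θ₀ - t) ⊆ R)).eventuallyLE
    rw [hu, hI] at hle
    linarith
  obtain ⟨r₁, hr₁, hTr₁⟩ : ∃ r ∈ Icc L (2 * L), T r ≤ d := by
    refine lb_mean (p + 1) L d ha hL hd0.le T hTc ?_
    have := (abs_le.1 (hcl L (2 * L) htL (by linarith) le_rfl)).2
    linarith
  have htr : t ≤ r₁ := htL.trans hr₁.1
  obtain ⟨T', f, hprof, hf⟩ := h4 p t r₁ t (θ₀ - t) d v hp ht0 htr he hd0 hv1 hv01
  have hgood : Good (p + 1) (θ₀ - t - t - 2 * d) (c - (p + 1) * (8 * ε)) :=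
    lb_good (p + 1) θ₀ _ c (8 * ε) hG (by linarith) (by linarith) (by linarith) hεc
  have hone := h1 (p + 1) _ _ t r₁ d _ T' f hgood hprof (sub_nonpos.2 hTr₁) hd0
  have hB := h3 p θ₀ t r₁ t (θ₀ - t) m P R η hp hm0 (by linarith) (by linarith) (by linarith) hR
    hker hP hper
  have hB2 : (t / (t - m)) ^ (p + 1) * P ≤ (1 + ε) ^ (p + 1) * P := by
    refine mul_le_mul_of_nonneg_right (Real.rpow_le_rpow (div_nonneg ht0.le (by linarith)) ?_ ha) hP
    rw [div_le_iff₀ (by linarith)]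
    nlinarith [mul_le_mul_of_nonneg_right hε1 hm0.le]
  have hV := lb_var δ R _ (Icc t r₁ ×ˢ Icc t (θ₀ - t)) hR hK (isCompact_Icc.prod isCompact_Icc)
    (prod_mono (Icc_subset_Icc le_rfl hr₁.2) subset_rfl) v hvc hv01 hvδ
  have hV2 : 2 / d * r₁ ^ p * (∫ z in Icc t r₁ ×ˢ Icc t (θ₀ - t), v z * (1 - v z)) ≤ ε := by
    have e1 : r₁ ^ p ≤ (2 * L) ^ p := Real.rpow_le_rpow (by linarith) hr₁.2 hp.le
    have e2 : 0 ≤ r₁ ^ p := Real.rpow_nonneg (by linarith) _
    calc _ ≤ 2 / d * r₁ ^ p * δ := mul_le_mul_of_nonneg_left hV (by positivity)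
      _ ≤ 2 / d * (2 * L) ^ p * δ := by gcongr
      _ ≤ ε := hδ3
  have ht2 : t ^ (p + 1) / (p + 1) ≤ ε := by
    have e1 : t ^ (p + 1) ≤ t ^ (1 : ℝ) :=
      Real.rpow_le_rpow_of_exponent_ge ht0 ht1 (by linarith)
    rw [Real.rpow_one] at e1
    have e2 : t ^ (p + 1) / (p + 1) ≤ t ^ (p + 1) :=
      div_le_self (Real.rpow_nonneg ht0.le _) (by linarith)
    linarith
  have harea : A - (2 + 6 * 2 ^ (p + 2)) * ε ≤
      ∫ r in t..r₁, r ^ (p + 1) * trunc (θ₀ - t - t - 2 * d) (T r - d - d) := by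
    have e1 := lb_trunc (p + 1) t r₁ (2 * L) (θ₀ - t - t) d ha ht0 htr hr₁.2 hd0.le T hTc hTle
    have e2 := (abs_le.1 (hcl t r₁ le_rfl htr hr₁.2)).1
    have e3 : (∫ z in R ∩ Icc t L ×ˢ Icc t (θ₀ - t), z.1 ^ (p + 1)) ≤
        ∫ z in R ∩ Icc t r₁ ×ˢ Icc t (θ₀ - t), z.1 ^ (p + 1) :=
      setIntegral_mono_set (hint.mono_set inter_subset_left)
        (ae_restrict_of_ae_restrict_of_subset inter_subset_left hnn)
        (inter_subset_inter_right _ (prod_mono (Icc_subset_Icc le_rfl hr₁.1) subset_rfl)).eventuallyLE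
    have e4 : 2 * d * ((2 * L) ^ (p + 1) * (2 * L)) = 6 * 2 ^ (p + 2) * ε := by
      have e5 : (2 : ℝ) ^ (p + 2) = 2 ^ (p + 1) * 2 := by
        rw [show p + 2 = (p + 1) + 1 by ring, Real.rpow_add_one (by norm_num)]
      rw [Real.mul_rpow (by norm_num) hL.le, e5]
      have e6 : 2 * d * (2 ^ (p + 1) * L ^ (p + 1) * (2 * L))
          = 4 * 2 ^ (p + 1) * (L ^ (p + 1) * d * L) := by ring
      rw [e6, hdL]; ring
    linarith
  have hK0 : 0 ≤ KK (p + 1) (c - (p + 1) * (8 * ε)) := by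
    unfold KK
    exact Real.rpow_nonneg (by positivity) _
  have hpow := Real.rpow_le_rpow hεA harea (show 0 ≤ (p + 1) / (p + 2) by positivity)
  have e7 : p + 1 + 1 = p + 2 := by ring
  rw [e7] at hone
  have := mul_le_mul_of_nonneg_left hpow hK0
  linarith

theorem lowerBound (h1 : OneDStmt) (h2 : MollAStmt) (h3 : MollBStmt) (h4 : SliceStmt) :
    LBStmt := by
  intro p θ₀ c A P R hG hR hs hA har hP hper
  have hp : 0 < p := by linarith [hG.ha]
  have hθ := hG.hΘ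
  have hc := hG.hc
  rcases hA.eq_or_lt with h0 | hA0
  · rw [← h0, Real.zero_rpow (by positivity), mul_zero]; exact hP
  have hF : Continuous fun ε : ℝ => KK (p + 1) (c - (p + 1) * (8 * ε)) *
      (A - (2 + 6 * 2 ^ (p + 2)) * ε) ^ ((p + 1) / (p + 2)) := by
    unfold KK
    refine Continuous.mul (Continuous.rpow_const (by fun_prop) fun _ => Or.inr (by positivity))
      (Continuous.rpow_const (by fun_prop) fun _ => Or.inr (by positivity))
  have hH : Continuous fun ε : ℝ => (1 + ε) ^ (p + 1) * P + 2 * ε := by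
    refine Continuous.add (Continuous.mul (Continuous.rpow_const (by fun_prop)
      fun _ => Or.inr (by positivity)) continuous_const) (by fun_prop)
  have hF0 := (hF.tendsto 0).mono_left (nhdsWithin_le_nhds (s := Ioi 0))
  have hH0 := (hH.tendsto 0).mono_left (nhdsWithin_le_nhds (s := Ioi 0))
  have ev : ∀ k q : ℝ, 0 < q → ∀ᶠ ε in 𝓝[>] (0 : ℝ), k * ε < q := by
    intro k q hq
    have : Tendsto (fun ε : ℝ => k * ε) (𝓝 0) (𝓝 (k * 0)) := (continuous_const.mul continuous_id).tendsto 0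
    rw [mul_zero] at this
    exact (this.mono_left nhdsWithin_le_nhds).eventually (gt_mem_nhds hq)
  have := le_of_tendsto_of_tendsto hF0 hH0 (by
    filter_upwards [self_mem_nhdsWithin, ev 1 1 one_pos, ev 8 θ₀ hθ, ev ((p + 1) * 8) c hc,
      ev (2 + 6 * 2 ^ (p + 2)) A hA0] with ε e0 e1 e2 e3 e4
    exact lb_step h1 h2 h3 h4 p θ₀ c A P ε R hG hR hs hA har hP hper e0 (by linarith) e2
      (by linarith) (by linarith))
  simpa using this

end Pool.Agent.MP_d56274_gt
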