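import Pool.Agent.MP_d56274_gt.Spec

/-! The limits of `Lam` at `0` and at infinity, and of `SS / kk ^ a` at infinity. -/

namespace Pool.Agent.MP_d56274_gt

open MeasureTheory Set Real Filter Topology

noncomputable def lim_M (s : ℝ) : ℝ := (log (1 - s) + s) / s ^ 2

theorem lim_M_tendsto : Tendsto lim_M (𝓝[≠] 0) (𝓝 (-1 / 2)) := by
  rw [tendsto_iff_norm_sub_tendsto_zero]
  have h1 : Tendsto (fun s : ℝ => |s| / (1 - |s|)) (𝓝[≠] 0) (𝓝 0) := by
    have : ContinuousAt (fun s : ℝ => |s| / (1 - |s|)) 0 :=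
      (continuous_abs.continuousAt).div (by fun_prop) (by simp)
    have h := this.tendsto
    simp only [abs_zero, zero_div] at h
    exact h.mono_left nhdsWithin_le_nhds
  refine squeeze_zero' (Eventually.of_forall fun _ => norm_nonneg _) ?_ h1
  have h2 : ∀ᶠ s : ℝ in 𝓝[≠] 0, |s| < 1 := by
    have : ∀ᶠ s : ℝ in 𝓝 0, |s| < 1 :=
      (continuous_abs.tendsto' 0 0 abs_zero).eventually (gt_mem_nhds one_pos)
    exact this.filter_mono nhdsWithin_le_nhds
  filter_upwards [h2, self_mem_nhdsWithin] with s hs h0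
  have h0' : s ≠ 0 := h0
  have h3 := Real.abs_log_sub_add_sum_range_le hs 2
  have h4 : lim_M s - -1 / 2 =
      ((∑ i ∈ Finset.range 2, s ^ (i + 1) / (i + 1)) + log (1 - s)) / s ^ 2 := by
    simp only [lim_M, Finset.sum_range_succ, Finset.sum_range_zero]
    field_simp
    ring
  have hp : 0 < |s| := abs_pos.2 h0'
  rw [h4, Real.norm_eq_abs, abs_div, abs_pow, div_le_iff₀ (by positivity)]
  refine h3.trans (le_of_eq ?_)
  ring

theorem lim_kk_pos (x : ℝ) : 0 < kk x := Real.sqrt_pos.2 (by positivity)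

theorem lim_kk_sq (x : ℝ) : kk x ^ 2 = 1 + x ^ 2 := Real.sq_sqrt (by positivity)

theorem lim_kk_cont : Continuous kk := by unfold kk; fun_prop

theorem lim_kk_zero : kk 0 = 1 := by simp [kk]

theorem lim_kk_top : Tendsto kk atTop atTop := by
  refine tendsto_atTop_mono (fun x => ?_) tendsto_id
  exact Real.le_sqrt_of_sq_le (by simp)

theorem lim_zz_sq (x : ℝ) : 1 - zz x ^ 2 = (kk x)⁻¹ ^ 2 := by
  have h := lim_kk_pos x
  have h2 := lim_kk_sq x
  unfold zz
  field_simp
  linarith

theorem lim_zz_pos {x : ℝ} (hx : 0 < x) : 0 < zz x := div_pos hx (lim_kk_pos x)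

theorem lim_zz_top : Tendsto zz atTop (𝓝 1) := by
  have h1 : Tendsto (fun x => √(1 - (kk x)⁻¹ ^ 2)) atTop (𝓝 (√(1 - 0 ^ 2))) :=
    (tendsto_const_nhds.sub ((tendsto_inv_atTop_zero.comp lim_kk_top).pow 2)).sqrt
  simp only [ne_eq, OfNat.ofNat_ne_zero, not_false_eq_true, zero_pow, sub_zero, sqrt_one] at h1
  refine h1.congr' ?_
  filter_upwards [eventually_gt_atTop 0] with x hx
  rw [← lim_zz_sq, sub_sub_cancel, Real.sqrt_sq (lim_zz_pos hx).le]

theorem lim_zz_zero : Tendsto zz (𝓝[>] 0) (𝓝 0) := by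
  have : ContinuousAt zz 0 :=
    continuousAt_id.div lim_kk_cont.continuousAt (lim_kk_pos 0).ne'
  have h := this.tendsto
  have e : zz 0 = 0 := by simp [zz]
  rw [e] at h
  exact h.mono_left nhdsWithin_le_nhds

/-- a root parameter `s` with `(kk (1 + s / a)) ^ a (1 - s) = 1 / kk` has `s² / z² → a` -/
theorem lim_ratio {a : ℝ} (ha : 1 < a) (s : ℝ → ℝ) (h0 : Tendsto s (𝓝[>] 0) (𝓝 0))
    (hs : ∀ x, 0 < x → s x ≠ 0 ∧ s x < 1 ∧ 0 < 1 + s x / a ∧
      (kk x * (1 + s x / a)) ^ a * (1 - s x) = 1 / kk x) :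
    Tendsto (fun x => |s x| / zz x) (𝓝[>] 0) (𝓝 √a) := by
  have ha0 : 0 < a := by linarith
  have t1 : Tendsto s (𝓝[>] 0) (𝓝[≠] 0) := by
    refine tendsto_nhdsWithin_iff.2 ⟨h0, ?_⟩
    filter_upwards [self_mem_nhdsWithin] with x hx using (hs x hx).1
  have t2 : Tendsto (fun x => -(s x / a)) (𝓝[>] 0) (𝓝[≠] 0) := by
    refine tendsto_nhdsWithin_iff.2 ⟨by simpa using (h0.div_const a).neg, ?_⟩
    filter_upwards [self_mem_nhdsWithin] with x hx
    exact neg_ne_zero.2 (div_ne_zero (hs x hx).1 ha0.ne')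
  have t3 : Tendsto (fun x => zz x ^ 2) (𝓝[>] 0) (𝓝 0) := by simpa using lim_zz_zero.pow 2
  have t4 : Tendsto (fun x => zz x ^ 2) (𝓝[>] 0) (𝓝[≠] 0) := by
    refine tendsto_nhdsWithin_iff.2 ⟨t3, ?_⟩
    filter_upwards [self_mem_nhdsWithin] with x hx
    exact pow_ne_zero 2 (lim_zz_pos hx).ne'
  have u1 : Tendsto (fun x => lim_M (-(s x / a)) / a + lim_M (s x)) (𝓝[>] 0)
      (𝓝 (-1 / 2 / a + -1 / 2)) :=
    ((lim_M_tendsto.comp t2).div_const a).add (lim_M_tendsto.comp t1)
  have u2 : Tendsto (fun x => (a + 1) / 2 * (zz x ^ 2 * lim_M (zz x ^ 2) - 1)) (𝓝[>] 0)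
      (𝓝 ((a + 1) / 2 * (0 * (-1 / 2) - 1))) :=
    ((t3.mul (lim_M_tendsto.comp t4)).sub_const 1).const_mul _
  have hne : -1 / 2 / a + -1 / 2 ≠ 0 := by
    have : 0 < 1 / 2 / a := by positivity
    have e : -1 / 2 / a + -1 / 2 = -(1 / 2 / a + 1 / 2) := by ring
    rw [e]
    exact neg_ne_zero.2 (by positivity)
  have u3 := (u2.div u1 hne).sqrt
  have e : (a + 1) / 2 * (0 * (-1 / 2) - 1) / (-1 / 2 / a + -1 / 2) = a := by
    rw [div_eq_iff hne]
    field_simp
    ring
  rw [e] at u3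
  refine u3.congr' ?_
  filter_upwards [self_mem_nhdsWithin, u1.eventually_ne hne] with x hx hn
  obtain ⟨s0, s1, s2, s3⟩ := hs x hx
  have hz := lim_zz_pos hx
  have hk := lim_kk_pos x
  have l1 := congrArg log s3
  rw [Real.log_mul (by positivity) (by linarith), Real.log_rpow (by positivity),
    Real.log_mul hk.ne' s2.ne', one_div, Real.log_inv] at l1
  have l2 : log (1 - zz x ^ 2) = -(2 * log (kk x)) := by
    rw [lim_zz_sq, Real.log_pow, Real.log_inv]; push_cast; ring
  have l3 : (lim_M (-(s x / a)) / a + lim_M (s x)) * s x ^ 2 =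
      a * log (1 + s x / a) + log (1 - s x) := by
    simp only [lim_M, sub_neg_eq_add]
    field_simp
    ring
  have l4 : (a + 1) / 2 * (zz x ^ 2 * lim_M (zz x ^ 2) - 1) * zz x ^ 2 =
      -((a + 1) * log (kk x)) := by
    simp only [lim_M, l2]
    field_simp
    ring
  have l5 : (a + 1) / 2 * (zz x ^ 2 * lim_M (zz x ^ 2) - 1) /
      (lim_M (-(s x / a)) / a + lim_M (s x)) = (|s x| / zz x) ^ 2 := by
    rw [div_pow, sq_abs, div_eq_div_iff hn (by positivity), l4, mul_comm (s x ^ 2), l3]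
    linarith
  simp only [Pi.div_apply]
  rw [l5, Real.sqrt_sq (by positivity)]

theorem lims (h : RootsStmt) (hi : IneqStmt) : LimStmt := by
  intro a ha
  have ha0 : 0 < a := by linarith
  obtain ⟨c1, c2, z1, z2, hr, -, hx⟩ := h a ha
  have ep : ∀ x, rp a x = kk x * (1 + al a x / a) := fun x => by
    have := lim_kk_pos x
    unfold al; field_simp; ring
  have em : ∀ x, rm a x = kk x * (1 + -be a x / a) := fun x => by
    have := lim_kk_pos x
    unfold be; field_simp; ring
  have q0 : Tendsto (fun x => rm a x / kk x) atTop (𝓝 0) := by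
    refine squeeze_zero (fun x => (div_pos (hr x).2.1 (lim_kk_pos x)).le) (fun x => ?_)
      (tendsto_inv_atTop_zero.comp lim_kk_top)
    simp only [Function.comp]
    rw [inv_eq_one_div]
    exact div_le_div_of_nonneg_right (hr x).2.2.1 (lim_kk_pos x).le
  have qa : Tendsto (al a) atTop (𝓝 1) := by
    refine tendsto_of_tendsto_of_tendsto_of_le_of_le' lim_zz_top tendsto_const_nhds ?_ ?_
    · filter_upwards [eventually_gt_atTop 0] with x h0 using (hi a ha x h0).1.le
    · filter_upwards [eventually_gt_atTop 0] with x h0 using (hx x h0).2.2.2.1.le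
  have qb : Tendsto (be a) atTop (𝓝 a) := by
    have := (q0.const_sub 1).const_mul a
    rw [sub_zero, mul_one] at this
    exact this
  refine ⟨?_, ?_, ?_⟩
  · have a0 : Tendsto (al a) (𝓝[>] 0) (𝓝 0) := by
      have : ContinuousAt (al a) 0 := continuousAt_const.mul
        ((c1.continuousAt.div lim_kk_cont.continuousAt (lim_kk_pos 0).ne').sub continuousAt_const)
      have h := this.tendsto
      have e : al a 0 = 0 := by simp [al, z1, lim_kk_zero]
      rw [e] at h
      exact h.mono_left nhdsWithin_le_nhds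
    have b0 : Tendsto (fun x => -be a x) (𝓝[>] 0) (𝓝 0) := by
      have : ContinuousAt (be a) 0 := continuousAt_const.mul
        (continuousAt_const.sub (c2.continuousAt.div lim_kk_cont.continuousAt (lim_kk_pos 0).ne'))
      have h := this.tendsto
      have e : be a 0 = 0 := by simp [be, z2, lim_kk_zero]
      rw [e] at h
      simpa using (h.mono_left nhdsWithin_le_nhds).neg
    have A := lim_ratio ha (al a) a0 fun x h0 => by
      obtain ⟨-, -, p1, p2, -, -, p3, -⟩ := hx x h0
      exact ⟨p1.ne', p2, by positivity, by rw [← ep, p3]⟩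
    have B := lim_ratio ha (fun x => -be a x) b0 fun x h0 => by
      obtain ⟨-, -, -, -, p1, p2, -, p3, -⟩ := hx x h0
      refine ⟨neg_ne_zero.2 p1.ne', by linarith, ?_, by rw [← em, sub_neg_eq_add, p3]⟩
      have : be a x / a < 1 := (div_lt_one ha0).2 p2
      rw [neg_div]
      linarith
    have hs : 0 < √a := Real.sqrt_pos.2 ha0
    have hss : √a * √a = a := Real.mul_self_sqrt ha0.le
    have L := ((A.add B).div_const (2 * (a + 1))).mul
      (((tendsto_const_nhds (x := a)).div (A.mul B) (by positivity)).const_add 1)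
    have e : (√a + √a) / (2 * (a + 1)) * (1 + a / (√a * √a)) = 2 * √a / (a + 1) := by
      rw [hss]; field_simp; ring
    rw [e] at L
    refine L.congr' ?_
    filter_upwards [self_mem_nhdsWithin] with x h0
    obtain ⟨-, -, p1, -, p2, -⟩ := hx x h0
    have hz := lim_zz_pos h0
    simp only [Pi.div_apply, abs_neg, abs_of_pos p1, abs_of_pos p2, Lam]
    field_simp
  · have L := ((qa.add qb).div (lim_zz_top.const_mul (2 * (a + 1))) (by positivity)).mul
      ((((lim_zz_top.pow 2).const_mul a).div (qa.mul qb) (by positivity)).const_add 1)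
    have e : (1 + a) / (2 * (a + 1) * 1) * (1 + a * 1 ^ 2 / (1 * a)) = 1 := by
      field_simp; ring
    rw [e] at L
    exact L
  · have r1 : Tendsto (fun x => (1 + al a x / a) ^ a) atTop (𝓝 ((1 + 1 / a) ^ a)) :=
      ((qa.div_const a).const_add 1).rpow_const (Or.inr ha0.le)
    have r2 : Tendsto (fun x => (rm a x / kk x) ^ a) atTop (𝓝 ((0 : ℝ) ^ a)) :=
      q0.rpow_const (Or.inr ha0.le)
    have L := (r1.sub r2).const_mul (a + 1)
    have e : (a + 1) * ((1 + 1 / a) ^ a - (0 : ℝ) ^ a) = (a + 1) * ((a + 1) / a) ^ a := by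
      rw [Real.zero_rpow ha0.ne', sub_zero]
      congr 2
      field_simp
    rw [e] at L
    refine L.congr fun x => ?_
    have hk := lim_kk_pos x
    have e1 : 1 + al a x / a = rp a x / kk x := by rw [ep]; field_simp
    have hp : 0 ≤ rp a x := by linarith [(hr x).1]
    rw [e1, Real.div_rpow hp hk.le, Real.div_rpow (hr x).2.1.le hk.le, SS]
    ring

end Pool.Agent.MP_d56274_gt
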