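import Pool.Agent.MP_d56274_gt.Spec

/-! Row MOLL-A: mollification of an indicator function converges in mean on compact sets. -/

namespace Pool.Agent.MP_d56274_gt

open MeasureTheory Set Real Filter Topology

/-- The bump functions of outer radius `2 / (n + 1)`. -/
noncomputable def ma_bump (n : ℕ) : ContDiffBump (0 : ℝ × ℝ) :=
  ⟨1 / ((n : ℝ) + 1), 2 * (1 / ((n : ℝ) + 1)), by positivity, by
    have : (0 : ℝ) < 1 / ((n : ℝ) + 1) := by positivity
    linarith⟩

theorem ma_eq (η : ℝ × ℝ → ℝ) {R : Set (ℝ × ℝ)} (hR : MeasurableSet R) :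
    moll η R = convolution η (R.indicator (1 : ℝ × ℝ → ℝ)) (ContinuousLinearMap.lsmul ℝ ℝ) volume := by
  funext z
  rw [moll, convolution_eq_swap, ← integral_indicator hR]
  congr 1
  funext t
  by_cases ht : t ∈ R <;> simp [ht]

theorem ma_li {R : Set (ℝ × ℝ)} (hR : MeasurableSet R) :
    LocallyIntegrable (R.indicator (1 : ℝ × ℝ → ℝ)) volume :=
  (locallyIntegrable_const (1 : ℝ)).indicator hR

theorem ma_bd (φ : ContDiffBump (0 : ℝ × ℝ)) (R : Set (ℝ × ℝ)) (z : ℝ × ℝ) :
    0 ≤ moll (φ.normed volume) R z ∧ moll (φ.normed volume) R z ≤ 1 := by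
  refine ⟨integral_nonneg fun _ => φ.nonneg_normed _, ?_⟩
  refine (setIntegral_le_integral (φ.integrable_normed.comp_sub_left z)
    (Eventually.of_forall fun _ => φ.nonneg_normed _)).trans (le_of_eq ?_)
  rw [integral_sub_left_eq_self (fun t => φ.normed volume t) volume z]
  exact φ.integral_normed

theorem ma_sm (φ : ContDiffBump (0 : ℝ × ℝ)) {R : Set (ℝ × ℝ)} (hR : MeasurableSet R) :
    ContDiff ℝ 1 (moll (φ.normed volume) R) := by
  rw [ma_eq _ hR]
  exact φ.hasCompactSupport_normed.contDiff_convolution_left _ (n := 1) φ.contDiff_normed (ma_li hR)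

theorem mollA : MollAStmt := by
  intro R K δ hR hK hδ
  have h0 : Tendsto (fun n => (ma_bump n).rOut) atTop (𝓝 0) := by
    simpa [ma_bump] using
      (tendsto_one_div_add_atTop_nhds_zero_nat (𝕜 := ℝ)).const_mul 2
  have h1 := ContDiffBump.ae_convolution_tendsto_right_of_locallyIntegrable (K := 2) h0
    (Eventually.of_forall fun n => le_rfl) (ma_li hR)
  have hm : Measurable (R.indicator (1 : ℝ × ℝ → ℝ)) := measurable_one.indicator hR
  have : IsFiniteMeasure ((volume : Measure (ℝ × ℝ)).restrict K) :=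
    isFiniteMeasure_restrict.2 hK.measure_lt_top.ne
  have h2 : Tendsto (fun n => ∫ z in K, |moll ((ma_bump n).normed volume) R z - R.indicator 1 z|)
      atTop (𝓝 (∫ _ in K, (0 : ℝ))) := by
    refine tendsto_integral_of_dominated_convergence (fun _ => 1) (fun n => ?_)
      (integrable_const _) (fun n => Eventually.of_forall fun z => ?_) (ae_restrict_of_ae ?_)
    · exact (((ma_sm _ hR).continuous.measurable.sub hm).abs).aestronglyMeasurable
    · obtain ⟨a, b⟩ := ma_bd (ma_bump n) R z
      rw [Real.norm_eq_abs, abs_abs, abs_le]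
      by_cases hz : z ∈ R
      · simp only [indicator_of_mem hz, Pi.one_apply]
        constructor <;> linarith
      · simp only [indicator_of_notMem hz]
        constructor <;> linarith
    · filter_upwards [h1] with z hz
      simp only [ma_eq _ hR]
      simpa using (hz.sub_const (R.indicator (1 : ℝ × ℝ → ℝ) z)).abs
  rw [integral_zero] at h2
  obtain ⟨n, a, b⟩ := ((h0.eventually (ge_mem_nhds hδ)).and (h2.eventually (ge_mem_nhds hδ))).exists
  refine ⟨(ma_bump n).rOut, (ma_bump n).normed volume, (ma_bump n).rOut_pos, a,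
    ⟨(ma_bump n).contDiff_normed (n := 1), (ma_bump n).nonneg_normed, fun z hz => ?_,
      (ma_bump n).integral_normed⟩, ma_sm _ hR, ma_bd _ R, b⟩
  by_contra h
  have h3 : z ∈ Function.support ((ma_bump n).normed volume) := h
  rw [ContDiffBump.support_normed_eq, mem_ball_zero_iff] at h3
  linarith

end Pool.Agent.MP_d56274_gt
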