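import Pool.Agent.MP_d56274_gt.Spec

/-! The weighted gradient of a mollified indicator is controlled by the perimeter. -/

namespace Pool.Agent.MP_d56274_gt

open MeasureTheory Set Real Filter Topology
open scoped Convolution

noncomputable def mb_cv (h k : ℝ × ℝ → ℝ) (x : ℝ × ℝ) : ℝ := ∫ t, h t * k (x - t)

theorem mb_cv_eq (h k : ℝ × ℝ → ℝ) :
    mb_cv h k = h ⋆[ContinuousLinearMap.mul ℝ ℝ, volume] k := by
  funext x
  simp [mb_cv, convolution_def]

theorem mb_cv_contDiff {h k : ℝ × ℝ → ℝ} (hh : LocallyIntegrable h volume) (hk : ContDiff ℝ 1 k)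
    (hc : HasCompactSupport k) : ContDiff ℝ 1 (mb_cv h k) := by
  rw [mb_cv_eq]
  exact hc.contDiff_convolution_right (n := 1) _ hh hk

theorem mb_cv_fderiv {h k : ℝ × ℝ → ℝ} (hh : LocallyIntegrable h volume) (hk : ContDiff ℝ 1 k)
    (hc : HasCompactSupport k) (x e : ℝ × ℝ) :
    fderiv ℝ (mb_cv h k) x e = ∫ t, h t * fderiv ℝ k (x - t) e := by
  rw [mb_cv_eq, (hc.hasFDerivAt_convolution_right _ hh hk x).fderiv,
    convolution_precompR_apply _ hh (hc.fderiv ℝ) (hk.continuous_fderiv one_ne_zero)]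
  simp [convolution_def]

theorem mb_ker_compact {ε : ℝ} {η : ℝ × ℝ → ℝ} (hη : IsKer ε η) : HasCompactSupport η := by
  refine HasCompactSupport.intro (isCompact_closedBall (0 : ℝ × ℝ) ε) fun z hz => hη.supp z ?_
  rw [mem_closedBall_zero_iff] at hz
  exact (not_le.1 hz).le

theorem mb_neg_contDiff {η : ℝ × ℝ → ℝ} (h : ContDiff ℝ 1 η) : ContDiff ℝ 1 fun y => η (-y) :=
  h.comp contDiff_neg

theorem mb_neg_compact {η : ℝ × ℝ → ℝ} (h : HasCompactSupport η) :
    HasCompactSupport fun y => η (-y) :=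
  h.comp_homeomorph (Homeomorph.neg (ℝ × ℝ))

theorem mb_neg_fderiv {η : ℝ × ℝ → ℝ} (h : ContDiff ℝ 1 η) (y e : ℝ × ℝ) :
    fderiv ℝ (fun y => η (-y)) y e = -fderiv ℝ η (-y) e := by
  have h1 : HasFDerivAt η (fderiv ℝ η (-y)) (-y) :=
    (h.differentiable one_ne_zero (-y)).hasFDerivAt
  have h2 : HasFDerivAt (fun y : ℝ × ℝ => -y) (-ContinuousLinearMap.id ℝ (ℝ × ℝ)) y :=
    (hasFDerivAt_id y).neg
  have h3 := (h1.comp y h2).fderiv
  have e1 : (η ∘ fun y : ℝ × ℝ => -y) = fun y => η (-y) := rfl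
  rw [e1] at h3
  rw [h3]
  simp

theorem mb_moll_eq {R : Set (ℝ × ℝ)} (hR : MeasurableSet R) (η : ℝ × ℝ → ℝ) :
    moll η R = mb_cv (R.indicator 1) η := by
  funext z
  rw [moll, mb_cv, ← integral_indicator hR]
  congr 1
  funext t
  by_cases ht : t ∈ R <;> simp [ht]

theorem mb_ind_loc {R : Set (ℝ × ℝ)} (hR : MeasurableSet R) :
    LocallyIntegrable (R.indicator (1 : ℝ × ℝ → ℝ)) volume :=
  (locallyIntegrable_const (1 : ℝ)).indicator hR

/-- the duality between the mollified indicator and the mollified field -/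
theorem mb_dual {R : Set (ℝ × ℝ)} (hR : MeasurableSet R) {η h : ℝ × ℝ → ℝ} (hη : ContDiff ℝ 1 η)
    (hc : HasCompactSupport η) (hh : Integrable h volume) (e : ℝ × ℝ) :
    IntegrableOn (fun z' => fderiv ℝ (mb_cv h fun y => η (-y)) z' e) R volume ∧
    ∫ z, h z * fderiv ℝ (moll η R) z e = -∫ z' in R, fderiv ℝ (mb_cv h fun y => η (-y)) z' e := by
  set g : ℝ × ℝ → ℝ := fun y => fderiv ℝ η (-y) e with hg
  have gc : Continuous g :=
    ((hη.continuous_fderiv one_ne_zero).comp continuous_neg).clm_apply continuous_const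
  have gs : HasCompactSupport g := by
    have : HasCompactSupport fun y => fderiv ℝ η y e := (hc.fderiv ℝ).comp_left
      (g := fun L : ℝ × ℝ →L[ℝ] ℝ => L e) (by simp)
    exact mb_neg_compact this
  have gi : Integrable g volume := gc.integrable_of_hasCompactSupport gs
  have I0 : Integrable (fun q : (ℝ × ℝ) × (ℝ × ℝ) => h q.2 * g (q.1 - q.2))
      (volume.prod volume) := by
    simpa using hh.convolution_integrand (ContinuousLinearMap.mul ℝ ℝ) gi
  have hD : ∀ z', fderiv ℝ (mb_cv h fun y => η (-y)) z' e = -∫ z, h z * g (z' - z) := by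
    intro z'
    rw [mb_cv_fderiv hh.locallyIntegrable (mb_neg_contDiff hη) (mb_neg_compact hc), ← integral_neg]
    congr 1
    funext z
    rw [mb_neg_fderiv hη]
    simp [hg]
  refine ⟨?_, ?_⟩
  · simp only [hD]
    exact I0.integral_prod_left.neg.integrableOn
  · have I1 : Integrable (fun q : (ℝ × ℝ) × (ℝ × ℝ) =>
        R.indicator (1 : ℝ × ℝ → ℝ) q.1 * (h q.2 * g (q.1 - q.2))) (volume.prod volume) := by
      refine I0.bdd_mul (c := 1) ?_ (Eventually.of_forall fun q => ?_)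
      · exact ((measurable_const.indicator hR).comp measurable_fst).aestronglyMeasurable
      · by_cases hq : q.1 ∈ R <;> simp [hq]
    have sw := integral_integral_swap (f := fun z' z =>
      R.indicator (1 : ℝ × ℝ → ℝ) z' * (h z * g (z' - z))) I1
    have l1 : ∀ z, h z * fderiv ℝ (moll η R) z e =
        ∫ z', R.indicator (1 : ℝ × ℝ → ℝ) z' * (h z * g (z' - z)) := by
      intro z
      rw [mb_moll_eq hR, mb_cv_fderiv (mb_ind_loc hR) hη hc, ← integral_const_mul]
      congr 1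
      funext z'
      simp only [hg, neg_sub]
      ring
    simp only [l1, hD]
    rw [← sw, integral_neg, neg_neg, ← integral_indicator hR]
    congr 1
    funext z'
    by_cases hz : z' ∈ R <;> simp [hz]

theorem mb_cs {c s x y l m C : ℝ} (hxy : x ^ 2 + y ^ 2 ≤ 1) (hl0 : 0 ≤ l) (hl : l ≤ C) (hm0 : 0 ≤ m)
    (hm : m ≤ C) : -(c * (l * x) + s * (m * y)) ≤ C * √(c ^ 2 + s ^ 2) := by
  have hC : 0 ≤ C := hl0.trans hl
  have h1 : (l * x) ^ 2 + (m * y) ^ 2 ≤ C ^ 2 := by
    have a1 : l ^ 2 ≤ C ^ 2 := pow_le_pow_left₀ hl0 hl 2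
    have a2 : m ^ 2 ≤ C ^ 2 := pow_le_pow_left₀ hm0 hm 2
    have b1 := mul_le_mul_of_nonneg_right a1 (sq_nonneg x)
    have b2 := mul_le_mul_of_nonneg_right a2 (sq_nonneg y)
    have b3 := mul_le_mul_of_nonneg_left hxy (sq_nonneg C)
    nlinarith
  refine le_of_pow_le_pow_left₀ two_ne_zero (by positivity) ?_
  rw [mul_pow, Real.sq_sqrt (by positivity)]
  have b4 := mul_le_mul_of_nonneg_right h1 (by positivity : 0 ≤ c ^ 2 + s ^ 2)
  nlinarith [sq_nonneg (c * (m * y) - s * (l * x))]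

theorem mb_test_aux {W : ℝ × ℝ → ℝ} {K' : Set (ℝ × ℝ)} {θ₀ δ q C : ℝ} (hW : ContDiff ℝ 1 W)
    (hK : IsCompact K') (hKs : K' ⊆ sector θ₀) (hδ : 0 < δ) (hKδ : ∀ z ∈ K', δ ≤ z.1)
    (h0 : ∀ z, z ∉ K' → W z = 0) :
    ContDiff ℝ 1 (fun z : ℝ × ℝ => -(W z * z.1 ^ (-q)) / C) ∧
    HasCompactSupport (fun z : ℝ × ℝ => -(W z * z.1 ^ (-q)) / C) ∧
    tsupport (fun z : ℝ × ℝ => -(W z * z.1 ^ (-q)) / C) ⊆ sector θ₀ := by
  have hz : ∀ z, z ∉ K' → (fun z : ℝ × ℝ => -(W z * z.1 ^ (-q)) / C) z = 0 := by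
    intro z hz
    simp [h0 z hz]
  refine ⟨?_, HasCompactSupport.intro hK hz, ?_⟩
  · rw [contDiff_iff_contDiffAt]
    intro z
    by_cases h : z.1 = 0
    · have : ∀ᶠ y : ℝ × ℝ in 𝓝 z, y.1 < δ :=
        (isOpen_lt continuous_fst continuous_const).mem_nhds (by simpa [h] using hδ)
      refine (contDiffAt_const (c := (0 : ℝ))).congr_of_eventuallyEq ?_
      filter_upwards [this] with y hy
      exact hz y fun hy' => absurd (hKδ y hy') (not_le.2 hy)
    · exact (hW.contDiffAt.mul (contDiffAt_fst.rpow_const_of_ne h)).neg.div_const C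
  · refine (closure_minimal (fun z hz' => ?_) hK.isClosed).trans hKs
    by_contra hcon
    exact hz' (hz z hcon)

theorem mollB : MollBStmt := by
  intro p θ₀ r₀ r₁ e₀ e₁ ε P R η hp hε hr he₀ he₁ hR hη hP hper
  have hc := mb_ker_compact hη
  set v := moll η R with hv
  have vc : ContDiff ℝ 1 v := by
    rw [hv, mb_moll_eq hR]; exact mb_cv_contDiff (mb_ind_loc hR) hη.smooth hc
  set K : Set (ℝ × ℝ) := Icc r₀ r₁ ×ˢ Icc e₀ e₁ with hK
  have Kc : IsCompact K := isCompact_Icc.prod isCompact_Icc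
  have Km : MeasurableSet K := Kc.measurableSet
  set K' : Set (ℝ × ℝ) := Icc (r₀ - ε) (r₁ + ε) ×ˢ Icc (e₀ - ε) (e₁ + ε) with hK'
  have Kc' : IsCompact K' := isCompact_Icc.prod isCompact_Icc
  have Ks' : K' ⊆ sector θ₀ := by
    rintro z ⟨⟨a1, -⟩, a2, a3⟩
    exact ⟨mem_Ioi.2 (by linarith), by linarith, by linarith⟩
  set ρ₀ := r₀ / (r₀ - ε) with hρ₀
  have hd : 0 < r₀ - ε := by linarith
  have hρ1 : 1 ≤ ρ₀ := by rw [hρ₀, le_div_iff₀ hd]; linarith
  set C := ρ₀ ^ (p + 1) with hC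
  have hC0 : 0 < C := by positivity
  set A : ℝ × ℝ → ℝ := fun z => z.1 ^ (p + 1) * fderiv ℝ v z (1, 0) with hA
  set B : ℝ × ℝ → ℝ := fun z => z.1 ^ p * fderiv ℝ v z (0, 1) with hB
  have c1 : Continuous fun z : ℝ × ℝ => z.1 ^ (p + 1) :=
    continuous_fst.rpow_const fun _ => Or.inr (by linarith)
  have c2 : Continuous fun z : ℝ × ℝ => z.1 ^ p := continuous_fst.rpow_const fun _ => Or.inr hp.le
  have d1 : ∀ e : ℝ × ℝ, Continuous fun z => fderiv ℝ v z e := fun e =>
    (vc.continuous_fderiv one_ne_zero).clm_apply continuous_const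
  have Ac : Continuous A := c1.mul (d1 _)
  have Bc : Continuous B := c2.mul (d1 _)
  have hG : ∀ z, grad p v z = √(A z ^ 2 + B z ^ 2) := fun z => rfl
  have Gc : Continuous (grad p v) := ((Ac.pow 2).add (Bc.pow 2)).sqrt
  set Y₁ : ℝ × ℝ → ℝ := fun z => A z / grad p v z with hY₁
  set Y₂ : ℝ × ℝ → ℝ := fun z => B z / grad p v z with hY₂
  have hY : ∀ z, Y₁ z ^ 2 + Y₂ z ^ 2 ≤ 1 := by
    intro z
    simp only [hY₁, hY₂, div_pow, ← add_div]
    rw [hG, Real.sq_sqrt (by positivity)]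
    exact div_self_le_one _
  have hYG : ∀ z, Y₁ z * A z + Y₂ z * B z = grad p v z := by
    intro z
    have : Y₁ z * A z + Y₂ z * B z = (A z ^ 2 + B z ^ 2) / grad p v z := by
      simp only [hY₁, hY₂]; ring
    rw [this, hG, Real.div_sqrt]
  have Y1m : Measurable Y₁ := Ac.measurable.div Gc.measurable
  have Y2m : Measurable Y₂ := Bc.measurable.div Gc.measurable
  have Y1b : ∀ z, ‖Y₁ z‖ ≤ 1 := fun z => by
    rw [Real.norm_eq_abs]; exact abs_le_one_iff_mul_self_le_one.2 (by nlinarith [hY z])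
  have Y2b : ∀ z, ‖Y₂ z‖ ≤ 1 := fun z => by
    rw [Real.norm_eq_abs]; exact abs_le_one_iff_mul_self_le_one.2 (by nlinarith [hY z])
  have bdd : ∀ {Y F : ℝ × ℝ → ℝ}, Measurable Y → (∀ z, ‖Y z‖ ≤ 1) → Continuous F →
      IntegrableOn (fun z => Y z * F z) K volume := fun hm hb hF =>
    Integrable.bdd_mul (c := 1) (hF.continuousOn.integrableOn_compact Kc) hm.aestronglyMeasurable
      (Eventually.of_forall hb)
  set h₁ : ℝ × ℝ → ℝ := K.indicator fun z => Y₁ z * z.1 ^ (p + 1) with hh₁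
  set h₂ : ℝ × ℝ → ℝ := K.indicator fun z => Y₂ z * z.1 ^ p with hh₂
  have i₁ : Integrable h₁ volume := (integrable_indicator_iff Km).2 (bdd Y1m Y1b c1)
  have i₂ : Integrable h₂ volume := (integrable_indicator_iff Km).2 (bdd Y2m Y2b c2)
  set W₁ := mb_cv h₁ fun y => η (-y) with hW₁
  set W₂ := mb_cv h₂ fun y => η (-y) with hW₂
  have W1c : ContDiff ℝ 1 W₁ :=
    mb_cv_contDiff i₁.locallyIntegrable (mb_neg_contDiff hη.smooth) (mb_neg_compact hc)
  have W2c : ContDiff ℝ 1 W₂ :=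
    mb_cv_contDiff i₂.locallyIntegrable (mb_neg_contDiff hη.smooth) (mb_neg_compact hc)
  have far : ∀ z ∈ K, ∀ z', z' ∉ K' → η (-(z' - z)) = 0 := by
    rintro z ⟨⟨a1, a2⟩, a3, a4⟩ z' hz'
    apply hη.supp
    by_contra hcon
    have hcon := not_le.1 hcon
    rw [norm_neg, Prod.norm_def, max_lt_iff, Real.norm_eq_abs, Real.norm_eq_abs, abs_lt,
      abs_lt] at hcon
    simp only [Prod.fst_sub, Prod.snd_sub] at hcon
    exact hz' ⟨⟨by linarith [hcon.1.1], by linarith [hcon.1.2]⟩,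
      by linarith [hcon.2.1], by linarith [hcon.2.2]⟩
  have W0 : ∀ (F : ℝ × ℝ → ℝ) z', z' ∉ K' → mb_cv (K.indicator F) (fun y => η (-y)) z' = 0 := by
    intro F z' hz'
    rw [mb_cv]
    have : (fun t => K.indicator F t * η (-(z' - t))) = fun _ => 0 := by
      funext t
      by_cases ht : t ∈ K
      · rw [far t ht z' hz', mul_zero]
      · simp [ht]
    rw [this, integral_zero]
  have hKδ : ∀ z ∈ K', r₀ - ε ≤ z.1 := fun z hz => hz.1.1
  set α : ℝ × ℝ → ℝ := fun z => -(W₁ z * z.1 ^ (-(p + 1))) / C with hα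
  set β : ℝ × ℝ → ℝ := fun z => -(W₂ z * z.1 ^ (-p)) / C with hβ
  obtain ⟨a1, a2, a3⟩ := mb_test_aux (q := p + 1) (C := C) W1c Kc' Ks' hd hKδ (W0 _)
  obtain ⟨b1, b2, b3⟩ := mb_test_aux (q := p) (C := C) W2c Kc' Ks' hd hKδ (W0 _)
  have ηi : Integrable η volume := hη.smooth.continuous.integrable_of_hasCompactSupport hc
  have hle : ∀ z, α z ^ 2 + β z ^ 2 ≤ 1 := by
    intro z'
    by_cases hz' : z' ∈ K'
    swap
    · have e1 : W₁ z' = 0 := W0 _ z' hz'
      have e2 : W₂ z' = 0 := W0 _ z' hz'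
      simp [hα, hβ, e1, e2]
    have hr' : 0 < z'.1 := lt_of_lt_of_le hd (hKδ z' hz')
    have kb : ∃ M, ∀ t, ‖η (-(z' - t))‖ ≤ M := by
      obtain ⟨M, hM⟩ := hη.smooth.continuous.bounded_above_of_compact_support hc
      exact ⟨M, fun t => hM _⟩
    obtain ⟨M, hM⟩ := kb
    have km : AEStronglyMeasurable (fun t => η (-(z' - t))) volume :=
      (hη.smooth.continuous.comp (by fun_prop)).aestronglyMeasurable
    have j₁ : Integrable (fun t => h₁ t * η (-(z' - t))) volume :=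
      i₁.mul_bdd km (Eventually.of_forall hM)
    have j₂ : Integrable (fun t => h₂ t * η (-(z' - t))) volume :=
      i₂.mul_bdd km (Eventually.of_forall hM)
    have ki : Integrable (fun t => η (-(z' - t))) volume := by
      simpa using ηi.comp_sub_right z'
    have kt : ∫ t, η (-(z' - t)) = 1 := by
      simp only [neg_sub]
      rw [integral_sub_right_eq_self η z', hη.total]
    have key : ∀ c s : ℝ, c * α z' + s * β z' ≤ √(c ^ 2 + s ^ 2) := by
      intro c s
      have e1 : c * α z' + s * β z' = (∫ t, (-(c * z'.1 ^ (-(p + 1))) * (h₁ t * η (-(z' - t)))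
          + -(s * z'.1 ^ (-p)) * (h₂ t * η (-(z' - t))))) / C := by
        rw [integral_add (j₁.const_mul _) (j₂.const_mul _), integral_const_mul, integral_const_mul]
        simp only [hα, hβ, hW₁, hW₂, mb_cv]
        ring
      rw [e1, div_le_iff₀ hC0]
      have e2 : √(c ^ 2 + s ^ 2) * C = ∫ t, (C * √(c ^ 2 + s ^ 2)) * η (-(z' - t)) := by
        rw [integral_const_mul, kt]; ring
      rw [e2]
      refine integral_mono ((j₁.const_mul _).add (j₂.const_mul _)) (ki.const_mul _) fun t => ?_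
      have hn := hη.nonneg (-(z' - t))
      by_cases ht : t ∈ K
      swap
      · simp only [hh₁, hh₂, indicator_of_notMem ht, zero_mul, mul_zero, add_zero]
        positivity
      by_cases hz : ε ≤ ‖-(z' - t)‖
      · simp [hη.supp _ hz, -neg_sub]
      have hz := not_le.1 hz
      rw [norm_neg, Prod.norm_def, max_lt_iff, Real.norm_eq_abs, abs_lt] at hz
      have hz1 := hz.1.1
      simp only [Prod.fst_sub] at hz1
      have ht1 : r₀ ≤ t.1 := ht.1.1
      have ht0 : 0 < t.1 := by linarith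
      have hq : t.1 / z'.1 ≤ ρ₀ := by
        rw [hρ₀, div_le_div_iff₀ hr' hd]
        nlinarith
      have hq0 : 0 ≤ t.1 / z'.1 := by positivity
      have l1 : (t.1 / z'.1) ^ (p + 1) ≤ C := Real.rpow_le_rpow hq0 hq (by linarith)
      have l2 : (t.1 / z'.1) ^ p ≤ C := (Real.rpow_le_rpow hq0 hq hp.le).trans
        (Real.rpow_le_rpow_of_exponent_le hρ1 (by linarith))
      have cs := mb_cs (c := c) (s := s) (hY t) (by positivity) l1 (by positivity) l2
      have := mul_le_mul_of_nonneg_right cs hn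
      simp only [hh₁, hh₂, indicator_of_mem ht]
      rw [Real.div_rpow ht0.le hr'.le, Real.div_rpow ht0.le hr'.le] at this
      rw [Real.rpow_neg hr'.le, Real.rpow_neg hr'.le]
      refine le_trans (le_of_eq ?_) this
      ring
    have k1 := key (α z') (β z')
    have k2 : 0 ≤ α z' ^ 2 + β z' ^ 2 := by positivity
    have k3 := Real.sq_sqrt k2
    by_contra hcon
    have hcon := not_le.1 hcon
    have k4 : 1 < √(α z' ^ 2 + β z' ^ 2) := Real.lt_sqrt_of_sq_lt (by simpa using hcon)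
    nlinarith
  have test : IsTest θ₀ α β := ⟨a1, b1, a2, b2, a3, b3, hle⟩
  obtain ⟨I₁, D₁⟩ := mb_dual hR hη.smooth hc i₁ (1, 0)
  obtain ⟨I₂, D₂⟩ := mb_dual hR hη.smooth hc i₂ (0, 1)
  rw [← hW₁] at I₁ D₁
  rw [← hW₂] at I₂ D₂
  have nonpos : ∀ z : ℝ × ℝ, z.1 ≤ 0 → z ∉ K' := fun z hz hz' => by linarith [hKδ z hz']
  have pt : ∀ z : ℝ × ℝ, deriv (fun r : ℝ => r ^ (p + 1) * α (r, z.2)) z.1
      + z.1 ^ p * deriv (fun t : ℝ => β (z.1, t)) z.2
      = -(fderiv ℝ W₁ z (1, 0) + fderiv ℝ W₂ z (0, 1)) / C := by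
    intro z
    have s1 : HasDerivAt (fun r : ℝ => W₁ (r, z.2)) (fderiv ℝ W₁ z (1, 0)) z.1 :=
      HasFDerivAt.comp_hasDerivAt (l := W₁) (f := fun r : ℝ => (r, z.2)) z.1
        (W1c.differentiable one_ne_zero z).hasFDerivAt
        ((hasDerivAt_id z.1).prodMk (hasDerivAt_const z.1 z.2))
    have s2 : HasDerivAt (fun t : ℝ => W₂ (z.1, t)) (fderiv ℝ W₂ z (0, 1)) z.2 :=
      HasFDerivAt.comp_hasDerivAt (l := W₂) (f := fun t : ℝ => (z.1, t)) z.2
        (W2c.differentiable one_ne_zero z).hasFDerivAt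
        ((hasDerivAt_const z.2 z.1).prodMk (hasDerivAt_id z.2))
    have e1 : (fun r : ℝ => r ^ (p + 1) * α (r, z.2)) = fun r => -W₁ (r, z.2) / C := by
      funext r
      rcases le_or_gt r 0 with h | h
      · have : W₁ (r, z.2) = 0 := W0 _ _ (nonpos _ h)
        simp [hα, this]
      · simp only [hα]
        rw [Real.rpow_neg h.le]
        have : 0 < r ^ (p + 1) := by positivity
        field_simp
    have t1 : deriv (fun r : ℝ => r ^ (p + 1) * α (r, z.2)) z.1 = -fderiv ℝ W₁ z (1, 0) / C := by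
      rw [e1]; exact (s1.neg.div_const C).deriv
    have t2 : deriv (fun t : ℝ => β (z.1, t)) z.2 = -(fderiv ℝ W₂ z (0, 1) * z.1 ^ (-p)) / C :=
      HasDerivAt.deriv (f := fun t : ℝ => -(W₂ (z.1, t) * z.1 ^ (-p)) / C)
        ((s2.mul_const (z.1 ^ (-p))).neg.div_const C)
    rw [t1, t2]
    rcases le_or_gt z.1 0 with h | h
    · have e2 : (fun t : ℝ => W₂ (z.1, t)) = fun _ => 0 := funext fun t => W0 _ _ (nonpos _ h)
      rw [e2] at s2
      rw [s2.unique (hasDerivAt_const _ _)]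
      ring
    · rw [Real.rpow_neg h.le]
      have : 0 < z.1 ^ p := by positivity
      field_simp
      ring
  have hflux : flux p R α β = (∫ z in K, grad p v z) / C := by
    rw [flux]
    simp only [pt]
    rw [integral_div, integral_neg, integral_add I₁ I₂, neg_add, ← D₁, ← D₂]
    congr 1
    have q1 : (fun z => h₁ z * fderiv ℝ v z (1, 0)) = K.indicator fun z => Y₁ z * A z := by
      funext z
      by_cases hz : z ∈ K
      · simp only [hh₁, indicator_of_mem hz, hA]; ring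
      · simp [hh₁, hz]
    have q2 : (fun z => h₂ z * fderiv ℝ v z (0, 1)) = K.indicator fun z => Y₂ z * B z := by
      funext z
      by_cases hz : z ∈ K
      · simp only [hh₂, indicator_of_mem hz, hB]; ring
      · simp [hh₂, hz]
    rw [q1, q2, integral_indicator Km, integral_indicator Km,
      ← integral_add (bdd Y1m Y1b Ac) (bdd Y2m Y2b Bc)]
    simp only [hYG]
  have hfin : ENNReal.ofReal (flux p R α β) ≤ ENNReal.ofReal P :=
    le_trans (le_iSup₂_of_le α β (le_iSup (fun _ : IsTest θ₀ α β =>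
      ENNReal.ofReal (flux p R α β)) test)) hper
  rw [ENNReal.ofReal_le_ofReal_iff hP, hflux, div_le_iff₀ hC0] at hfin
  linarith

end Pool.Agent.MP_d56274_gt
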