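import Mathlib
import Pool.Agent.MP_d56274_gt.Spec

/-!
The one-dimensional bound for a whole profile, from the bounds for its pieces.
-/

namespace Pool.Agent.MP_d56274_gt

open MeasureTheory Set Real Filter Topology

theorem oned_restrict {a Θ r₀ r₁ x y : ℝ} {τ τ' f : ℝ → ℝ} (h : Prof a Θ r₀ r₁ τ τ' f)
    (hx : r₀ ≤ x) (hxy : x ≤ y) (hy : y ≤ r₁) : Prof a Θ x y τ τ' f := by
  have hs : Icc x y ⊆ Icc r₀ r₁ := Icc_subset_Icc hx hy
  exact ⟨h.pos.trans_le hx, hxy, fun r hr => h.der r (hs hr), h.cder.mono hs, h.cf.mono hs,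
    fun r hr => h.f0 r (hs hr), fun r hr => h.fge r (hs hr)⟩

theorem oned_cont {a Θ r₀ r₁ : ℝ} {τ τ' f : ℝ → ℝ} (h : Prof a Θ r₀ r₁ τ τ' f) :
    ContinuousOn τ (Icc r₀ r₁) := fun r hr => (h.der r hr).continuousAt.continuousWithinAt

theorem oned_first {u v : ℝ} {τ : ℝ → ℝ} (huv : u ≤ v) (hc : ContinuousOn τ (Icc u v))
    (hv : τ v ≤ 0) : ∃ y ∈ Icc u v, τ y ≤ 0 ∧ ∀ r ∈ Ico u y, 0 < τ r := by
  have hcl : IsClosed (Icc u v ∩ τ ⁻¹' Iic 0) :=
    hc.preimage_isClosed_of_isClosed isClosed_Icc isClosed_Iic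
  have hcp : IsCompact (Icc u v ∩ τ ⁻¹' Iic 0) :=
    isCompact_Icc.of_isClosed_subset hcl inter_subset_left
  obtain ⟨y, hy, hmin⟩ := hcp.exists_isLeast ⟨v, ⟨huv, le_rfl⟩, hv⟩
  refine ⟨y, hy.1, hy.2, fun r hr => ?_⟩
  by_contra hn
  have : y ≤ r := hmin ⟨⟨hr.1, hr.2.le.trans hy.1.2⟩, not_lt.1 hn⟩
  exact absurd hr.2 (not_lt.2 this)

theorem oned_trunc_nonneg {Θ : ℝ} (hΘ : 0 ≤ Θ) (t : ℝ) : 0 ≤ trunc Θ t :=
  le_min (le_max_right _ _) hΘ

theorem oned_trunc_mono (Θ : ℝ) {s t : ℝ} (h : s ≤ t) : trunc Θ s ≤ trunc Θ t :=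
  min_le_min (max_le_max h le_rfl) le_rfl

theorem oned_contT {a Θ r₀ r₁ : ℝ} {τ τ' f : ℝ → ℝ} (ha : 0 ≤ a) (h : Prof a Θ r₀ r₁ τ τ' f)
    (d : ℝ) : ContinuousOn (fun r => r ^ a * trunc Θ (τ r - d)) (Icc r₀ r₁) := by
  have hp : Continuous fun r : ℝ => r ^ a := continuous_id.rpow_const fun _ => Or.inr ha
  have ht : Continuous (trunc Θ) := (continuous_id.max continuous_const).min continuous_const
  exact hp.continuousOn.mul (ht.comp_continuousOn ((oned_cont h).sub continuousOn_const))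

theorem oned_area {a Θ x y d : ℝ} {τ τ' f : ℝ → ℝ} (ha : 0 ≤ a) (hΘ : 0 ≤ Θ) (hd : 0 ≤ d)
    (h : Prof a Θ x y τ τ' f) :
    0 ≤ (∫ r in x..y, r ^ a * trunc Θ (τ r - d)) ∧
      (∫ r in x..y, r ^ a * trunc Θ (τ r - d)) ≤ ∫ r in x..y, r ^ a * trunc Θ (τ r) := by
  have h1 := (oned_contT ha h d).intervalIntegrable_of_Icc (μ := volume) h.le
  have h2 := (oned_contT ha h 0).intervalIntegrable_of_Icc (μ := volume) h.le
  simp only [sub_zero] at h2
  refine ⟨intervalIntegral.integral_nonneg h.le fun r hr => ?_,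
    intervalIntegral.integral_mono_on h.le h1 h2 fun r hr => ?_⟩
  · exact mul_nonneg (Real.rpow_nonneg (h.pos.le.trans hr.1) _) (oned_trunc_nonneg hΘ _)
  · exact mul_le_mul_of_nonneg_left (oned_trunc_mono Θ (by linarith))
      (Real.rpow_nonneg (h.pos.le.trans hr.1) _)

theorem oned_bubble (h1 : PieceAStmt) (h2 : PieceBStmt) {a Θ c x y : ℝ} {τ τ' f : ℝ → ℝ}
    (hG : Good a Θ c) (h : Prof a Θ x y τ τ' f) (hxy : x < y) (hpos : ∀ r ∈ Ioo x y, 0 < τ r)
    (hx : τ x ≤ 0) (hy : τ y ≤ 0) :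
    KK a c * (∫ r in x..y, r ^ a * trunc Θ (τ r)) ^ (a / (a + 1)) ≤ ∫ r in x..y, f r := by
  by_cases hA : ∃ r ∈ Icc x y, Θ ≤ τ r
  · exact (h1 a Θ c x y τ τ' f hG h hxy hpos hy).2 (Or.inl hA)
  by_cases hB : ∃ r ∈ Icc x y, π / 2 ≤ a * τ r
  · exact (h1 a Θ c x y τ τ' f hG h hxy hpos hy).2 (Or.inr ⟨hx, hB⟩)
  push Not at hA hB
  exact h2 a Θ c x y τ τ' f hG h hxy hpos hx hy fun r hr => ⟨hA r hr, hB r hr⟩

theorem oneD (h1 : PieceAStmt) (h2 : PieceBStmt) : OneDStmt := by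
  intro a Θ c r₀ r₁ d τ τ' f hG h hr₁ hd
  have ha1 := hG.ha
  have ha : 0 ≤ a := by linarith
  have hΘ := hG.hΘ.le
  have hc := hG.hc
  have hq0 : 0 < a / (a + 1) := by positivity
  have hq1 : a / (a + 1) ≤ 1 := by rw [div_le_one (by linarith)]; linarith
  have hK : 0 ≤ KK a c := by unfold KK; exact Real.rpow_nonneg (by positivity) _
  have hr0 : 0 ≤ r₀ ^ a / a := div_nonneg (Real.rpow_nonneg h.pos.le _) ha
  set g : ℝ → ℝ := fun r => r ^ a * trunc Θ (τ r - d) with hg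
  have hgc : ContinuousOn g (Icc r₀ r₁) := oned_contT ha h d
  have hgi : ∀ x y, r₀ ≤ x → x ≤ y → y ≤ r₁ → IntervalIntegrable g volume x y :=
    fun x y hx hxy hy => (hgc.mono (Icc_subset_Icc hx hy)).intervalIntegrable_of_Icc hxy
  have hfi : ∀ x y, r₀ ≤ x → x ≤ y → y ≤ r₁ → IntervalIntegrable f volume x y :=
    fun x y hx hxy hy => (h.cf.mono (Icc_subset_Icc hx hy)).intervalIntegrable_of_Icc hxy
  set S : Set ℝ := {y | τ y ≤ 0 ∧
    KK a c * (∫ r in r₀..y, g r) ^ (a / (a + 1)) ≤ (∫ r in r₀..y, f r) + r₀ ^ a / a} with hS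
  obtain ⟨x₀, hx₀, hτx₀, hpos₀⟩ := oned_first h.le (oned_cont h) hr₁
  have hstart : x₀ ∈ S := by
    refine ⟨hτx₀, ?_⟩
    rcases hx₀.1.eq_or_lt with e | hlt
    · rw [← e, intervalIntegral.integral_same, intervalIntegral.integral_same,
        Real.zero_rpow hq0.ne', mul_zero, zero_add]
      exact hr0
    · have hP := oned_restrict h le_rfl hlt.le hx₀.2
      have hA := (h1 a Θ c r₀ x₀ τ τ' f hG hP hlt (fun r hr => hpos₀ r ⟨hr.1.le, hr.2⟩) hτx₀).1
      have hB := oned_area ha hΘ hd.le hP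
      exact (mul_le_mul_of_nonneg_left (Real.rpow_le_rpow hB.1 hB.2 hq0.le) hK).trans hA
  have hsub : Icc x₀ r₁ ⊆ Icc r₀ r₁ := Icc_subset_Icc hx₀.1 le_rfl
  have hclosed : IsClosed (S ∩ Icc x₀ r₁) := by
    have c1 : ContinuousOn (fun y => ∫ r in r₀..y, g r) (Icc r₀ r₁) := by
      have := intervalIntegral.continuousOn_primitive_interval' (hgi r₀ r₁ le_rfl h.le le_rfl)
        left_mem_uIcc
      rwa [uIcc_of_le h.le] at this
    have c2 : ContinuousOn (fun y => ∫ r in r₀..y, f r) (Icc r₀ r₁) := by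
      have := intervalIntegral.continuousOn_primitive_interval' (hfi r₀ r₁ le_rfl h.le le_rfl)
        left_mem_uIcc
      rwa [uIcc_of_le h.le] at this
    have c3 : ContinuousOn (fun y => KK a c * (∫ r in r₀..y, g r) ^ (a / (a + 1)))
        (Icc x₀ r₁) :=
      (continuousOn_const.mul (c1.rpow_const fun _ _ => Or.inr hq0.le)).mono hsub
    have c4 : ContinuousOn (fun y => (∫ r in r₀..y, f r) + r₀ ^ a / a) (Icc x₀ r₁) :=
      (c2.add continuousOn_const).mono hsub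
    have d1 := isClosed_Icc.isClosed_le c3 c4
    have d2 := isClosed_Icc.isClosed_le ((oned_cont h).mono hsub)
      (continuousOn_const (c := (0 : ℝ)))
    have e : S ∩ Icc x₀ r₁ = {y ∈ Icc x₀ r₁ | τ y ≤ 0} ∩ {y ∈ Icc x₀ r₁ |
        KK a c * (∫ r in r₀..y, g r) ^ (a / (a + 1)) ≤ (∫ r in r₀..y, f r) + r₀ ^ a / a} := by
      ext y
      exact ⟨fun hy => ⟨⟨hy.2, hy.1.1⟩, hy.2, hy.1.2⟩, fun hy => ⟨⟨hy.1.2, hy.2.2⟩, hy.1.1⟩⟩
    rw [e]
    exact d2.inter d1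
  have hfin : r₁ ∈ S := by
    refine hclosed.mem_of_ge_of_forall_exists_gt hstart hx₀.2 ?_
    rintro s ⟨⟨hτs, hs⟩, hs1, hs2⟩
    have hs0 : r₀ ≤ s := hx₀.1.trans hs1
    have hcs : ContinuousAt τ s := (h.der s ⟨hs0, hs2.le⟩).continuousAt
    have hev : ∀ᶠ r in 𝓝 s, τ r < d := hcs.eventually (gt_mem_nhds (by linarith))
    obtain ⟨η, hη, hball⟩ := Metric.eventually_nhds_iff.1 hev
    set u := min (s + η / 2) r₁ with hu
    have hsu : s < u := lt_min (by linarith) hs2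
    have hu1 : u ≤ r₁ := min_le_right _ _
    have hsmall : ∀ r ∈ Icc s u, τ r < d := by
      intro r hr
      refine hball ?_
      have : r ≤ s + η / 2 := hr.2.trans (min_le_left _ _)
      rw [Real.dist_eq, abs_of_nonneg (by linarith [hr.1])]; linarith
    have hA0 := (oned_area ha hΘ hd.le (oned_restrict h le_rfl hs0 hs2.le)).1
    by_cases hZ : ∃ y ∈ Ioc s u, τ y ≤ 0
    · obtain ⟨y, hy, hτy⟩ := hZ
      have hy1 : y ≤ r₁ := hy.2.trans hu1
      refine ⟨y, ⟨hτy, ?_⟩, hy.1, hy1⟩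
      have e1 : (∫ r in s..y, g r) = 0 := by
        rw [← intervalIntegral.integral_zero (a := s) (b := y) (μ := volume)]
        refine intervalIntegral.integral_congr fun r hr => ?_
        rw [uIcc_of_le hy.1.le] at hr
        have := hsmall r ⟨hr.1, hr.2.trans hy.2⟩
        simp only [hg, trunc]
        rw [max_eq_right (by linarith), min_eq_left hΘ, mul_zero]
      have e2 : 0 ≤ ∫ r in s..y, f r :=
        intervalIntegral.integral_nonneg hy.1.le fun r hr => h.f0 r ⟨hs0.trans hr.1, hr.2.trans hy1⟩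
      rw [← intervalIntegral.integral_add_adjacent_intervals (hgi r₀ s le_rfl hs0 hs2.le)
          (hgi s y hs0 hy.1.le hy1),
        ← intervalIntegral.integral_add_adjacent_intervals (hfi r₀ s le_rfl hs0 hs2.le)
          (hfi s y hs0 hy.1.le hy1), e1, add_zero]
      linarith
    · push Not at hZ
      obtain ⟨y, hy, hτy, hpos⟩ := oned_first hu1
        ((oned_cont h).mono (Icc_subset_Icc (hs0.trans hsu.le) le_rfl)) hr₁
      have hsy : s < y := hsu.trans_le hy.1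
      refine ⟨y, ⟨hτy, ?_⟩, hsy, hy.2⟩
      have hP := oned_restrict h hs0 hsy.le hy.2
      have hB := oned_bubble h1 h2 hG hP hsy (fun r hr => by
        rcases le_or_gt r u with e | e
        · exact hZ r ⟨hr.1, e⟩
        · exact hpos r ⟨e.le, hr.2⟩) hτs hτy
      have hC := oned_area ha hΘ hd.le hP
      have hD := (mul_le_mul_of_nonneg_left (Real.rpow_le_rpow hC.1 hC.2 hq0.le) hK).trans hB
      rw [← intervalIntegral.integral_add_adjacent_intervals (hgi r₀ s le_rfl hs0 hs2.le)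
          (hgi s y hs0 hsy.le hy.2),
        ← intervalIntegral.integral_add_adjacent_intervals (hfi r₀ s le_rfl hs0 hs2.le)
          (hfi s y hs0 hsy.le hy.2)]
      have hE := mul_le_mul_of_nonneg_left (Real.rpow_add_le_add_rpow hA0 hC.1 hq0.le hq1) hK
      rw [mul_add] at hE
      linarith
  exact hfin.2

end Pool.Agent.MP_d56274_gt
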