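import Mathlib
import Pool.Agent.MP_d56274_gt.Spec

/-!
PIECE-A (note 5): top piece, origin piece, large bubble.
-/

namespace Pool.Agent.MP_d56274_gt

open MeasureTheory Set Real Filter Topology

/-- layer cake bound -/
lemma pa_layer {a x y m : ℝ} {σ T : ℝ → ℝ} (ha : 0 < a) (hx : 0 < x) (hσ : Antitone σ)
    (hr : ∀ t, σ t ∈ Icc x y) (hT : ∀ r ∈ Icc x y, T r ∈ Icc 0 m)
    (hle : ∀ r ∈ Icc x y, ∀ t, 0 < t → t ≤ T r → r ≤ σ t)
    (cT : ContinuousOn T (Icc x y)) :
    ∫ r in Ioc x y, r ^ a * T r ≤ ∫ t in Ioc 0 m, σ t ^ (a + 1) / (a + 1) := by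
  have cp : ContinuousOn (fun r : ℝ => r ^ a) (Icc x y) :=
    continuousOn_id.rpow_const fun _ _ => Or.inr ha.le
  have ip : IntegrableOn (fun r : ℝ => r ^ a) (Ioc x y) :=
    cp.integrableOn_Icc.mono_set Ioc_subset_Icc_self
  have i1 : IntegrableOn (fun _ : ℝ => (1 : ℝ)) (Ioc 0 m) := integrableOn_const measure_Ioc_lt_top.ne
  have hD : MeasurableSet {z : ℝ × ℝ | z.2 ≤ σ z.1} :=
    measurableSet_le measurable_snd (hσ.measurable.comp measurable_fst)
  set F : ℝ → ℝ → ℝ := fun t s =>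
    {z : ℝ × ℝ | z.2 ≤ σ z.1}.indicator (fun z => 1 * z.2 ^ a) (t, s) with hF
  have iF : Integrable (Function.uncurry F)
      ((volume.restrict (Ioc 0 m)).prod (volume.restrict (Ioc x y))) :=
    (i1.mul_prod ip).indicator hD
  have hswap := integral_integral_swap iF
  have hL : ∀ t, ∫ s in Ioc x y, F t s = (σ t ^ (a + 1) - x ^ (a + 1)) / (a + 1) := by
    intro t
    have e1 : (fun s => F t s) = (Iic (σ t)).indicator (fun s => s ^ a) := by
      funext s
      simp only [hF, indicator, mem_ofPred_eq, mem_Iic, one_mul]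
    rw [e1, setIntegral_indicator measurableSet_Iic, Ioc_inter_Iic, min_eq_right (hr t).2,
      ← intervalIntegral.integral_of_le (hr t).1, integral_rpow (Or.inl (by linarith))]
  have hR : ∀ s ∈ Ioc x y, s ^ a * T s ≤ ∫ t in Ioc 0 m, F t s := by
    intro s hs
    have hs' : s ∈ Icc x y := Ioc_subset_Icc_self hs
    have hms : MeasurableSet {t : ℝ | s ≤ σ t} := measurableSet_le measurable_const hσ.measurable
    have e1 : (fun t => F t s) = {t : ℝ | s ≤ σ t}.indicator (fun _ => s ^ a) := by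
      funext t
      simp only [hF, indicator, mem_ofPred_eq, one_mul]
    have hsub : Ioc 0 (T s) ⊆ Ioc 0 m ∩ {t : ℝ | s ≤ σ t} := fun t ht =>
      ⟨⟨ht.1, ht.2.trans (hT s hs').2⟩, hle s hs' t ht.1 ht.2⟩
    have hp : 0 ≤ s ^ a := rpow_nonneg (hx.le.trans hs'.1) a
    rw [e1, setIntegral_indicator hms, setIntegral_const, smul_eq_mul, mul_comm]
    refine mul_le_mul_of_nonneg_right ?_ hp
    have h1 : volume.real (Ioc 0 (T s)) = T s := by
      rw [Real.volume_real_Ioc_of_le (hT s hs').1, sub_zero]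
    rw [← h1]
    exact measureReal_mono hsub
      ((measure_mono inter_subset_left).trans_lt measure_Ioc_lt_top).ne
  have i2 : IntegrableOn (fun r => r ^ a * T r) (Ioc x y) :=
    (cp.mul cT).integrableOn_Icc.mono_set Ioc_subset_Icc_self
  have h1 := setIntegral_mono_on i2 iF.integral_prod_right measurableSet_Ioc hR
  simp only [Function.uncurry_apply_pair] at h1
  rw [← hswap] at h1
  refine h1.trans ?_
  have i3 := iF.integral_prod_left
  simp only [Function.uncurry_apply_pair, hL] at i3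
  simp only [hL]
  have i4 : IntegrableOn (fun t => σ t ^ (a + 1) / (a + 1)) (Ioc 0 m) := by
    refine (i3.add (integrableOn_const (C := x ^ (a + 1) / (a + 1))
      (measure_Ioc_lt_top (a := (0 : ℝ)) (b := m)).ne)).congr (Eventually.of_forall fun t => ?_)
    simp only [Pi.add_apply]; ring
  refine integral_mono i3 i4 fun t => ?_
  have := rpow_nonneg hx.le (a + 1)
  exact div_le_div_of_nonneg_right (by linarith) (by linarith)

lemma pa_proj {p q c s : ℝ} (h : c ^ 2 + s ^ 2 = 1) : p * c - q * s ≤ √(p ^ 2 + q ^ 2) := by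
  have h1 : (p * c - q * s) ^ 2 ≤ p ^ 2 + q ^ 2 := by
    have : p ^ 2 + q ^ 2 = (p * c - q * s) ^ 2 + (p * s + q * c) ^ 2 := by
      linear_combination (-(p ^ 2 + q ^ 2)) * h
    rw [this]; nlinarith [sq_nonneg (p * s + q * c)]
  exact (abs_le.1 (Real.abs_le_sqrt h1)).2

lemma pa_rho {a r : ℝ} (ha : 0 < a) (hr : 0 < r) :
    HasDerivAt (fun r : ℝ => r ^ a / a) (r ^ (a - 1)) r := by
  have h := (Real.hasDerivAt_rpow_const (x := r) (p := a) (Or.inl hr.ne')).div_const a
  rwa [mul_div_cancel_left₀ _ ha.ne'] at h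

lemma pa_cos {a r m t' : ℝ} {τ : ℝ → ℝ} (ha : 0 < a) (hr : 0 < r) (h : HasDerivAt τ t' r) :
    HasDerivAt (fun r : ℝ => r ^ a / a * cos (a * τ r - m))
      (r ^ (a - 1) * cos (a * τ r - m) - r ^ a * t' * sin (a * τ r - m)) r := by
  have h1 := (pa_rho ha hr).mul ((h.const_mul a).sub_const m).cos
  refine h1.congr_deriv ?_
  field_simp
  ring

lemma pa_sin {a r m t' : ℝ} {τ : ℝ → ℝ} (ha : 0 < a) (hr : 0 < r) (h : HasDerivAt τ t' r) :
    HasDerivAt (fun r : ℝ => r ^ a / a * sin (a * τ r - m))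
      (r ^ (a - 1) * sin (a * τ r - m) + r ^ a * t' * cos (a * τ r - m)) r := by
  have h1 := (pa_rho ha hr).mul ((h.const_mul a).sub_const m).sin
  refine h1.congr_deriv ?_
  field_simp

lemma pa_core (h1 : CtrlStmt) (h2 : CauchyStmt) (h3 : HolStmt) {a Θ c x y : ℝ}
    {τ τ' f : ℝ → ℝ} (hG : Good a Θ c) (hP : Prof a Θ x y τ τ' f) (hxy : x < y)
    (hpos : ∀ r ∈ Ioo x y, 0 < τ r) (hy : τ y ≤ 0) :
    ∃ m s₀ : ℝ, s₀ ∈ Icc x y ∧ a * τ s₀ = m ∧ m ≤ a * Θ ∧
      (m < a * Θ → ∀ r ∈ Icc x y, a * τ r ≤ m) ∧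
      ∀ L : ℝ, (∀ η : ℝ, η ≤ 1 → (m = a * Θ → η ≤ 0) →
          (∫ r in s₀..y, f r) + s₀ ^ a / a * η ≤ L) →
        KK a c * (∫ r in x..y, r ^ a * trunc Θ (τ r)) ^ (a / (a + 1)) ≤ L := by
  have ha1 := hG.ha
  have ha : 0 < a := by linarith
  have hx := hP.pos
  have cτ : ContinuousOn τ (Icc x y) := fun r hr => (hP.der r hr).continuousAt.continuousWithinAt
  have cφ : ContinuousOn (fun r => a * τ r) (Icc x y) := continuousOn_const.mul cτ
  obtain ⟨rM, hrM, hmax⟩ := isCompact_Icc.exists_isMaxOn (nonempty_Icc.2 hxy.le) cφ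
  have hM : ∀ r ∈ Icc x y, a * τ r ≤ a * τ rM := fun r hr => hmax hr
  have hMpos : 0 < a * τ rM := by
    have hmid : (x + y) / 2 ∈ Ioo x y := ⟨by linarith, by linarith⟩
    exact (mul_pos ha (hpos _ hmid)).trans_le (hM _ (Ioo_subset_Icc_self hmid))
  set m := min (a * τ rM) (a * Θ) with hm
  have hm0 : 0 < m := lt_min hMpos (mul_pos ha hG.hΘ)
  have hy0 : τ y = 0 := by
    have hcl : IsClosed (Icc x y ∩ τ ⁻¹' Ici 0) :=
      cτ.preimage_isClosed_of_isClosed isClosed_Icc isClosed_Ici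
    have hsub : Ioo x y ⊆ Icc x y ∩ τ ⁻¹' Ici 0 := fun r hr =>
      ⟨Ioo_subset_Icc_self hr, (hpos r hr).le⟩
    have := hcl.closure_subset_iff.2 hsub
    rw [closure_Ioo hxy.ne] at this
    exact le_antisymm hy (this (right_mem_Icc.2 hxy.le)).2
  set E : ℝ → Set ℝ := fun t => Icc x y ∩ (fun r => a * τ r) ⁻¹' Ici (max 0 (min t m)) with hE
  have hcl : ∀ t, max 0 (min t m) ∈ Icc 0 m := fun t =>
    ⟨le_max_left _ _, max_le hm0.le (min_le_right _ _)⟩
  have hcl' : ∀ t ∈ Icc 0 m, max 0 (min t m) = t := fun t ht => by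
    rw [min_eq_left ht.2, max_eq_right ht.1]
  have hEne : ∀ t, (E t).Nonempty := fun t => ⟨rM, hrM, (hcl t).2.trans (min_le_left _ _)⟩
  have hEb : ∀ t, BddAbove (E t) := fun t => ⟨y, fun r hr => hr.1.2⟩
  have hEc : ∀ t, IsClosed (E t) := fun t =>
    cφ.preimage_isClosed_of_isClosed isClosed_Icc isClosed_Ici
  set σ : ℝ → ℝ := fun t => sSup (E t) with hσ
  have hσE : ∀ t, σ t ∈ E t := fun t => (hEc t).csSup_mem (hEne t) (hEb t)
  have hσr : ∀ t, σ t ∈ Icc x y := fun t => (hσE t).1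
  have hanti : Antitone σ := fun t t' h =>
    csSup_le_csSup (hEb t) (hEne t') fun r hr =>
      ⟨hr.1, le_trans (max_le_max le_rfl (min_le_min_right _ h)) hr.2⟩
  have hge : ∀ t ∈ Icc 0 m, ∀ r ∈ Icc x y, t ≤ a * τ r → r ≤ σ t := fun t ht r hr h =>
    le_csSup (hEb t) ⟨hr, by rw [mem_preimage, hcl' t ht]; exact h⟩
  have hval : ∀ t ∈ Icc 0 m, a * τ (σ t) = t := by
    intro t ht
    have h0 : t ≤ a * τ (σ t) := by
      have := (hσE t).2
      rwa [mem_preimage, hcl' t ht] at this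
    have hsub : Icc (σ t) y ⊆ Icc x y := Icc_subset_Icc_left (hσr t).1
    obtain ⟨r, hr, hrt⟩ := intermediate_value_Icc' (hσr t).2 (cφ.mono hsub)
      (show t ∈ Icc (a * τ y) (a * τ (σ t)) from ⟨by rw [hy0, mul_zero]; exact ht.1, h0⟩)
    have : r = σ t := le_antisymm (hge t ht r (hsub hr) hrt.ge) hr.1
    rw [← this]; exact hrt
  have hmm : m ∈ Icc 0 m := right_mem_Icc.2 hm0.le
  refine ⟨m, σ m, hσr m, hval m hmm, min_le_right _ _, fun hlt r hr => ?_, fun L hL => ?_⟩
  · have : m = a * τ rM := by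
      rcases min_choice (a * τ rM) (a * Θ) with h | h
      · exact h
      · exact absurd h hlt.ne
    rw [this]; exact hM r hr
  have hsub : Icc (σ m) y ⊆ Icc x y := Icc_subset_Icc_left (hσr m).1
  have hrp : ∀ r ∈ Icc x y, 0 < r := fun r hr => hx.trans_le hr.1
  have cp : ∀ e : ℝ, ContinuousOn (fun r : ℝ => r ^ e) (Icc x y) := fun e =>
    continuousOn_id.rpow_const fun r hr => Or.inl (hrp r hr).ne'
  have ctr : Continuous (trunc Θ) := by unfold trunc; fun_prop
  have htr0 : ∀ t, 0 ≤ trunc Θ t := fun t => le_min (le_max_right _ _) hG.hΘ.le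
  refine h3 a m c L (y ^ a / a) _ (fun t => σ t ^ a / a) ha1 hm0.le hG.hc ?_ ?_ ?_ ?_ ?_
  · exact ((hanti.measurable.pow_const a).div_const a).aemeasurable
  · intro t _
    exact ⟨div_nonneg (rpow_nonneg (hrp _ (hσr t)).le a) ha.le,
      div_le_div_of_nonneg_right (rpow_le_rpow (hrp _ (hσr t)).le (hσr t).2 ha.le) ha.le⟩
  · intro g hg hg0 hgc
    obtain ⟨yy, w, yy', w', hC, hend⟩ := h1 a m c g ha1 hm0.le hg hg0 hgc hG.le_m0
    have c0 : ContinuousOn (fun r => a * τ r - 0) (Icc x y) := cφ.sub continuousOn_const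
    have cc : ContinuousOn (fun r => cos (a * τ r - 0)) (Icc x y) :=
      continuous_cos.comp_continuousOn c0
    have cs : ContinuousOn (fun r => sin (a * τ r - 0)) (Icc x y) :=
      continuous_sin.comp_continuousOn c0
    have cX : ContinuousOn
        (fun r => r ^ (a - 1) * cos (a * τ r - 0) - r ^ a * τ' r * sin (a * τ r - 0)) (Icc x y) :=
      ((cp (a - 1)).mul cc).sub (((cp a).mul hP.cder).mul cs)
    have cY : ContinuousOn
        (fun r => r ^ (a - 1) * sin (a * τ r - 0) + r ^ a * τ' r * cos (a * τ r - 0)) (Icc x y) :=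
      ((cp (a - 1)).mul cs).add (((cp a).mul hP.cder).mul cc)
    have hcau := h2 (σ m) y m (fun r => r ^ a / a * cos (a * τ r - 0))
      (fun r => r ^ a / a * sin (a * τ r - 0))
      (fun r => r ^ (a - 1) * cos (a * τ r - 0) - r ^ a * τ' r * sin (a * τ r - 0))
      (fun r => r ^ (a - 1) * sin (a * τ r - 0) + r ^ a * τ' r * cos (a * τ r - 0))
      σ (fun t => σ t ^ a / a) g yy w yy' w' (hσr m).2 hm0.le
      (fun r hr => pa_cos ha (hrp r (hsub hr)) (hP.der r (hsub hr)))
      (fun r hr => pa_sin ha (hrp r (hsub hr)) (hP.der r (hsub hr)))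
      (cX.mono hsub) (cY.mono hsub) (by simp [hy0]) (hanti.antitoneOn _)
      (fun t ht => ⟨hanti ht.2, (hσr t).2⟩)
      (fun t ht => ⟨div_nonneg (rpow_nonneg (hrp _ (hσr t)).le a) ha.le,
        by simp only [sub_zero, hval t (Ioo_subset_Icc_self ht)],
        by simp only [sub_zero, hval t (Ioo_subset_Icc_self ht)]⟩) hg hC
    have hu : uIcc (σ m) y ⊆ Icc x y := by rw [uIcc_of_le (hσr m).2]; exact hsub
    have hsp : (∫ r in σ m..y,
        √((r ^ (a - 1) * cos (a * τ r - 0) - r ^ a * τ' r * sin (a * τ r - 0)) ^ 2 +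
          (r ^ (a - 1) * sin (a * τ r - 0) + r ^ a * τ' r * cos (a * τ r - 0)) ^ 2)) ≤
        ∫ r in σ m..y, f r := by
      refine intervalIntegral.integral_mono_on_of_le_Ioo (hσr m).2
        ((((cX.pow 2).add (cY.pow 2)).sqrt.mono hu).intervalIntegrable)
        ((hP.cf.mono hu).intervalIntegrable) fun r hr => ?_
      have hr' : r ∈ Ioo x y := ⟨(hσr m).1.trans_lt hr.1, hr.2⟩
      have hlt : a * τ r < m := by
        by_contra hcon
        exact absurd (hge m hmm r (Ioo_subset_Icc_self hr') (not_lt.1 hcon)) (not_le.2 hr.1)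
      have hΘ' : τ r < Θ := lt_of_mul_lt_mul_left (hlt.trans_le (min_le_right _ _)) ha.le
      refine le_trans (le_of_eq ?_) (hP.fge r (Ioo_subset_Icc_self hr') (hpos r hr') hΘ')
      congr 1
      linear_combination ((r ^ (a - 1)) ^ 2 + (r ^ a * τ' r) ^ 2) *
        sin_sq_add_cos_sq (a * τ r - 0)
    have hη : yy m ≤ 1 := by
      have := hC.sq m hmm
      nlinarith [sq_nonneg (w m), sq_nonneg (yy m - 1)]
    have hL' := hL (yy m) hη fun h => hend fun X hX => by rw [h]; exact hG.le_Gam X hX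
    simp only [sub_zero, hval m hmm] at hcau hsp
    have hb : σ m ^ a / a * sin m * (w m * cos m - yy m * sin m) -
        σ m ^ a / a * cos m * (w m * sin m + yy m * cos m) = -(σ m ^ a / a * yy m) := by
      linear_combination (-(σ m ^ a / a * yy m)) * sin_sq_add_cos_sq m
    rw [hb] at hcau
    linarith
  · exact intervalIntegral.integral_nonneg hxy.le fun r hr =>
      mul_nonneg (rpow_nonneg (hrp r hr).le a) (htr0 _)
  · have hlay := pa_layer (T := fun r => a * trunc Θ (τ r)) (m := m) ha hx hanti hσr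
      (fun r hr => ⟨mul_nonneg ha.le (htr0 _), le_min ?_ ?_⟩) (fun r hr t ht0 ht => ?_)
      (continuousOn_const.mul (ctr.comp_continuousOn cτ))
    · rw [intervalIntegral.integral_of_le hxy.le, intervalIntegral.integral_of_le hm0.le,
        ← integral_const_mul]
      have e1 : ∫ r in Ioc x y, r ^ a * (a * trunc Θ (τ r)) =
          a * ∫ r in Ioc x y, r ^ a * trunc Θ (τ r) := by
        rw [← integral_const_mul]
        exact integral_congr_ae (Eventually.of_forall fun r => by simp only []; ring)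
      have e2 : ∫ t in Ioc 0 m, σ t ^ (a + 1) / (a + 1) =
          a * ∫ t in Ioc 0 m, a ^ (1 / a) / (a + 1) * (σ t ^ a / a) ^ ((a + 1) / a) := by
        rw [← integral_const_mul]
        refine integral_congr_ae (Eventually.of_forall fun t => ?_)
        have hs := hrp _ (hσr t)
        have e3 : a * ((a + 1) / a) = a + 1 := by field_simp
        have e4 : (a + 1) / a = 1 / a + 1 := by field_simp; ring
        have e5 : a ^ ((a + 1) / a) = a ^ (1 / a) * a := by rw [e4, rpow_add ha, rpow_one]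
        have hp : 0 < a ^ (1 / a) := rpow_pos_of_pos ha _
        simp only []
        rw [div_rpow (rpow_nonneg hs.le a) ha.le, ← rpow_mul hs.le, e3, e5]
        field_simp
      rw [e1, e2] at hlay
      exact le_of_mul_le_mul_left hlay ha
    · have h4 : trunc Θ (τ r) ≤ max (τ r) 0 := min_le_left _ _
      have h5 := hM r hr
      rcases le_total (τ r) 0 with h | h
      · rw [max_eq_right h] at h4; nlinarith
      · rw [max_eq_left h] at h4; nlinarith
    · exact mul_le_mul_of_nonneg_left (min_le_right _ _) ha.le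
    · have h4 : trunc Θ (τ r) ≤ max (τ r) 0 := min_le_left _ _
      have h6 : trunc Θ (τ r) ≤ Θ := min_le_right _ _
      have h5 := hM r hr
      have h7 : t ≤ a * τ r := by
        rcases le_total (τ r) 0 with h | h
        · rw [max_eq_right h] at h4; nlinarith
        · rw [max_eq_left h] at h4; nlinarith
      exact hge t ⟨ht0.le, le_min (h7.trans h5) (by nlinarith)⟩ r hr h7

theorem pieceA (h1 : CtrlStmt) (h2 : CauchyStmt) (h3 : HolStmt) : PieceAStmt := by
  intro a Θ c x y τ τ' f hG hP hxy hpos hy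
  obtain ⟨m, s₀, hs₀, hval, hmle, hmax, hcore⟩ := pa_core h1 h2 h3 hG hP hxy hpos hy
  have ha : 0 < a := by linarith [hG.ha]
  have hx := hP.pos
  have hrp : ∀ r ∈ Icc x y, 0 < r := fun r hr => hx.trans_le hr.1
  have cτ : ContinuousOn τ (Icc x y) := fun r hr => (hP.der r hr).continuousAt.continuousWithinAt
  have hint : ∀ p ∈ Icc x y, ∀ q ∈ Icc x y, IntervalIntegrable f volume p q := fun p hp q hq =>
    (hP.cf.mono (uIcc_subset_Icc hp hq)).intervalIntegrable
  have hxm : x ∈ Icc x y := left_mem_Icc.2 hxy.le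
  have hym : y ∈ Icc x y := right_mem_Icc.2 hxy.le
  have hsplit := intervalIntegral.integral_add_adjacent_intervals (hint x hxm s₀ hs₀)
    (hint s₀ hs₀ y hym)
  have hnn : ∀ q ∈ Icc x y, 0 ≤ ∫ r in x..q, f r := fun q hq =>
    intervalIntegral.integral_nonneg hq.1 fun r hr => hP.f0 r ⟨hr.1, hr.2.trans hq.2⟩
  have hu : 0 ≤ s₀ ^ a / a := div_nonneg (rpow_nonneg (hrp _ hs₀).le a) ha.le
  have hx0 : 0 ≤ x ^ a / a := div_nonneg (rpow_nonneg hx.le a) ha.le
  rcases hmle.eq_or_lt with htop | hlt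
  · have := hcore (∫ r in x..y, f r) fun η _ hη => by
      have := mul_nonpos_of_nonneg_of_nonpos hu (hη htop)
      linarith [hnn s₀ hs₀]
    exact ⟨by linarith, fun _ => this⟩
  have hΘ : ∀ r ∈ Icc x y, τ r < Θ := fun r hr =>
    lt_of_mul_lt_mul_left ((hmax hlt r hr).trans_lt hlt) ha.le
  have hf : ∀ r ∈ Ioo x y, √((r ^ (a - 1)) ^ 2 + (r ^ a * τ' r) ^ 2) ≤ f r := fun r hr =>
    hP.fge r (Ioo_subset_Icc_self hr) (hpos r hr) (hΘ r (Ioo_subset_Icc_self hr))
  refine ⟨hcore _ fun η hη _ => ?_, fun hor => hcore _ fun η hη _ => ?_⟩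
  · have hsub : Icc x s₀ ⊆ Icc x y := Icc_subset_Icc_right hs₀.2
    have hrise := intervalIntegral.sub_le_integral_of_hasDeriv_right_of_le
      (g := fun r : ℝ => r ^ a / a) (g' := fun r => r ^ (a - 1)) (φ := f) hs₀.1
      (fun r hr => (pa_rho ha (hrp r (hsub hr))).continuousAt.continuousWithinAt)
      (fun r hr => (pa_rho ha (hrp r (hsub (Ioo_subset_Icc_self hr)))).hasDerivWithinAt)
      (hP.cf.mono hsub).integrableOn_Icc fun r hr => by
        refine le_trans ?_ (hf r ⟨hr.1, hr.2.trans_le hs₀.2⟩)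
        have := pa_proj (p := r ^ (a - 1)) (q := r ^ a * τ' r) (c := 1) (s := 0) (by norm_num)
        simpa using this
    have := mul_le_mul_of_nonneg_left hη hu
    linarith
  · rcases hor with ⟨r, hr, h⟩ | ⟨hx', r, hr, h⟩
    · exact absurd (hΘ r hr) (not_lt.2 h)
    have hm : π / 2 ≤ m := h.trans (hmax hlt r hr)
    have hsub : Icc x s₀ ⊆ Icc x y := Icc_subset_Icc_right hs₀.2
    obtain ⟨q, hq, hqv⟩ := intermediate_value_Icc hs₀.1
      ((continuousOn_const (c := a)).mul (cτ.mono hsub))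
      (show m - π / 2 ∈ Icc (a * τ x) (a * τ s₀) from
        ⟨by nlinarith, by rw [hval]; linarith [pi_pos]⟩)
    have hqv' : a * τ q = m - π / 2 := hqv
    have hsub2 : Icc q s₀ ⊆ Icc x y := Icc_subset_Icc hq.1 hs₀.2
    have hrise := intervalIntegral.sub_le_integral_of_hasDeriv_right_of_le
      (g := fun r : ℝ => r ^ a / a * cos (a * τ r - m))
      (g' := fun r => r ^ (a - 1) * cos (a * τ r - m) - r ^ a * τ' r * sin (a * τ r - m))
      (φ := f) hq.2
      (fun r hr => (pa_cos ha (hrp r (hsub2 hr))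
        (hP.der r (hsub2 hr))).continuousAt.continuousWithinAt)
      (fun r hr => (pa_cos ha (hrp r (hsub2 (Ioo_subset_Icc_self hr)))
        (hP.der r (hsub2 (Ioo_subset_Icc_self hr)))).hasDerivWithinAt)
      (hP.cf.mono hsub2).integrableOn_Icc fun r hr =>
        (pa_proj (cos_sq_add_sin_sq _)).trans (hf r ⟨hq.1.trans_lt hr.1, hr.2.trans_le hs₀.2⟩)
    have e0 : m - π / 2 - m = -(π / 2) := by ring
    simp only [hval, hqv', sub_self, cos_zero, mul_one, e0, cos_neg, cos_pi_div_two, mul_zero,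
      sub_zero] at hrise
    have hs2 := intervalIntegral.integral_add_adjacent_intervals (hint x hxm q (hsub hq))
      (hint q (hsub hq) s₀ hs₀)
    have := mul_le_mul_of_nonneg_left hη hu
    linarith [hnn q (hsub hq)]

end Pool.Agent.MP_d56274_gt
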