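import Pool.Agent.MP_d56274_gt.Spec

/-! The row PIECE-B: the inequality for a small bubble. -/

namespace Pool.Agent.MP_d56274_gt

open MeasureTheory Set Real Filter Topology

theorem pb_sup {g : ℝ → ℝ} {s y : ℝ} (hs : s ≤ y) (hg : ContinuousOn g (Icc s y)) (h0 : 0 ≤ g s)
    (h1 : g y ≤ 0) :
    sSup {r | r ∈ Icc s y ∧ 0 ≤ g r} ∈ Icc s y ∧ g (sSup {r | r ∈ Icc s y ∧ 0 ≤ g r}) = 0 ∧
      ∀ r ∈ Icc s y, 0 ≤ g r → r ≤ sSup {r | r ∈ Icc s y ∧ 0 ≤ g r} := by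
  have hc : IsClosed {r | r ∈ Icc s y ∧ 0 ≤ g r} :=
    hg.preimage_isClosed_of_isClosed isClosed_Icc isClosed_Ici
  have hb : BddAbove {r | r ∈ Icc s y ∧ 0 ≤ g r} := ⟨y, fun r hr => hr.1.2⟩
  have hm := hc.csSup_mem ⟨s, ⟨le_rfl, hs⟩, h0⟩ hb
  have hle : ∀ r ∈ Icc s y, 0 ≤ g r → r ≤ sSup {r | r ∈ Icc s y ∧ 0 ≤ g r} := fun r h h' =>
    le_csSup hb ⟨h, h'⟩
  refine ⟨hm.1, ?_, hle⟩
  obtain ⟨r, hr, e⟩ := intermediate_value_Icc' hm.1.2 (hg.mono (Icc_subset_Icc_left hm.1.1))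
    (show (0 : ℝ) ∈ Icc _ _ from ⟨h1, hm.2⟩)
  rw [← le_antisymm (hle r ⟨hm.1.1.trans hr.1, hr.2⟩ e.ge) hr.1, e]

theorem pb_rot (U Y t t' : ℝ) : Y * cos t - U * sin t =
    (Y * cos t' - U * sin t') * cos (t' - t) + (Y * sin t' + U * cos t') * sin (t' - t) := by
  rw [cos_sub, sin_sub]
  linear_combination (U * sin t - Y * cos t) * sin_sq_add_cos_sq t'

theorem pieceB (h1 : CtrlStmt) (h2 : CauchyStmt) (h3 : HolStmt) (h4 : PolarStmt) :
    PieceBStmt := by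
  intro a Θ c x y τ τ' f hG hP hxy hpos hx hy hlt
  have ha := hG.ha
  have ha0 : 0 < a := by linarith
  have hx0 := hP.pos
  have hτ : ContinuousOn τ (Icc x y) := fun r hr => (hP.der r hr).continuousAt.continuousWithinAt
  have hτ0 : ∀ r ∈ Icc x y, 0 ≤ τ r := fun r hr => by
    have hc : IsClosed (Icc x y ∩ τ ⁻¹' Ici 0) :=
      hτ.preimage_isClosed_of_isClosed isClosed_Icc isClosed_Ici
    have : closure (Ioo x y) ⊆ Icc x y ∩ τ ⁻¹' Ici 0 :=
      closure_minimal (fun r hr => ⟨Ioo_subset_Icc_self hr, (hpos r hr).le⟩) hc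
    rw [closure_Ioo hxy.ne] at this
    exact (this hr).2
  have hx' : τ x = 0 := le_antisymm hx (hτ0 x ⟨le_rfl, hxy.le⟩)
  have hy' : τ y = 0 := le_antisymm hy (hτ0 y ⟨hxy.le, le_rfl⟩)
  have hr0 : ∀ r ∈ Icc x y, 0 < r := fun r hr => hx0.trans_le hr.1
  have hpow : ∀ e : ℝ, ContinuousOn (fun r : ℝ => r ^ e) (Icc x y) := fun e =>
    continuousOn_id.rpow_const fun r hr => Or.inl (hr0 r hr).ne'
  obtain ⟨X, hX⟩ : ∃ X : ℝ → ℝ, X = fun r => r ^ a / a * cos (a * τ r) := ⟨_, rfl⟩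
  obtain ⟨Y, hY⟩ : ∃ Y : ℝ → ℝ, Y = fun r => r ^ a / a * sin (a * τ r) := ⟨_, rfl⟩
  obtain ⟨X', hX'⟩ : ∃ X' : ℝ → ℝ,
    X' = fun r => r ^ (a - 1) * cos (a * τ r) - r ^ a * τ' r * sin (a * τ r) := ⟨_, rfl⟩
  obtain ⟨Y', hY'⟩ : ∃ Y' : ℝ → ℝ,
    Y' = fun r => r ^ (a - 1) * sin (a * τ r) + r ^ a * τ' r * cos (a * τ r) := ⟨_, rfl⟩
  have dX : ∀ r ∈ Icc x y, HasDerivAt X (X' r) r := fun r hr => by
    rw [hX, hX']
    refine (((Real.hasDerivAt_rpow_const (p := a) (Or.inl (hr0 r hr).ne')).div_const a).mul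
      ((hP.der r hr).const_mul a).cos).congr_deriv ?_
    field_simp
    ring
  have dY : ∀ r ∈ Icc x y, HasDerivAt Y (Y' r) r := fun r hr => by
    rw [hY, hY']
    refine (((Real.hasDerivAt_rpow_const (p := a) (Or.inl (hr0 r hr).ne')).div_const a).mul
      ((hP.der r hr).const_mul a).sin).congr_deriv ?_
    field_simp
  have haτ : ContinuousOn (fun r => a * τ r) (Icc x y) := continuousOn_const.mul hτ
  have hco := continuous_cos.comp_continuousOn haτ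
  have hsi := continuous_sin.comp_continuousOn haτ
  have cX' : ContinuousOn X' (Icc x y) := by
    rw [hX']
    exact ((hpow _).mul hco).sub (((hpow _).mul hP.cder).mul hsi)
  have cY' : ContinuousOn Y' (Icc x y) := by
    rw [hY']
    exact ((hpow _).mul hsi).add (((hpow _).mul hP.cder).mul hco)
  have cX : ContinuousOn X (Icc x y) := fun r hr => (dX r hr).continuousAt.continuousWithinAt
  have cY : ContinuousOn Y (Icc x y) := fun r hr => (dY r hr).continuousAt.continuousWithinAt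
  have cS : ContinuousOn (fun r => √(X' r ^ 2 + Y' r ^ 2)) (Icc x y) :=
    ((cX'.pow 2).add (cY'.pow 2)).sqrt
  have hsp : ∀ r ∈ Ioo x y, √(X' r ^ 2 + Y' r ^ 2) ≤ f r := fun r hr => by
    have := hP.fge r (Ioo_subset_Icc_self hr) (hpos r hr) (hlt r (Ioo_subset_Icc_self hr)).1
    convert this using 2
    rw [hX', hY']
    linear_combination ((r ^ (a - 1)) ^ 2 + (r ^ a * τ' r) ^ 2) * sin_sq_add_cos_sq (a * τ r)
  have hρ : ∀ r ∈ Icc x y, 0 < r ^ a / a := fun r hr =>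
    div_pos (Real.rpow_pos_of_pos (hr0 r hr) a) ha0
  have hφ : ∀ r ∈ Icc x y, 0 ≤ a * τ r := fun r hr => mul_nonneg ha0.le (hτ0 r hr)
  have hY0 : ∀ r ∈ Icc x y, 0 ≤ Y r := fun r hr => by
    rw [hY]
    exact mul_nonneg (hρ r hr).le (sin_nonneg_of_nonneg_of_le_pi (hφ r hr)
      (by linarith [(hlt r hr).2, pi_pos]))
  have hYx : Y x = 0 := by simp [hY, hx']
  have hYy : Y y = 0 := by simp [hY, hy']
  obtain ⟨s₀, hs₀, hmin⟩ := isCompact_Icc.exists_isMinOn (nonempty_Icc.2 hxy.le) cX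
  have hU : ∀ r ∈ Icc x y, 0 ≤ X r - X s₀ := fun r hr => sub_nonneg.2 (hmin hr)
  have hc0 : 0 ≤ X s₀ := by
    rw [hX]
    exact mul_nonneg (hρ _ hs₀).le (cos_nonneg_of_neg_pi_div_two_le_of_le
      (by linarith [hφ _ hs₀, pi_pos]) (hlt _ hs₀).2.le)
  have hsub : Icc s₀ y ⊆ Icc x y := Icc_subset_Icc_left hs₀.1
  have hsc : ∀ t ∈ Icc 0 (π / 2), 0 ≤ sin t ∧ 0 ≤ cos t := fun t ht =>
    ⟨sin_nonneg_of_nonneg_of_le_pi ht.1 (by linarith [ht.2, pi_pos]),
      cos_nonneg_of_neg_pi_div_two_le_of_le (by linarith [ht.1, pi_pos]) ht.2⟩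
  obtain ⟨σ, hσ⟩ : ∃ σ : ℝ → ℝ, ∀ t ∈ Icc 0 (π / 2), σ t ∈ Icc s₀ y ∧
      Y (σ t) * cos t - (X (σ t) - X s₀) * sin t = 0 ∧
      ∀ r ∈ Icc s₀ y, 0 ≤ Y r * cos t - (X r - X s₀) * sin t → r ≤ σ t := by
    refine ⟨fun t => sSup {r | r ∈ Icc s₀ y ∧ 0 ≤ Y r * cos t - (X r - X s₀) * sin t},
      fun t ht => pb_sup (g := fun r => Y r * cos t - (X r - X s₀) * sin t) hs₀.2
        (((cY.mono hsub).mul continuousOn_const).sub
          (((cX.mono hsub).sub continuousOn_const).mul continuousOn_const)) ?_ ?_⟩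
    · simpa using mul_nonneg (hY0 _ hs₀) (hsc t ht).2
    · simpa [hYy] using mul_nonneg (hU y ⟨hxy.le, le_rfl⟩) (hsc t ht).1
  have hanti : AntitoneOn σ (Icc 0 (π / 2)) := fun t ht t' ht' htt => by
    obtain ⟨k1, k2, -⟩ := hσ t' ht'
    refine (hσ t ht).2.2 _ k1 ?_
    rw [pb_rot _ _ t t', k2, zero_mul, zero_add]
    exact mul_nonneg (add_nonneg (mul_nonneg (hY0 _ (hsub k1)) (hsc t' ht').1)
      (mul_nonneg (hU _ (hsub k1)) (hsc t' ht').2))
      (hsc _ ⟨sub_nonneg.2 htt, by linarith [ht.1, ht'.2]⟩).1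
  obtain ⟨u, hu⟩ : ∃ u : ℝ → ℝ, u = fun t => (X (σ t) - X s₀) * cos t + Y (σ t) * sin t :=
    ⟨_, rfl⟩
  have hu1 : ∀ t ∈ Ioo 0 (π / 2), 0 ≤ u t ∧ X (σ t) - X s₀ = u t * cos t ∧
      Y (σ t) = u t * sin t := fun t ht => by
    have ht' := Ioo_subset_Icc_self ht
    obtain ⟨k1, k2, -⟩ := hσ t ht'
    rw [hu]
    refine ⟨add_nonneg (mul_nonneg (hU _ (hsub k1)) (hsc t ht').2)
      (mul_nonneg (hY0 _ (hsub k1)) (hsc t ht').1), ?_, ?_⟩
    · linear_combination (-sin t) * k2 - (X (σ t) - X s₀) * sin_sq_add_cos_sq t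
    · linear_combination cos t * k2 - Y (σ t) * sin_sq_add_cos_sq t
  obtain ⟨B₁, hB₁⟩ := isCompact_Icc.exists_bound_of_continuousOn (cX.sub
    (continuousOn_const (c := X s₀)))
  obtain ⟨B₂, hB₂⟩ := isCompact_Icc.exists_bound_of_continuousOn cY
  have hu2 : ∀ t ∈ Ioo 0 (π / 2), 0 ≤ u t ∧ u t ≤ B₁ + B₂ := fun t ht => by
    have ht' := Ioo_subset_Icc_self ht
    have k1 := hsub (hσ t ht').1
    refine ⟨(hu1 t ht).1, ?_⟩
    rw [hu]
    exact add_le_add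
      ((mul_le_of_le_one_right (hU _ k1) (cos_le_one t)).trans ((le_abs_self _).trans (hB₁ _ k1)))
      ((mul_le_of_le_one_right (hY0 _ k1) (sin_le_one t)).trans ((le_abs_self _).trans (hB₂ _ k1)))
  have hum : AEMeasurable u (volume.restrict (Ioo 0 (π / 2))) := by
    have mσ : AEMeasurable σ (volume.restrict (Ioo 0 (π / 2))) :=
      aemeasurable_restrict_of_antitoneOn measurableSet_Ioo (hanti.mono Ioo_subset_Icc_self)
    have hcl : Continuous fun r : ℝ => max x (min r y) := by fun_prop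
    have hcm : ∀ r : ℝ, max x (min r y) ∈ Icc x y := fun r =>
      ⟨le_max_left _ _, max_le hxy.le (min_le_right _ _)⟩
    have m1 := (cX.comp_continuous hcl hcm).measurable.comp_aemeasurable mσ
    have m2 := (cY.comp_continuous hcl hcm).measurable.comp_aemeasurable mσ
    refine (((m1.sub_const (X s₀)).mul continuous_cos.aemeasurable).add
      (m2.mul continuous_sin.aemeasurable)).congr
      (ae_restrict_of_forall_mem measurableSet_Ioo fun t ht => ?_)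
    have k1 := hsub (hσ t (Ioo_subset_Icc_self ht)).1
    simp [hu, min_eq_left k1.2, max_eq_right k1.1]
  have hA : (∫ r in x..y, r ^ a * trunc Θ (τ r)) = ∫ r in x..y, r ^ a * τ r := by
    refine intervalIntegral.integral_congr fun r hr => ?_
    rw [uIcc_of_le hxy.le] at hr
    simp only [trunc, max_eq_left (hτ0 r hr), min_eq_left (hlt r hr).1.le]
  rw [hA]
  have hpi : (0 : ℝ) ≤ π / 2 := by positivity
  refine h3 a (π / 2) c _ (B₁ + B₂) _ u ha hpi hG.hc hum hu2 (fun g hg hg0 hgc => ?_)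
    (intervalIntegral.integral_nonneg hxy.le fun r hr =>
      mul_nonneg (Real.rpow_pos_of_pos (hr0 r hr) a).le (hτ0 r hr))
    (h4 a x y (X s₀) (B₁ + B₂) τ u ha hx0 hxy.le hτ (fun r hr => ⟨hτ0 r hr, (hlt r hr).2⟩) hc0
      (fun r hr => by have := hU r hr; rw [hX] at this ⊢; exact sub_nonneg.1 this) hum hu2
      fun r hr θ hθ hθ' s hs t ht e1 e2 => ?_)
  · obtain ⟨v, w, v', w', hC, -⟩ := h1 a (π / 2) c g ha hpi hg hg0 hgc hG.le_m0
    have k := h2 s₀ y (π / 2) (fun r => X r - X s₀) Y X' Y' σ u g v w v' w' hs₀.2 hpi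
      (fun s hs => (dX s (hsub hs)).sub_const _) (fun s hs => dY s (hsub hs)) (cX'.mono hsub)
      (cY'.mono hsub) hYy hanti (fun t ht => (hσ t ht).1) hu1 hg hC
    simp only [cos_pi_div_two, sin_pi_div_two, sub_self, mul_zero, mul_one, zero_mul, zero_sub,
      sub_zero] at k
    have hsub' : Icc x s₀ ⊆ Icc x y := Icc_subset_Icc_right hs₀.2
    have i1 : IntervalIntegrable f volume x s₀ :=
      (hP.cf.mono hsub').intervalIntegrable_of_Icc hs₀.1
    have i2 : IntervalIntegrable f volume s₀ y :=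
      (hP.cf.mono hsub).intervalIntegrable_of_Icc hs₀.2
    have i3 : IntervalIntegrable Y' volume x s₀ :=
      (cY'.mono hsub').intervalIntegrable_of_Icc hs₀.1
    have k1 : (∫ s in s₀..y, √(X' s ^ 2 + Y' s ^ 2)) ≤ ∫ s in s₀..y, f s :=
      intervalIntegral.integral_mono_on_of_le_Ioo hs₀.2
        ((cS.mono hsub).intervalIntegrable_of_Icc hs₀.2) i2
        fun r hr => hsp r ⟨hs₀.1.trans_lt hr.1, hr.2⟩
    have k2 : (∫ s in x..s₀, Y' s) ≤ ∫ s in x..s₀, f s :=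
      intervalIntegral.integral_mono_on_of_le_Ioo hs₀.1 i3 i1 fun r hr =>
        (Real.le_sqrt_of_sq_le (by nlinarith [sq_nonneg (X' r)])).trans
          (hsp r ⟨hr.1, hr.2.trans_le hs₀.2⟩)
    rw [intervalIntegral.integral_eq_sub_of_hasDerivAt
      (fun r hr => dY r (hsub' (by rwa [uIcc_of_le hs₀.1] at hr))) i3, hYx] at k2
    rw [← intervalIntegral.integral_add_adjacent_intervals i1 i2]
    have k3 : v (π / 2) ≤ 1 := by
      nlinarith [hC.sq (π / 2) ⟨hpi, le_rfl⟩, sq_nonneg (w (π / 2))]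
    nlinarith [mul_le_mul_of_nonneg_left k3 (hY0 _ hs₀)]
  · have ht' := Ioo_subset_Icc_self ht
    have hr' := Ioo_subset_Icc_self hr
    obtain ⟨k1, -, k3⟩ := hσ t ht'
    have hθa : a * θ ≤ a * τ r := mul_le_mul_of_nonneg_left hθ'.le ha0.le
    have hθ0 : 0 ≤ a * θ := mul_nonneg ha0.le hθ.le
    have hle : r ≤ σ t := by
      rcases le_total r s₀ with h | h
      · exact h.trans k1.1
      refine k3 r ⟨h, hr.2.le⟩ ?_
      have l1 : s * sin t ≤ Y r := by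
        rw [← e2, hY]
        exact mul_le_mul_of_nonneg_left (sin_le_sin_of_le_of_le_pi_div_two
          (by linarith [pi_pos]) (hlt r hr').2.le hθa) (hρ r hr').le
      have l2 : X r ≤ X s₀ + s * cos t := by
        rw [← e1]
        conv_lhs => rw [hX]
        exact mul_le_mul_of_nonneg_left (cos_le_cos_of_nonneg_of_le_pi hθ0
          (by linarith [(hlt r hr').2, pi_pos]) hθa) (hρ r hr').le
      nlinarith [mul_le_mul_of_nonneg_right l1 (hsc t ht').2,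
        mul_le_mul_of_nonneg_right l2 (hsc t ht').1]
    obtain ⟨u0, u1, u2⟩ := hu1 t ht
    have q1 : (σ t ^ a / a) ^ 2 = X (σ t) ^ 2 + Y (σ t) ^ 2 := by
      rw [hX, hY]
      linear_combination (-(σ t ^ a / a) ^ 2) * sin_sq_add_cos_sq (a * τ (σ t))
    have q2 : (r ^ a / a) ^ 2 = (X s₀ + s * cos t) ^ 2 + (s * sin t) ^ 2 := by
      rw [← e1, ← e2]
      linear_combination (-(r ^ a / a) ^ 2) * sin_sq_add_cos_sq (a * θ)
    have q3 : (r ^ a / a) ^ 2 ≤ (σ t ^ a / a) ^ 2 :=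
      pow_le_pow_left₀ (hρ r hr').le (div_le_div_of_nonneg_right
        (Real.rpow_le_rpow (hr0 r hr').le hle ha0.le) ha0.le) 2
    rw [q1, q2, u2, show X (σ t) = X s₀ + u t * cos t by linarith] at q3
    have q4 : s ^ 2 + 2 * (X s₀ * cos t) * s ≤ u t ^ 2 + 2 * (X s₀ * cos t) * u t := by
      have := sin_sq_add_cos_sq t
      have e3 : s ^ 2 = (s * sin t) ^ 2 + (s * cos t) ^ 2 := by linear_combination (-s ^ 2) * this
      have e4 : u t ^ 2 = (u t * sin t) ^ 2 + (u t * cos t) ^ 2 := by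
        linear_combination (-u t ^ 2) * this
      rw [e3, e4]
      linarith
    by_contra hlt'
    have := mul_nonneg hc0 (hsc t ht').2
    nlinarith [not_le.1 hlt']

end Pool.Agent.MP_d56274_gt
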