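import Mathlib
import Pool.Agent.MP_d56274_gt.Spec

/-! POLAR (note 5): area of a translated bubble in polar coordinates about its corner. -/

namespace Pool.Agent.MP_d56274_gt

open MeasureTheory Set Real Filter Topology

/-- the conformal map with modulus r ^ a / a and argument a θ -/
noncomputable def polPhi (a : ℝ) (z : ℝ × ℝ) : ℝ × ℝ :=
  (z.1 ^ a / a * cos (a * z.2), z.1 ^ a / a * sin (a * z.2))

noncomputable def polPhi' (a : ℝ) (z : ℝ × ℝ) : ℝ × ℝ →L[ℝ] ℝ × ℝ :=
  (Matrix.toLin (.finTwoProd ℝ) (.finTwoProd ℝ)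
    !![z.1 ^ (a - 1) * cos (a * z.2), -(z.1 ^ a * sin (a * z.2));
      z.1 ^ (a - 1) * sin (a * z.2), z.1 ^ a * cos (a * z.2)]).toContinuousLinearMap

lemma pol_det (a : ℝ) (z : ℝ × ℝ) : (polPhi' a z).det = z.1 ^ (a - 1) * z.1 ^ a := by
  unfold polPhi'
  simp only [LinearMap.det_toContinuousLinearMap, LinearMap.det_toLin, Matrix.det_fin_two_of]
  have := sin_sq_add_cos_sq (a * z.2)
  linear_combination (z.1 ^ (a - 1) * z.1 ^ a) * this

lemma pol_hasFDeriv {a : ℝ} (ha : 1 < a) (z : ℝ × ℝ) (hz : 0 < z.1) :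
    HasFDerivAt (polPhi a) (polPhi' a z) z := by
  have ha0 : a ≠ 0 := by positivity
  have h1 : HasDerivAt (fun r : ℝ => r ^ a / a) (z.1 ^ (a - 1)) z.1 := by
    refine ((Real.hasDerivAt_rpow_const (p := a) (Or.inl hz.ne')).div_const a).congr_deriv ?_
    field_simp
  have h2 : HasDerivAt (fun t : ℝ => cos (a * t)) (-(a * sin (a * z.2))) z.2 := by
    refine (((hasDerivAt_id z.2).const_mul a).cos).congr_deriv ?_
    simp [mul_comm]
  have h3 : HasDerivAt (fun t : ℝ => sin (a * t)) (a * cos (a * z.2)) z.2 := by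
    refine (((hasDerivAt_id z.2).const_mul a).sin).congr_deriv ?_
    simp [mul_comm]
  have k1 := h1.comp_hasFDerivAt z (hasFDerivAt_fst (𝕜 := ℝ) (p := z))
  have k2 := h2.comp_hasFDerivAt z (hasFDerivAt_snd (𝕜 := ℝ) (p := z))
  have k3 := h3.comp_hasFDerivAt z (hasFDerivAt_snd (𝕜 := ℝ) (p := z))
  have k := (k1.mul k2).prodMk (k1.mul k3)
  refine HasFDerivAt.congr_fderiv k ?_
  unfold polPhi'
  rw [Matrix.toLin_finTwoProd_toContinuousLinearMap]
  ext <;> simp <;> field_simp

lemma pol_norm {a : ℝ} (ha : 1 < a) (z : ℝ × ℝ) (hz : 0 < z.1) :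
    √((polPhi a z).1 ^ 2 + (polPhi a z).2 ^ 2) = z.1 ^ a / a := by
  have h0 : 0 ≤ z.1 ^ a / a := by positivity
  rw [← sqrt_sq h0]
  congr 1
  have := sin_sq_add_cos_sq (a * z.2)
  simp only [polPhi]
  linear_combination ((z.1 ^ a / a) ^ 2) * this

lemma pol_inj {a : ℝ} (ha : 1 < a) :
    InjOn (polPhi a) {z | 0 < z.1 ∧ 0 < z.2 ∧ a * z.2 < π / 2} := by
  intro z hz z' hz' h
  have ha0 : 0 < a := by positivity
  have h1 : z.1 ^ a / a = z'.1 ^ a / a := by
    rw [← pol_norm ha z hz.1, ← pol_norm ha z' hz'.1, h]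
  have h2 : z.1 = z'.1 := by
    have : z.1 ^ a = z'.1 ^ a := by
      field_simp at h1; exact h1
    exact (Real.rpow_left_inj hz.1.le hz'.1.le ha0.ne').mp this
  have h3 : cos (a * z.2) = cos (a * z'.2) := by
    have h4 := congrArg Prod.fst h
    simp only [polPhi] at h4
    rw [h1] at h4
    have hp : 0 < z'.1 ^ a / a := by have := hz'.1; positivity
    exact mul_left_cancel₀ hp.ne' h4
  have hpi := pi_pos
  have h5 : a * z.2 = a * z'.2 :=
    injOn_cos ⟨(mul_pos ha0 hz.2.1).le, by linarith [hz.2.2]⟩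
      ⟨(mul_pos ha0 hz'.2.1).le, by linarith [hz'.2.2]⟩ h3
  exact Prod.ext h2 (mul_left_cancel₀ ha0.ne' h5)

/-- density in the image plane -/
noncomputable def polH (a : ℝ) (w : ℝ × ℝ) : ENNReal :=
  ENNReal.ofReal ((a * √(w.1 ^ 2 + w.2 ^ 2)) ^ ((1 - a) / a))

lemma pol_step1 {a : ℝ} (ha : 1 < a) {U : Set (ℝ × ℝ)} (hU : MeasurableSet U)
    (hs : U ⊆ {z | 0 < z.1 ∧ 0 < z.2 ∧ a * z.2 < π / 2}) :
    (∫⁻ z in U, ENNReal.ofReal (z.1 ^ a)) = ∫⁻ w in polPhi a '' U, polH a w := by
  have ha0 : 0 < a := by positivity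
  rw [lintegral_image_eq_lintegral_abs_det_fderiv_mul volume hU
    (fun z hz => (pol_hasFDeriv ha z (hs hz).1).hasFDerivWithinAt) ((pol_inj ha).mono hs)]
  refine setLIntegral_congr_fun hU fun z hz => ?_
  have hz1 := (hs hz).1
  simp only [polH]
  rw [pol_det, pol_norm ha z hz1, abs_of_pos (by positivity), ← ENNReal.ofReal_mul (by positivity)]
  congr 1
  rw [mul_div_cancel₀ _ ha0.ne', ← Real.rpow_mul hz1.le, mul_div_cancel₀ _ ha0.ne',
    ← Real.rpow_add hz1, ← Real.rpow_add hz1]
  congr 1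
  ring

lemma pol_step2 {a x y : ℝ} (hx : 0 < x) (hxy : x ≤ y) {τ : ℝ → ℝ} (hτ : Continuous τ)
    (h0 : ∀ r ∈ Icc x y, 0 ≤ τ r) :
    ENNReal.ofReal (∫ r in x..y, r ^ a * τ r)
      = ∫⁻ z in {z : ℝ × ℝ | z.1 ∈ Ioo x y ∧ z.2 ∈ Ioo 0 (τ z.1)}, ENNReal.ofReal (z.1 ^ a) := by
  have hU : MeasurableSet {z : ℝ × ℝ | z.1 ∈ Ioo x y ∧ z.2 ∈ Ioo 0 (τ z.1)} :=
    measurableSet_regionBetween (f := fun _ => (0 : ℝ)) measurable_const hτ.measurable
      measurableSet_Ioo
  have hc : ContinuousOn (fun r : ℝ => r ^ a * τ r) (Icc x y) :=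
    (continuousOn_id.rpow_const fun r hr => Or.inl (hx.trans_le hr.1).ne').mul hτ.continuousOn
  rw [intervalIntegral.integral_of_le hxy, integral_Ioc_eq_integral_Ioo,
    ofReal_integral_eq_lintegral_ofReal (hc.integrableOn_Icc.mono_set Ioo_subset_Icc_self)
      ((ae_restrict_iff' measurableSet_Ioo).mpr (Eventually.of_forall fun r hr =>
        mul_nonneg (Real.rpow_nonneg (hx.trans hr.1).le _) (h0 r (Ioo_subset_Icc_self hr)))),
    ← lintegral_indicator hU, ← lintegral_indicator measurableSet_Ioo, Measure.volume_eq_prod,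
    lintegral_prod _ (Measurable.indicator (by fun_prop) hU).aemeasurable]
  congr 1
  ext r
  by_cases hr : r ∈ Ioo x y
  · have : (fun θ : ℝ => indicator {z : ℝ × ℝ | z.1 ∈ Ioo x y ∧ z.2 ∈ Ioo 0 (τ z.1)}
        (fun z => ENNReal.ofReal (z.1 ^ a)) (r, θ))
        = indicator (Ioo 0 (τ r)) (fun _ => ENNReal.ofReal (r ^ a)) := by
      ext θ
      by_cases hθ : θ ∈ Ioo 0 (τ r)
      · have hm : (r, θ) ∈ {z : ℝ × ℝ | z.1 ∈ Ioo x y ∧ z.2 ∈ Ioo 0 (τ z.1)} := ⟨hr, hθ⟩
        rw [indicator_of_mem hθ, indicator_of_mem hm]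
      · rw [indicator_of_notMem hθ, indicator_of_notMem (fun h => hθ h.2)]
    rw [this, indicator_of_mem hr, lintegral_indicator measurableSet_Ioo, setLIntegral_const,
      Real.volume_Ioo, sub_zero, ENNReal.ofReal_mul (Real.rpow_nonneg (hx.trans hr.1).le _)]
  · have : (fun θ : ℝ => indicator {z : ℝ × ℝ | z.1 ∈ Ioo x y ∧ z.2 ∈ Ioo 0 (τ z.1)}
        (fun z => ENNReal.ofReal (z.1 ^ a)) (r, θ)) = fun _ => 0 := by
      ext θ
      rw [indicator_of_notMem (fun h => hr h.1)]
    rw [this, indicator_of_notMem hr, lintegral_zero]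

lemma pol_inner {a v : ℝ} (ha : 1 < a) (hv : 0 ≤ v) :
    (∫⁻ s in Ioc 0 v, ENNReal.ofReal (a ^ ((1 - a) / a) * s ^ (1 / a)))
      = ENNReal.ofReal (a ^ (1 / a) / (a + 1) * v ^ ((a + 1) / a)) := by
  have ha0 : 0 < a := by positivity
  have hc : Continuous fun s : ℝ => a ^ ((1 - a) / a) * s ^ (1 / a) :=
    continuous_const.mul (Real.continuous_rpow_const (by positivity))
  rw [← ofReal_integral_eq_lintegral_ofReal
      (hc.continuousOn.integrableOn_Icc.mono_set Ioc_subset_Icc_self)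
      ((ae_restrict_iff' measurableSet_Ioc).mpr (Eventually.of_forall fun s hs => by
        have := hs.1
        positivity)),
    ← intervalIntegral.integral_of_le hv, intervalIntegral.integral_const_mul,
    integral_rpow (Or.inl (by have : 0 < 1 / a := by positivity
                              linarith))]
  congr 1
  have e1 : 1 / a + 1 = (a + 1) / a := by field_simp; ring
  have e2 : a ^ (1 / a) = a ^ ((1 - a) / a) * a := by
    rw [← Real.rpow_add_one ha0.ne']
    congr 1
    field_simp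
    ring
  rw [e1, Real.zero_rpow (by positivity), e2]
  field_simp
  ring

lemma pol_step3 {a c₀ : ℝ} (ha : 1 < a) (hc : 0 ≤ c₀) {E : Set (ℝ × ℝ)} (hE : MeasurableSet E)
    (u : ℝ → ℝ) (hu : ∀ t ∈ Ioo 0 (π / 2), 0 ≤ u t)
    (h : ∀ s t, 0 < s → t ∈ Ioo (-π) π → (s * cos t + c₀, s * sin t) ∈ E →
      t ∈ Ioo 0 (π / 2) ∧ s ≤ u t) :
    (∫⁻ w in E, polH a w) ≤
      ∫⁻ t in Ioo 0 (π / 2), ENNReal.ofReal (a ^ (1 / a) / (a + 1) * u t ^ ((a + 1) / a)) := by
  have ha0 : 0 < a := by positivity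
  set W : Set (ℝ × ℝ) := polarCoord.target ∩ {p | polarCoord.symm p + (c₀, 0) ∈ E} with hW
  have hWm : MeasurableSet W :=
    polarCoord.open_target.measurableSet.inter
      ((continuous_polarCoord_symm.add continuous_const).measurable hE)
  have hWE : ∀ p ∈ W, 0 < p.1 ∧ p.2 ∈ Ioo 0 (π / 2) ∧ p.1 ≤ u p.2 := by
    intro p hp
    have h1 : 0 < p.1 := hp.1.1
    refine ⟨h1, h p.1 p.2 h1 hp.1.2 ?_⟩
    have := hp.2
    simpa using this
  set k : ℝ × ℝ → ENNReal := fun p => ENNReal.ofReal (a ^ ((1 - a) / a) * p.1 ^ (1 / a)) with hk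
  have hkm : Measurable k := by rw [hk]; fun_prop
  calc (∫⁻ w in E, polH a w) = ∫⁻ w, E.indicator (polH a) w := (lintegral_indicator hE _).symm
    _ = ∫⁻ w, E.indicator (polH a) (w + (c₀, 0)) := (lintegral_add_right_eq_self _ _).symm
    _ = ∫⁻ p in polarCoord.target,
          ENNReal.ofReal p.1 • E.indicator (polH a) (polarCoord.symm p + (c₀, 0)) :=
        (lintegral_comp_polarCoord_symm (fun w => E.indicator (polH a) (w + (c₀, 0)))).symm
    _ ≤ ∫⁻ p, W.indicator k p := by
        rw [← lintegral_indicator polarCoord.open_target.measurableSet]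
        refine lintegral_mono fun p => ?_
        by_cases hp : p ∈ polarCoord.target
        · rw [indicator_of_mem hp]
          by_cases hq : polarCoord.symm p + (c₀, 0) ∈ E
          · have hpW : p ∈ W := ⟨hp, hq⟩
            obtain ⟨h1, h2, -⟩ := hWE p hpW
            rw [indicator_of_mem hq, indicator_of_mem hpW, smul_eq_mul, polH,
              ← ENNReal.ofReal_mul h1.le]
            refine ENNReal.ofReal_le_ofReal ?_
            have hcos : 0 ≤ cos p.2 :=
              cos_nonneg_of_mem_Icc ⟨by linarith [h2.1, pi_pos], h2.2.le⟩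
            have hle : p.1 ≤ √((polarCoord.symm p + (c₀, 0)).1 ^ 2
                + (polarCoord.symm p + (c₀, 0)).2 ^ 2) := by
              apply Real.le_sqrt_of_sq_le
              simp only [polarCoord_symm_apply, Prod.fst_add, Prod.snd_add, add_zero]
              have h3 := sin_sq_add_cos_sq p.2
              have h4 : 0 ≤ p.1 * cos p.2 * c₀ := by positivity
              nlinarith [sq_nonneg c₀]
            have hexp : (1 - a) / a ≤ 0 := div_nonpos_of_nonpos_of_nonneg (by linarith) ha0.le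
            calc p.1 * (a * √((polarCoord.symm p + (c₀, 0)).1 ^ 2
                  + (polarCoord.symm p + (c₀, 0)).2 ^ 2)) ^ ((1 - a) / a)
                ≤ p.1 * (a * p.1) ^ ((1 - a) / a) :=
                  mul_le_mul_of_nonneg_left (Real.rpow_le_rpow_of_nonpos (by positivity)
                    (mul_le_mul_of_nonneg_left hle ha0.le) hexp) h1.le
              _ = a ^ ((1 - a) / a) * p.1 ^ (1 / a) := by
                  have e2 : p.1 ^ (1 / a) = p.1 ^ ((1 - a) / a) * p.1 := by
                    rw [← Real.rpow_add_one h1.ne']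
                    congr 1
                    field_simp
                    ring
                  rw [Real.mul_rpow ha0.le h1.le, e2]
                  ring
          · rw [indicator_of_notMem hq, smul_zero]
            exact zero_le
        · rw [indicator_of_notMem hp]
          exact zero_le
    _ = ∫⁻ t, ∫⁻ s, W.indicator k (s, t) := by
        rw [Measure.volume_eq_prod, lintegral_prod_symm _ (hkm.indicator hWm).aemeasurable]
    _ ≤ _ := by
        rw [← lintegral_indicator measurableSet_Ioo]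
        refine lintegral_mono fun t => ?_
        by_cases ht : t ∈ Ioo 0 (π / 2)
        · rw [indicator_of_mem ht, ← pol_inner ha (hu t ht),
            ← lintegral_indicator measurableSet_Ioc]
          refine lintegral_mono fun s => ?_
          by_cases hs : (s, t) ∈ W
          · obtain ⟨h1, -, h3⟩ := hWE _ hs
            rw [indicator_of_mem hs, indicator_of_mem (show s ∈ Ioc 0 (u t) from ⟨h1, h3⟩)]
          · rw [indicator_of_notMem hs]
            exact zero_le
        · rw [indicator_of_notMem ht]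
          have : (fun s => W.indicator k (s, t)) = fun _ => 0 := by
            ext s
            rw [indicator_of_notMem (fun hs => ht (hWE _ hs).2.1)]
          rw [this, lintegral_zero]

theorem polar : PolarStmt := by
  intro a x y c₀ B τ u ha hx hxy hτ hτb hc hcτ hum hub hsu
  have ha0 : 0 < a := by positivity
  have hpi := pi_pos
  set τe : ℝ → ℝ := fun r => τ (max x (min y r)) with hτe
  have hclip : ∀ r, max x (min y r) ∈ Icc x y := fun r =>
    ⟨le_max_left _ _, max_le hxy (min_le_left _ _)⟩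
  have hτec : Continuous τe := hτ.comp_continuous (by fun_prop) hclip
  have hτeq : ∀ r ∈ Icc x y, τe r = τ r := fun r hr => by
    simp only [hτe, min_eq_right hr.2, max_eq_right hr.1]
  have e0 : (∫ r in x..y, r ^ a * τ r) = ∫ r in x..y, r ^ a * τe r := by
    refine intervalIntegral.integral_congr fun r hr => ?_
    rw [uIcc_of_le hxy] at hr
    simp only [hτeq r hr]
  set U : Set (ℝ × ℝ) := {z : ℝ × ℝ | z.1 ∈ Ioo x y ∧ z.2 ∈ Ioo 0 (τe z.1)} with hUdef
  have hU : MeasurableSet U :=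
    measurableSet_regionBetween (f := fun _ => (0 : ℝ)) measurable_const hτec.measurable
      measurableSet_Ioo
  have hUτ : ∀ z ∈ U, z.2 < τ z.1 := fun z hz => by
    rw [← hτeq _ (Ioo_subset_Icc_self hz.1)]; exact hz.2.2
  have hs : U ⊆ {z | 0 < z.1 ∧ 0 < z.2 ∧ a * z.2 < π / 2} := fun z hz =>
    ⟨hx.trans hz.1.1, hz.2.1, (mul_lt_mul_of_pos_left (hUτ z hz) ha0).trans
      (hτb _ (Ioo_subset_Icc_self hz.1)).2⟩
  have hE : MeasurableSet (polPhi a '' U) :=
    measurable_image_of_fderivWithin hU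
      (fun z hz => (pol_hasFDeriv ha z (hs hz).1).hasFDerivWithinAt) ((pol_inj ha).mono hs)
  have h3 := pol_step3 ha hc hE u (fun t ht => (hub t ht).1) (by
    rintro s t hs0 ht ⟨z, hz, hzE⟩
    obtain ⟨z1, z2, z3⟩ := hs hz
    have hzI := Ioo_subset_Icc_self hz.1
    have q1 : z.1 ^ a / a * cos (a * z.2) = s * cos t + c₀ := congrArg Prod.fst hzE
    have q2 : z.1 ^ a / a * sin (a * z.2) = s * sin t := congrArg Prod.snd hzE
    have hρ : 0 < z.1 ^ a / a := by positivity
    have hsin : 0 < sin t := by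
      have : 0 < sin (a * z.2) := sin_pos_of_pos_of_lt_pi (mul_pos ha0 z2) (by linarith)
      have h4 : 0 < s * sin t := q2 ▸ mul_pos hρ this
      exact (mul_pos_iff_of_pos_left hs0).mp h4
    have hcos : 0 < cos t := by
      have h5 : cos (a * τ z.1) < cos (a * z.2) :=
        cos_lt_cos_of_nonneg_of_le_pi (mul_pos ha0 z2).le (by linarith [(hτb _ hzI).2])
          (mul_lt_mul_of_pos_left (hUτ z hz) ha0)
      have h6 := mul_lt_mul_of_pos_left h5 hρ
      have h4 : 0 < s * cos t := by linarith [hcτ _ hzI]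
      exact (mul_pos_iff_of_pos_left hs0).mp h4
    have ht' : t ∈ Ioo 0 (π / 2) := by
      constructor
      · by_contra hneg
        exact absurd (sin_nonpos_of_nonpos_of_neg_pi_le (not_lt.mp hneg) ht.1.le) (not_le.mpr hsin)
      · by_contra hneg
        exact absurd (cos_nonpos_of_pi_div_two_le_of_le (not_lt.mp hneg) (by linarith [ht.2]))
          (not_le.mpr hcos)
    exact ⟨ht', hsu z.1 hz.1 z.2 z2 (hUτ z hz) s hs0 t ht' (by rw [q1]; ring) q2⟩)
  have h2 := pol_step2 (a := a) hx hxy hτec (fun r hr => by rw [hτeq r hr]; exact (hτb r hr).1)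
  have h1 := pol_step1 ha hU hs
  have hK : 0 < a ^ (1 / a) / (a + 1) := by positivity
  have hae : ∀ᵐ t ∂(volume.restrict (Ioo 0 (π / 2))), t ∈ Ioo 0 (π / 2) :=
    ae_restrict_mem measurableSet_Ioo
  have hint : IntegrableOn (fun t => u t ^ ((a + 1) / a)) (Ioo 0 (π / 2)) := by
    refine Integrable.of_bound (hum.pow_const _).aestronglyMeasurable (B ^ ((a + 1) / a)) ?_
    filter_upwards [hae] with t ht
    rw [Real.norm_of_nonneg (Real.rpow_nonneg (hub t ht).1 _)]
    exact Real.rpow_le_rpow (hub t ht).1 (hub t ht).2 (by positivity)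
  have hnn : 0 ≤ᵐ[volume.restrict (Ioo 0 (π / 2))]
      fun t => a ^ (1 / a) / (a + 1) * u t ^ ((a + 1) / a) := by
    filter_upwards [hae] with t ht
    exact mul_nonneg hK.le (Real.rpow_nonneg (hub t ht).1 _)
  rw [← ofReal_integral_eq_lintegral_ofReal (hint.const_mul _) hnn, ← h1, ← h2,
    ENNReal.ofReal_le_ofReal_iff (integral_nonneg_of_ae hnn), integral_const_mul] at h3
  rw [e0, intervalIntegral.integral_of_le (by positivity : (0 : ℝ) ≤ π / 2),
    integral_Ioc_eq_integral_Ioo]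
  exact h3

end Pool.Agent.MP_d56274_gt
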