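import Pool.Agent.MP_d56274_gt.Spec

/-! The two roots of `kf a r = kk x`. -/

namespace Pool.Agent.MP_d56274_gt

open MeasureTheory Set Real Filter Topology

variable {a : ℝ}

theorem roots_der (a : ℝ) {r : ℝ} (hr : 0 < r) :
    HasDerivAt (kf a) (a * (1 - r ^ (-a - 1)) / (a + 1)) r := by
  have := (((hasDerivAt_id r).const_mul a).add
    (Real.hasDerivAt_rpow_const (x := r) (p := -a) (Or.inl hr.ne'))).div_const (a + 1)
  exact this.congr_deriv (by ring)

theorem roots_cont (a : ℝ) : ContinuousOn (kf a) (Ioi 0) := fun _ hr =>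
  (roots_der a hr).continuousAt.continuousWithinAt

theorem roots_mono (ha : 1 < a) : StrictMonoOn (kf a) (Ici 1) := by
  refine strictMonoOn_of_deriv_pos (convex_Ici _)
    ((roots_cont a).mono fun x hx => lt_of_lt_of_le one_pos (mem_Ici.1 hx)) fun x hx => ?_
  rw [interior_Ici] at hx
  have hx1 : 1 < x := hx
  rw [(roots_der a (by linarith)).deriv]
  have := Real.rpow_lt_one_of_one_lt_of_neg hx1 (by linarith : -a - 1 < 0)
  exact div_pos (mul_pos (by linarith) (by linarith)) (by linarith)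

theorem roots_anti (ha : 1 < a) : StrictAntiOn (kf a) (Ioc 0 1) := by
  refine strictAntiOn_of_deriv_neg (convex_Ioc _ _)
    ((roots_cont a).mono fun x hx => hx.1) fun x hx => ?_
  rw [interior_Ioc] at hx
  rw [(roots_der a hx.1).deriv]
  have := Real.one_lt_rpow_of_pos_of_lt_one_of_neg hx.1 hx.2 (by linarith : -a - 1 < 0)
  exact div_neg_of_neg_of_pos (mul_neg_of_pos_of_neg (by linarith) (by linarith)) (by linarith)

theorem roots_one (ha : 1 < a) : kf a 1 = 1 := by
  unfold kf
  rw [Real.one_rpow, mul_one, div_self (by linarith)]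

theorem roots_kk_ge (x : ℝ) : 1 ≤ kk x := Real.le_sqrt_of_sq_le (by nlinarith)

theorem roots_kk_sq (x : ℝ) : kk x ^ 2 = 1 + x ^ 2 := Real.sq_sqrt (by positivity)

theorem roots_kk_cont : Continuous kk := by unfold kk; fun_prop

theorem roots_ex (ha : 1 < a) {k : ℝ} (hk : 1 ≤ k) :
    ∃ P Q, 1 ≤ P ∧ 0 < Q ∧ Q ≤ 1 ∧ kf a P = k ∧ kf a Q = k ∧
      {r : ℝ | 0 < r ∧ kf a r ≤ k} = Icc Q P := by
  have ha0 : 0 < a := by linarith
  have hb : 1 ≤ (a + 1) * k := by nlinarith
  have h1 : 1 ≤ (a + 1) * k := hb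
  obtain ⟨P, hP, eP⟩ : k ∈ kf a '' Icc 1 ((a + 1) * k) := by
    refine intermediate_value_Icc h1 ((roots_cont a).mono fun x hx => lt_of_lt_of_le one_pos hx.1)
      ⟨by rw [roots_one ha]; exact hk, ?_⟩
    unfold kf
    rw [le_div_iff₀ (by linarith)]
    have : 0 < ((a + 1) * k) ^ (-a) := by positivity
    nlinarith
  have hq0 : 0 < ((a + 1) * k) ^ (-1 / a) := by positivity
  have hq1 : ((a + 1) * k) ^ (-1 / a) ≤ 1 :=
    Real.rpow_le_one_of_one_le_of_nonpos hb (div_nonpos_of_nonpos_of_nonneg (by norm_num) ha0.le)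
  obtain ⟨Q, hQ, eQ⟩ : k ∈ kf a '' Icc (((a + 1) * k) ^ (-1 / a)) 1 := by
    refine intermediate_value_Icc' hq1 ((roots_cont a).mono fun x hx => lt_of_lt_of_le hq0 hx.1)
      ⟨by rw [roots_one ha]; exact hk, ?_⟩
    unfold kf
    rw [le_div_iff₀ (by linarith), ← Real.rpow_mul (by positivity),
      show -1 / a * -a = 1 by field_simp, Real.rpow_one]
    nlinarith [mul_pos ha0 hq0]
  have hQ0 : 0 < Q := lt_of_lt_of_le hq0 hQ.1
  refine ⟨P, Q, hP.1, hQ0, hQ.2, eP, eQ, ?_⟩
  ext r
  constructor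
  · rintro ⟨h0, h⟩
    constructor
    · by_contra hc
      have hc := not_le.1 hc
      have := roots_anti ha ⟨h0, hc.le.trans hQ.2⟩ ⟨hQ0, hQ.2⟩ hc
      linarith
    · by_contra hc
      have hc := not_le.1 hc
      have := roots_mono ha hP.1 (hP.1.trans hc.le) hc
      linarith
  · rintro ⟨h0, h⟩
    refine ⟨lt_of_lt_of_le hQ0 h0, ?_⟩
    rcases le_total r 1 with h' | h'
    · rw [← eQ]; exact (roots_anti ha).antitoneOn ⟨hQ0, hQ.2⟩ ⟨lt_of_lt_of_le hQ0 h0, h'⟩ h0
    · rw [← eP]; exact (roots_mono ha).monotoneOn h' hP.1 h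

theorem roots_basic (ha : 1 < a) (x : ℝ) :
    1 ≤ rp a x ∧ 0 < rm a x ∧ rm a x ≤ 1 ∧ kf a (rp a x) = kk x ∧ kf a (rm a x) = kk x := by
  obtain ⟨P, Q, h1, h2, h3, h4, h5, h6⟩ := roots_ex ha (roots_kk_ge x)
  have e1 : rp a x = P := by rw [rp, h6, csSup_Icc (h3.trans h1)]
  have e2 : rm a x = Q := by rw [rm, h6, csInf_Icc (h3.trans h1)]
  rw [e1, e2]
  exact ⟨h1, h2, h3, h4, h5⟩

theorem roots_lt_iff (ha : 1 < a) (x r : ℝ) (hr : 0 < r) :
    kf a r < kk x ↔ rm a x < r ∧ r < rp a x := by
  obtain ⟨h1, h2, h3, h4, h5⟩ := roots_basic ha x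
  constructor
  · intro h
    constructor
    · by_contra hc
      have hc := not_lt.1 hc
      have := (roots_anti ha).antitoneOn ⟨hr, hc.trans h3⟩ ⟨h2, h3⟩ hc
      linarith
    · by_contra hc
      have hc := not_lt.1 hc
      have := (roots_mono ha).monotoneOn h1 (h1.trans hc) hc
      linarith
  · rintro ⟨b1, b2⟩
    rcases le_total r 1 with h' | h'
    · rw [← h5]; exact roots_anti ha ⟨h2, h3⟩ ⟨hr, h'⟩ b1
    · rw [← h4]; exact roots_mono ha h' h1 b2

theorem roots_rp_cont (ha : 1 < a) : Continuous (rp a) := by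
  refine continuous_iff_continuousAt.2 fun x => tendsto_order.2 ⟨fun l hl => ?_, fun u hu => ?_⟩
  · rcases lt_or_ge l 1 with h | h
    · exact Eventually.of_forall fun y => h.trans_le (roots_basic ha y).1
    · have h1 := roots_mono ha h (roots_basic ha x).1 hl
      rw [(roots_basic ha x).2.2.2.1] at h1
      filter_upwards [continuousAt_const.eventually_lt roots_kk_cont.continuousAt h1] with y hy
      exact ((roots_lt_iff ha y l (by linarith)).1 hy).2
  · have h0 := (roots_basic ha x).1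
    have h1 := roots_mono ha h0 (h0.trans hu.le) hu
    rw [(roots_basic ha x).2.2.2.1] at h1
    filter_upwards [roots_kk_cont.continuousAt.eventually_lt continuousAt_const h1] with y hy
    by_contra hc
    have := (roots_mono ha).monotoneOn (h0.trans hu.le) (roots_basic ha y).1 (not_lt.1 hc)
    rw [(roots_basic ha y).2.2.2.1] at this
    linarith

theorem roots_rm_cont (ha : 1 < a) : Continuous (rm a) := by
  refine continuous_iff_continuousAt.2 fun x => tendsto_order.2 ⟨fun l hl => ?_, fun u hu => ?_⟩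
  · rcases le_or_gt l 0 with h | h
    · exact Eventually.of_forall fun y => h.trans_lt (roots_basic ha y).2.1
    · obtain ⟨-, b2, b3, -, b5⟩ := roots_basic ha x
      have h1 := roots_anti ha ⟨h, hl.le.trans b3⟩ ⟨b2, b3⟩ hl
      rw [b5] at h1
      filter_upwards [roots_kk_cont.continuousAt.eventually_lt continuousAt_const h1] with y hy
      by_contra hc
      obtain ⟨-, c2, c3, -, c5⟩ := roots_basic ha y
      have := (roots_anti ha).antitoneOn ⟨c2, c3⟩ ⟨h, hl.le.trans b3⟩ (not_lt.1 hc)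
      rw [c5] at this
      linarith
  · rcases lt_or_ge 1 u with h | h
    · exact Eventually.of_forall fun y => (roots_basic ha y).2.2.1.trans_lt h
    · obtain ⟨-, b2, b3, -, b5⟩ := roots_basic ha x
      have h1 := roots_anti ha ⟨b2, b3⟩ ⟨b2.trans hu, h⟩ hu
      rw [b5] at h1
      filter_upwards [continuousAt_const.eventually_lt roots_kk_cont.continuousAt h1] with y hy
      exact ((roots_lt_iff ha y u (b2.trans hu)).1 hy).1

theorem roots_inv {g : ℝ → ℝ} {x d : ℝ} (hx : 0 < x) (hg : Continuous g) (h0 : 0 < g x)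
    (he : ∀ y, kf a (g y) = kk y) (hd : a * (1 - g x ^ (-a - 1)) / (a + 1) = d) (hd0 : d ≠ 0) :
    HasDerivAt g (x / (kk x * d)) x := by
  have hk := roots_kk_ge x
  have h1 : kf a (g x) ^ 2 - 1 = x ^ 2 := by rw [he, roots_kk_sq]; ring
  have h2 := (((roots_der a h0).pow 2).sub_const 1).sqrt
    (by simp only [Pi.pow_apply]; rw [h1]; positivity)
  have h3 : HasDerivAt (fun r => √(kf a r ^ 2 - 1)) (kk x * d / x) (g x) := by
    refine h2.congr_deriv ?_
    change _ / (2 * √(kf a (g x) ^ 2 - 1)) = _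
    rw [h1, Real.sqrt_sq hx.le, hd, he]
    field_simp
    norm_num
  have h4 := HasDerivAt.of_local_left_inverse hg.continuousAt h3
    (div_ne_zero (mul_ne_zero (by linarith) hd0) hx.ne') (by
      filter_upwards [Ioi_mem_nhds hx] with y hy
      rw [he, roots_kk_sq, show 1 + y ^ 2 - 1 = y ^ 2 by ring, Real.sqrt_sq (le_of_lt hy)])
  rwa [inv_div] at h4

theorem roots : RootsStmt := by
  intro a ha
  have ha0 : 0 < a := by linarith
  have k0 : kk 0 = 1 := by simp [kk]
  refine ⟨roots_rp_cont ha, roots_rm_cont ha, ?_, ?_, roots_basic ha, roots_lt_iff ha,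
    fun x hx => ?_⟩
  · obtain ⟨h1, -, -, h4, -⟩ := roots_basic ha 0
    exact (roots_mono ha).injOn h1 self_mem_Ici (by rw [h4, k0, roots_one ha])
  · obtain ⟨-, h2, h3, -, h5⟩ := roots_basic ha 0
    exact (roots_anti ha).injOn ⟨h2, h3⟩ ⟨one_pos, le_rfl⟩ (by rw [h5, k0, roots_one ha])
  obtain ⟨h1, h2, h3, h4, h5⟩ := roots_basic ha x
  have hk : 1 < kk x := Real.lt_sqrt_of_sq_lt (by nlinarith)
  have hk0 : 0 < kk x := by linarith
  obtain ⟨q1, p1⟩ := (roots_lt_iff ha x 1 one_pos).1 (by rw [roots_one ha]; exact hk)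
  have p0 : 0 < rp a x := by linarith
  have eP : rp a x ^ (-a) = kk x * (1 - al a x) := by
    unfold kf at h4
    rw [div_eq_iff (by linarith)] at h4
    unfold al
    field_simp
    linarith
  have eQ : rm a x ^ (-a) = kk x * (1 + be a x) := by
    unfold kf at h5
    rw [div_eq_iff (by linarith)] at h5
    unfold be
    field_simp
    linarith
  have pa : 0 < rp a x ^ (-a) := by positivity
  have pa1 : rp a x ^ (-a) < 1 := Real.rpow_lt_one_of_one_lt_of_neg p1 (by linarith)
  have al0 : 0 < al a x := by nlinarith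
  have al1 : al a x < 1 := by
    by_contra hc
    nlinarith [not_lt.1 hc]
  have be0 : 0 < be a x := by
    unfold be
    exact mul_pos ha0 (by rw [sub_pos, div_lt_one hk0]; linarith)
  have be1 : be a x < a := by
    unfold be
    nlinarith [div_pos h2 hk0]
  refine ⟨p1, q1, al0, al1, be0, be1, ?_, ?_, ?_, ?_⟩
  · have : rp a x ^ a * rp a x ^ (-a) = 1 := by
      rw [← Real.rpow_add p0, add_neg_cancel, Real.rpow_zero]
    rw [eP] at this
    rw [eq_div_iff hk0.ne']
    linarith
  · have : rm a x ^ a * rm a x ^ (-a) = 1 := by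
      rw [← Real.rpow_add h2, add_neg_cancel, Real.rpow_zero]
    rw [eQ] at this
    rw [eq_div_iff hk0.ne']
    linarith
  · have hd : a * (1 - rp a x ^ (-a - 1)) / (a + 1) = kk x * al a x / rp a x := by
      rw [Real.rpow_sub_one p0.ne', eP]
      have : rp a x = kk x * (1 + al a x / a) := by unfold al; field_simp; ring
      have hb : a + 1 ≠ 0 := by linarith
      field_simp
      rw [this]
      field_simp
      ring
    convert roots_inv hx (roots_rp_cont ha) p0 (fun y => (roots_basic ha y).2.2.2.1) hd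
      (by positivity) using 1
    rw [← roots_kk_sq]
    field_simp
  · have hd : a * (1 - rm a x ^ (-a - 1)) / (a + 1) = -(kk x * be a x / rm a x) := by
      rw [Real.rpow_sub_one h2.ne', eQ]
      have : rm a x = kk x * (1 - be a x / a) := by unfold be; field_simp; ring
      have hb : a + 1 ≠ 0 := by linarith
      field_simp
      rw [this]
      field_simp
      ring
    convert roots_inv hx (roots_rm_cont ha) h2 (fun y => (roots_basic ha y).2.2.2.2) hd
      (neg_ne_zero.2 (by positivity)) using 1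
    rw [← roots_kk_sq]
    field_simp

end Pool.Agent.MP_d56274_gt
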