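import Pool.Agent.MP_d56274_gt.Spec

/-! The row SLICE: from a `C¹` function on a rectangle to a one-dimensional profile. -/

namespace Pool.Agent.MP_d56274_gt

open MeasureTheory Set Real Filter Topology

theorem sl_d1 {v : ℝ × ℝ → ℝ} (hv : ContDiff ℝ 1 v) (r θ : ℝ) :
    HasDerivAt (fun x => v (x, θ)) (fderiv ℝ v (r, θ) (1, 0)) r :=
  (hv.differentiable one_ne_zero (r, θ)).hasFDerivAt.comp_hasDerivAt r
    ((hasDerivAt_id r).prodMk (hasDerivAt_const r θ))

theorem sl_d2 {v : ℝ × ℝ → ℝ} (hv : ContDiff ℝ 1 v) (r θ : ℝ) :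
    HasDerivAt (fun x => v (r, x)) (fderiv ℝ v (r, θ) (0, 1)) θ :=
  (hv.differentiable one_ne_zero (r, θ)).hasFDerivAt.comp_hasDerivAt θ
    ((hasDerivAt_const θ r).prodMk (hasDerivAt_id θ))

theorem sl_cont {g : ℝ × ℝ → ℝ} (hg : Continuous g) (a b : ℝ) :
    Continuous fun r => ∫ θ in a..b, g (r, θ) :=
  intervalIntegral.continuous_parametric_intervalIntegral_of_continuous'
    (f := fun r θ => g (r, θ)) hg a b

theorem sl_int {g : ℝ × ℝ → ℝ} (hg : Continuous g) (r a b : ℝ) :
    IntervalIntegrable (fun θ => g (r, θ)) volume a b :=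
  (hg.comp (Continuous.prodMk_right r)).intervalIntegrable a b

theorem sl_param {v : ℝ × ℝ → ℝ} (hv : ContDiff ℝ 1 v) (a b r : ℝ) :
    HasDerivAt (fun x => ∫ θ in a..b, v (x, θ)) (∫ θ in a..b, fderiv ℝ v (r, θ) (1, 0)) r := by
  have hc : Continuous fun z => fderiv ℝ v z (1, 0) :=
    (hv.continuous_fderiv one_ne_zero).clm_apply continuous_const
  obtain ⟨C, hC⟩ := ((isCompact_closedBall r 1).prod (isCompact_uIcc (a := a) (b := b))
    ).exists_bound_of_continuousOn hc.continuousOn
  exact (intervalIntegral.hasDerivAt_integral_of_dominated_loc_of_deriv_le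
    (F := fun x θ => v (x, θ)) (F' := fun x θ => fderiv ℝ v (x, θ) (1, 0)) (bound := fun _ => C)
    (Metric.closedBall_mem_nhds r one_pos)
    (Eventually.of_forall fun x =>
      (hv.continuous.comp (Continuous.prodMk_right x)).aestronglyMeasurable)
    (sl_int hv.continuous r a b) (hc.comp (Continuous.prodMk_right r)).aestronglyMeasurable
    (Eventually.of_forall fun t ht x hx => hC (x, t) ⟨hx, uIoc_subset_uIcc ht⟩)
    intervalIntegrable_const (Eventually.of_forall fun t _ x _ => sl_d1 hv x t)).2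

theorem sl_fubini {g : ℝ × ℝ → ℝ} (hg : Continuous g) {r₀ r₁ e₀ e₁ : ℝ} (hr : r₀ ≤ r₁)
    (he : e₀ ≤ e₁) :
    (∫ r in r₀..r₁, ∫ θ in e₀..e₁, g (r, θ)) = ∫ z in Icc r₀ r₁ ×ˢ Icc e₀ e₁, g z := by
  rw [Measure.volume_eq_prod, setIntegral_prod g
    (hg.continuousOn.integrableOn_compact (isCompact_Icc.prod isCompact_Icc)),
    intervalIntegral.integral_of_le hr, integral_Icc_eq_integral_Ioc]
  refine setIntegral_congr_fun measurableSet_Ioc fun r _ => ?_
  rw [intervalIntegral.integral_of_le he, integral_Icc_eq_integral_Ioc]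

theorem sl_osc {u u' : ℝ → ℝ} {a b d : ℝ} (hab : a ≤ b) (hd : 0 < d)
    (hu : ∀ t, HasDerivAt u (u' t) t) (hu' : Continuous u') (h01 : ∀ t, 0 ≤ u t ∧ u t ≤ 1)
    (h1 : d ≤ ∫ t in a..b, u t) (h2 : (∫ t in a..b, u t) ≤ b - a - d) :
    d * (1 - ∫ t in a..b, |u' t|) ≤ 2 * ∫ t in a..b, u t * (1 - u t) := by
  have hc : Continuous u := continuous_iff_continuousAt.2 fun t => (hu t).continuousAt
  obtain ⟨s, hs, hM⟩ := isCompact_Icc.exists_isMaxOn (nonempty_Icc.2 hab) hc.continuousOn
  obtain ⟨t, ht, hm⟩ := isCompact_Icc.exists_isMinOn (nonempty_Icc.2 hab) hc.continuousOn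
  have e1 : u s - u t ≤ ∫ t in a..b, |u' t| := by
    rw [← intervalIntegral.integral_eq_sub_of_hasDerivAt (fun x _ => hu x)
      (hu'.intervalIntegrable t s)]
    have k1 := intervalIntegral.norm_integral_le_abs_integral_norm (f := u') (a := t) (b := s)
      (μ := volume)
    have k2 := intervalIntegral.abs_integral_mono_interval (f := fun x => |u' x|) (μ := volume)
      (a := t) (b := s) (c := a) (d := b)
      (uIoc_subset_uIoc_of_uIcc_subset_uIcc (uIcc_subset_uIcc
        (by rwa [uIcc_of_le hab]) (by rwa [uIcc_of_le hab])))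
      (Eventually.of_forall fun x => abs_nonneg _) (hu'.abs.intervalIntegrable a b)
    rw [abs_of_nonneg (intervalIntegral.integral_nonneg hab fun x _ => abs_nonneg (u' x))] at k2
    simp only [Real.norm_eq_abs] at k1
    exact (le_abs_self _).trans (k1.trans k2)
  have hJ : IntervalIntegrable (fun t => u t * (1 - u t)) volume a b :=
    (hc.mul (continuous_const.sub hc)).intervalIntegrable a b
  have e2 : (1 - u s) * ∫ t in a..b, u t ≤ ∫ t in a..b, u t * (1 - u t) := by
    rw [← intervalIntegral.integral_const_mul]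
    refine intervalIntegral.integral_mono_on hab
      ((continuous_const.mul hc).intervalIntegrable a b) hJ fun x hx => ?_
    have : u x ≤ u s := hM hx
    nlinarith [(h01 x).1]
  have e3 : u t * (b - a - ∫ t in a..b, u t) ≤ ∫ t in a..b, u t * (1 - u t) := by
    have : b - a - ∫ t in a..b, u t = ∫ t in a..b, (1 - u t) := by
      rw [intervalIntegral.integral_sub intervalIntegrable_const (hc.intervalIntegrable a b)]
      simp
    rw [this, ← intervalIntegral.integral_const_mul]
    refine intervalIntegral.integral_mono_on hab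
      ((continuous_const.mul (continuous_const.sub hc)).intervalIntegrable a b) hJ fun x hx => ?_
    have : u t ≤ u x := hm hx
    nlinarith [(h01 x).2]
  nlinarith [(h01 s).2, (h01 t).1, mul_le_mul_of_nonneg_left h1 (sub_nonneg.2 (h01 s).2),
    mul_le_mul_of_nonneg_left (show d ≤ b - a - ∫ t in a..b, u t by linarith) (h01 t).1,
    mul_le_mul_of_nonneg_left e1 hd.le]

theorem sl_cs {c s A B : ℝ} (h : c ^ 2 + s ^ 2 = 1) : c * A + s * |B| ≤ √(A ^ 2 + B ^ 2) := by
  refine Real.le_sqrt_of_sq_le ?_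
  rw [← sq_abs B]
  nlinarith [sq_nonneg (c * |B| - s * A)]

theorem slice : SliceStmt := by
  intro p r₀ r₁ e₀ e₁ d v hp hr₀ hr he hd hv h01
  have hc1 : Continuous fun z => fderiv ℝ v z (1, 0) :=
    (hv.continuous_fderiv one_ne_zero).clm_apply continuous_const
  have hc2 : Continuous fun z => fderiv ℝ v z (0, 1) :=
    (hv.continuous_fderiv one_ne_zero).clm_apply continuous_const
  have hp0 : Continuous fun x : ℝ => x ^ p := Real.continuous_rpow_const hp.le
  have hp1 : Continuous fun x : ℝ => x ^ (p + 1) := Real.continuous_rpow_const (by linarith)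
  have hg : Continuous (grad p v) :=
    ((((hp1.comp continuous_fst).mul hc1).pow 2).add
      (((hp0.comp continuous_fst).mul hc2).pow 2)).sqrt
  have hw : Continuous fun z => v z * (1 - v z) :=
    hv.continuous.mul (continuous_const.sub hv.continuous)
  have hJ : ∀ r, 0 ≤ ∫ θ in e₀..e₁, v (r, θ) * (1 - v (r, θ)) := fun r =>
    intervalIntegral.integral_nonneg he fun x _ => mul_nonneg (h01 _).1 (sub_nonneg.2 (h01 _).2)
  have hG := sl_cont hg e₀ e₁
  have hW := sl_cont hw e₀ e₁
  refine ⟨fun r => ∫ θ in e₀..e₁, fderiv ℝ v (r, θ) (1, 0), fun r => (∫ θ in e₀..e₁,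
    grad p v (r, θ)) + 2 / d * r ^ p * ∫ θ in e₀..e₁, v (r, θ) * (1 - v (r, θ)),
    ⟨hr₀, hr, fun r _ => (sl_param hv e₀ e₁ r).sub_const d, (sl_cont hc1 e₀ e₁).continuousOn,
      (hG.add ((continuous_const.mul hp0).mul hW)).continuousOn, fun r hr => ?_,
      fun r hr h1 h2 => ?_⟩, ?_⟩
  · have : 0 < r := hr₀.trans_le hr.1
    exact add_nonneg (intervalIntegral.integral_nonneg he fun x _ => Real.sqrt_nonneg _)
      (mul_nonneg (by positivity) (hJ r))
  · have hr' : 0 < r := hr₀.trans_le hr.1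
    rw [add_sub_cancel_right]
    have hy : 0 < r ^ p := Real.rpow_pos_of_pos hr' p
    set T := ∫ θ in e₀..e₁, fderiv ℝ v (r, θ) (1, 0) with hT
    set ρ := √((r ^ p) ^ 2 + (r ^ (p + 1) * T) ^ 2) with hρ
    have hρ0 : 0 < ρ := Real.sqrt_pos.2 (by positivity)
    have hρ2 : ρ ^ 2 = (r ^ p) ^ 2 + (r ^ (p + 1) * T) ^ 2 := Real.sq_sqrt (by positivity)
    have hcs : (r ^ (p + 1) * T / ρ) ^ 2 + (r ^ p / ρ) ^ 2 = 1 := by
      field_simp
      linarith
    have hs0 : 0 < r ^ p / ρ := by positivity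
    have hs1 : r ^ p / ρ ≤ 1 := by nlinarith [sq_nonneg (r ^ (p + 1) * T / ρ)]
    have hsum : ρ = r ^ (p + 1) * T / ρ * (r ^ (p + 1) * T) + r ^ p / ρ * r ^ p := by
      field_simp
      linarith
    have k1 := sl_osc he hd (sl_d2 hv r) (hc2.comp (Continuous.prodMk_right r)) (fun t => h01 _)
      (by linarith) (by linarith)
    have i1 := sl_int hc1 r e₀ e₁
    have i2 := sl_int hc2.abs r e₀ e₁
    have k2 : r ^ (p + 1) * T / ρ * (r ^ (p + 1) * T) +
        r ^ p / ρ * (r ^ p * ∫ θ in e₀..e₁, |fderiv ℝ v (r, θ) (0, 1)|) ≤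
        ∫ θ in e₀..e₁, grad p v (r, θ) := by
      generalize r ^ (p + 1) * T / ρ = c at hcs ⊢
      generalize r ^ p / ρ = s at hcs ⊢
      rw [hT, ← intervalIntegral.integral_const_mul, ← intervalIntegral.integral_const_mul,
        ← intervalIntegral.integral_const_mul, ← intervalIntegral.integral_const_mul,
        ← intervalIntegral.integral_add ((i1.const_mul _).const_mul _)
          ((i2.const_mul _).const_mul _)]
      refine intervalIntegral.integral_mono_on he
        (((i1.const_mul _).const_mul _).add ((i2.const_mul _).const_mul _)) (sl_int hg r e₀ e₁)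
        fun x _ => ?_
      have := sl_cs (A := r ^ (p + 1) * fderiv ℝ v (r, x) (1, 0))
        (B := r ^ p * fderiv ℝ v (r, x) (0, 1)) hcs
      rwa [abs_mul, abs_of_pos hy] at this
    have k3 : 1 - (∫ θ in e₀..e₁, |fderiv ℝ v (r, θ) (0, 1)|) ≤
        2 / d * ∫ θ in e₀..e₁, v (r, θ) * (1 - v (r, θ)) := by
      rw [div_mul_eq_mul_div, le_div_iff₀ hd, mul_comm]
      exact k1
    have k4 : 0 ≤ r ^ p * (2 / d * ∫ θ in e₀..e₁, v (r, θ) * (1 - v (r, θ))) :=
      mul_nonneg hy.le (mul_nonneg (by positivity) (hJ r))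
    have k5 := mul_le_mul_of_nonneg_left k3 (mul_pos hs0 hy).le
    have k6 := mul_le_mul_of_nonneg_right hs1 k4
    rw [hsum]
    linarith
  · have hF : Continuous fun r => 2 / d * r ^ p * ∫ θ in e₀..e₁, v (r, θ) * (1 - v (r, θ)) :=
      (continuous_const.mul hp0).mul hW
    beta_reduce
    rw [intervalIntegral.integral_add (hG.intervalIntegrable _ _)
      (hF.intervalIntegrable _ _), sl_fubini hg hr he,
      ← sl_fubini hw hr he, ← intervalIntegral.integral_const_mul]
    refine add_le_add le_rfl (intervalIntegral.integral_mono_on hr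
      (hF.intervalIntegrable _ _)
      ((continuous_const.mul hW).intervalIntegrable _ _) fun x hx => ?_)
    exact mul_le_mul_of_nonneg_right (mul_le_mul_of_nonneg_left
      (Real.rpow_le_rpow (hr₀.le.trans hx.1) hx.2 hp.le) (by positivity)) (hJ x)

end Pool.Agent.MP_d56274_gt
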