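import Mathlib
import Pool.Agent.MP_d56274_gt.Spec

/-! SUBST (note 10): the substitutions along the two roots. -/

namespace Pool.Agent.MP_d56274_gt

open MeasureTheory Set Real Filter Topology

lemma sub_branch {φ φ' g G : ℝ → ℝ} {p q : ℝ} (hder : ∀ ξ ∈ Ioo p q, HasDerivAt φ (φ' ξ) ξ)
    (inj : InjOn φ (Ioo p q)) (hG : ∀ ξ ∈ Ioo p q, |φ' ξ| * g (φ ξ) = G ξ)
    (hi : IntegrableOn G (Ioo p q)) :
    IntegrableOn g (φ '' Ioo p q) ∧ (∫ r in φ '' Ioo p q, g r) = ∫ ξ in Ioo p q, G ξ := by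
  constructor
  · rw [integrableOn_image_iff_integrableOn_abs_deriv_smul measurableSet_Ioo
      (fun ξ hξ => (hder ξ hξ).hasDerivWithinAt) inj]
    exact hi.congr_fun (fun ξ hξ => (hG ξ hξ).symm) measurableSet_Ioo
  · rw [integral_image_eq_integral_abs_deriv_smul measurableSet_Ioo
      (fun ξ hξ => (hder ξ hξ).hasDerivWithinAt) inj]
    exact setIntegral_congr_fun measurableSet_Ioo hG

lemma sub_kk_pos (x : ℝ) : 0 < kk x := Real.sqrt_pos.mpr (by positivity)

lemma sub_kk_sq (x : ℝ) : kk x ^ 2 = 1 + x ^ 2 := Real.sq_sqrt (by positivity)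

lemma sub_kk_cont : Continuous kk := by unfold kk; fun_prop

lemma sub_sqrt {X ξ : ℝ} (hX : 0 < X) (hξ : ξ ∈ Ioo 0 (π / 2)) :
    √(kk X ^ 2 - kk (X * sin ξ) ^ 2) = X * cos ξ := by
  have hc : 0 < cos ξ := cos_pos_of_mem_Ioo ⟨by linarith [hξ.1, pi_pos], hξ.2⟩
  rw [← sqrt_sq (mul_pos hX hc).le, sub_kk_sq, sub_kk_sq]
  congr 1
  have := sin_sq_add_cos_sq ξ
  linear_combination (-X ^ 2) * this

lemma sub_le_zz {x : ℝ} (hx : 0 < x) : x / (1 + x ^ 2) ≤ zz x := by
  have h1 := sub_kk_pos x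
  have h2 := sub_kk_sq x
  have h3 : 1 ≤ kk x := by nlinarith [sq_nonneg x]
  unfold zz
  exact div_le_div_of_nonneg_left hx.le h1 (by nlinarith)

/-- integrability of the transformed integrand -/
lemma sub_int {X : ℝ} (hX : 0 < X) {F c : ℝ → ℝ} (hF : Continuous F) (hc : Continuous c)
    (hz : ∀ x, 0 < x → zz x < c x) :
    IntegrableOn (fun ξ => X * sin ξ / (1 + (X * sin ξ) ^ 2) *
      (F (X * sin ξ) / c (X * sin ξ))) (Ioo 0 (π / 2)) := by
  have hF' : IntegrableOn (fun ξ => F (X * sin ξ)) (Ioo 0 (π / 2)) := by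
    have : Continuous fun ξ => F (X * sin ξ) := by fun_prop
    exact this.continuousOn.integrableOn_Icc.mono_set Ioo_subset_Icc_self
  have hm : Measurable fun ξ => X * sin ξ / (1 + (X * sin ξ) ^ 2) *
      (F (X * sin ξ) / c (X * sin ξ)) := by
    have := hF.measurable
    have := hc.measurable
    fun_prop
  refine Integrable.mono hF' hm.aestronglyMeasurable ?_
  filter_upwards [ae_restrict_mem measurableSet_Ioo] with ξ hξ
  have hs : 0 < sin ξ := sin_pos_of_pos_of_lt_pi hξ.1 (by linarith [hξ.2, pi_pos])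
  have hx : 0 < X * sin ξ := mul_pos hX hs
  set x := X * sin ξ
  have h1 := sub_le_zz hx
  have h2 := hz x hx
  have h0 : 0 < x / (1 + x ^ 2) := by positivity
  have hc0 : 0 < c x := by linarith
  have e : x / (1 + x ^ 2) * (F x / c x) = x / (1 + x ^ 2) / c x * F x := by ring
  rw [e, norm_mul, Real.norm_of_nonneg (by positivity)]
  exact mul_le_of_le_one_left (norm_nonneg _) ((div_le_one hc0).mpr (by linarith))

theorem subst (h : RootsStmt) (hi : IneqStmt) : SubstStmt := by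
  intro a X f ha hX hf
  obtain ⟨cp, cm, p0, m0', hr, -, hd⟩ := h a ha
  have hpi := pi_pos
  have hs : ∀ ξ ∈ Ioo 0 (π / 2), 0 < X * sin ξ := fun ξ hξ =>
    mul_pos hX (sin_pos_of_pos_of_lt_pi hξ.1 (by linarith [hξ.2]))
  have hcos : ∀ ξ ∈ Ioo 0 (π / 2), 0 < X * cos ξ := fun ξ hξ =>
    mul_pos hX (cos_pos_of_mem_Ioo ⟨by linarith [hξ.1], hξ.2⟩)
  have hin : ∀ ξ, HasDerivAt (fun ξ => X * sin ξ) (X * cos ξ) ξ := fun ξ =>
    (hasDerivAt_sin ξ).const_mul X
  have ck := sub_kk_cont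
  have cal : Continuous (al a) := by
    unfold al
    exact continuous_const.mul ((cp.div ck fun x => (sub_kk_pos x).ne').sub continuous_const)
  have cbe : Continuous (be a) := by
    unfold be
    exact continuous_const.mul (continuous_const.sub (cm.div ck fun x => (sub_kk_pos x).ne'))
  have cFp : Continuous fun x => f (rp a x) * rp a x :=
    (hf.comp_continuous cp fun x => lt_of_lt_of_le one_pos (hr x).1).mul cp
  have cFm : Continuous fun x => f (rm a x) * rm a x :=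
    (hf.comp_continuous cm fun x => (hr x).2.1).mul cm
  have ip := sub_int hX cFp cal fun x hx => (hi a ha x hx).1
  have im := sub_int hX cFm cbe fun x hx => (hi a ha x hx).1.trans (hi a ha x hx).2.1
  -- the large root
  have dp : ∀ ξ ∈ Ioo 0 (π / 2), HasDerivAt (fun ξ => rp a (X * sin ξ))
      (X * sin ξ * rp a (X * sin ξ) / ((1 + (X * sin ξ) ^ 2) * al a (X * sin ξ)) * (X * cos ξ))
      ξ := fun ξ hξ => by
    have := HasDerivAt.comp (h₂ := rp a) ξ (hd _ (hs ξ hξ)).2.2.2.2.2.2.2.2.1 (hin ξ)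
    exact this
  have dpp : ∀ ξ ∈ Ioo 0 (π / 2), 0 <
      X * sin ξ * rp a (X * sin ξ) / ((1 + (X * sin ξ) ^ 2) * al a (X * sin ξ)) * (X * cos ξ) := by
    intro ξ hξ
    have h1 := hs ξ hξ
    have h2 := hcos ξ hξ
    have h3 : 0 < rp a (X * sin ξ) := lt_of_lt_of_le one_pos (hr _).1
    have h4 := (hd _ h1).2.2.1
    positivity
  have cpp : Continuous fun ξ => rp a (X * sin ξ) := by fun_prop
  have mp : StrictMonoOn (fun ξ => rp a (X * sin ξ)) (Icc 0 (π / 2)) := by
    refine strictMonoOn_of_deriv_pos (convex_Icc _ _) cpp.continuousOn fun ξ hξ => ?_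
    rw [interior_Icc] at hξ
    rw [(dp ξ hξ).deriv]
    exact dpp ξ hξ
  have imp : (fun ξ => rp a (X * sin ξ)) '' Ioo 0 (π / 2) = Ioo 1 (rp a X) := by
    have := cpp.continuousOn.image_Ioo_of_strictMonoOn (by positivity) mp
    simpa [p0] using this
  obtain ⟨p1, p2⟩ := sub_branch (g := fun r => f r / √(kk X ^ 2 - kf a r ^ 2)) dp
    (mp.injOn.mono Ioo_subset_Icc_self) (fun ξ hξ => by
      have h2 := hcos ξ hξ
      have h4 := (hd _ (hs ξ hξ)).2.2.1
      rw [abs_of_pos (dpp ξ hξ), (hr _).2.2.2.1, sub_sqrt hX hξ]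
      generalize X * cos ξ = c at h2 ⊢
      field_simp) ip
  -- the small root
  have dm : ∀ ξ ∈ Ioo 0 (π / 2), HasDerivAt (fun ξ => rm a (X * sin ξ))
      (-(X * sin ξ * rm a (X * sin ξ) / ((1 + (X * sin ξ) ^ 2) * be a (X * sin ξ))) * (X * cos ξ))
      ξ := fun ξ hξ => by
    have := HasDerivAt.comp (h₂ := rm a) ξ (hd _ (hs ξ hξ)).2.2.2.2.2.2.2.2.2 (hin ξ)
    exact this
  have dmm : ∀ ξ ∈ Ioo 0 (π / 2),
      -(X * sin ξ * rm a (X * sin ξ) / ((1 + (X * sin ξ) ^ 2) * be a (X * sin ξ))) * (X * cos ξ)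
        < 0 := by
    intro ξ hξ
    have h1 := hs ξ hξ
    have h2 := hcos ξ hξ
    have h3 : 0 < rm a (X * sin ξ) := (hr _).2.1
    have h4 := (hd _ h1).2.2.2.2.1
    rw [neg_mul, neg_lt_zero]
    positivity
  have cmm : Continuous fun ξ => rm a (X * sin ξ) := by fun_prop
  have mm : StrictAntiOn (fun ξ => rm a (X * sin ξ)) (Icc 0 (π / 2)) := by
    refine strictAntiOn_of_deriv_neg (convex_Icc _ _) cmm.continuousOn fun ξ hξ => ?_
    rw [interior_Icc] at hξ
    rw [(dm ξ hξ).deriv]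
    exact dmm ξ hξ
  have imm : (fun ξ => rm a (X * sin ξ)) '' Ioo 0 (π / 2) = Ioo (rm a X) 1 := by
    have := cmm.continuousOn.image_Ioo_of_strictAntiOn (by positivity) mm
    simpa [m0'] using this
  obtain ⟨q1, q2⟩ := sub_branch (g := fun r => f r / √(kk X ^ 2 - kf a r ^ 2)) dm
    (mm.injOn.mono Ioo_subset_Icc_self) (fun ξ hξ => by
      have h2 := hcos ξ hξ
      have h4 := (hd _ (hs ξ hξ)).2.2.2.2.1
      rw [abs_of_neg (dmm ξ hξ), (hr _).2.2.2.2, sub_sqrt hX hξ]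
      generalize X * cos ξ = c at h2 ⊢
      field_simp) im
  rw [imp] at p1 p2
  rw [imm] at q1 q2
  have l1 : rm a X ≤ 1 := (hr X).2.2.1
  have l2 : 1 ≤ rp a X := (hr X).1
  have j1 : IntervalIntegrable (fun r => f r / √(kk X ^ 2 - kf a r ^ 2)) volume (rm a X) 1 :=
    (intervalIntegrable_iff_integrableOn_Ioo_of_le l1).mpr q1
  have j2 : IntervalIntegrable (fun r => f r / √(kk X ^ 2 - kf a r ^ 2)) volume 1 (rp a X) :=
    (intervalIntegrable_iff_integrableOn_Ioo_of_le l2).mpr p1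
  refine ⟨j1.trans j2, ?_⟩
  rw [← intervalIntegral.integral_add_adjacent_intervals j1 j2,
    intervalIntegral.integral_of_le l1, intervalIntegral.integral_of_le l2,
    intervalIntegral.integral_of_le (by positivity : (0 : ℝ) ≤ π / 2),
    integral_Ioc_eq_integral_Ioo, integral_Ioc_eq_integral_Ioo, integral_Ioc_eq_integral_Ioo,
    p2, q2, add_comm, ← integral_add ip im]
  congr 1
  ext ξ
  ring

end Pool.Agent.MP_d56274_gt
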