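import Pool.Agent.MP_d56274_gt.Spec

/-! The row TLIM: bounds and limits of the period function. -/

namespace Pool.Agent.MP_d56274_gt

open MeasureTheory Set Real Filter Topology

theorem tlim_sin {ξ : ℝ} (h : ξ ∈ uIoc 0 (π / 2)) : 0 < sin ξ := by
  rw [uIoc_of_le (by positivity)] at h
  exact sin_pos_of_pos_of_lt_pi h.1 (by linarith [h.2, pi_pos])

theorem tlim_sq : ∫ ξ in (0 : ℝ)..π / 2, sin ξ ^ 2 = π / 4 := by
  rw [integral_sin_sq]
  simp
  ring

theorem tlim_inv : Tendsto (fun X : ℝ => (1 + X ^ 2)⁻¹) atTop (𝓝 0) :=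
  tendsto_inv_atTop_zero.comp (tendsto_atTop_add_const_left _ 1 (tendsto_pow_atTop two_ne_zero))

theorem tlim_kk (x : ℝ) : 0 < kk x := Real.sqrt_pos.2 (by positivity)

theorem tlim_r1 : Tendsto (fun X : ℝ => X / kk X) atTop (𝓝 1) := by
  have := (tlim_inv.const_sub 1).sqrt
  rw [sub_zero, Real.sqrt_one] at this
  refine this.congr' ?_
  filter_upwards [eventually_ge_atTop 0] with X hX
  rw [show 1 - (1 + X ^ 2)⁻¹ = X ^ 2 / (1 + X ^ 2) by field_simp; ring,
    Real.sqrt_div (sq_nonneg X), Real.sqrt_sq hX, kk]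

theorem tlim_r2 {s : ℝ} (hs : 0 ≤ s) : Tendsto (fun X : ℝ => kk (X * s) / kk X) atTop (𝓝 s) := by
  have := ((tlim_inv.const_mul (1 - s ^ 2)).const_add (s ^ 2)).sqrt
  rw [mul_zero, add_zero, Real.sqrt_sq hs] at this
  refine this.congr fun X => ?_
  rw [show s ^ 2 + (1 - s ^ 2) * (1 + X ^ 2)⁻¹ = (1 + (X * s) ^ 2) / (1 + X ^ 2) by
    field_simp; ring, Real.sqrt_div (by positivity), kk, kk]

theorem tlim_pw (a X : ℝ) : (1 + X ^ 2) ^ (-(a + 1) / 2) = (kk X * kk X ^ a)⁻¹ := by
  rw [mul_comm, ← Real.rpow_add_one (tlim_kk X).ne', ← Real.rpow_neg (tlim_kk X).le, kk,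
    Real.sqrt_eq_rpow, ← Real.rpow_mul (by positivity)]
  congr 1
  ring

theorem tlim (hi : IneqStmt) (hd : DerivStmt) (hl : LimStmt) (ha : AbelStmt) : TLimStmt := by
  intro a ha1
  have ha0 : 0 < a := by linarith
  obtain ⟨-, cS, -, -, -, -, cL, hS, -⟩ := hd a ha1
  obtain ⟨l1, l2, l3⟩ := hl a ha1
  obtain ⟨-, -, hT⟩ := ha a ha1
  have hpi : (0 : ℝ) < π / 2 := by positivity
  have hL : ∀ x, 0 < x → 2 * √a / (a + 1) < Lam a x ∧ Lam a x < 1 := fun x hx =>
    (hi a ha1 x hx).2.2.2
  have hm : ∀ X, 0 < X → AEStronglyMeasurable (fun ξ => Lam a (X * sin ξ) * sin ξ ^ 2)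
      (volume.restrict (uIoc 0 (π / 2))) := fun X hX =>
    ((cL.comp (f := fun ξ => X * sin ξ) (by fun_prop) fun ξ h => mul_pos hX (tlim_sin h)).mul
      (by fun_prop)).aestronglyMeasurable measurableSet_uIoc
  have hb : ∀ X, 0 < X → ∀ ξ ∈ uIoc 0 (π / 2), ‖Lam a (X * sin ξ) * sin ξ ^ 2‖ ≤ 1 :=
    fun X hX ξ h => by
    obtain ⟨k1, k2⟩ := hL _ (mul_pos hX (tlim_sin h))
    have k3 : 0 ≤ Lam a (X * sin ξ) := le_trans (by positivity) k1.le
    rw [Real.norm_of_nonneg (by positivity)]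
    exact mul_le_one₀ k2.le (sq_nonneg _) (sin_sq_le_one ξ)
  have hint : ∀ X, 0 < X →
      IntervalIntegrable (fun ξ => Lam a (X * sin ξ) * sin ξ ^ 2) volume 0 (π / 2) := fun X hX =>
    (intervalIntegrable_const (c := (1 : ℝ))).mono_fun' (hm X hX)
      (ae_restrict_of_forall_mem measurableSet_uIoc (hb X hX))
  have hsq : ∀ C : ℝ, IntervalIntegrable (fun ξ => C * sin ξ ^ 2) volume 0 (π / 2) := fun C =>
    Continuous.intervalIntegrable (by fun_prop) _ _
  have hsq' : ∀ C : ℝ, ∫ ξ in (0 : ℝ)..π / 2, C * sin ξ ^ 2 = C * (π / 4) := fun C => by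
    rw [intervalIntegral.integral_const_mul, tlim_sq]
  have hmem : ∀ ξ ∈ Ioo 0 (π / 2), 0 < sin ξ := fun ξ h =>
    tlim_sin (by rw [uIoc_of_le hpi.le]; exact Ioo_subset_Ioc_self h)
  have lim : ∀ (l : Filter ℝ) [l.IsCountablyGenerated] (C : ℝ), (∀ᶠ X in l, 0 < X) →
      (∀ s, 0 < s → Tendsto (fun X => Lam a (X * s)) l (𝓝 C)) →
      Tendsto (TT a) l (𝓝 (2 * (a + 1) * (C * (π / 4)))) := fun l _ C h1 h2 => by
    rw [← hsq']
    refine ((intervalIntegral.tendsto_integral_filter_of_dominated_convergence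
      (F := fun X ξ => Lam a (X * sin ξ) * sin ξ ^ 2) (fun _ => 1) (h1.mono hm)
      (h1.mono fun X hX => Eventually.of_forall (hb X hX)) intervalIntegrable_const
      (Eventually.of_forall fun ξ h => (h2 _ (tlim_sin h)).mul_const _)).const_mul _).congr' ?_
    exact h1.mono fun X hX => (hT X hX).1.symm
  have hb0 : 0 < a + 1 := by linarith
  refine ⟨fun X hX => ?_, ?_, ?_, fun Φ => ?_⟩
  · have k1 := intervalIntegral.intervalIntegral_pos_of_pos_on
      ((hint X hX).sub (hsq (2 * √a / (a + 1)))) (fun ξ h => sub_pos.2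
        (mul_lt_mul_of_pos_right (hL _ (mul_pos hX (hmem ξ h))).1 (pow_pos (hmem ξ h) 2))) hpi
    have k2 := intervalIntegral.intervalIntegral_pos_of_pos_on
      ((hsq 1).sub (hint X hX)) (fun ξ h => sub_pos.2
        (mul_lt_mul_of_pos_right (hL _ (mul_pos hX (hmem ξ h))).2 (pow_pos (hmem ξ h) 2))) hpi
    rw [intervalIntegral.integral_sub (hint X hX) (hsq _), hsq', sub_pos] at k1
    rw [intervalIntegral.integral_sub (hsq _) (hint X hX), hsq', sub_pos] at k2
    rw [(hT X hX).1]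
    constructor
    · refine lt_of_eq_of_lt ?_ (mul_lt_mul_of_pos_left k1 (by positivity))
      field_simp
      ring
    · refine (mul_lt_mul_of_pos_left k2 (by positivity)).trans_eq ?_
      ring
  · convert lim (𝓝[>] 0) _ self_mem_nhdsWithin fun s hs => l1.comp ?_ using 2
    · field_simp
      ring
    · refine tendsto_nhdsWithin_iff.2 ⟨?_, ?_⟩
      · exact (Continuous.tendsto' (by fun_prop) 0 _ (by simp)).mono_left nhdsWithin_le_nhds
      · filter_upwards [self_mem_nhdsWithin] with X hX using mul_pos hX hs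
  · convert lim atTop _ (eventually_gt_atTop 0) fun s hs =>
      l2.comp (tendsto_id.atTop_mul_const hs) using 2
    ring
  · have t1 : Tendsto (fun X : ℝ => (1 + X ^ 2) ^ (-(a + 1) / 2) * Φ) atTop (𝓝 (0 * Φ)) := by
      refine Tendsto.mul_const Φ ?_
      rw [neg_div]
      exact (tendsto_rpow_neg_atTop (by positivity)).comp
        (tendsto_atTop_add_const_left _ 1 (tendsto_pow_atTop two_ne_zero))
    set C := (a + 1) * ((a + 1) / a) ^ a with hC
    have hid : ∀ X ξ : ℝ, (1 + X ^ 2) ^ (-(a + 1) / 2) * (X * sin ξ * SS a (X * sin ξ)) =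
        X / kk X * sin ξ * (kk (X * sin ξ) / kk X) ^ a *
          (SS a (X * sin ξ) / kk (X * sin ξ) ^ a) := fun X ξ => by
      have k1 := tlim_kk X
      have k2 := Real.rpow_pos_of_pos k1 a
      have k3 := Real.rpow_pos_of_pos (tlim_kk (X * sin ξ)) a
      rw [tlim_pw, Real.div_rpow (tlim_kk _).le k1.le]
      field_simp
    have t2 := intervalIntegral.tendsto_integral_filter_of_dominated_convergence (l := atTop)
      (μ := volume) (a := 0) (b := π / 2) (f := fun ξ => 1 * sin ξ * sin ξ ^ a * C)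
      (F := fun X ξ => (1 + X ^ 2) ^ (-(a + 1) / 2) * (X * sin ξ * SS a (X * sin ξ))) (fun _ => C)
      (Eventually.of_forall fun X => Continuous.aestronglyMeasurable (by fun_prop))
      (by
        filter_upwards [eventually_ge_atTop 0] with X hX
        refine Eventually.of_forall fun ξ h => ?_
        have k0 := (tlim_sin h).le
        have k1 := tlim_kk X
        have k2 := tlim_kk (X * sin ξ)
        have k3 := Real.rpow_pos_of_pos k2 a
        obtain ⟨k4, k5⟩ := hS (X * sin ξ)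
        have k6 : X / kk X ≤ 1 := (div_le_one k1).2 (Real.le_sqrt_of_sq_le (by linarith))
        have k7 : kk (X * sin ξ) / kk X ≤ 1 := (div_le_one k1).2 (Real.sqrt_le_sqrt (by
          nlinarith [mul_le_mul_of_nonneg_left (sin_sq_le_one ξ) (sq_nonneg X)]))
        rw [hid, Real.norm_of_nonneg (by positivity), ← one_mul C]
        refine mul_le_mul (mul_le_one₀ (mul_le_one₀ k6 k0 (sin_le_one ξ)) (by positivity)
          (Real.rpow_le_one (by positivity) k7 ha0.le)) ((div_le_iff₀ k3).2 k5) (by positivity)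
          zero_le_one)
      intervalIntegrable_const
      (Eventually.of_forall fun ξ h => by
        simp only [hid]
        exact ((tlim_r1.mul_const _).mul ((tlim_r2 (tlim_sin h).le).rpow_const
          (Or.inr ha0.le))).mul (l3.comp (tendsto_id.atTop_mul_const (tlim_sin h))))
    have e : (∫ ξ in (0 : ℝ)..π / 2, 1 * sin ξ * sin ξ ^ a * C) = m0 a := by
      have e1 := intervalIntegral.integral_comp_sub_left (fun ξ => cos ξ ^ (a + 1)) (π / 2)
        (a := 0) (b := π / 2)
      simp only [cos_pi_div_two_sub, sub_self, sub_zero] at e1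
      rw [m0, ← e1, ← hC, ← intervalIntegral.integral_const_mul]
      refine intervalIntegral.integral_congr_ae (Eventually.of_forall fun ξ h => ?_)
      rw [Real.rpow_add_one (tlim_sin h).ne']
      ring
    have t3 := t1.add t2
    rw [e, zero_mul, zero_add] at t3
    refine t3.congr fun X => ?_
    rw [intervalIntegral.integral_const_mul, Gam, NN, mul_add]

end Pool.Agent.MP_d56274_gt
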