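import Mathlib
import Pool.Agent.MP_d56274_gt.Spec

/-! Row UND-A: the unduloid profile and its three integrals. -/

namespace Pool.Agent.MP_d56274_gt

open MeasureTheory Set Real Filter Topology

lemma ua_kk_pos (x : ℝ) : 0 < kk x := Real.sqrt_pos.2 (by positivity)

lemma ua_kk_sq (x : ℝ) : kk x ^ 2 = 1 + x ^ 2 := Real.sq_sqrt (by positivity)

lemma ua_kf_pos {a r : ℝ} (ha : 1 < a) (hr : 0 < r) : 0 < kf a r := by
  have := Real.rpow_pos_of_pos hr (-a)
  unfold kf
  positivity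

lemma ua_kf_cont (a : ℝ) : ContinuousOn (kf a) (Ioi 0) := by
  unfold kf
  refine ContinuousOn.div_const ?_ _
  exact (continuousOn_const.mul continuousOn_id).add
    (continuousOn_id.rpow_const fun x hx => Or.inl (ne_of_gt hx))

lemma ua_DD'_zero (a : ℝ) : DD' a 0 = 0 := by simp [DD', zz]

/-- `r ^ (a + 1)` through `r ^ a` at a root -/
lemma ua_pow {a r k : ℝ} (ha : 1 < a) (hr : 0 < r) (hk : kf a r = k) :
    r ^ (a + 1) = ((a + 1) * k * r ^ a - 1) / a := by
  have hra : 0 < r ^ a := Real.rpow_pos_of_pos hr a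
  have ha0 : a ≠ 0 := by linarith
  have hb : a + 1 ≠ 0 := by linarith
  rw [← hk, kf, Real.rpow_add_one hr.ne', Real.rpow_neg hr.le]
  field_simp
  ring

lemma ua_int_DD' (hd : DerivStmt) {a X : ℝ} (ha : 1 < a) (hX : 0 < X) :
    IntervalIntegrable (fun ξ => DD' a (X * sin ξ)) volume 0 (π / 2) := by
  obtain ⟨-, -, -, -, c1, -, -, -, hb⟩ := hd a ha
  have hpos : ∀ ξ ∈ Ioc (0 : ℝ) (π / 2), 0 < X * sin ξ := fun ξ hξ =>
    mul_pos hX (Real.sin_pos_of_pos_of_lt_pi hξ.1 (by linarith [hξ.2, pi_pos]))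
  rw [intervalIntegrable_iff_integrableOn_Ioc_of_le (by positivity)]
  refine IntegrableOn.of_bound measure_Ioc_lt_top ?_ (2 * a / (a + 1)) ?_
  · refine ContinuousOn.aestronglyMeasurable ?_ measurableSet_Ioc
    exact c1.comp (by fun_prop) hpos
  · refine (ae_restrict_iff' measurableSet_Ioc).2 (Eventually.of_forall fun ξ hξ => ?_)
    obtain ⟨-, -, h1, h2, -⟩ := hb _ (hpos ξ hξ)
    rw [Real.norm_eq_abs, abs_of_nonneg h1]
    exact h2

/-- the sum `P ^ a / al + Q ^ a / be` -/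
lemma ua_sum (h : RootsStmt) {a x : ℝ} (ha : 1 < a) (hx : 0 < x) :
    rp a x ^ a / al a x + rm a x ^ a / be a x
      = (rp a x ^ a - rm a x ^ a) + (1 / al a x + 1 / be a x) / kk x := by
  obtain ⟨-, -, -, -, -, -, h3⟩ := h a ha
  obtain ⟨-, -, a0, -, b0, -, e1, e2, -⟩ := h3 x hx
  have f1 : rp a x ^ a / al a x = rp a x ^ a + 1 / al a x * (1 / kk x) := by
    rw [← e1]; field_simp; ring
  have f2 : rm a x ^ a / be a x = -rm a x ^ a + 1 / be a x * (1 / kk x) := by
    rw [← e2]; field_simp; ring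
  rw [f1, f2]
  ring

lemma ua_pt1 (h : RootsStmt) {a : ℝ} (ha : 1 < a) (x : ℝ) :
    x / (1 + x ^ 2) * (kf a (rp a x) / rp a x * rp a x / al a x
      + kf a (rm a x) / rm a x * rm a x / be a x) = (a + 1) / a * DD' a x := by
  obtain ⟨-, -, -, -, h1, -, -⟩ := h a ha
  obtain ⟨p1, q0, -, e1, e2⟩ := h1 x
  have p0 : rp a x ≠ 0 := by linarith
  have k0 := ua_kk_pos x
  have ha0 : a ≠ 0 := by linarith
  have hb : a + 1 ≠ 0 := by linarith
  rw [div_mul_cancel₀ _ p0, div_mul_cancel₀ _ q0.ne', e1, e2, ← ua_kk_sq, DD', zz,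
    div_eq_mul_one_div (kk x) (al a x), div_eq_mul_one_div (kk x) (be a x)]
  generalize 1 / al a x = u
  generalize 1 / be a x = v
  field_simp

lemma ua_pt2 (h : RootsStmt) {a x : ℝ} (ha : 1 < a) (hx : 0 ≤ x) :
    x / (1 + x ^ 2) * (kf a (rp a x) / rp a x * (rp a x ^ (a + 1) / (a + 1)) * rp a x / al a x
      + kf a (rm a x) / rm a x * (rm a x ^ (a + 1) / (a + 1)) * rm a x / be a x)
      = ((a + 1) * DD' a x + x * SS a x) / (a * (a + 1)) := by
  rcases hx.eq_or_lt with rfl | hx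
  · simp [ua_DD'_zero]
  have hsum := ua_sum h ha hx
  obtain ⟨-, -, -, -, h1, -, h3⟩ := h a ha
  obtain ⟨p1, q0, -, e1, e2⟩ := h1 x
  obtain ⟨-, -, a0, -, b0, -⟩ := h3 x hx
  have p0 : 0 < rp a x := by linarith
  have k0 := ua_kk_pos x
  have ha0 : a ≠ 0 := by linarith
  have hb : a + 1 ≠ 0 := by linarith
  have f : kf a (rp a x) / rp a x * (rp a x ^ (a + 1) / (a + 1)) * rp a x / al a x
      + kf a (rm a x) / rm a x * (rm a x ^ (a + 1) / (a + 1)) * rm a x / be a x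
      = kk x ^ 2 / a * (rp a x ^ a / al a x + rm a x ^ a / be a x)
        - kk x / (a * (a + 1)) * (1 / al a x + 1 / be a x) := by
    rw [ua_pow ha p0 e1, ua_pow ha q0 e2, e1, e2]
    field_simp
    ring
  rw [f, hsum, ← ua_kk_sq, DD', SS, zz]
  generalize 1 / al a x + 1 / be a x = u
  field_simp
  ring

lemma ua_pt3 (h : RootsStmt) {p x : ℝ} (hp : 0 < p) (hx : 0 ≤ x) (R : ℝ) :
    x / (1 + x ^ 2) * (R * rp (p + 1) x ^ p * rp (p + 1) x / al (p + 1) x
      + R * rm (p + 1) x ^ p * rm (p + 1) x / be (p + 1) x)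
      = R / ((p + 1) * (p + 1 + 1)) * SS' (p + 1) x := by
  have ha : 1 < p + 1 := by linarith
  rcases hx.eq_or_lt with rfl | hx
  · simp [ua_DD'_zero, SS']
  have hsum := ua_sum h ha hx
  obtain ⟨-, -, -, -, h1, -, -⟩ := h (p + 1) ha
  obtain ⟨p1, q0, -, -, -⟩ := h1 x
  have p0 : 0 < rp (p + 1) x := by linarith
  have k0 := ua_kk_pos x
  have f : R * rp (p + 1) x ^ p * rp (p + 1) x / al (p + 1) x
      + R * rm (p + 1) x ^ p * rm (p + 1) x / be (p + 1) x
      = R * (rp (p + 1) x ^ (p + 1) / al (p + 1) x + rm (p + 1) x ^ (p + 1) / be (p + 1) x) := by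
    rw [Real.rpow_add_one p0.ne', Real.rpow_add_one q0.ne']
    ring
  rw [f, hsum, SS', ← ua_kk_sq, DD', SS, zz]
  generalize 1 / al (p + 1) x + 1 / be (p + 1) x = u
  field_simp
  ring

lemma ua_set (h : RootsStmt) {a X r : ℝ} (ha : 1 < a) (hr : 0 ≤ r) :
    {x : ℝ | r < x ∧ kf a x < kk X} = Ioo (max r (rm a X)) (rp a X) := by
  obtain ⟨-, -, -, -, -, h2, -⟩ := h a ha
  ext x
  simp only [mem_ofPred_eq, mem_Ioo, max_lt_iff]
  constructor
  · rintro ⟨h1, h3⟩
    have := (h2 X x (hr.trans_lt h1)).1 h3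
    exact ⟨⟨h1, this.1⟩, this.2⟩
  · rintro ⟨⟨h1, h3⟩, h4⟩
    exact ⟨h1, (h2 X x (hr.trans_lt h1)).2 ⟨h3, h4⟩⟩

theorem undA (h : RootsStmt) (_hi : IneqStmt) (hd : DerivStmt) (ha : AbelStmt) (ht : TLimStmt)
    (hs : SubstStmt) : UndAStmt := by
  intro p X hp hX
  have ha1 : 1 < p + 1 := by linarith
  have hR := ua_kk_pos X
  obtain ⟨-, -, -, -, h1, h2, h3⟩ := h (p + 1) ha1
  have q0 : 0 < rm (p + 1) X := (h1 X).2.1
  have hlt : rm (p + 1) X < rp (p + 1) X := (h3 X hX).2.1.trans (h3 X hX).1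
  have hsin : ∀ ξ ∈ uIcc (0 : ℝ) (π / 2), 0 ≤ X * sin ξ := fun ξ hξ => by
    rw [uIcc_of_le (by positivity)] at hξ
    exact mul_nonneg hX.le
      (Real.sin_nonneg_of_nonneg_of_le_pi hξ.1 (by linarith [hξ.2, pi_pos]))
  set φ : ℝ → ℝ := fun x => kf (p + 1) x / (x * √(kk X ^ 2 - kf (p + 1) x ^ 2)) with hφ
  have cdiv : ContinuousOn (fun r => kf (p + 1) r / r) (Ioi 0) :=
    (ua_kf_cont _).div continuousOn_id fun x hx => ne_of_gt hx
  have eφ : φ = fun r => kf (p + 1) r / r / √(kk X ^ 2 - kf (p + 1) r ^ 2) := by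
    funext r; rw [hφ, div_div]
  obtain ⟨iφ, vφ⟩ := hs (p + 1) X (fun r => kf (p + 1) r / r) ha1 hX cdiv
  rw [← eφ] at iφ vφ
  have total : (∫ r in (rm (p + 1) X)..(rp (p + 1) X), φ r) = TT (p + 1) X / (p + 1) := by
    rw [vφ, intervalIntegral.integral_congr (fun ξ _ => ua_pt1 h ha1 (X * sin ξ)),
      intervalIntegral.integral_const_mul, TT]
    ring
  have mid : ∀ r ∈ Icc (rm (p + 1) X) (rp (p + 1) X),
      undTau p (kk X) r = ∫ x in r..(rp (p + 1) X), φ x := fun r hr => by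
    rw [undTau, ua_set h ha1 (q0.le.trans hr.1), max_eq_left hr.1,
      intervalIntegral.integral_of_le hr.2, integral_Ioc_eq_integral_Ioo]
  have left : ∀ r ∈ Icc 0 (rm (p + 1) X), undTau p (kk X) r = TT (p + 1) X / (p + 1) :=
    fun r hr => by
    rw [undTau, ua_set h ha1 hr.1, max_eq_right hr.2, ← total,
      intervalIntegral.integral_of_le hlt.le, integral_Ioc_eq_integral_Ioo]
  have hin : ∀ r ∈ Ioo (rm (p + 1) X) (rp (p + 1) X),
      0 < r ∧ 0 < kf (p + 1) r ∧ 0 < kk X ^ 2 - kf (p + 1) r ^ 2 := fun r hr => by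
    have r0 : 0 < r := q0.trans hr.1
    have k0 := ua_kf_pos ha1 r0
    have k1 := (h2 X r r0).2 hr
    exact ⟨r0, k0, by nlinarith⟩
  have cφ : ContinuousOn φ (Ioo (rm (p + 1) X) (rp (p + 1) X)) := by
    have ck : ContinuousOn (kf (p + 1)) (Ioo (rm (p + 1) X) (rp (p + 1) X)) :=
      (ua_kf_cont _).mono fun r hr => (hin r hr).1
    refine ck.div (continuousOn_id.mul (continuousOn_const.sub (ck.pow 2)).sqrt) fun r hr => ?_
    exact (mul_pos (hin r hr).1 (Real.sqrt_pos.2 (hin r hr).2.2)).ne'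
  have hT : 0 < TT (p + 1) X := lt_trans (by positivity) ((ht (p + 1) ha1).1 X hX).1
  refine ⟨left 0 ⟨le_rfl, q0.le⟩, ⟨q0.le, hlt, by positivity, le_rfl, Or.inr rfl, ?_, ?_, ?_, ?_,
    left, ?_⟩, ?_, ?_⟩
  · have c := intervalIntegral.continuousOn_primitive_interval_left
      ((intervalIntegrable_iff' (by finiteness)).1 iφ)
    rw [uIcc_of_le hlt.le] at c
    exact c.congr mid
  · intro r hr
    have i2 : IntervalIntegrable φ volume r (rp (p + 1) X) := iφ.mono_set (by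
      rw [uIcc_of_le hlt.le, uIcc_of_le hr.2.le]; exact Icc_subset_Icc hr.1.le le_rfl)
    have d := intervalIntegral.integral_hasDerivAt_left i2
      (cφ.stronglyMeasurableAtFilter isOpen_Ioo r hr) (cφ.continuousAt (Ioo_mem_nhds hr.1 hr.2))
    refine d.congr_of_eventuallyEq ?_
    filter_upwards [Icc_mem_nhds hr.1 hr.2] with u hu using mid u hu
  · exact cφ.neg
  · intro r hr
    obtain ⟨r0, k0, s0⟩ := hin r hr
    have := Real.sqrt_pos.2 s0
    exact neg_lt_zero.2 (by positivity)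
  · intro r hr
    rw [undTau, ua_set h ha1 (q0.le.trans (hlt.le.trans hr)),
      Ioo_eq_empty (not_lt.2 (hr.trans (le_max_left _ _))), Measure.restrict_empty,
      integral_zero_measure]
  · have c2 : ContinuousOn (fun r => kf (p + 1) r / r * (r ^ (p + 1 + 1) / (p + 1 + 1))) (Ioi 0) :=
      cdiv.mul ((continuousOn_id.rpow_const fun x hx => Or.inl (ne_of_gt hx)).div_const _)
    obtain ⟨-, v2⟩ := hs (p + 1) X _ ha1 hX c2
    have e : p + 2 = p + 1 + 1 := by ring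
    have e2 : (fun r => -undTau' p (kk X) r * r ^ (p + 1 + 1) / (p + 1 + 1)) = fun r =>
        kf (p + 1) r / r * (r ^ (p + 1 + 1) / (p + 1 + 1)) / √(kk X ^ 2 - kf (p + 1) r ^ 2) := by
      funext r
      rw [undTau', neg_neg, ← div_div]
      ring
    have cS : Continuous fun ξ => X * sin ξ * SS (p + 1) (X * sin ξ) :=
      (by fun_prop : Continuous fun ξ => X * sin ξ).mul
        ((hd (p + 1) ha1).2.1.comp (by fun_prop))
    rw [e, e2, v2, intervalIntegral.integral_congr (fun ξ hξ => ua_pt2 h ha1 (hsin ξ hξ)),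
      intervalIntegral.integral_div, intervalIntegral.integral_add
        ((ua_int_DD' hd ha1 hX).const_mul _) (cS.intervalIntegrable _ _),
      intervalIntegral.integral_const_mul, TT, NN]
  · have c3 : ContinuousOn (fun r : ℝ => kk X * r ^ p) (Ioi 0) :=
      continuousOn_const.mul (continuousOn_id.rpow_const fun x hx => Or.inl (ne_of_gt hx))
    obtain ⟨-, v3⟩ := hs (p + 1) X _ ha1 hX c3
    have e2 : (∫ r in (rm (p + 1) X)..(rp (p + 1) X),
        √((r ^ p) ^ 2 + (r ^ (p + 1) * undTau' p (kk X) r) ^ 2)) =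
        ∫ r in (rm (p + 1) X)..(rp (p + 1) X),
          kk X * r ^ p / √(kk X ^ 2 - kf (p + 1) r ^ 2) := by
      refine intervalIntegral.integral_congr_uIoo fun r hr => ?_
      rw [uIoo_of_le hlt.le] at hr
      obtain ⟨r0, k0, s0⟩ := hin r hr
      have s1 := Real.sqrt_pos.2 s0
      have s2 := Real.sq_sqrt s0.le
      have rp0 := Real.rpow_pos_of_pos r0 p
      refine (Real.sqrt_eq_iff_mul_self_eq_of_pos (by positivity)).2 ?_
      rw [undTau', Real.rpow_add_one r0.ne']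
      generalize √(kk X ^ 2 - kf (p + 1) r ^ 2) = s at s1 s2
      field_simp
      linear_combination -s2
    have A2 := ((ha (p + 1) ha1).2.2 X hX).2.1
    rw [← ua_kk_sq] at A2
    rw [e2, v3, intervalIntegral.integral_congr (fun ξ hξ => ua_pt3 h hp (hsin ξ hξ) (kk X)),
      intervalIntegral.integral_const_mul]
    have : (∫ ξ in (0 : ℝ)..π / 2, SS' (p + 1) (X * sin ξ))
        = (p + 1 + 1) * (TT (p + 1) X + NN (p + 1) X) / kk X ^ 2 := by
      rw [← A2]; field_simp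
    rw [this]
    field_simp

end Pool.Agent.MP_d56274_gt
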