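import Mathlib
import Pool.Agent.MP_d56274_gt.Abel
import Pool.Agent.MP_d56274_gt.Arc
import Pool.Agent.MP_d56274_gt.Calib
import Pool.Agent.MP_d56274_gt.Cases
import Pool.Agent.MP_d56274_gt.Cauchy
import Pool.Agent.MP_d56274_gt.Ctrl
import Pool.Agent.MP_d56274_gt.Cut
import Pool.Agent.MP_d56274_gt.Deriv
import Pool.Agent.MP_d56274_gt.Final
import Pool.Agent.MP_d56274_gt.Green
import Pool.Agent.MP_d56274_gt.Half
import Pool.Agent.MP_d56274_gt.Hol
import Pool.Agent.MP_d56274_gt.Ineq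
import Pool.Agent.MP_d56274_gt.LB
import Pool.Agent.MP_d56274_gt.Lim
import Pool.Agent.MP_d56274_gt.MollA
import Pool.Agent.MP_d56274_gt.MollB
import Pool.Agent.MP_d56274_gt.OneD
import Pool.Agent.MP_d56274_gt.PieceA
import Pool.Agent.MP_d56274_gt.PieceB
import Pool.Agent.MP_d56274_gt.Polar
import Pool.Agent.MP_d56274_gt.Roots
import Pool.Agent.MP_d56274_gt.Slice
import Pool.Agent.MP_d56274_gt.Subst
import Pool.Agent.MP_d56274_gt.TLim
import Pool.Agent.MP_d56274_gt.Und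
import Pool.Agent.MP_d56274_gt.UndA

/-!
# Isoperimetric regions in sectors with density `r ^ p`

The angle line splits into three ranges with sharp ends: arcs about the origin, unduloids,
semicircles through the origin.
-/

namespace Pool.Agent.MP_d56274_gt.Tri

open Pool.Agent.MP_d56274_gt Real

theorem trichotomy (p θ₀ ρ : ℝ) (hp : 0 < p) (hθ : 0 < θ₀) (hρ : 0 < ρ) :
    (IsIso p θ₀ {z | z ∈ sector θ₀ ∧ z.1 < ρ} ↔ θ₀ ≤ π / √(p + 1)) ∧
    ((∃ R : ℝ, 1 < R ∧ undTau p R 0 = θ₀ ∧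
        IsIso p θ₀ {z | z ∈ sector θ₀ ∧ z.2 < undTau p R (z.1 / ρ)}) ↔
      π / √(p + 1) < θ₀ ∧ θ₀ < π * (p + 2) / (2 * p + 2)) ∧
    (IsIso p θ₀ {z | z ∈ sector (π / 2) ∧ z.1 < ρ * cos z.2} ↔
      π * (p + 2) / (2 * p + 2) ≤ θ₀) := by
  have hi := ineq roots
  have hd := derivs roots hi
  have ha := abel hd
  have ht := tlim hi hd (lims roots hi) ha
  have hc := ctrl (calib roots)
  exact final (cases3 hd ha ht) ht
    (lowerBound (oneD (pieceA hc cauchy hol) (pieceB hc cauchy hol polar)) mollA mollB slice)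
    arc (half green cut) (und green (undA roots hi hd ha ht (subst roots hi)) hd ht)
    p θ₀ ρ hp hθ hρ

/-- Q1 of the problem file, from the first equivalence. -/
theorem q1 (θ₀ p q ρ : ℝ) (hθ : 0 < θ₀) (hq : 0 < q) (hqp : q < p) (hρ : 0 < ρ)
    (h : IsIso p θ₀ {z | z ∈ sector θ₀ ∧ z.1 < ρ}) :
    IsIso q θ₀ {z | z ∈ sector θ₀ ∧ z.1 < ρ} := by
  rw [(trichotomy p θ₀ ρ (hq.trans hqp) hθ hρ).1] at h
  rw [(trichotomy q θ₀ ρ hq hθ hρ).1]
  refine h.trans (div_le_div_of_nonneg_left Real.pi_pos.le (Real.sqrt_pos.2 (by linarith)) ?_)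
  exact Real.sqrt_le_sqrt (by linarith)

end Pool.Agent.MP_d56274_gt.Tri
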