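import Mathlib
import Pool.Agent.MP_d56274_gt.Spec

/-!
The scaled unduloid region: area and an upper bound for the perimeter.
-/

namespace Pool.Agent.MP_d56274_gt

open MeasureTheory Set Real Filter Topology

theorem und_graph {θ₀ q q₁ m ρ : ℝ} {τ τ' : ℝ → ℝ} (hρ : 0 < ρ) (h : Graph θ₀ q q₁ m τ τ') :
    Graph θ₀ (ρ * q) (ρ * q₁) m (fun r => τ (r / ρ)) (fun r => τ' (r / ρ) / ρ) := by
  have m1 : ∀ r ∈ Ioo (ρ * q) (ρ * q₁), r / ρ ∈ Ioo q q₁ := fun r hr =>
    ⟨by rw [lt_div_iff₀ hρ]; linarith [hr.1], by rw [div_lt_iff₀ hρ]; linarith [hr.2]⟩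
  have m2 : ∀ r ∈ Icc (ρ * q) (ρ * q₁), r / ρ ∈ Icc q q₁ := fun r hr =>
    ⟨by rw [le_div_iff₀ hρ]; linarith [hr.1], by rw [div_le_iff₀ hρ]; linarith [hr.2]⟩
  have hc : Continuous fun r : ℝ => r / ρ := continuous_id.div_const ρ
  refine ⟨mul_nonneg hρ.le h.q0, mul_lt_mul_of_pos_left h.lt hρ, h.mpos, h.mle, ?_,
    h.cont.comp hc.continuousOn m2, fun r hr => ?_, (h.cder.comp hc.continuousOn m1).div_const ρ,
    fun r hr => div_neg_of_neg_of_pos (h.neg _ (m1 r hr)) hρ, fun r hr => h.left _ ?_,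
    fun r hr => h.right _ ?_⟩
  · rcases h.alt with e | e
    · left; rw [e, mul_zero]
    · exact Or.inr e
  · have := (h.der _ (m1 r hr)).comp r ((hasDerivAt_id r).div_const ρ)
    exact this.congr_deriv (by ring)
  · exact ⟨div_nonneg hr.1 hρ.le, by rw [div_le_iff₀ hρ]; linarith [hr.2]⟩
  · rw [le_div_iff₀ hρ]; linarith

theorem und_scale {q q₁ ρ k : ℝ} (hq : q ≤ q₁) (G H : ℝ → ℝ)
    (h : ∀ s ∈ Icc q q₁, ρ * G (ρ * s) = k * H s) :
    (∫ r in ρ * q..ρ * q₁, G r) = k * ∫ s in q..q₁, H s := by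
  rw [← intervalIntegral.smul_integral_comp_mul_left G ρ, smul_eq_mul,
    ← intervalIntegral.integral_const_mul, ← intervalIntegral.integral_const_mul]
  refine intervalIntegral.integral_congr fun s hs => ?_
  rw [uIcc_of_le hq] at hs
  exact h s hs

theorem und_alg {a b ρ U k : ℝ} (ha : 0 < a) (hb : b = a + 1) (hρ : 0 < ρ) (hU : 0 < U)
    (hk : 0 < k) :
    (b ^ a / a * ((k ^ 2) ^ (-b / 2) * U)) ^ (1 / b) * (ρ ^ b * (U / (a * b))) ^ (a / b) =
      ρ ^ a * (U / (a * k)) := by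
  have hb0 : 0 < b := by linarith
  refine Real.log_injOn_pos (mem_Ioi.2 (by positivity)) (mem_Ioi.2 (by positivity)) ?_
  have l1 : log (b ^ a / a * ((k ^ 2) ^ (-b / 2) * U))
      = a * log b - log a + (-b / 2 * (2 * log k) + log U) := by
    rw [Real.log_mul (by positivity) (by positivity), Real.log_div (by positivity) ha.ne',
      Real.log_rpow hb0, Real.log_mul (by positivity) hU.ne', Real.log_rpow (by positivity),
      Real.log_pow]
    norm_num
  have l2 : log (ρ ^ b * (U / (a * b))) = b * log ρ + (log U - (log a + log b)) := by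
    rw [Real.log_mul (by positivity) (by positivity), Real.log_rpow hρ,
      Real.log_div hU.ne' (by positivity), Real.log_mul ha.ne' hb0.ne']
  have l3 : log (ρ ^ a * (U / (a * k))) = a * log ρ + (log U - (log a + log k)) := by
    rw [Real.log_mul (by positivity) (by positivity), Real.log_rpow hρ,
      Real.log_div hU.ne' (by positivity), Real.log_mul ha.ne' hk.ne']
  rw [Real.log_mul (by positivity) (by positivity), Real.log_rpow (by positivity),
    Real.log_rpow (by positivity), l1, l2, l3]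
  field_simp
  rw [hb]; ring

theorem und (hg : GreenStmt) (hu : UndAStmt) (hd : DerivStmt) (ht : TLimStmt) : UndStmt := by
  intro p X ρ hp hX hρ
  have ha : 1 < p + 1 := by linarith
  obtain ⟨h0, hG, hA, hP⟩ := hu p X hp hX
  have hT : 0 < TT (p + 1) X :=
    lt_of_le_of_lt (by positivity) ((ht (p + 1) ha).1 X hX).1
  have hN : 0 ≤ NN (p + 1) X := by
    unfold NN
    refine intervalIntegral.integral_nonneg (by positivity) fun ξ hξ => ?_
    have hs : 0 ≤ sin ξ := sin_nonneg_of_nonneg_of_le_pi hξ.1 (by linarith [hξ.2, pi_pos])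
    exact mul_nonneg (mul_nonneg hX.le hs) ((hd (p + 1) ha).2.2.2.2.2.2.2.1 _).1
  have hU : 0 < TT (p + 1) X + NN (p + 1) X := by linarith
  obtain ⟨hm, _, har, _, hper⟩ := hg p _ _ _ _ _ _ hp (und_graph hρ hG)
  have hq0 := hG.q0
  have hk : 0 < kk X := Real.sqrt_pos.2 (by positivity)
  have hk2 : 1 + X ^ 2 = kk X ^ 2 := (Real.sq_sqrt (by positivity)).symm
  refine ⟨h0, hU, hm, ?_, ?_⟩
  · rw [har, ← hA]
    congr 1
    refine und_scale hG.lt.le _ _ fun s hs => ?_
    have hs0 : 0 ≤ s := hq0.trans hs.1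
    rw [mul_div_cancel_left₀ s hρ.ne', Real.mul_rpow hρ.le hs0]
    field_simp
  · refine hper.trans (le_of_eq ?_)
    congr 1
    have e : p + 1 + 1 = p + 2 := by ring
    unfold KK Gam
    rw [e, hk2, und_alg (by linarith) e.symm hρ hU hk, ← hP]
    refine und_scale hG.lt.le _ _ fun s hs => ?_
    have hs0 : 0 ≤ s := hq0.trans hs.1
    have hr : 0 < ρ ^ p := Real.rpow_pos_of_pos hρ _
    rw [mul_div_cancel_left₀ s hρ.ne', Real.mul_rpow hρ.le hs0, Real.mul_rpow hρ.le hs0,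
      Real.rpow_add_one hρ.ne']
    have e2 : (ρ ^ p * s ^ p) ^ 2 + (ρ ^ p * ρ * s ^ (p + 1) * (undTau' p (kk X) s / ρ)) ^ 2 =
        (ρ ^ p) ^ 2 * ((s ^ p) ^ 2 + (s ^ (p + 1) * undTau' p (kk X) s) ^ 2) := by
      field_simp
    rw [e2, Real.sqrt_mul (by positivity), Real.sqrt_sq hr.le]
    ring

end Pool.Agent.MP_d56274_gt
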